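import Pool.Agent.Work.MP_849ab0_ag.G.Goal
import Pool.Agent.Work.MP_849ab0_ag.G.QBasic

-- merged part: Pool.Agent.Work.MP_849ab0_ag.G.H1.KN3
section
/-!
Kempf-Ness, existence and the retraction on the level set.

Hints.  `exists_min`: the set of graded `g` with `g none none = 1`, `fsq g ≤ R`, a unit with
`fsq g⁻¹ ≤ R` is compact (image of the compact set of pairs `(g, g')`, `g g' = 1`), `psi` is
continuous on it; `kn_proper` with `C = {y}`, `M = psi 1 y`.  `lev_of_min`: let `z = cnj g y`,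
`bspec` for the Hermitian graded matrix `A = muR z + dg θ = k dg d kᴴ`; `psi` does not change under
positive scalars (`cj_smul`, `lth` of a scalar is `0` by `sum_th`), so `t = 0` minimises
`t ↦ psi (dg (exp (t d)) kᴴ g) y`, whose derivative at `0` is `2 wtr d (kᴴ A k) = 2 ∑ d ^ 2`
(`psi_kak` with `y := z`, `wtr_muR`).  `exists_kn`: `exists_pol`, `g = k p`.  `kn_unique`:
`lev_unique` for `p' p⁻¹` and `posDef_eq`.  `continuousOn_kn`: on a compact neighbourhood `C` of a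
stable point, `psi (kn y) y ≤ psi 1 y ≤ M`, so `kn y` and its inverse are bounded; every cluster
value is positive semidefinite, a unit, and maps the limit to the closed level set.
-/

noncomputable section

set_option linter.unusedSectionVars false
set_option linter.unusedVariables false

namespace Pool.Agent.Work.MP_849ab0_ag.G

open Set Matrix
open scoped ComplexOrder

namespace Qv

variable {I P E κ : Type} [Fintype I] [DecidableEq I] [Fintype P] [DecidableEq P] [Fintype E]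
  [Fintype κ] [DecidableEq κ] {D : Qv I P E κ}
  {g h k ξ : Mt P} {x y : D.Rep} {ν : I → ℤ} {χ : E → ℂ}

variable (D) in
/-- the bounded part of the group -/
def kn3_K (R : ℝ) : Set (Mt P) :=
  {g | GU D.cl g ∧ g none none = 1 ∧ fsq g ≤ R ∧ fsq g⁻¹ ≤ R}

theorem kn3_cpt (R : ℝ) : IsCompact (D.kn3_K R) := by
  have h1 : IsCompact (({g : Mt P | fsq g ≤ R} ×ˢ {g : Mt P | fsq g ≤ R}) ∩
      {z | z.1 * z.2 = 1 ∧ Grd D.cl z.1 ∧ z.1 none none = 1}) :=
    ((isCompact_fsq R).prod (isCompact_fsq R)).inter_right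
      ((isClosed_eq (continuous_fst.matrix_mul continuous_snd) continuous_const).inter
        ((isClosed_grd.preimage continuous_fst).inter
          (isClosed_eq (continuous_fst.matrix_elem _ _) continuous_const)))
  convert h1.image continuous_fst using 1
  ext g
  constructor
  · rintro ⟨a, b, c, d⟩
    exact ⟨(g, g⁻¹), ⟨⟨c, d⟩, a.mul_inv, a.grd, b⟩, rfl⟩
  · rintro ⟨⟨g, g'⟩, ⟨⟨c, d⟩, a, b, e⟩, rfl⟩
    refine ⟨⟨b, IsUnit.of_mul_eq_one _ a⟩, e, c, ?_⟩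
    rw [Matrix.inv_eq_right_inv a]
    exact d

theorem kn3_nsq : Continuous (nsq : D.Rep → ℝ) :=
  continuous_finsetSum _ fun p _ => (continuous_apply p).norm.pow 2

theorem kn3_cj_on {X : Type} [TopologicalSpace X] {S : Set X} {f : X → Mt P} {u : X → D.Rep}
    (hf : ContinuousOn f S) (hu : ContinuousOn u S) (h : ∀ x ∈ S, IsUnit (f x)) :
    ContinuousOn (fun x => D.cnj (f x) (u x)) S :=
  (continuousOn_cj (D := D)).comp (f := fun x => (f x, u x)) (hf.prodMk hu)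
    fun x hx => ⟨h x hx, mem_univ _⟩

theorem kn3_psi_cont (y : D.Rep) : ContinuousOn (fun g => D.psi ν g y) {g | GU D.cl g} := by
  have h : ContinuousOn (fun g => D.cnj g y) {g | GU D.cl g} :=
    kn3_cj_on continuousOn_id continuousOn_const fun g hg => hg.unit
  exact (kn3_nsq.comp_continuousOn h).add (continuousOn_const.mul continuousOn_lth)

theorem kn3_psi_one (y : D.Rep) : D.psi ν 1 y = nsq y := by
  rw [psi, cj_one, lth_ku KU.one, mul_zero, add_zero]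

theorem kn3_psi_mul (h1 : GU D.cl g) (h2 : GU D.cl h) (y : D.Rep) :
    D.psi ν (g * h) y = D.psi ν g (D.cnj h y) + 2 * D.lth ν h := by
  rw [psi, psi, cj_mul h1 h2, lth_mul h1 h2]
  ring

theorem kn3_psi_ku (h1 : KU D.cl k) (h2 : GU D.cl g) (y : D.Rep) :
    D.psi ν (k * g) y = D.psi ν g y := by
  rw [psi, psi, cj_mul h1.gu h2, lth_mul h1.gu h2, nsq_cj h1, lth_ku h1, zero_add]

theorem kn3_gu_smul {z : ℂ} (hz : z ≠ 0) (h1 : GU D.cl g) : GU D.cl (z • g) := by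
  rw [smul_eq_diagonal_mul]
  exact (GU.diag fun _ => hz).mul h1

theorem kn3_psi_smul {z : ℂ} (hz : z ≠ 0) (h1 : GU D.cl g) (y : D.Rep) :
    D.psi ν (z • g) y = D.psi ν g y := by
  have hn : 0 < ‖z‖ := norm_pos_iff.2 hz
  have hn' : (‖z‖ : ℂ) ≠ 0 := Complex.ofReal_ne_zero.2 hn.ne'
  have e : z • g = (Matrix.diagonal fun _ => z / ‖z‖) *
      ((dg fun _ => Real.exp (Real.log ‖z‖)) * g) := by
    rw [Real.exp_log hn, dg, ← smul_eq_diagonal_mul, ← smul_eq_diagonal_mul, smul_smul,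
      div_mul_cancel₀ _ hn']
  have hk : KU D.cl (Matrix.diagonal fun _ => z / ‖z‖) := KU.diag fun _ => by
    rw [norm_div, Complex.norm_real, norm_norm, div_self hn.ne']
  have hd : GU D.cl (dg fun _ => Real.exp (Real.log ‖z‖)) :=
    GU.diag fun _ => Complex.ofReal_ne_zero.2 (Real.exp_pos _).ne'
  rw [psi, psi, cj_smul hz h1, e, lth_mul hk.gu (hd.mul h1), lth_ku hk, lth_mul hd h1,
    lth_exp fun _ => Real.log ‖z‖, ← Finset.sum_mul, sum_th, zero_mul, zero_add, zero_add]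

theorem kn3_none (h1 : KU D.cl k) : star (k none none) * k none none = 1 :=
  (h1.adj.grd.mul_none (h := k)).symm.trans (by rw [h1.uni, one_apply_eq])

theorem kn3_norm (h1 : KU D.cl k) : ‖k none none‖ = 1 := by
  have h := congrArg norm (kn3_none h1)
  rw [norm_mul, norm_star, norm_one] at h
  nlinarith [norm_nonneg (k none none)]

theorem kn3_cj_conj (h1 : KU D.cl k) (h2 : GU D.cl g) (y : D.Rep) :
    D.cnj (k * g * kᴴ) (D.cnj k y) = D.cnj k (D.cnj g y) := by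
  rw [← cj_mul ((h1.gu.mul h2).mul h1.adj.gu) h1.gu, Matrix.mul_assoc, h1.uni, Matrix.mul_one,
    cj_mul h1.gu h2]

theorem kn3_closed_psd : IsClosed {g : Mt P | g.PosSemidef} := by
  simp only [posSemidef_iff_dotProduct_mulVec]
  refine (isClosed_eq continuous_id.matrix_conjTranspose continuous_id).inter ?_
  change IsClosed {g : Mt P | ∀ x, 0 ≤ star x ⬝ᵥ g *ᵥ x}
  simp only [Set.ofPred_forall]
  exact isClosed_iInter fun x => isClosed_le continuous_const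
    (continuous_const.dotProduct (continuous_id.matrix_mulVec continuous_const))

theorem exists_min (hy : D.Stable ν y) : ∃ g, GU D.cl g ∧ g none none = 1 ∧
    ∀ h, GU D.cl h → h none none = 1 → D.psi ν g y ≤ D.psi ν h y := by
  obtain ⟨R, hR⟩ := kn_proper (ν := ν) isCompact_singleton (singleton_subset_iff.2 hy) (nsq y)
  have hK : ∀ h, GU D.cl h → h none none = 1 → D.psi ν h y ≤ nsq y → h ∈ D.kn3_K R :=
    fun h a b c => ⟨a, b, hR h a (by rw [b, norm_one]) y rfl c⟩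
  have h1 := hK 1 GU.one (one_apply_eq _) (kn3_psi_one y).le
  obtain ⟨g, hg, hm⟩ := (kn3_cpt R).exists_isMinOn ⟨1, h1⟩
    ((kn3_psi_cont (ν := ν) y).mono fun g hg => hg.1)
  refine ⟨g, hg.1, hg.2.1, fun h a b => ?_⟩
  rcases le_total (D.psi ν h y) (nsq y) with c | c
  · exact hm (hK h a b c)
  · exact ((isMinOn_iff.1 hm 1 h1).trans (kn3_psi_one y).le).trans c

theorem lev_of_min (h1 : GU D.cl g) (h2 : g none none = 1)
    (h3 : ∀ h, GU D.cl h → h none none = 1 → D.psi ν g y ≤ D.psi ν h y) : D.cnj g y ∈ D.Lev ν := by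
  have h4 : ∀ h, GU D.cl h → D.psi ν g y ≤ D.psi ν h y := fun h a => by
    have hz := inv_ne_zero a.none_ne
    rw [← kn3_psi_smul hz a]
    exact h3 _ (kn3_gu_smul hz a) (inv_mul_cancel₀ a.none_ne)
  have hθ : (dg (D.th ν))ᴴ = dg (D.th ν) := by
    rw [dg, diagonal_conjTranspose]
    congr 1
    funext a
    exact Complex.conj_ofReal _
  obtain ⟨k, hk, d, hd⟩ := bspec ((grd_muR (D.cnj g y)).add (Grd.diag fun o => (D.th ν o : ℂ)))
    (by rw [conjTranspose_add, muR_adj]; exact congrArg _ hθ)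
  change D.muR (D.cnj g y) + dg (D.th ν) = _ at hd
  let φ : ℝ → ℝ := fun t => ∑ p : D.Wt, Real.exp (2 * (t * d p.1.2.2 - t * d p.1.2.1)) *
    ‖D.cnj kᴴ (D.cnj g y) p‖ ^ 2 + 2 * ∑ o, D.th ν o * (t * d o)
  have hu : ∀ t, GU D.cl (1 * dg (fun a => Real.exp (t * d a)) * kᴴ) := fun t => (GU.one.mul
    (GU.diag fun _ => Complex.ofReal_ne_zero.2 (Real.exp_pos _).ne')).mul hk.adj.gu
  have hφ : ∀ t, D.psi ν ((1 * dg (fun a => Real.exp (t * d a)) * kᴴ) * g) y =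
      φ t + 2 * D.lth ν g := fun t => by
    rw [kn3_psi_mul (hu t) h1]
    exact congrArg (· + _) (psi_kak KU.one hk.adj (fun a => t * d a) _)
  have hmin : IsLocalMin φ 0 := Filter.Eventually.of_forall fun t => by
    have a := hφ 0
    have b := h4 _ ((hu t).mul h1)
    have e : (dg fun a => Real.exp (0 * d a)) = 1 := by simp [dg]
    rw [e, Matrix.mul_one, Matrix.one_mul, kn3_psi_ku hk.adj h1] at a
    have c := hφ t
    linarith
  have hder : HasDerivAt φ (∑ p : D.Wt, Real.exp (2 * (0 * d p.1.2.2 - 0 * d p.1.2.1)) *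
      (2 * (1 * d p.1.2.2 - 1 * d p.1.2.1)) * ‖D.cnj kᴴ (D.cnj g y) p‖ ^ 2 +
      2 * ∑ o, D.th ν o * (1 * d o)) 0 :=
    (HasDerivAt.fun_sum fun p _ => (((((hasDerivAt_id' 0).mul_const _).fun_sub
      ((hasDerivAt_id' 0).mul_const _)).const_mul 2).exp).mul_const _).fun_add
      ((HasDerivAt.fun_sum fun o _ => ((hasDerivAt_id' 0).mul_const _).const_mul _).const_mul 2)
  have h0 := hmin.hasDerivAt_eq_zero hder
  have h5 : D.muR (D.cnj kᴴ (D.cnj g y)) + dg (D.th ν) = dg d := by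
    have e : kᴴ * dg (D.th ν) * k = dg (D.th ν) := by
      rw [Matrix.mul_assoc, dg,
        hk.grd.comm_diag fun a b e => congrArg Complex.ofReal (th_cl a b e), ← Matrix.mul_assoc,
        hk.uni, Matrix.one_mul]
    rw [muR_cj hk.adj, conjTranspose_conjTranspose, ← e, ← Matrix.add_mul, ← Matrix.mul_add, hd,
      ← Matrix.mul_assoc, ← Matrix.mul_assoc, hk.uni, Matrix.one_mul, Matrix.mul_assoc, hk.uni,
      Matrix.mul_one]
  have h6 := congrArg (wtr d) h5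
  rw [wtr_add, wtr_muR, wtr_dg, wtr_dg] at h6
  have h7 : ∑ a, d a * d a = 0 := by
    rw [← h6]
    simp only [zero_mul, sub_self, mul_zero, Real.exp_zero, one_mul, mul_assoc,
      ← Finset.mul_sum] at h0
    simp only [mul_comm (d _) (D.th ν _)]
    linarith
  have h8 : d = 0 := funext fun a => mul_self_eq_zero.1
    ((Finset.sum_eq_zero_iff_of_nonneg fun a _ => mul_self_nonneg (d a)).1 h7 a (Finset.mem_univ a))
  have h9 : dg d = 0 := by simp [h8, dg]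
  rw [h9, Matrix.mul_zero, Matrix.zero_mul] at hd
  exact eq_neg_of_add_eq_zero_left hd

variable (D) in
/-- `p` is positive and moves `y` to the level set -/
structure IsKN (ν : I → ℤ) (y : D.Rep) (p : Mt P) : Prop where
  pos : p.PosDef
  grd : Grd D.cl p
  frame : p none none = 1
  lev : D.cnj p y ∈ D.Lev ν

theorem IsKN.gu {p : Mt P} (h1 : D.IsKN ν y p) : GU D.cl p := ⟨h1.grd, h1.pos.isUnit⟩

theorem exists_kn (hy : D.Stable ν y) : ∃ p, D.IsKN ν y p ∧ D.psi ν p y ≤ nsq y := by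
  obtain ⟨g, h1, h2, h3⟩ := exists_min hy
  obtain ⟨k, hk, hp⟩ := exists_pol h1
  refine ⟨kᴴ * g, ⟨hp, hk.adj.grd.mul h1.grd, ?_, ?_⟩, ?_⟩
  · have a : 0 < (kᴴ * g) none none := hp.diag_pos
    have b : ‖(kᴴ * g) none none‖ = 1 := by
      rw [hk.adj.grd.mul_none, h2, mul_one, kn3_norm hk.adj]
    rw [← Complex.norm_of_nonneg' a.le, b, Complex.ofReal_one]
  · rw [cj_mul hk.adj.gu h1]
    exact lev_cj hk.adj (lev_of_min h1 h2 h3)
  · rw [kn3_psi_ku hk.adj h1, ← kn3_psi_one (ν := ν)]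
    exact h3 1 GU.one (one_apply_eq _)

theorem kn_unique (hy : D.Stable ν y) {p p' : Mt P} (h1 : D.IsKN ν y p) (h2 : D.IsKN ν y p') :
    p = p' := by
  have a := h2.gu.mul h1.gu.inv
  have b : KU D.cl (p' * p⁻¹) := by
    refine lev_unique (hy.cnj h1.gu) h1.lev a ?_ ?_
    · rw [h2.grd.mul_none, h1.gu.inv_none, h1.frame, h2.frame, inv_one, mul_one, norm_one]
    · rw [cj_mul h2.gu h1.gu.inv, cj_inv h1.gu]
      exact h2.lev
  refine (posDef_eq h1.pos h2.pos b.uni ?_).symm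
  rw [Matrix.mul_assoc, h1.gu.inv_mul, Matrix.mul_one]

variable (D) in
/-- the Kempf-Ness metric -/
def kn (ν : I → ℤ) (y : D.Rep) : Mt P := Classical.epsilon (D.IsKN ν y)

theorem kn_spec (hy : D.Stable ν y) : D.IsKN ν y (D.kn ν y) :=
  Classical.epsilon_spec ((exists_kn hy).imp fun _ h => h.1)

theorem kn_lev (hy : D.Stable ν y) (h1 : y ∈ D.Lev ν) : D.kn ν y = 1 :=
  kn_unique hy (kn_spec hy) ⟨PosDef.one, Grd.one, one_apply_eq _, by rwa [cj_one]⟩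

theorem kn_cj (hy : D.Stable ν y) (h1 : KU D.cl k) : D.kn ν (D.cnj k y) = k * D.kn ν y * kᴴ := by
  have a := kn_spec hy
  refine kn_unique (hy.cnj h1.gu) (kn_spec (hy.cnj h1.gu))
    ⟨a.pos.mul_mul_conjTranspose_same (vecMul_injective_of_isUnit h1.gu.unit),
      (h1.grd.mul a.grd).mul h1.adj.grd, ?_, ?_⟩
  · rw [(h1.grd.mul a.grd).mul_none, h1.grd.mul_none, a.frame, mul_one, mul_comm,
      conjTranspose_apply, kn3_none h1]
  · rw [kn3_cj_conj h1 a.gu]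
    exact lev_cj h1 a.lev

theorem kn_sc (hy : D.Stable ν y) (h1 : ∀ e, ‖χ e‖ = 1) : D.kn ν (D.sc χ y) = D.kn ν y := by
  have a := kn_spec hy
  have b := hy.sc (χ := χ) fun e h => by simpa [h] using h1 e
  refine kn_unique b (kn_spec b) ⟨a.pos, a.grd, a.frame, ?_⟩
  rw [cj_sc]
  exact lev_sc h1 a.lev

theorem continuousOn_kn : ContinuousOn (D.kn ν) (D.St ν) := by
  intro y hy
  refine ContinuousAt.continuousWithinAt ?_
  obtain ⟨C, hC, h1, h2⟩ := local_compact_nhds ((isOpen_st ν).mem_nhds hy)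
  obtain ⟨M, hM⟩ := (h2.image kn3_nsq).bddAbove
  obtain ⟨R, hR⟩ := kn_proper h2 h1 M
  have hK : ∀ x ∈ C, D.kn ν x ∈ D.kn3_K R := fun x hx => by
    obtain ⟨p, hp, hp'⟩ := exists_kn (h1 hx)
    rw [kn_unique (h1 hx) (kn_spec (h1 hx)) hp]
    exact ⟨hp.gu, hp.frame,
      hR p hp.gu (by rw [hp.frame, norm_one]) x hx (hp'.trans (hM ⟨x, hx, rfl⟩))⟩
  refine (kn3_cpt R).tendsto_nhds_of_unique_mapClusterPt (Filter.mem_of_superset hC hK)
    fun p hp hc => kn_unique hy ?_ (kn_spec hy)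
  obtain ⟨U, hU, ht⟩ := mapClusterPt_iff_ultrafilter.1 hc
  have a : p.PosSemidef := kn3_closed_psd.mem_of_tendsto ht
    (Filter.mem_of_superset (hU hC) fun x hx => (kn_spec (h1 hx)).pos.posSemidef)
  have b : ContinuousAt (fun z : Mt P × D.Rep => D.cnj z.1 z.2) (p, y) :=
    continuousOn_cj.continuousAt
      ((isOpen_isUnit.prod isOpen_univ).mem_nhds ⟨hp.1.unit, mem_univ _⟩)
  exact ⟨a.posDef_iff_isUnit.2 hp.1.unit, hp.1.grd, hp.2.1,
    isClosed_lev.mem_of_tendsto (b.tendsto.comp (ht.prodMk_nhds hU))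
      (Filter.mem_of_superset (hU hC) fun x hx => (kn_spec (h1 hx)).lev)⟩

variable (D) in
/-- the deformation retraction of the stable locus on the level set -/
def knr (ν : I → ℤ) (s : ℝ) (y : D.Rep) : D.Rep :=
  D.cnj (((1 - s : ℝ) : ℂ) • (1 : Mt P) + (s : ℂ) • D.kn ν y) y

theorem knr_gu (hy : D.Stable ν y) {s : ℝ} (hs : s ∈ Icc (0 : ℝ) 1) :
    GU D.cl (((1 - s : ℝ) : ℂ) • (1 : Mt P) + (s : ℂ) • D.kn ν y) := by
  have a := kn_spec hy
  refine ⟨(Grd.one.smul _).add (a.grd.smul _), PosDef.isUnit ?_⟩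
  rcases hs.2.eq_or_lt with e | e
  · simpa [e] using a.pos
  · exact (PosDef.one.smul (Complex.zero_lt_real.2 (sub_pos.2 e))).add_posSemidef
      (a.pos.posSemidef.smul (Complex.zero_le_real.2 hs.1))

theorem knr_zero (y : D.Rep) : D.knr ν 0 y = y := by simp [knr, cj_one]

theorem knr_one (hy : D.Stable ν y) : D.knr ν 1 y ∈ D.Lev ν := by
  simpa [knr] using (kn_spec hy).lev

theorem knr_lev (hy : D.Stable ν y) (h1 : y ∈ D.Lev ν) (s : ℝ) : D.knr ν s y = y := by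
  rw [knr, kn_lev hy h1, ← add_smul]
  simp [cj_one]

theorem knr_cj (hy : D.Stable ν y) (h1 : KU D.cl k) {s : ℝ} (hs : s ∈ Icc (0 : ℝ) 1) :
    D.knr ν s (D.cnj k y) = D.cnj k (D.knr ν s y) := by
  rw [knr, knr, ← kn3_cj_conj h1 (knr_gu hy hs), kn_cj hy h1, Matrix.mul_add, Matrix.add_mul,
    Matrix.mul_smul, Matrix.mul_smul, Matrix.smul_mul, Matrix.smul_mul, Matrix.mul_one, h1.uni']

theorem knr_sc (hy : D.Stable ν y) (h1 : ∀ e, ‖χ e‖ = 1) (s : ℝ) :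
    D.knr ν s (D.sc χ y) = D.sc χ (D.knr ν s y) := by
  rw [knr, knr, kn_sc hy h1, cj_sc]

theorem knr_act (hy : D.Stable ν y) (u : (KT D.col κ).H) {s : ℝ} (hs : s ∈ Icc (0 : ℝ) 1) :
    D.knr ν s (D.aN.act u y) = D.aN.act u (D.knr ν s y) := by
  have a : KU D.cl (hat 1 u.1.1.1) := ku_hat.2 (ku_Ub u.1)
  rw [aN_act, aN_act, knr_sc (hy.cnj a.gu) fun e => by simp [chr], knr_cj hy a hs]

theorem continuousOn_knr :
    ContinuousOn (fun z : ℝ × D.Rep => D.knr ν z.1 z.2) (Icc 0 1 ×ˢ D.St ν) := by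
  unfold knr
  refine kn3_cj_on (ContinuousOn.add ?_ ?_) continuousOn_snd fun z hz => (knr_gu hz.2 hz.1).unit
  · exact ((Complex.continuous_ofReal.comp (continuous_const.sub continuous_fst)).smul
      continuous_const).continuousOn
  · exact (Complex.continuous_ofReal.comp continuous_fst).continuousOn.smul
      (continuousOn_kn.comp continuousOn_snd fun z hz => hz.2)

/-- points of one orbit retract to one orbit of `K` -/
theorem knr_orbit (hy : D.Stable ν y) (h1 : GU D.cl g) :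
    ∃ k, KU D.cl k ∧ k none none = 1 ∧ D.knr ν 1 (D.cnj g y) = D.cnj k (D.knr ν 1 y) := by
  have a := kn_spec hy
  have b := kn_spec (hy.cnj h1)
  have e : ∀ x, D.knr ν 1 x = D.cnj (D.kn ν x) x := fun x => by simp [knr]
  obtain ⟨k, c1, c2, -, c3⟩ := exists_framed ((b.gu.mul h1).mul a.gu.inv)
  have f : D.knr ν 1 (D.cnj g y) = D.cnj k (D.knr ν 1 y) := by
    rw [e, e, c3, cj_mul (b.gu.mul h1) a.gu.inv, cj_inv a.gu, cj_mul b.gu h1]
  refine ⟨k, lev_unique ?_ (knr_one hy) c1 (by rw [c2, norm_one]) (f ▸ knr_one (hy.cnj h1)), c2, f⟩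
  rw [e]
  exact hy.cnj a.gu

/-- the level set is reached by a triangular matrix -/
theorem exists_tri (hy : D.Stable ν y) (r : Option P → ℤ) :
    ∃ b, GU D.cl b ∧ b none none = 1 ∧ MFil r r 0 b ∧ D.cnj b y ∈ D.Lev ν := by
  have a := kn_spec hy
  obtain ⟨k, b, hk, hb, hf, e⟩ := exists_kp r a.gu
  have hz := inv_ne_zero hb.none_ne
  refine ⟨(b none none)⁻¹ • b, kn3_gu_smul hz hb, inv_mul_cancel₀ hb.none_ne, hf.smul _, ?_⟩
  have c := lev_cj hk.adj a.lev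
  rwa [cj_smul hz hb, ← Matrix.one_mul b, ← hk.uni, Matrix.mul_assoc, ← e, cj_mul hk.adj.gu a.gu]

end Qv

end Pool.Agent.Work.MP_849ab0_ag.G
end
end

-- merged part: Pool.Agent.Work.MP_849ab0_ag.G.H1.Desc
section
/-!
The quiver variety is the quotient of the level set by `K`; descent of equivariant cohomology.

Hints.  `orb_iff`: `gact_eq`, `gu_hat`, `exists_framed`, `hat_unhat`.  `mk_eq_iff`: `orb` is an
equivalence relation (`Quot.eq`, `Equivalence.eqvGen_iff`).  `isOrbQ_lev`: `qlev ∘ retraction` is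
`Quot.mk` (`knr 1`, `knr_one`, `continuousOn_knr`), `IsQuotientMap.of_comp`; `lev_unique`,
`exists_act`.  `ok_aM'`: `aM_mk`; `Prod.map id Quot.mk` is a quotient map because `qlev` is an open
quotient map (`IsOrbQ.isOpenQuotientMap`).  `desc_bij'`: `gp_bij_retract` for the action on the
subtype `Xs ν` with `A = {x | x.1 ∈ Lev ν}` and `F s x = ⟨knr s x, _⟩`; `stackIso` for `Quot.mk` on
`A` (properness: `qlev` is closed with compact fibres, `isProperMap_iff_isClosedMap_and_compact_fibers`);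
`gp_comp`.  `kn_grd`: for `z = exp (i t)`, `cnj (diagonal z ^ ρ) y = sc (fun _ => z) y`, so
`kn_cj`, `kn_sc` show that `kn y` commutes with `diagonal z ^ ρ` (take `t = 1`, or any `z` of
infinite order, or all `t`).
-/

noncomputable section

set_option linter.unusedSectionVars false
set_option linter.unusedVariables false

namespace Pool.Agent.Work.MP_849ab0_ag.G

open Set Matrix Topology

namespace Qv

variable {I P E κ : Type} [Fintype I] [DecidableEq I] [Fintype P] [DecidableEq P] [Fintype E]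
  [Fintype κ] [DecidableEq κ] {D : Qv I P E κ} {ν : I → ℤ}

theorem desc_ku (k : Ub D.col) : KU D.cl (hat 1 k.1.1) := ku_hat.2 (ku_Ub k)

theorem desc_act1 (k : Ub D.col) (y : D.Rep) : D.aN.act (k, 1) y = D.cnj (hat 1 k.1.1) y := by
  funext p
  change chr _ 1 * D.gact k.1.1 y p = _
  rw [(isChar_chr _).one, one_mul, gact_eq]

theorem desc_act2 (τ : κ → Circle) (y : D.Rep) :
    D.aN.act (1, τ) y = D.sc (fun e => chr (D.t e) τ) y := by
  funext p
  change chr _ τ * D.gact 1 y p = _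
  rw [gact_one]
  rfl

theorem desc_act (g : (KT D.col κ).H) (y : D.Rep) :
    D.aN.act g y = D.cnj (hat 1 g.1.1.1) (D.aN.act (1, g.2) y) := by
  rw [desc_act2, cj_sc, aN_act]

theorem xs_cnj {g : Mt P} (h1 : GU D.cl g) {y : D.dbl.Rep} (hy : y ∈ D.Xs ν) :
    D.dbl.cnj g y ∈ D.Xs ν := by
  exact ⟨M0_cj h1 hy.1, Stable.cnj hy.2 h1⟩

theorem xs_act (g : (KT D.col κ).H) {y : D.dbl.Rep} (hy : y ∈ D.Xs ν) :
    D.dbl.aN.act g y ∈ D.Xs ν := by
  exact ⟨M0_act g hy.1, Stable.act hy.2 g⟩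

theorem lev_act (g : (KT D.col κ).H) {y : D.Rep} (hy : y ∈ D.Lev ν) : D.aN.act g y ∈ D.Lev ν := by
  rw [aN_act]
  exact lev_sc (fun e => (isChar_chr _).norm _) (lev_cj (desc_ku g.1) hy)

theorem xs_knr {y : D.dbl.Rep} (hy : y ∈ D.Xs ν) {s : ℝ} (hs : s ∈ Icc (0 : ℝ) 1) :
    D.dbl.knr ν s y ∈ D.Xs ν := by
  exact xs_cnj (D := D) (knr_gu (D := D.dbl) hy.2 hs) hy

theorem desc_lc (ν : I → ℤ) : IsLocallyClosed (D.Xs ν) :=
  xs_eq (D := D) ν ▸ isClosed_M0.isLocallyClosed.inter (isOpen_st ν).isLocallyClosed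

theorem pr_Xs' (ν : I → ℤ) : D.dbl.aN.Pr (D.Xs ν) univ := by
  exact D.dbl.aN.pr_of (desc_lc ν) (fun g x hx => xs_act (D := D) g hx) isClosed_univ fun _ _ _ => trivial

theorem pr_Xlev (ν : I → ℤ) : D.dbl.aN.Pr (D.Xs ν ∩ D.dbl.Lev ν) univ := by
  exact D.dbl.aN.pr_of ((desc_lc ν).inter isClosed_lev.isLocallyClosed)
    (fun g x hx => ⟨xs_act (D := D) g hx.1, lev_act (D := D.dbl) g hx.2⟩) isClosed_univ
    fun _ _ _ => trivial

theorem res_lev_bij (ν : I → ℤ) : Function.Bijective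
    (gp D.dbl.aN id id (D.Xs ν ∩ D.dbl.Lev ν) univ : EH D.dbl.aN (D.Xs ν) univ → _) := by
  have hc : ContinuousOn (fun z : ℝ × D.dbl.Rep => D.dbl.knr ν z.1 z.2) (Icc 0 1 ×ˢ D.Xs ν) :=
    continuousOn_knr.mono (Set.prod_mono subset_rfl fun _ h => h.2)
  refine gp_bij_retract (pr_Xs' ν) (pr_Xlev ν) inter_subset_left (F := D.dbl.knr ν) hc
    (fun s hs => ⟨pr_Xs' ν, pr_Xs' ν, ?_, fun g x hx => knr_act hx.2 g hs,
      fun x hx => xs_knr (D := D) hx hs, fun _ _ _ => trivial⟩) (fun s hs x hx => ?_)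
    (fun x _ => knr_zero x) fun x hx => ⟨xs_knr (D := D) hx (by simp), knr_one hx.2⟩
  · exact hc.comp (f := fun x => (s, x)) (Continuous.prodMk_right s).continuousOn
      fun x hx => ⟨hs, hx⟩
  · rw [knr_lev hx.1.2 hx.2]
    exact hx

theorem kn_grd {y : D.Rep} (hy : D.Stable ν y) {ρ : Option P → ℤ}
    (h1 : ∀ p : D.Wt, y p ≠ 0 → ρ p.1.2.2 = ρ p.1.2.1 + 1) : Grd ρ (D.kn ν y) := by
  intro a b hab
  by_contra h0
  have hn : ((ρ a - ρ b : ℤ) : ℂ) ≠ 0 := Int.cast_ne_zero.2 (sub_ne_zero.2 hab)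
  obtain ⟨z, hz, hz'⟩ : ∃ z : ℂ, ‖z‖ = 1 ∧ z ^ (ρ a - ρ b) = -1 := by
    refine ⟨Complex.exp ((Real.pi / (ρ a - ρ b : ℤ) : ℝ) * Complex.I),
      Complex.norm_exp_ofReal_mul_I _, ?_⟩
    rw [← Complex.exp_int_mul, ← Complex.exp_pi_mul_I]
    congr 1
    rw [Complex.ofReal_div, Complex.ofReal_intCast]
    field_simp
  have z0 : z ≠ 0 := fun e => by simp [e] at hz
  have hd : ∀ o, ‖z ^ ρ o‖ = 1 := fun o => by rw [norm_zpow, hz, _root_.one_zpow]
  have e1 : D.cnj (diagonal fun o => z ^ ρ o) y = D.sc (fun _ => z) y := by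
    funext p
    rw [cj_diag fun o => zpow_ne_zero _ z0]
    change _ = z * y p
    by_cases hp : y p = 0
    · rw [hp, mul_zero, mul_zero]
    · rw [h1 p hp, zpow_add_one₀ z0, mul_right_comm (z ^ _), mul_inv_cancel₀ (zpow_ne_zero _ z0),
        one_mul]
  have e2 := kn_cj hy (KU.diag (c := D.cl) hd)
  rw [e1, kn_sc hy fun _ => hz] at e2
  have e3 := congrFun (congrFun e2 a) b
  rw [diagonal_conjTranspose, mul_diagonal, diagonal_mul, Pi.star_apply, Complex.star_def,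
    ← Complex.inv_eq_conj (hd b), mul_right_comm, ← div_eq_mul_inv, ← zpow_sub₀ z0, hz'] at e3
  exact h0 (by linear_combination e3 / 2)

theorem orb_iff {x y : D.Xs ν} : D.orb ν x y ↔ ∃ g, GU D.cl g ∧ y.1 = D.dbl.cnj g x.1 := by
  refine ⟨fun ⟨g, hu, hb, e⟩ => ⟨hat 1 g, gu_hat.2 ⟨hb, hu⟩, e.trans (gact_eq g x.1)⟩,
    fun ⟨g, hg, e⟩ => ?_⟩
  obtain ⟨g', h1, h2, -, h3⟩ := exists_framed (D := D.dbl) hg
  have h4 := hat_unhat h1.grd
  rw [h2] at h4
  have h5 : GU D.col (unhat g') := gu_hat.1 (h4.symm ▸ h1)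
  exact ⟨unhat g', h5.unit, h5.grd, by rw [gact_eq, h4, h3, e]⟩

theorem mk_eq_iff {x y : D.Xs ν} : Quot.mk (D.orb ν) x = Quot.mk (D.orb ν) y ↔
    ∃ g, GU D.cl g ∧ y.1 = D.dbl.cnj g x.1 := by
  have h : Equivalence (D.orb ν) := by
    refine ⟨fun x => orb_iff.2 ⟨1, GU.one, (cj_one _).symm⟩, fun h => ?_, fun h h' => ?_⟩
    · obtain ⟨g, hg, e⟩ := orb_iff.1 h
      exact orb_iff.2 ⟨g⁻¹, hg.inv, by rw [e, cj_inv (D := D.dbl) hg]⟩
    · obtain ⟨g, hg, e⟩ := orb_iff.1 h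
      obtain ⟨g', hg', e'⟩ := orb_iff.1 h'
      exact orb_iff.2 ⟨g' * g, hg'.mul hg, by rw [cj_mul (D := D.dbl) hg' hg, ← e, ← e']⟩
  rw [Quot.eq, h.eqvGen_iff, orb_iff]

variable (D) in
/-- the map from the level set to the quiver variety -/
def qlev (ν : I → ℤ) (y : (D.Xs ν ∩ D.dbl.Lev ν : Set D.dbl.Rep)) : Quot (D.orb ν) :=
  Quot.mk _ ⟨y.1, y.2.1⟩

theorem isOrbQ_lev (ν : I → ℤ) : IsOrbQ (fun (k : Ub D.col)
    (y : (D.Xs ν ∩ D.dbl.Lev ν : Set D.dbl.Rep)) => (⟨D.dbl.aN.act (k, 1) y.1,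
      xs_act _ y.2.1, lev_act (D := D.dbl) _ y.2.2⟩ : (D.Xs ν ∩ D.dbl.Lev ν : Set D.dbl.Rep)))
    (D.qlev ν) := by
  refine ⟨(D.dbl.aN.cont_act (continuous_fst.prodMk continuous_const)
    (continuous_subtype_val.comp continuous_snd)).subtype_mk _,
    fun y => Subtype.ext (D.dbl.aN.act_one _), fun g h y => Subtype.ext ?_, ?_, fun a b => ?_⟩
  · refine Eq.trans ?_ (D.dbl.aN.act_mul (g, 1) (h, 1) _)
    exact congrArg (D.dbl.aN.act · y.1) (Prod.ext rfl (one_mul 1).symm)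
  · have h1 : (1 : ℝ) ∈ Icc (0 : ℝ) 1 := by simp
    let r : D.Xs ν → (D.Xs ν ∩ D.dbl.Lev ν : Set D.dbl.Rep) := fun x =>
      ⟨D.dbl.knr ν 1 x.1, xs_knr (D := D) x.2 h1, knr_one x.2.2⟩
    have hr : Continuous r := (continuousOn_knr.comp_continuous
      (continuous_const.prodMk continuous_subtype_val) fun x => ⟨h1, x.2.2⟩).subtype_mk _
    have e : D.qlev ν ∘ r = Quot.mk _ := funext fun x =>
      ((mk_eq_iff (D := D)).2 ⟨_, knr_gu (D := D.dbl) x.2.2 h1, rfl⟩).symm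
    exact .of_comp hr (continuous_quot_mk.comp (continuous_subtype_val.subtype_mk _))
      (e ▸ isQuotientMap_quot_mk)
  · refine (mk_eq_iff (D := D)).trans ⟨fun ⟨g, hg, e⟩ => ?_, fun ⟨k, e⟩ => ⟨_, (desc_ku k).gu, ?_⟩⟩
    · obtain ⟨g', h1, h2, -, h3⟩ := exists_framed (D := D.dbl) hg
      have e' : D.dbl.cnj g' a.1 = b.1 := (h3 _).trans e.symm
      obtain ⟨u, hu⟩ := exists_act (D := D.dbl)
        (lev_unique a.2.1.2 a.2.2 h1 (by rw [h2, norm_one]) (e' ▸ b.2.2))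
      exact ⟨u, Subtype.ext ((hu _).trans e')⟩
    · exact (congrArg Subtype.val e).symm.trans (desc_act1 (D := D.dbl) k _)

theorem t3_M' (ν : I → ℤ) : T3Space (Quot (D.orb ν)) := by
  have : CompactSpace (Ub D.col) := Gp.Nice.cpt (G := Gp.blk D.col)
  exact (isOrbQ_lev ν).t3

theorem sc_M' (ν : I → ℤ) : SecondCountableTopology (Quot (D.orb ν)) := by
  exact (isOrbQ_lev ν).secondCountable

theorem aM_mk (g : κ → Circle) (x : D.Xs ν) : (D.aM ν).act g (Quot.mk _ x) =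
    Quot.mk _ ⟨D.dbl.aN.act (1, g) x.1, xs_act _ x.2⟩ := by
  obtain ⟨h, hh, e⟩ := (mk_eq_iff (D := D)).1 (Quot.out_eq (Quot.mk (D.orb ν) x))
  have e1 := Act.sub_val (D.dbl.aN.res (G' := Gp.tor κ) fun τ => (1, τ)) (S := D.Xs ν)
    (fun g y hy => xs_act (D := D) (1, g) hy) g (Quot.mk (D.orb ν) x).out
  have e2 : D.dbl.aN.act (1, g) x.1 =
      D.dbl.cnj h (D.dbl.aN.act (1, g) (Quot.mk (D.orb ν) x).out.1) := by
    rw [desc_act2 (D := D.dbl), desc_act2 (D := D.dbl), cj_sc, ← e]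
  exact (mk_eq_iff (D := D)).2 ⟨h, hh, e2.trans (congrArg (D.dbl.cnj h) e1.symm)⟩

theorem ok_aM' (ν : I → ℤ) : (D.aM ν).Ok := by
  refine ⟨Quot.ind fun x => ?_, fun g h => Quot.ind fun x => ?_, ?_⟩
  · exact (aM_mk 1 x).trans (congrArg _ (Subtype.ext (D.dbl.aN.act_one _)))
  · rw [aM_mk, aM_mk, aM_mk]
    refine congrArg _ (Subtype.ext (Eq.trans ?_ (D.dbl.aN.act_mul (1, g) (1, h) _)))
    exact congrArg (D.dbl.aN.act · x.1) (Prod.ext (one_mul 1).symm rfl)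
  · refine ((IsOpenQuotientMap.id (X := κ → Circle)).prodMap
      (isOrbQ_lev ν).isOpenQuotientMap).isQuotientMap.continuous_iff.2 ?_
    refine (continuous_quot_mk.comp ((D.dbl.aN.cont_act (continuous_const.prodMk continuous_fst)
      (continuous_subtype_val.comp continuous_snd)).subtype_mk
        fun z => xs_act (D := D) (1, z.1) z.2.2.1)).congr fun z => ?_
    exact (aM_mk z.1 ⟨z.2.1, z.2.2.1⟩).symm

theorem desc_inv (ν : I → ℤ) : D.dbl.aN.Inv (D.Xs ν) := fun g _ hx => xs_act (D := D) g hx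

theorem desc_gadm {A : Set (D.Xs ν)} (hA : (D.dbl.aN.sub (D.Xs ν)).Pr A univ) :
    GAdm (D.dbl.aN.sub (D.Xs ν)) (D.aM ν) Prod.snd (Quot.mk _) A univ univ univ := by
  refine ⟨hA, Act.pr_univ _ isClosed_univ fun _ _ _ => trivial, continuous_quot_mk.continuousOn,
    fun g x _ => ?_, mapsTo_univ _ _, fun _ _ _ => trivial⟩
  refine ((aM_mk g.2 x).trans ((mk_eq_iff (D := D)).2 ⟨_, (desc_ku g.1).gu, ?_⟩)).symm
  rw [Act.sub_val _ (desc_inv ν)]
  exact desc_act (D := D.dbl) g x.1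

theorem gadm_desc' (ν : I → ℤ) : GAdm (D.dbl.aN.sub (D.Xs ν)) (D.aM ν) Prod.snd (Quot.mk _)
    univ univ univ univ := by
  exact desc_gadm (Act.pr_univ _ isClosed_univ fun _ _ _ => trivial)

theorem desc_bij' (ν : I → ℤ) : Function.Bijective (D.desc ν) := by
  have := t3_M' (D := D) ν
  have := sc_M' (D := D) ν
  have := ok_aM' (D := D) ν
  have := D.dbl.aN.ok_sub (desc_inv ν)
  have : CompactSpace (Ub D.col) := Gp.Nice.cpt (G := Gp.blk D.col)
  have sv := D.dbl.aN.sub_val (desc_inv ν)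
  let A : Set (D.Xs ν) := {x | x.1 ∈ D.dbl.Lev ν}
  have hU : (D.dbl.aN.sub (D.Xs ν)).Pr univ univ :=
    Act.pr_univ _ isClosed_univ fun _ _ _ => trivial
  have hA : (D.dbl.aN.sub (D.Xs ν)).Pr A univ :=
    Act.pr_of _ (isClosed_lev.preimage continuous_subtype_val).isLocallyClosed
      (fun g x hx => by
        change _ ∈ D.dbl.Lev ν
        rw [sv]
        exact lev_act (D := D.dbl) g hx) isClosed_univ fun _ _ _ => trivial
  let F : ℝ → D.Xs ν → D.Xs ν := fun s x =>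
    ⟨D.dbl.knr ν (projIcc 0 1 zero_le_one s) x.1, xs_knr (D := D) x.2 (projIcc 0 1 zero_le_one s).2⟩
  have hF : Continuous fun z : ℝ × D.Xs ν => F z.1 z.2 :=
    (continuousOn_knr.comp_continuous
      ((continuous_subtype_val.comp ((continuous_projIcc (h := zero_le_one)).comp continuous_fst)).prodMk
        (continuous_subtype_val.comp continuous_snd))
      fun z => ⟨(projIcc 0 1 zero_le_one z.1).2, z.2.2.2⟩).subtype_mk _
  have b1 := gp_bij_retract hU hA (subset_univ _) (F := F) hF.continuousOn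
    (fun s _ => ⟨hU, hU, (hF.comp (Continuous.prodMk_right s)).continuousOn,
      fun g x _ => Subtype.ext (by
        change D.dbl.knr ν _ _ = ((D.dbl.aN.sub (D.Xs ν)).act g (F s x)).1
        rw [sv, sv]
        exact knr_act x.2.2 g (projIcc 0 1 zero_le_one s).2),
      mapsTo_univ _ _, fun _ _ _ => trivial⟩)
    (fun s _ x hx => by
      change D.dbl.knr ν _ _ ∈ D.dbl.Lev ν
      rw [knr_lev x.2.2 hx]
      exact hx)
    (fun x _ => Subtype.ext (by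
      change D.dbl.knr ν _ _ = _
      rw [projIcc_left]
      exact knr_zero _))
    (fun x _ => by
      change D.dbl.knr ν _ _ ∈ D.dbl.Lev ν
      rw [projIcc_right]
      exact knr_one x.2.2)
  have hq := isOrbQ_lev (D := D) ν
  have b2 := stackIso (desc_gadm hA) (fun _ _ _ => trivial)
    (fun y _ => by
      obtain ⟨z, rfl⟩ := hq.quot.surjective y
      exact ⟨1, ⟨z.1, z.2.1⟩, z.2.2, Act.act_one _ _⟩)
    (fun x hx x' hx' g e => by
      rw [aM_mk] at e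
      obtain ⟨k, hk⟩ := (hq.eq_iff ⟨_, xs_act (D := D) (1, g) x.2, lev_act (D := D.dbl) (1, g) hx⟩
        ⟨x'.1, x'.2, hx'⟩).1 e
      have hk' : D.dbl.cnj (hat 1 k.1.1) (D.dbl.aN.act (1, g) x.1) = x'.1 :=
        (desc_act1 (D := D.dbl) k _).symm.trans (congrArg Subtype.val hk)
      refine ⟨(k, g), ⟨rfl, Subtype.ext ((sv _ _).trans
        ((desc_act (D := D.dbl) (k, g) x.1).trans hk'))⟩, ?_⟩
      rintro ⟨k', g'⟩ ⟨rfl, e'⟩
      have e2 := (desc_act (D := D.dbl) (k', g') x.1).symm.trans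
        ((sv _ _).symm.trans ((congrArg Subtype.val e').trans hk'.symm))
      have e3 := Stable.free (xs_act (D := D) (1, g') x.2).2 (desc_ku k').gu (desc_ku k).gu e2 rfl
      have e4 := congrArg unhat e3
      rw [unhat_hat, unhat_hat] at e4
      exact Prod.ext (Subtype.ext (Subtype.ext e4)) rfl)
    (fun K _ hK => by
      have h1 := (isProperMap_iff_isClosedMap_and_compact_fibers.2
        ⟨hq.quot.continuous, hq.isClosedMap, hq.isCompact_fibre⟩).isCompact_preimage hK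
      have h2 := h1.image (f := fun y => (⟨y.1, y.2.1⟩ : D.Xs ν))
        (continuous_subtype_val.subtype_mk _)
      convert h2 using 1
      exact Set.ext fun x => ⟨fun h => ⟨⟨x.1, x.2, h.1⟩, h.2, rfl⟩,
        fun ⟨y, h, e⟩ => e ▸ ⟨y.2.2, h⟩⟩)
  refine (Function.Bijective.of_comp_iff' b1 _).1 ?_
  convert b2 using 1
  exact funext fun c => gp_comp (gadm_desc' ν) (gadm_id hU hA (subset_univ _) inter_subset_right)
    (fun _ => rfl) (fun _ _ => rfl) c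

end Qv

end Pool.Agent.Work.MP_849ab0_ag.G
end
end

-- merged part: Pool.Agent.Work.MP_849ab0_ag.G.H1.Cx
section
/-!
The three term complex `L → E → L` of a pair of modules, on the level of matrices.
The case `h = h' = 1`, `A = A' = mat y`, `B = mat x` is the complex of the pair `(x, y)`.

Hints.  `cx_adj`: `trace_mul_comm`, `Fintype.sum_sum_type`.  `cx_split`: `ψ = - cxs η`, so the sum
of the `fsq (cxs η e)` vanishes (`fsq_eq`).  `pair_inj`: `cx1_cx0`, `trace_frame`, `cx_split`,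
`Stable.hom_zero` for `ξ : x → y` and `ηᴴ : y → x`.
-/

noncomputable section

set_option linter.unusedSectionVars false
set_option linter.unusedVariables false

namespace Pool.Agent.Work.MP_849ab0_ag.G

open Set Matrix

section

variable {P E : Type} [Fintype P] [DecidableEq P] [Fintype E]

/-- the first differential -/
def cx0 (A : E ⊕ E → Mt P) (h : Mt P) (B : E ⊕ E → Mt P) (φ : Mt P) : E ⊕ E → Mt P :=
  fun e => A e * φ - h * φ * B e

/-- the second differential -/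
def cx1 (A : E ⊕ E → Mt P) (h : Mt P) (B ψ : E ⊕ E → Mt P) : Mt P :=
  ∑ e, (A (.inl e) * ψ (.inr e) + h * ψ (.inl e) * B (.inr e) - A (.inr e) * ψ (.inl e) -
    h * ψ (.inr e) * B (.inl e))

/-- the adjoint of the second differential -/
def cxs (A : E ⊕ E → Mt P) (h : Mt P) (B : E ⊕ E → Mt P) (η : Mt P) : E ⊕ E → Mt P :=
  Sum.elim (fun e => hᴴ * η * (B (.inr e))ᴴ - (A (.inr e))ᴴ * η)
    fun e => (A (.inl e))ᴴ * η - hᴴ * η * (B (.inl e))ᴴ

/-- the bilinear moment map -/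
def cxm (A A' : E ⊕ E → Mt P) : Mt P := ∑ e, (A (.inl e) * A' (.inr e) - A (.inr e) * A' (.inl e))

variable {A A' B ψ : E ⊕ E → Mt P} {h h' φ η m : Mt P}

theorem cx_adj (A : E ⊕ E → Mt P) (h : Mt P) (B ψ : E ⊕ E → Mt P) (η : Mt P) :
    trace (ηᴴ * cx1 A h B ψ) = ∑ e, trace ((cxs A h B η e)ᴴ * ψ e) := by
  have key : ∀ X Y : Mt P, trace (ηᴴ * (h * (X * Y))) = trace (Y * (ηᴴ * (h * X))) := by
    intro X Y
    rw [trace_mul_comm Y]
    simp only [Matrix.mul_assoc]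
  rw [cx1, Finset.mul_sum, trace_sum, Fintype.sum_sum_type, ← Finset.sum_add_distrib]
  refine Finset.sum_congr rfl fun e _ => ?_
  simp only [cxs, Sum.elim_inl, Sum.elim_inr, conjTranspose_sub, conjTranspose_mul,
    conjTranspose_conjTranspose, Matrix.mul_sub, Matrix.mul_add, Matrix.sub_mul, trace_sub,
    trace_add, Matrix.mul_assoc, key]
  ring

theorem cx1_cx0 (hc : ∀ e, A' e * h = h' * A e) (B : E ⊕ E → Mt P) (φ : Mt P) :
    cx1 A' h' B (cx0 A h B φ) = cxm A' A * φ - h' * h * φ * cxm B B := by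
  have key : ∀ e (X : Mt P), A' e * (h * X) = h' * (A e * X) := fun e X => by
    rw [← Matrix.mul_assoc, hc, Matrix.mul_assoc]
  rw [cx1, cxm, cxm, Finset.sum_mul, Finset.mul_sum, ← Finset.sum_sub_distrib]
  refine Finset.sum_congr rfl fun e _ => ?_
  simp only [cx0, Matrix.mul_sub, Matrix.sub_mul, Matrix.mul_assoc, key]
  abel

theorem cx_split (h1 : trace (ηᴴ * cx1 A h B ψ) = 0) (h2 : ∀ e, ψ e + cxs A h B η e = 0) :
    (∀ e, ψ e = 0) ∧ ∀ e, cxs A h B η e = 0 := by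
  have h3 : ∀ e, ψ e = -cxs A h B η e := fun e => eq_neg_of_add_eq_zero_left (h2 e)
  rw [cx_adj] at h1
  simp only [h3, Matrix.mul_neg, trace_neg, ← fsq_eq, Finset.sum_neg_distrib, neg_eq_zero] at h1
  have h4 : ∑ e, fsq (cxs A h B η e) = 0 := by exact_mod_cast h1
  have h5 : ∀ e, cxs A h B η e = 0 := fun e => fsq_eq_zero.1
    ((Finset.sum_eq_zero_iff_of_nonneg fun e _ => fsq_nonneg _).1 h4 e (Finset.mem_univ e))
  exact ⟨fun e => by rw [h3, h5, neg_zero], h5⟩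

theorem cxs_eq_zero : (∀ e, cxs A h B η e = 0) ↔ ∀ e, ηᴴ * A e = B e * ηᴴ * h := by
  have key : ∀ X Y : Mt P, Xᴴ * η = hᴴ * η * Yᴴ ↔ ηᴴ * X = Y * ηᴴ * h := by
    intro X Y
    rw [← conjTranspose_inj]
    simp only [conjTranspose_mul, conjTranspose_conjTranspose, Matrix.mul_assoc]
  simp only [Sum.forall, cxs, Sum.elim_inl, Sum.elim_inr, sub_eq_zero, ← key]
  exact ⟨fun k => ⟨k.2, fun e => (k.1 e).symm⟩, fun k => ⟨fun e => (k.2 e).symm, k.1⟩⟩

theorem trace_frame {C : Type} {c : P → C} (h1 : Grd (Option.map c) η) (h2 : η none none = 0)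
    (h3 : ∀ a b, m (some a) (some b) = 0) (h4 : Grd (Option.map c) φ) :
    trace (ηᴴ * (m * φ)) = 0 := by
  simp only [trace, diag_apply, Matrix.mul_apply, conjTranspose_apply, Finset.mul_sum]
  refine Finset.sum_eq_zero fun a _ => Finset.sum_eq_zero fun b _ =>
    Finset.sum_eq_zero fun d _ => ?_
  rcases b with _ | b
  · rcases a with _ | a
    · rw [h2, star_zero, zero_mul]
    · rw [h1 none (some a) (by simp), star_zero, zero_mul]
  · rcases d with _ | d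
    · rcases a with _ | a
      · rw [h1 (some b) none (by simp), star_zero, zero_mul]
      · rw [h4 none (some a) (by simp), mul_zero, mul_zero]
    · rw [h3, zero_mul, mul_zero]

end

namespace Qv

variable {I P E κ : Type} [Fintype I] [DecidableEq I] [Fintype P] [DecidableEq P] [Fintype E]
  [Fintype κ] [DecidableEq κ] {D : Qv I P E κ} {g h h' ξ η : Mt P} {x y y' : D.dbl.Rep} {ν : I → ℤ}

theorem mu_eq_cxm (y : D.dbl.Rep) : D.mu y = cxm (D.dbl.mat y) (D.dbl.mat y) := rfl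

theorem sup_cx0 {A B : E ⊕ E → Mt P} (hA : D.dbl.Sup A) (hB : D.dbl.Sup B) (h1 : Grd D.cl h)
    (h2 : Grd D.cl ξ) : D.dbl.Sup (cx0 A h B ξ) := by
  have k := (hA.mul Grd.one h2).sub (hB.mul (h1.mul h2) Grd.one)
  simp only [Matrix.one_mul, Matrix.mul_one] at k
  exact k

theorem cx_flip {A : E ⊕ E → Mt P} (hA : D.dbl.Sup A) : D.dbl.Sup fun e => (A e.swap)ᴴ := by
  rintro (e | e) b a k
  · exact star_eq_zero.2 (hA (.inr e) a b fun k' => k ⟨k'.2, k'.1⟩)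
  · exact star_eq_zero.2 (hA (.inl e) a b fun k' => k ⟨k'.2, k'.1⟩)

theorem cx_grd {A B : E ⊕ E → Mt P} (hA : D.dbl.Sup A) (hB : D.dbl.Sup B) (e : E ⊕ E) :
    Grd D.cl (A e * B e.swap) := by
  refine matc_grd (D.dbl.tgt e) (fun a c k => ?_) fun c b k => ?_
  · by_contra k'
    exact k (hA e a c fun k'' => k' k''.2)
  · by_contra k'
    refine k (hB _ c b fun k'' => k' ?_)
    rcases e with e | e
    exacts [k''.1, k''.1]

theorem cx_grd_sum {f : E → Mt P} (h : ∀ e, Grd D.cl (f e)) : Grd D.cl (∑ e, f e) :=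
  fun a b k => by
    rw [Matrix.sum_apply]
    exact Finset.sum_eq_zero fun e _ => h e a b k

theorem sup_cxs {A B : E ⊕ E → Mt P} (hA : D.dbl.Sup A) (hB : D.dbl.Sup B) (h1 : Grd D.cl h)
    (h2 : Grd D.cl η) : D.dbl.Sup (cxs A h B η) := by
  have k1 := (cx_flip hA).mul Grd.one h2
  have k2 := (cx_flip hB).mul (h1.adj.mul h2) Grd.one
  simp only [Matrix.one_mul, Matrix.mul_one] at k1 k2
  rintro (e | e) b a k
  · exact k2.sub k1 (.inl e) b a k
  · exact k1.sub k2 (.inr e) b a k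

theorem grd_cxm {A B : E ⊕ E → Mt P} (hA : D.dbl.Sup A) (hB : D.dbl.Sup B) : Grd D.cl (cxm A B) :=
  cx_grd_sum fun e => (cx_grd hA hB (.inl e)).sub (cx_grd hA hB (.inr e))

theorem grd_cx1 {A B ψ : E ⊕ E → Mt P} (hA : D.dbl.Sup A) (hB : D.dbl.Sup B) (hψ : D.dbl.Sup ψ)
    (h1 : Grd D.cl h) : Grd D.cl (cx1 A h B ψ) := by
  refine cx_grd_sum fun e => ?_
  rw [Matrix.mul_assoc, Matrix.mul_assoc]
  exact (((cx_grd hA hψ (.inl e)).add (h1.mul (cx_grd hψ hB (.inl e)))).sub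
    (cx_grd hA hψ (.inr e))).sub (h1.mul (cx_grd hψ hB (.inr e)))

/-- the zeros of the affine map of the diagonal argument -/
theorem pair_split (hx : x ∈ D.Xs ν) (hy : y ∈ D.Xs ν) (h1 : Grd D.cl ξ) (h2 : Grd D.cl η)
    (h3 : η none none = 0)
    (h4 : ∀ e, cx0 (D.dbl.mat y) 1 (D.dbl.mat x) ξ e + cxs (D.dbl.mat y) 1 (D.dbl.mat x) η e = 0) :
    D.dbl.Hm ξ x y ∧ η = 0 := by
  have m1 : cxm (D.dbl.mat x) (D.dbl.mat x) = 0 := mem_M0.1 hx.1
  have m2 : cxm (D.dbl.mat y) (D.dbl.mat y) = 0 := mem_M0.1 hy.1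
  have k := cx_split (by
    rw [cx1_cx0 fun e => by rw [Matrix.mul_one, Matrix.one_mul], m1, m2]
    simp) h4
  refine ⟨⟨h1, fun e => ?_⟩, ?_⟩
  · have := k.1 e
    rw [cx0, Matrix.one_mul, sub_eq_zero] at this
    exact this.symm
  · have k2 : D.dbl.Hm ηᴴ y x := ⟨h2.adj, fun e => by
      rw [cxs_eq_zero.1 k.2 e, Matrix.mul_one]⟩
    exact conjTranspose_eq_zero.1
      (Stable.hom_zero hy.2 hx.2 k2 (by rw [conjTranspose_apply, h3, star_zero]))

/-- its linear part is injective -/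
theorem pair_inj (hx : x ∈ D.Xs ν) (hy : y ∈ D.Xs ν) (h1 : Grd D.cl ξ) (h2 : Grd D.cl η)
    (h3 : η none none = 0) (h0 : ξ none none = 0)
    (h4 : ∀ e, cx0 (D.dbl.mat y) 1 (D.dbl.mat x) ξ e + cxs (D.dbl.mat y) 1 (D.dbl.mat x) η e = 0) :
    ξ = 0 ∧ η = 0 :=
  have k := pair_split hx hy h1 h2 h3 h4
  ⟨Stable.hom_zero hx.2 hy.2 k.1 h0, k.2⟩

/-- a homomorphism between points of the level set is unitary -/
theorem lev_hom {x y : D.Rep} (hx : D.Stable ν x) (hy : D.Stable ν y) (h1 : x ∈ D.Lev ν)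
    (h2 : y ∈ D.Lev ν) (h3 : D.Hm ξ x y) (h4 : ‖ξ none none‖ = 1) : KU D.cl ξ ∧ y = D.cnj ξ x := by
  have k : GU D.cl ξ := hx.hom_gu hy h3 fun e => by simp [e] at h4
  have k2 := h3.cj_eq k.unit
  exact ⟨lev_unique hx h1 k h4 (k2 ▸ h2), k2.symm⟩

end Qv

end Pool.Agent.Work.MP_849ab0_ag.G
end
end

-- merged part: Pool.Agent.Work.MP_849ab0_ag.G.H1.StEx
section
/-!
Every stable point has a canonical filtration (owner helper71).

Hints.  Put `rk o = #{l ∈ image ρ univ | l < ρ o}` (so `0 ≤ rk o ≤ card P`) and `η = ρ - rk`.  If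
`ρ b ≤ ρ a + 1` then `η b ≤ η a`, and if `ρ b = ρ a + 1` then `η b = η a`.  `bx_of_stable`:
`Stable.toric` for `η` and `-η` shows that `η` is constant.  `exists_type`: by `Stable.toric` the
weights `wtZ ν ρ` of pairs `(k, ρ)` with `cnj k y ∈ El ρ` are bounded below by `-∑ |thZ| * card P`, and
`(1, 0)` is such a pair; take a minimiser (`Int.exists_least_of_bdd`), shift to `ρ none = 0`
(`sum_thZ`).  If `z = gr ρ (cnj k y)` is not stable, some preserved `Q` has `wtr θ Q ≥ 1`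
(`IsPr.wtr_int`, `Gen.sum_ne`).  Among all preserved graded projections take `Q` maximising the integer
`wtr θ' Q`, `θ' = (card P + 2) θ + 1`; it is unique (`sum_inter`, `IsPr.eq_of_le`) and `wtr θ Q ≥ 1`.
For `|u| = 1`, `d = diagonal (u ^ ρ)`, `cnj d z = u • z`, so `d Q dᴴ = Q`; with
`u = exp (π i / (ρ b - ρ a))` this gives `Grd ρ Q`.  `coord` for the colouring `(cl, ρ)`:
`Q = k' prS S k'ᴴ`; then `cnj k'ᴴ (cnj k y) ∈ El ρ'` for `ρ' = ρ - 1_S` (`prd_cj`, `pres_prS`) and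
`wtZ ρ' = wtZ ρ - ∑_S θ` is smaller.
-/

noncomputable section

set_option linter.unusedSectionVars false
set_option linter.unusedVariables false

namespace Pool.Agent.Work.MP_849ab0_ag.G

open Set Topology Matrix

/-- the number of values of `ρ` below `x` -/
def StEx_rk {J : Type} [Fintype J] (ρ : J → ℤ) (x : ℤ) : ℤ :=
  (((Finset.univ.image ρ).filter (· < x)).card : ℤ)

theorem StEx_rk_bd {P : Type} [Fintype P] (ρ : Option P → ℤ) (o : Option P) :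
    0 ≤ StEx_rk ρ (ρ o) ∧ StEx_rk ρ (ρ o) ≤ Fintype.card P := by
  refine ⟨Int.natCast_nonneg _, Int.ofNat_le.2 (Nat.le_of_lt_succ ?_)⟩
  refine (Finset.card_lt_card ((Finset.filter_ssubset (p := (· < ρ o))).2
    ⟨ρ o, Finset.mem_image_of_mem _ (Finset.mem_univ o), lt_irrefl _⟩)).trans_le ?_
  exact Finset.card_image_le.trans (by simp)

theorem StEx_rk_eq {J : Type} [Fintype J] (ρ : J → ℤ) (a : J) :
    StEx_rk ρ (ρ a + 1) = StEx_rk ρ (ρ a) + 1 := by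
  have e : (Finset.univ.image ρ).filter (· < ρ a + 1) =
      insert (ρ a) ((Finset.univ.image ρ).filter (· < ρ a)) := by
    ext l
    simp only [Finset.mem_filter, Finset.mem_insert]
    constructor
    · rintro ⟨h1, h2⟩
      exact (Int.lt_add_one_iff.1 h2).eq_or_lt.imp_right fun h => ⟨h1, h⟩
    · rintro (rfl | ⟨h1, h2⟩)
      · exact ⟨Finset.mem_image_of_mem _ (Finset.mem_univ a), lt_add_one _⟩
      · exact ⟨h1, by omega⟩
  rw [StEx_rk, e, Finset.card_insert_of_notMem (by simp), StEx_rk]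
  push_cast
  rfl

theorem StEx_rk_le {J : Type} [Fintype J] (ρ : J → ℤ) {a b : J} (h : ρ b ≤ ρ a + 1) :
    ρ b - StEx_rk ρ (ρ b) ≤ ρ a - StEx_rk ρ (ρ a) := by
  rcases h.eq_or_lt with e | e
  · rw [e, StEx_rk_eq]
    omega
  have h1 : (Finset.univ.image ρ).filter (· < ρ a) ⊆
      (Finset.univ.image ρ).filter (· < ρ b) ∪ Finset.Ico (ρ b) (ρ a) := fun l hl => by
    simp only [Finset.mem_filter, Finset.mem_union, Finset.mem_Ico] at hl ⊢
    exact (lt_or_ge l (ρ b)).imp (fun k => ⟨hl.1, k⟩) fun k => ⟨k, hl.2⟩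
  have h2 := (Finset.card_le_card h1).trans (Finset.card_union_le _ _)
  rw [Int.card_Ico] at h2
  unfold StEx_rk
  omega

theorem StEx_unit {m : ℤ} (hm : m ≠ 0) : ∃ u : ℂ, ‖u‖ = 1 ∧ u ^ m = -1 := by
  refine ⟨Complex.exp ((Real.pi / m : ℝ) * Complex.I), Complex.norm_exp_ofReal_mul_I _, ?_⟩
  have : (m : ℂ) ≠ 0 := Int.cast_ne_zero.2 hm
  rw [← Complex.exp_int_mul, ← Complex.exp_pi_mul_I]
  congr 1
  push_cast
  field_simp

theorem StEx_div {n a b s t : ℤ} (h : (n + 2) * a + s ≤ (n + 2) * b + t) (h1 : 0 ≤ s)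
    (h2 : 0 ≤ t) (h3 : t ≤ n + 1) : a ≤ b := by
  by_contra k
  nlinarith [mul_le_mul_of_nonneg_left (Int.add_one_le_iff.2 (not_le.1 k)) (by omega : 0 ≤ n + 2)]

/-- the maximal destabilising subspace -/
theorem StEx_max {J C F : Type} [Fintype J] [DecidableEq J] [DecidableEq C] {c : J → C}
    (m : F → Matrix J J ℂ) (t : J → ℤ) (ht : ∀ a b, c a = c b → t a = t b) :
    ∃ Q, IsPr c Q ∧ (∀ e, Pres Q (m e)) ∧
      (∀ Q', IsPr c Q' → (∀ e, Pres Q' (m e)) → wtr (fun a => t a) Q' ≤ wtr (fun a => t a) Q) ∧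
      ∀ k, KU c k → (∀ e, Pres (k * Q * kᴴ) (m e)) → k * Q * kᴴ = Q := by
  classical
  let n : ℤ := Fintype.card J
  let A : Finset J → Prop := fun S => ∃ Q, IsPr c Q ∧ (∀ e, Pres Q (m e)) ∧
    ∀ θ : J → ℝ, (∀ a b, c a = c b → θ a = θ b) → wtr θ Q = ∑ a ∈ S, θ a
  have hA : ∀ Q, IsPr c Q → (∀ e, Pres Q (m e)) → ∃ S ∈ Finset.univ.filter A,
      ∀ θ : J → ℝ, (∀ a b, c a = c b → θ a = θ b) → wtr θ Q = ∑ a ∈ S, θ a := fun Q h1 h2 => by
    obtain ⟨S, -, -, h3⟩ := h1.wtr_int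
    exact ⟨S, Finset.mem_filter.2 ⟨Finset.mem_univ _, Q, h1, h2, h3⟩, h3⟩
  obtain ⟨S, hS, mx⟩ := (Finset.univ.filter A).exists_max_image
    (fun S => (n + 2) * ∑ a ∈ S, t a + (S.card : ℤ)) (by
      obtain ⟨S, h, -⟩ := hA 1 ⟨conjTranspose_one, Matrix.one_mul _, Grd.one⟩ fun e => by
        simp [Pres]
      exact ⟨S, h⟩)
  obtain ⟨Q, q1, q2, q3⟩ := (Finset.mem_filter.1 hS).2
  have t1 : ∀ a b, c a = c b → (t a : ℝ) = t b := fun a b e => by rw [ht a b e]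
  have bd : ∀ S : Finset J, (S.card : ℤ) ≤ n + 1 := fun S =>
    (Int.ofNat_le.2 S.card_le_univ).trans (lt_add_one _).le
  refine ⟨Q, q1, q2, fun Q' h1 h2 => ?_, fun k hk h2 => ?_⟩
  · obtain ⟨S', h3, h4⟩ := hA Q' h1 h2
    rw [h4 _ t1, q3 _ t1]
    exact_mod_cast StEx_div (mx S' h3) (Int.natCast_nonneg _) (Int.natCast_nonneg _) (bd S)
  · obtain ⟨R, R', r1, r2, r3, r4, r5, r6⟩ := sum_inter q1 (q1.conj hk)
    obtain ⟨S1, a1, b1⟩ := hA R r1 fun e => (r5 _ (q2 e) (h2 e)).1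
    obtain ⟨S2, a2, b2⟩ := hA R' r2 fun e => (r5 _ (q2 e) (h2 e)).2
    have e1 := r6 _ t1
    have e2 := r6 (fun _ => 1) fun _ _ _ => rfl
    have e3 := wtr_conj (θ := fun _ => 1) (fun _ _ _ => rfl) hk Q
    rw [wtr_conj t1 hk, b1 _ t1, b2 _ t1, q3 _ t1] at e1
    rw [e3, b1 _ fun _ _ _ => rfl, b2 _ fun _ _ _ => rfl, q3 _ fun _ _ _ => rfl] at e2
    simp only [Finset.sum_const, nsmul_eq_mul, mul_one] at e2
    have f1 : ∑ a ∈ S1, t a + ∑ a ∈ S2, t a = ∑ a ∈ S, t a + ∑ a ∈ S, t a := by exact_mod_cast e1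
    have f2 : (S1.card : ℤ) + S2.card = S.card + S.card := by exact_mod_cast e2
    have m1 := mx S1 a1
    have m2 := mx S2 a2
    have f3 : (n + 2) * ∑ a ∈ S, t a + (S.card : ℤ) ≤ (n + 2) * ∑ a ∈ S2, t a + S2.card := by
      linear_combination m1 - (n + 2) * f1 - f2
    rw [le_antisymm (StEx_div m2 (Int.natCast_nonneg _) (Int.natCast_nonneg _) (bd S))
      (StEx_div f3 (Int.natCast_nonneg _) (Int.natCast_nonneg _) (bd S2))] at m2
    have f4 : wtr (fun _ => 1) R' ≤ wtr (fun _ => 1) Q := by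
      rw [b2 _ fun _ _ _ => rfl, q3 _ fun _ _ _ => rfl]
      simp only [Finset.sum_const, nsmul_eq_mul, mul_one]
      exact_mod_cast le_of_add_le_add_left m2
    exact ((q1.conj hk).eq_of_le r2 r4 (e3 ▸ f4)).symm.trans (q1.eq_of_le r2 r3 f4)

namespace Qv

variable {I P E κ : Type} [Fintype I] [DecidableEq I] [Fintype P] [DecidableEq P] [Fintype E]
  [Fintype κ] [DecidableEq κ] {D : Qv I P E κ}
  {ν : I → ℤ} {ρ ρ' : Option P → ℤ} {g k ξ : Mt P}

variable {x y : D.Rep}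

theorem StEx_deg {p : D.Wt} (h : D.gr ρ y p ≠ 0) : ρ p.1.2.2 = ρ p.1.2.1 + 1 := by
  have h1 : D.dgr ρ p ∈ ({1} : Set ℤ) := by
    by_contra k
    exact h (mem_Ed.1 (prd_mem y) p k)
  rw [mem_singleton_iff, dgr] at h1
  omega

theorem bx_of_stable (h0 : ρ none = 0) (h : D.Stable ν (D.gr ρ y)) : Bx ρ := by
  have h1 := h.conn (S := {o | ρ o - StEx_rk ρ (ρ o) = ρ none - StEx_rk ρ (ρ none)}) rfl
    fun p hp => by
      simp only [mem_ofPred_eq, StEx_deg hp, StEx_rk_eq]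
      omega
  refine ⟨h0, fun o => ?_⟩
  have h2 : ρ o - StEx_rk ρ (ρ o) = ρ none - StEx_rk ρ (ρ none) := h1.ge (mem_univ o)
  have h3 := StEx_rk_bd ρ o
  have h4 := StEx_rk_bd ρ none
  rw [abs_le]
  omega

theorem StEx_low (hy : D.Stable ν y) (h : y ∈ D.El ρ) :
    -∑ o, |D.thZ ν o| * Fintype.card P ≤ D.wtZ ν ρ := by
  have h1 := (hy.toric (η := fun o => ((ρ o - StEx_rk ρ (ρ o) : ℤ) : ℝ)) fun p hp => by
    have h2 : D.dgr ρ p ∈ Iic 1 := by
      by_contra k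
      exact hp (mem_Ed.1 h p k)
    rw [mem_Iic, dgr] at h2
    exact Int.cast_le.2 (StEx_rk_le ρ (by omega))).1
  have h2 : 0 ≤ ∑ o, D.thZ ν o * (ρ o - StEx_rk ρ (ρ o)) := by
    simp only [th] at h1
    exact_mod_cast h1
  simp only [mul_sub, Finset.sum_sub_distrib, sub_nonneg] at h2
  refine le_trans ?_ h2
  rw [← Finset.sum_neg_distrib]
  refine Finset.sum_le_sum fun o _ => ?_
  obtain ⟨h3, h4⟩ := StEx_rk_bd ρ o
  nlinarith [neg_abs_le (D.thZ ν o), abs_nonneg (D.thZ ν o)]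

theorem StEx_rot {u : ℂ} (hu : ‖u‖ = 1) (y : D.Rep) :
    D.cnj (diagonal fun o => u ^ ρ o) (D.gr ρ y) = u • D.gr ρ y := by
  have h0 : u ≠ 0 := norm_ne_zero_iff.1 (hu ▸ one_ne_zero)
  funext p
  rw [cj_diag fun o => zpow_ne_zero _ h0, Pi.smul_apply, smul_eq_mul]
  by_cases h : D.gr ρ y p = 0
  · rw [h, mul_zero, mul_zero]
  · rw [StEx_deg h, zpow_add_one₀ h0, mul_right_comm _ u, mul_inv_cancel₀ (zpow_ne_zero _ h0),
      one_mul]

theorem StEx_step (hν : D.Gen ν) (hx : x ∈ D.El ρ) (h : ¬ D.Stable ν (D.gr ρ x)) :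
    ∃ k ρ', KU D.cl k ∧ D.cnj k x ∈ D.El ρ' ∧ D.wtZ ν ρ' < D.wtZ ν ρ := by
  obtain ⟨Q, q1, q2, q3, q4⟩ := StEx_max (c := D.cl) (D.mat (D.gr ρ x)) (D.thZ ν)
    fun a b e => Int.cast_injective (α := ℝ) (th_cl a b e)
  have pos : 0 < wtr (D.th ν) Q := by
    simp only [stable_iff, not_forall, not_lt] at h
    obtain ⟨Q', a1, a2, a3, a4, a5⟩ := h
    obtain ⟨S, b1, b2, b3⟩ := a1.wtr_int
    refine lt_of_lt_of_le (a5.lt_of_ne fun e => ?_) (q3 Q' a1 a2)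
    rw [b3 _ th_cl] at e
    refine hν.sum_ne (mt b1.2 a3) (mt b2.2 a4) ?_
    simp only [th] at e
    exact_mod_cast e.symm
  have grd : Grd ρ Q := fun b a e => by
    obtain ⟨u, hu, h1⟩ := StEx_unit (sub_ne_zero.2 e)
    have h0 : u ≠ 0 := norm_ne_zero_iff.1 (hu ▸ one_ne_zero)
    have hd : KU D.cl (diagonal fun o => u ^ ρ o) := KU.diag fun o => by
      rw [norm_zpow, hu, _root_.one_zpow]
    have h2 := q4 _ hd fun e => by
      have h3 := (q2 e).conj hd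
      rw [← mat_cj_ku hd, StEx_rot hu, mat_smulH, Pres, Matrix.mul_smul, Matrix.smul_mul] at h3
      exact (smul_eq_zero.1 h3).resolve_left h0
    have h3 : (diagonal fun o => u ^ ρ o) * Q = Q * diagonal fun o => u ^ ρ o := by
      conv_rhs => rw [← h2, Matrix.mul_assoc, hd.uni, Matrix.mul_one]
    have h4 := congrFun (congrFun h3 b) a
    rw [diagonal_mul, mul_diagonal, ← sub_add_cancel (ρ b) (ρ a), zpow_add₀ h0, h1] at h4
    refine mul_right_cancel₀ (zpow_ne_zero (ρ a) h0) ?_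
    linear_combination (-1 / 2) * h4
  obtain ⟨k, hk, S, rfl⟩ := coord (c := fun o => (D.cl o, ρ o)) (Q := Q) ⟨q1.1, q1.2.1, fun a b e => by
    by_cases e' : D.cl a = D.cl b
    · exact grd a b fun r => e (Prod.ext e' r)
    · exact q1.2.2 a b e'⟩
  have k1 : KU D.cl k := ⟨hk.grd.mono fun a b e => congrArg Prod.fst e, hk.uni⟩
  have k2 : Grd ρ kᴴ := hk.adj.grd.mono fun a b e => congrArg Prod.snd e
  have h1 : D.cnj kᴴ x ∈ D.El ρ := cj_mem_Ed k1.adj.gu k2 hx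
  refine ⟨kᴴ, fun o => ρ o - if o ∈ S then 1 else 0, k1.adj, mem_Ed.2 fun p hp => ?_, ?_⟩
  · by_cases h2 : D.dgr ρ p ∈ Iic 1
    swap
    · exact mem_Ed.1 h1 p h2
    simp only [mem_Iic, dgr] at hp h2
    have h3 : p.1.2.1 ∈ S ∧ p.1.2.2 ∉ S ∧ D.dgr ρ p ∈ ({1} : Set ℤ) := by
      rw [mem_singleton_iff, dgr]
      split_ifs at hp with i1 i2 i2
      all_goals first | exact ⟨i2, i1, by omega⟩ | omega
    have h4 := (q2 p.1.1).conj k1.adj
    rw [← mat_cj_ku k1.adj, conjTranspose_conjTranspose, spec_conj k1, ← prd_cj k1.adj.gu k2] at h4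
    have h5 := pres_prS.1 h4 _ _ h3.1 h3.2.1
    rwa [mat_app, prd, if_pos h3.2.2] at h5
  · rw [wtr_conj th_cl k1, wtr_prS] at pos
    have h2 : 0 < ∑ o ∈ S, D.thZ ν o := by
      simp only [th] at pos
      exact_mod_cast pos
    simp only [wtZ, mul_sub, Finset.sum_sub_distrib, mul_ite, mul_one, mul_zero,
      Finset.sum_ite_mem, Finset.univ_inter]
    omega

/-- EX -/
theorem exists_type (hν : D.Gen ν) (hy : D.Stable ν y) : ∃ ρ, Bx ρ ∧ ∃ k, KU D.cl k ∧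
    D.cnj k y ∈ D.El ρ ∧ D.Stable ν (D.gr ρ (D.cnj k y)) := by
  classical
  obtain ⟨w, ⟨k, ρ, h1, h2, rfl⟩, mn⟩ := Int.exists_least_of_bdd
    (P := fun w => ∃ k ρ, KU D.cl k ∧ D.cnj k y ∈ D.El ρ ∧ D.wtZ ν ρ = w)
    ⟨_, fun w ⟨k, ρ, h1, h2, h3⟩ => h3 ▸ StEx_low (hy.cnj h1.gu) h2⟩
    ⟨_, 1, 0, KU.one, mem_Ed.2 fun p hp => absurd (by simp [dgr]) hp, rfl⟩
  have h3 : D.Stable ν (D.gr ρ (D.cnj k y)) := by
    by_contra h
    obtain ⟨k', ρ', a1, a2, a3⟩ := StEx_step hν h2 h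
    exact absurd (mn _ ⟨k' * k, ρ', a1.mul h1, cj_mul a1.gu h1.gu y ▸ a2, rfl⟩) (not_le.2 a3)
  have e : D.dgr (fun o => ρ o - ρ none) = D.dgr ρ := funext fun p => by simp [dgr]
  have h4 : D.Stable ν (D.gr (fun o => ρ o - ρ none) (D.cnj k y)) := by
    unfold gr prd at h3 ⊢
    rwa [e]
  exact ⟨_, bx_of_stable (sub_self _) h4, k, h1, mem_Ed.2 (e ▸ mem_Ed.1 h2), h4⟩

end Qv

end Pool.Agent.Work.MP_849ab0_ag.G
end
end

-- merged part: Pool.Agent.Work.MP_849ab0_ag.G.H1.StInd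
section
/-!
The strata and the induction over them (owner helper71).

Hints.  `xs_eq`, `M0_cj`, `mu_sc`, `mem_M0`, `Stable.cnj`, `Stable.sc`, `aN_act`, `aR_act`, `ku_iK`,
characters of the torus do not vanish and `chr (t e) * chr (h - t e) = chr h`.  `scl_mem_S0`: for
`t ≠ 0` use `scl_eq` (`z • y = sc (fun _ => z) y`), for `t = 0` closedness of `M0`.
`strata_ind`: the types with `Bx` form a finite set `B`.  For `A ⊆ B` with `wtZ ρ ≤ wtZ ρ'` whenever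
`ρ ∈ A`, `ρ' ∈ B \ A`, put `U A = Xs \ ⋃ ρ ∈ A, Zr ρ`.  Show by induction on `card A`:
`Q (U A) → Q Xs`, and `U B = ∅` (`exists_Sr`).  Step: `ρ ∈ A` of maximal weight, `A' = A.erase ρ`,
`U A = U A' \ Zr ρ`.  If `Sr ρ` meets `Zr ρ'` for some `ρ' ∈ A'`, then `ord_ku` gives a unitary `k`
with `k b a ≠ 0 → ρ' b = ρ a`, so `Zr ρ ⊆ Zr ρ'` (`cj_mem_Ed`) and `U A' = U A`.  Otherwise
`Step ν ρ (U A')`: a point of `U A' ∩ Zr ρ` lies in `Sr ρ''` with `wtZ ρ ≤ wtZ ρ''`, then `ord_ku`,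
`cj_mem_Ed`, `prd_cj` put it in `Sr ρ`.  If `Sr ρ` is empty then `U A' = U A`.
-/

noncomputable section

set_option linter.unusedSectionVars false
set_option linter.unusedVariables false

namespace Pool.Agent.Work.MP_849ab0_ag.G

open Set Topology Matrix

namespace Qv

variable {I P E κ : Type} [Fintype I] [DecidableEq I] [Fintype P] [DecidableEq P] [Fintype E]
  [Fintype κ] [DecidableEq κ] {D : Qv I P E κ}
  {ν : I → ℤ} {ρ ρ' : Option P → ℤ} {g k ξ : Mt P}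

variable {x y : D.dbl.Rep} {U : Set D.dbl.Rep}

theorem si_cj (h1 : GU D.cl g) (hy : y ∈ D.Xs ν) : D.dbl.cnj g y ∈ D.Xs ν :=
  ⟨M0_cj h1 hy.1, Stable.cnj (D := D.dbl) hy.2 h1⟩

theorem si_sc0 {χ : E ⊕ E → ℂ} {z : ℂ} (h2 : ∀ e, χ (.inl e) * χ (.inr e) = z) (hy : y ∈ D.M0) :
    D.dbl.sc χ y ∈ D.M0 := mem_M0.2 (by rw [mu_sc h2, mem_M0.1 hy, smul_zero])

theorem si_sc {χ : E ⊕ E → ℂ} {z : ℂ} (h1 : ∀ e, χ e ≠ 0)
    (h2 : ∀ e, χ (.inl e) * χ (.inr e) = z) (hy : y ∈ D.Xs ν) : D.dbl.sc χ y ∈ D.Xs ν :=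
  ⟨si_sc0 h2 hy.1, Stable.sc (D := D.dbl) hy.2 h1⟩

theorem si_ne (u : κ → Circle) (e : E ⊕ E) : chr (D.dbl.t e) u ≠ 0 :=
  Finset.prod_ne_zero_iff.2 fun _ _ => zpow_ne_zero _ (Circle.coe_ne_zero _)

theorem si_chr (u : κ → Circle) (e : E) :
    chr (D.dbl.t (.inl e)) u * chr (D.dbl.t (.inr e)) u = chr D.h u :=
  (chr_add _ _ u).symm.trans (congrArg (chr · u) (add_sub_cancel _ _))

theorem si_gu (u : Ub D.col) : GU D.cl (hat 1 u.1.1) := (ku_hat.2 (ku_Ub u)).gu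

theorem si_lc : IsLocallyClosed (D.Xs ν) :=
  isClosed_M0.isLocallyClosed.inter (isOpen_st (D := D.dbl) ν).isLocallyClosed

theorem Fr_sub_S0 : D.Fr ν ρ ⊆ D.S0 ν ρ := fun y hy =>
  ⟨hy.1, Ed_mono (singleton_subset_iff.2 self_mem_Iic) hy.2,
    (congrArg _ (prd_of_mem hy.2)).mpr hy.1.2⟩

theorem S0_sub_Sr : D.S0 ν ρ ⊆ D.Sr ν ρ := fun y hy => ⟨1, KU.one, y, hy, (cj_one y).symm⟩

theorem Sr_sub_Xs : D.Sr ν ρ ⊆ D.Xs ν := fun _ ⟨_, hk, _, hy, e⟩ => e ▸ si_cj hk.gu hy.1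

theorem Sr_sub_Zr : D.Sr ν ρ ⊆ D.dbl.Zr ρ := fun _ ⟨k, hk, y, hy, e⟩ => ⟨k, hk, y, hy.2.1, e⟩

theorem cj_mem_S0 (h1 : GU D.cl g) (h2 : MFil ρ ρ 0 g) (hy : y ∈ D.S0 ν ρ) :
    D.dbl.cnj g y ∈ D.S0 ν ρ := by
  refine ⟨si_cj h1 hy.1, cj_mem_Iic (D := D.dbl) h1 h2 h2.inv hy.2.1, ?_⟩
  rw [gr_cj (D := D.dbl) h1 h2 hy.2.1]
  exact Stable.cnj hy.2.2 (gu_mpt h1 h2)

theorem cj_mem_Sr (h1 : GU D.cl g) (hy : y ∈ D.Sr ν ρ) : D.dbl.cnj g y ∈ D.Sr ν ρ := by
  obtain ⟨k, hk, x, hx, rfl⟩ := hy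
  obtain ⟨k', p, a1, a2, a3, e⟩ := exists_kp ρ (h1.mul hk.gu)
  refine ⟨k', a1, _, cj_mem_S0 a2 a3 hx, ?_⟩
  rw [← cj_mul (D := D.dbl) h1 hk.gu, e, cj_mul (D := D.dbl) a1.gu a2]

theorem sc_mem_S0 {χ : E ⊕ E → ℂ} {z : ℂ} (h1 : ∀ e, χ e ≠ 0)
    (h2 : ∀ e, χ (.inl e) * χ (.inr e) = z) (hy : y ∈ D.S0 ν ρ) : D.dbl.sc χ y ∈ D.S0 ν ρ := by
  refine ⟨si_sc h1 h2 hy.1, sc_mem_Ed χ hy.2.1, ?_⟩
  rw [gr, prd_sc]
  exact Stable.sc hy.2.2 h1

theorem act_mem_Sr (u : (KT D.col κ).H) (hy : y ∈ D.Sr ν ρ) : D.dbl.aN.act u y ∈ D.Sr ν ρ := by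
  obtain ⟨k, hk, x, hx, e⟩ := cj_mem_Sr (si_gu u.1) hy
  refine ⟨k, hk, _, sc_mem_S0 (si_ne (D := D) u.2) (si_chr u.2) hx, ?_⟩
  rw [cj_sc, ← e]
  rfl

theorem act_mem_S0 (u : (KT (D.cr ρ) κ).H) (hy : y ∈ D.S0 ν ρ) : (D.aR ρ).act u y ∈ D.S0 ν ρ := by
  rw [aR_act]
  exact sc_mem_S0 (si_ne (D := D) u.2) (si_chr u.2)
    (cj_mem_S0 (ku_iK u.1).1.gu (fun b a h => (ku_iK u.1).2 b a (by omega)) hy)

theorem act_mem_Fr (u : (KT (D.cr ρ) κ).H) (hy : y ∈ D.Fr ν ρ) : (D.aR ρ).act u y ∈ D.Fr ν ρ := by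
  rw [aR_act]
  exact ⟨si_sc (si_ne (D := D) u.2) (si_chr u.2) (si_cj (ku_iK u.1).1.gu hy.1),
    sc_mem_Ed _ (cj_mem_Ed (D := D.dbl) (ku_iK u.1).1.gu (ku_iK u.1).2 hy.2)⟩

/-- an element of `G` that maps a filtered point of the stratum to `E (ρ)` lies in `P_ρ` -/
theorem mfil_of_S0 (hy : y ∈ D.S0 ν ρ) (h1 : GU D.cl g) (h2 : D.dbl.cnj g y ∈ D.dbl.El ρ) :
    MFil ρ ρ 0 g := (ord (D := D.dbl) rfl hy.2.1 hy.1.2 hy.2.2 h1 h2 le_rfl).1

theorem S0_eq : D.S0 ν ρ = D.Sr ν ρ ∩ D.dbl.El ρ := by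
  refine Subset.antisymm (fun y hy => ⟨S0_sub_Sr hy, hy.2.1⟩) ?_
  rintro _ ⟨⟨k, hk, y, hy, rfl⟩, h⟩
  exact cj_mem_S0 hk.gu (mfil_of_S0 hy hk.gu h) hy

theorem scl_mem_S0 (hy : y ∈ D.S0 ν ρ) (t : ℝ) : D.dbl.scl ρ t y ∈ D.S0 ν ρ := by
  refine ⟨⟨?_, stable_scl hy.2.1 hy.1.2 hy.2.2 t⟩, scl_mem t hy.2.1, (gr_scl t y).symm ▸ hy.2.2⟩
  refine closure_minimal (t := {t : ℝ | D.dbl.scl ρ t y ∈ D.M0}) (fun t ht => ?_)
    (isClosed_M0.preimage (continuous_scl.comp (continuous_id.prodMk continuous_const)))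
    (dense_compl_singleton 0 t)
  rw [mem_setOf_eq, scl_eq hy.2.1 ht]
  exact si_sc0 (χ := fun _ => t) (fun _ => rfl)
    (M0_cj (GU.diag fun _ => zpow_ne_zero _ (Complex.ofReal_ne_zero.2 ht)) hy.1.1)

theorem gr_mem_Fr (hy : y ∈ D.S0 ν ρ) : D.dbl.gr ρ y ∈ D.Fr ν ρ :=
  ⟨scl_zero hy.2.1 ▸ (scl_mem_S0 hy 0).1, prd_mem y⟩

theorem exists_Sr (hν : D.Gen ν) (hy : y ∈ D.Xs ν) : ∃ ρ, Bx ρ ∧ y ∈ D.Sr ν ρ := by
  obtain ⟨ρ, h1, k, hk, h2, h3⟩ := exists_type (D := D.dbl) hν hy.2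
  exact ⟨ρ, h1, cj_inv hk.gu y ▸ cj_mem_Sr hk.gu.inv (S0_sub_Sr ⟨si_cj hk.gu hy, h2, h3⟩)⟩

theorem si_key (h0 : ρ none = ρ' none) (hy : y ∈ D.Sr ν ρ) (hz : y ∈ D.dbl.Zr ρ')
    (h5 : D.dbl.wtZ ν ρ' ≤ D.dbl.wtZ ν ρ) : y ∈ D.Sr ν ρ' ∧ D.dbl.Zr ρ ⊆ D.dbl.Zr ρ' := by
  obtain ⟨k, hk, x, hx, rfl⟩ := hy
  obtain ⟨k', hk', z, hz, e⟩ := hz
  have hu : KU D.cl (k'ᴴ * k) := KU.mul hk'.adj hk
  have e' : D.dbl.cnj (k'ᴴ * k) x = z := by
    rw [cj_mul (D := D.dbl) hk'.adj.gu hk.gu, e, ← hk'.inv_eq, cj_inv hk'.gu]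
  have h := ord_ku (D := D.dbl) h0 hx.2.1 hx.1.2 hx.2.2 hu (e' ▸ hz) h5
  refine ⟨⟨k', hk', z, ⟨e' ▸ si_cj hu.gu hx.1, hz, ?_⟩, e⟩, ?_⟩
  · rw [← e', gr, prd_cj (D := D.dbl) hu.gu h]
    exact Stable.cnj hx.2.2 hu.gu
  · rintro _ ⟨l, hl, w, hw, rfl⟩
    rw [← cj_inv (D := D.dbl) hu.gu w]
    exact cj_mem_Zr hl.gu (cj_mem_Zr hu.gu.inv (El_sub_Zr (cj_mem_Ed hu.gu h hw)))

theorem Step.sr_sub (h : D.Step ν ρ U) : D.Sr ν ρ ⊆ U := h.eq ▸ inter_subset_left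

theorem si_pr (h : D.Step ν ρ U) : D.dbl.aN.Pr U (D.dbl.Zr ρ) := by
  obtain ⟨V, hV, e⟩ := h.op
  exact ⟨e ▸ isClosed_M0.isLocallyClosed.inter hV.isLocallyClosed,
    fun u y hy => h.sc _ _ (si_ne (D := D) u.2) (si_chr u.2) _ (h.cnj _ (si_gu u.1) y hy),
    fun u y _ hy => sc_mem_Zr (fun e => chr (D.dbl.t e) u.2)
      (cj_mem_Zr (D := D.dbl) (si_gu u.1) hy),
    fun y hy => closure_minimal inter_subset_right isClosed_Zr hy.2⟩

theorem Step.pr (h : D.Step ν ρ U) : D.dbl.aN.Pr U (D.Sr ν ρ) :=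
  ⟨(si_pr h).lc, (si_pr h).inv, fun u _ _ hy => act_mem_Sr (D := D) u hy, fun y hy => h.eq ▸ ⟨hy.1,
    closure_minimal (inter_subset_right.trans Sr_sub_Zr) isClosed_Zr hy.2⟩⟩

theorem Step.pr_Zr (h : D.Step ν ρ U) : D.dbl.aN.Pr U (D.dbl.Zr ρ) := si_pr h

theorem Step.pr_Sr (h : D.Step ν ρ U) : D.dbl.aN.Pr (D.Sr ν ρ) univ :=
  ⟨h.eq ▸ h.pr.lc.inter isClosed_Zr.isLocallyClosed, fun u _ hy => act_mem_Sr (D := D) u hy,
    fun _ _ _ _ => trivial, subset_univ _⟩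

theorem pr_S0 : (D.aR ρ).Pr (D.S0 ν ρ) univ :=
  ⟨si_lc.inter (isClosed_Ed.isLocallyClosed.inter
    ((isOpen_st (D := D.dbl) ν).preimage continuous_prd).isLocallyClosed),
    fun u _ hy => act_mem_S0 u hy, fun _ _ _ _ => trivial, subset_univ _⟩

theorem pr_Fr : (D.aR ρ).Pr (D.Fr ν ρ) univ :=
  ⟨si_lc.inter isClosed_Ed.isLocallyClosed, fun u _ hy => act_mem_Fr u hy, fun _ _ _ _ => trivial,
    subset_univ _⟩

/-- induction over the strata -/
theorem strata_ind (hν : D.Gen ν) {Q : Set D.dbl.Rep → Prop} (h0 : Q ∅)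
    (hs : ∀ ρ U, D.Step ν ρ U → (D.Sr ν ρ).Nonempty → Q (U \ D.Sr ν ρ) → Q U) : Q (D.Xs ν) := by
  classical
  have hB : {ρ : Option P → ℤ | Bx ρ}.Finite :=
    (Finite.pi' fun _ => finite_Icc _ _).subset fun ρ h o => abs_le.1 (h.2 o)
  have key : ∀ C : Finset (Option P → ℤ),
      (∀ ρ ∈ C, Bx ρ ∧ ∀ ρ', Bx ρ' → ρ' ∉ C → D.dbl.wtZ ν ρ' ≤ D.dbl.wtZ ν ρ) →
      Q {y | y ∈ D.Xs ν ∧ ∀ ρ, Bx ρ ∧ ρ ∉ C → y ∉ D.dbl.Zr ρ} := fun C => by
    induction C using Finset.induction_on_min_value (D.dbl.wtZ ν) with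
    | empty =>
      refine fun _ => (congrArg Q (eq_empty_of_forall_notMem fun y hy => ?_)).mpr h0
      obtain ⟨ρ, h1, h2⟩ := exists_Sr hν hy.1
      exact hy.2 ρ ⟨h1, Finset.notMem_empty _⟩ (Sr_sub_Zr h2)
    | insert a s ha hm ih =>
      intro H
      have Ha := H a (Finset.mem_insert_self a s)
      replace ih := ih fun ρ hρ => ⟨(H ρ (Finset.mem_insert_of_mem hρ)).1, fun ρ' h1 h2 =>
        if e : ρ' = a then e ▸ hm ρ hρ else (H ρ (Finset.mem_insert_of_mem hρ)).2 ρ' h1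
          fun c => (Finset.mem_insert.1 c).elim e h2⟩
      set W := {y | y ∈ D.Xs ν ∧ ∀ ρ, Bx ρ ∧ ρ ∉ insert a s → y ∉ D.dbl.Zr ρ} with hW
      have e1 : {y | y ∈ D.Xs ν ∧ ∀ ρ, Bx ρ ∧ ρ ∉ s → y ∉ D.dbl.Zr ρ} = W \ D.dbl.Zr a :=
        Set.ext fun y => ⟨fun h => ⟨⟨h.1, fun ρ c => h.2 ρ
          ⟨c.1, fun c' => c.2 (Finset.mem_insert_of_mem c')⟩⟩, h.2 a ⟨Ha.1, ha⟩⟩,
          fun h => ⟨h.1.1, fun ρ c => if e : ρ = a then e ▸ h.2 else
            h.1.2 ρ ⟨c.1, fun c' => (Finset.mem_insert.1 c').elim e c.2⟩⟩⟩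
      rw [e1] at ih
      by_cases hn : Disjoint W (D.dbl.Zr a)
      · rwa [hn.sdiff_eq_left] at ih
      obtain ⟨x, x1, x2⟩ := not_disjoint_iff.1 hn
      have e2 : W ∩ D.dbl.Zr a = D.Sr ν a := by
        refine Subset.antisymm (fun y hy => ?_) fun y hy => ⟨⟨Sr_sub_Xs hy, fun ρ c c' => x1.2 ρ c
          ((si_key (Ha.1.1.trans c.1.1.symm) hy c' (Ha.2 ρ c.1 c.2)).2 x2)⟩, Sr_sub_Zr hy⟩
        obtain ⟨ρ, h1, h2⟩ := exists_Sr hν hy.1.1
        refine (si_key (h1.1.trans Ha.1.1.symm) h2 hy.2 ?_).1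
        rcases Finset.mem_insert.1 (not_not.1 fun c => hy.1.2 ρ ⟨h1, c⟩ (Sr_sub_Zr h2)) with c | c
        exacts [c ▸ le_rfl, hm ρ c]
      refine hs a W ⟨Ha.1, fun y hy => hy.1, ⟨D.dbl.St ν ∩ ⋂ ρ ∈ {ρ | Bx ρ ∧ ρ ∉ insert a s},
        (D.dbl.Zr ρ)ᶜ, (isOpen_st ν).inter ((hB.subset fun _ h => h.1).isOpen_biInter
          fun _ _ => isClosed_Zr.isOpen_compl), Set.ext fun y => ?_⟩,
        fun g hg y hy => ⟨si_cj hg hy.1, fun ρ c c' => hy.2 ρ c ?_⟩,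
        fun χ z h1 h2 y hy => ⟨si_sc h1 h2 hy.1, fun ρ c c' => hy.2 ρ c ?_⟩, e2⟩
        ⟨x, e2 ▸ ⟨x1, x2⟩⟩ (by rwa [← e2, diff_self_inter])
      · simp only [mem_inter_iff, mem_iInter₂, ← and_assoc]
        rfl
      · exact cj_inv (D := D.dbl) hg y ▸ cj_mem_Zr hg.inv c'
      · have := sc_mem_Zr χ⁻¹ c'
        rwa [sc_sc, show D.dbl.sc (χ⁻¹ * χ) y = y from funext fun p => by simp [sc, h1]] at this
  have := key hB.toFinset fun ρ h => ⟨hB.mem_toFinset.1 h, fun ρ' c c' =>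
    absurd (hB.mem_toFinset.2 c) c'⟩
  rwa [show {y | y ∈ D.Xs ν ∧ ∀ ρ, Bx ρ ∧ ρ ∉ hB.toFinset → y ∉ D.dbl.Zr ρ} = D.Xs ν from
    Set.ext fun y => and_iff_left fun ρ c => absurd (hB.mem_toFinset.2 c.1) c.2] at this

end Qv

end Pool.Agent.Work.MP_849ab0_ag.G
end
end

-- merged part: Pool.Agent.Work.MP_849ab0_ag.G.H1.T3
section
/-!
The graded tripled quiver of McGerty and Nevins: definitions.  A representation consists of three
copies `W 0`, `W 1`, `W 2` of `V ⊕ ℂ`, maps `a n e, h n : W n → W (n + 1)` and a framing vector in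
the line of `W 0` over the old framing vertex.
-/

noncomputable section

set_option linter.unusedSectionVars false
set_option linter.unusedVariables false

namespace Pool.Agent.Work.MP_849ab0_ag.G

open Set Matrix

/-- three copies -/
abbrev Tr (X : Type) : Type := Option X × Fin 3

/-- the arrows of the graded tripled quiver -/
abbrev E3 (I E : Type) : Type := Option (((E ⊕ E) ⊕ Option I) × Fin 2)

section

variable {P : Type} [Fintype P] [DecidableEq P]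

/-- the block `W m → W n` -/
def bk (M : Mt (Tr P)) (n m : Fin 3) : Mt P := Matrix.of fun b a => M (some (b, n)) (some (a, m))

/-- block diagonal matrices -/
def bd3 (s : ℂ) (g : Fin 3 → Mt P) : Mt (Tr P) :=
  hat s (Matrix.of fun b a => if b.2 = a.2 then g b.2 b.1 a.1 else 0)

/-- the underlying basis vector -/
def pt3 (o : Option (Tr P)) : Option P := o.elim none Prod.fst

/-- an injective function on the three copies -/
def r3 (r : Option P → ℤ) (j : Tr P) : ℤ := 3 * r j.1 + j.2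

end

namespace Qv

variable {I P E κ : Type} [Fintype I] [DecidableEq I] [Fintype P] [DecidableEq P] [Fintype E]
  [Fintype κ] [DecidableEq κ] (D : Qv I P E κ)

/-- the graded tripled quiver -/
def tri : Qv (Tr I) (Tr P) (E3 I E) κ where
  col z := (z.1.map D.col, z.2)
  src e := e.map fun z => (Sum.elim D.dbl.src id z.1, z.2.castSucc)
  tgt e := some (e.elim (none, 0) fun z => (Sum.elim D.dbl.tgt id z.1, z.2.succ))
  t e := e.elim 0 fun z => Sum.elim D.dbl.t (fun _ => 0) z.1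
  h := D.h

/-- the maps `a n e` -/
def wa (W : D.tri.Rep) (n : Fin 2) (e : E ⊕ E) : Mt P :=
  bk (D.tri.mat W (some (.inl e, n))) n.succ n.castSucc

/-- the maps `h n` -/
def wh (W : D.tri.Rep) (n : Fin 2) : Mt P :=
  ∑ i : Option I, bk (D.tri.mat W (some (.inr i, n))) n.succ n.castSucc

/-- the framing vector -/
def wi (W : D.tri.Rep) : ℂ := D.tri.mat W none (some (none, 0)) none

/-- the representation with given maps -/
def mkW (A : Fin 2 → E ⊕ E → Mt P) (h : Fin 2 → Mt P) (s : ℂ) : D.tri.Rep := fun p =>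
  p.1.1.elim s fun z => Sum.elim (A z.2) (fun _ => h z.2) z.1 (pt3 p.1.2.2) (pt3 p.1.2.1)

/-- the graded module of a module -/
def vg (x : D.dbl.Rep) : D.tri.Rep := D.mkW (fun _ => D.dbl.mat x) (fun _ => 1) 1

/-- the stability character before the perturbation -/
def nu30 (ν : I → ℤ) (z : Tr I) : ℤ :=
  ![∑ o, |D.thZ ν o| + 1, z.1.elim (-∑ a, ν (D.col a)) ν, -(∑ o, |D.thZ ν o| + 1)] z.2 -
    if z = (none, 0) then 1 else 0

/-- the stability character of the graded tripled quiver -/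
def nu3 (ν : I → ℤ) : Tr I → ℤ := D.tri.pert (D.nu30 ν)

/-- the coordinates that may be nonzero on a filtered representation -/
def Al (ρ r : Option P → ℤ) (p : D.tri.Wt) : Prop :=
  p.1.1.elim True fun z => Sum.elim (fun _ => ρ (pt3 p.1.2.2) ≤ ρ (pt3 p.1.2.1) + 1)
    (fun _ => r (pt3 p.1.2.2) ≤ r (pt3 p.1.2.1)) z.1

/-- filtered representations -/
def Lin (ρ r : Option P → ℤ) : Set D.tri.Rep := {W | ∀ p, ¬D.Al ρ r p → W p = 0}

/-- the moment map relation -/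
def rmu (W : D.tri.Rep) : Mt P := cxm (D.wa W 1) (D.wa W 0)

/-- the commutation relation -/
def rcm (W : D.tri.Rep) (e : E ⊕ E) : Mt P := D.wa W 1 e * D.wh W 0 - D.wh W 1 * D.wa W 0 e

/-- the affine map of the diagonal argument -/
def phi (W : D.tri.Rep) (x : D.dbl.Rep) (φ η : Mt P) (e : E ⊕ E) : Mt P :=
  cx0 (D.wa W 0) (D.wh W 0) (D.dbl.mat x) φ e + cxs (D.wa W 1) (D.wh W 1) (D.dbl.mat x) η e

/-- the homomorphism `vg x → W` given by `φ : V ⊕ ℂ → W 0` -/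
def hom3 (W : D.tri.Rep) (φ : Mt P) : Mt (Tr P) :=
  bd3 1 ![φ, D.wh W 0 * φ, D.wh W 1 * D.wh W 0 * φ]

/-- the relations hold and `W` lies in the level set -/
structure Good (ν : I → ℤ) (ρ r : Option P → ℤ) (W : D.tri.Rep) : Prop where
  lin : W ∈ D.Lin ρ r
  mu : ∀ a b, D.rmu W (some a) (some b) = 0
  cm : ∀ e, D.rcm W e = 0
  lev : W ∈ D.tri.Lev (D.nu3 ν)

end Qv

end Pool.Agent.Work.MP_849ab0_ag.G
end
end

-- merged part: Pool.Agent.Work.MP_849ab0_ag.G.H1.T3A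
section
/-!
The graded tripled quiver: block calculus.

Hints.  A coordinate `p : D.tri.Wt` is `(none, none, some (none, 0))`, or
`(some (inl e, n), some (a, n.castSucc), some (b, n.succ))` with `(e, a, b)` a coordinate of `D.dbl`,
or `(some (inr i, n), some (a, n.castSucc), some (b, n.succ))` with `a`, `b` of colour `i`
(`wt3_cases`).  `wh W n b a` is the coordinate with `i = cl a` if `cl a = cl b`, else `0`.
`bk_mul`: a matrix supported on the block `(n, m)`.  `hm_bd3`: compare entries; use `tri_ext` on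
`unmat`.  `wa_cnj` etc. follow from `hm_cj` and `hm_bd3`.
-/

noncomputable section

set_option linter.unusedSectionVars false
set_option linter.unusedVariables false

namespace Pool.Agent.Work.MP_849ab0_ag.G

open Set Matrix

section

variable {P : Type} [Fintype P] [DecidableEq P] {s s' : ℂ} {g g' : Fin 3 → Mt P}

theorem T3A_ss (s : ℂ) (g : Fin 3 → Mt P) (b a : Option P) (n m : Fin 3) :
    bd3 s g (some (b, n)) (some (a, m)) = if n = m then g n b a else 0 := rfl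

theorem T3A_ns (s : ℂ) (g : Fin 3 → Mt P) (j : Tr P) : bd3 s g none (some j) = 0 := rfl

theorem T3A_sn (s : ℂ) (g : Fin 3 → Mt P) (j : Tr P) : bd3 s g (some j) none = 0 := rfl

theorem T3A_nn (s : ℂ) (g : Fin 3 → Mt P) : bd3 s g none none = s := rfl

theorem T3A_l (s : ℂ) (g : Fin 3 → Mt P) (M : Mt (Tr P)) (b : Option P) (n : Fin 3)
    (o : Option (Tr P)) :
    (bd3 s g * M) (some (b, n)) o = ∑ c, g n b c * M (some (c, n)) o := by
  simp [Matrix.mul_apply, Fintype.sum_option (α := Tr P), Fintype.sum_prod_type, T3A_ss, T3A_sn]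

theorem T3A_r (s : ℂ) (g : Fin 3 → Mt P) (M : Mt (Tr P)) (a : Option P) (n : Fin 3)
    (o : Option (Tr P)) :
    (M * bd3 s g) o (some (a, n)) = ∑ c, M o (some (c, n)) * g n c a := by
  simp [Matrix.mul_apply, Fintype.sum_option (α := Tr P), Fintype.sum_prod_type, T3A_ss, T3A_ns]

theorem T3A_l0 (s : ℂ) (g : Fin 3 → Mt P) (M : Mt (Tr P)) (o : Option (Tr P)) :
    (bd3 s g * M) none o = s * M none o := by
  simp [Matrix.mul_apply, Fintype.sum_option (α := Tr P), T3A_nn, T3A_ns]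

theorem T3A_r0 (s : ℂ) (g : Fin 3 → Mt P) (M : Mt (Tr P)) (o : Option (Tr P)) :
    (M * bd3 s g) o none = M o none * s := by
  simp [Matrix.mul_apply, Fintype.sum_option (α := Tr P), T3A_nn, T3A_sn]

theorem T3A_bl (s : ℂ) (g : Fin 3 → Mt P) (M : Mt (Tr P)) (n m : Fin 3) :
    bk (bd3 s g * M) n m = g n * bk M n m := by
  ext b a
  exact T3A_l s g M b n _

theorem T3A_br (s : ℂ) (g : Fin 3 → Mt P) (M : Mt (Tr P)) (n m : Fin 3) :
    bk (M * bd3 s g) n m = bk M n m * g m := by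
  ext b a
  exact T3A_r s g M a m _

theorem T3A_badd (M N : Mt (Tr P)) (n m : Fin 3) : bk (M + N) n m = bk M n m + bk N n m := rfl

theorem T3A_bsub (M N : Mt (Tr P)) (n m : Fin 3) : bk (M - N) n m = bk M n m - bk N n m := rfl

theorem T3A_bsmul (z : ℂ) (M : Mt (Tr P)) (n m : Fin 3) : bk (z • M) n m = z • bk M n m := rfl

theorem T3A_bcont (n m : Fin 3) : Continuous fun M : Mt (Tr P) => bk M n m :=
  continuous_matrix fun _ _ => continuous_id.matrix_elem _ _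

theorem bk_bd3 (s : ℂ) (g : Fin 3 → Mt P) (n : Fin 3) : bk (bd3 s g) n n = g n := by
  ext b a
  exact if_pos rfl

theorem bd3_none (s : ℂ) (g : Fin 3 → Mt P) : bd3 s g none none = s := rfl

theorem bd3_mul (s s' : ℂ) (g g' : Fin 3 → Mt P) :
    bd3 s g * bd3 s' g' = bd3 (s * s') fun n => g n * g' n := by
  ext (_ | ⟨b, n⟩) (_ | ⟨a, m⟩)
  · exact T3A_l0 _ _ _ _
  · exact (T3A_l0 _ _ _ _).trans (mul_zero _)
  · exact (T3A_r0 _ _ _ _).trans (zero_mul _)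
  · rw [T3A_l]
    by_cases e : n = m <;> simp [T3A_ss, e, Matrix.mul_apply]

theorem bd3_one : bd3 1 (fun _ => (1 : Mt P)) = 1 := by
  ext (_ | ⟨b, n⟩) (_ | ⟨a, m⟩)
  · rfl
  · rfl
  · rfl
  · by_cases e : n = m <;> simp [T3A_ss, e, Matrix.one_apply]

theorem bd3_adj (s : ℂ) (g : Fin 3 → Mt P) : (bd3 s g)ᴴ = bd3 (star s) fun n => (g n)ᴴ := by
  ext (_ | ⟨b, n⟩) (_ | ⟨a, m⟩)
  · rfl
  · exact star_zero _
  · exact star_zero _
  · rcases eq_or_ne n m with rfl | e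
    · simp [T3A_ss]
    · simp [T3A_ss, e, e.symm]

theorem bd3_neg (s : ℂ) (g : Fin 3 → Mt P) : -bd3 s g = bd3 (-s) fun n => -g n := by
  ext (_ | ⟨b, n⟩) (_ | ⟨a, m⟩)
  · rfl
  · exact neg_zero
  · exact neg_zero
  · by_cases e : n = m <;> simp [T3A_ss, e]

theorem bd3_inj (e : bd3 s g = bd3 s' g') : s = s' ∧ g = g' :=
  ⟨congrFun (congrFun e none) none, funext fun n => by rw [← bk_bd3 s g n, e, bk_bd3]⟩

theorem bd3_diag (d : Option (Tr P) → ℂ) :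
    diagonal d = bd3 (d none) fun n => diagonal fun o => d (some (o, n)) := by
  ext (_ | ⟨b, n⟩) (_ | ⟨a, m⟩)
  · rfl
  · rfl
  · rfl
  · by_cases e : n = m <;> simp [T3A_ss, e, diagonal_apply]

theorem T3A_inv (hs : s ≠ 0) (hg : ∀ n, IsUnit (g n)) :
    bd3 s g * bd3 s⁻¹ (fun n => (g n)⁻¹) = 1 := by
  rw [bd3_mul, mul_inv_cancel₀ hs, ← bd3_one]
  exact congrArg _ (funext fun n => mul_nonsing_inv _ ((isUnit_iff_isUnit_det _).1 (hg n)))

theorem isUnit_bd3 : IsUnit (bd3 s g) ↔ s ≠ 0 ∧ ∀ n, IsUnit (g n) := by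
  constructor
  · intro h
    obtain ⟨M, hM⟩ := h.exists_right_inv
    refine ⟨fun h0 => ?_, fun n => IsUnit.of_mul_eq_one (bk M n n) ?_⟩
    · have h1 := T3A_l0 s g M none
      rw [hM, h0, zero_mul] at h1
      simp at h1
    · rw [← T3A_bl s, hM, ← bd3_one, bk_bd3]
  · exact fun h => IsUnit.of_mul_eq_one _ (T3A_inv h.1 h.2)

theorem bd3_inv (hs : s ≠ 0) (hg : ∀ n, IsUnit (g n)) :
    (bd3 s g)⁻¹ = bd3 s⁻¹ fun n => (g n)⁻¹ := inv_eq_right_inv (T3A_inv hs hg)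

theorem r3_inj {r : Option P → ℤ} (hr : Function.Injective r) : Function.Injective (r3 r) := by
  rintro ⟨a, n⟩ ⟨b, m⟩ e
  simp only [r3] at e
  have h1 : r a = r b ∧ (n : ℕ) = m := by omega
  exact Prod.ext (hr h1.1) (Fin.ext h1.2)

theorem r3_lt {r : Option P → ℤ} (a b : Option P) (n : Fin 3) :
    r3 r (a, n) < r3 r (b, n) ↔ r a < r b := by
  simp only [r3]
  omega

theorem mfil_bd3 {r : Option P → ℤ} {r' : Option (Tr P) → ℤ} (e : ∀ j, r' (some j) = r3 r j) :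
    MFil r' r' 0 (bd3 s g) ↔ ∀ n, MFil r r 0 (g n) := by
  constructor
  · intro h n b a k
    refine (if_pos rfl).symm.trans (h (some (b, n)) (some (a, n)) ?_)
    rw [e, e, add_zero, r3_lt]
    exact add_zero (r a) ▸ k
  · rintro h (_ | ⟨b, n⟩) (_ | ⟨a, m⟩) k
    · omega
    · rfl
    · rfl
    · rcases eq_or_ne n m with rfl | e'
      · rw [e, e, add_zero, r3_lt] at k
        exact (if_pos rfl).trans (h n b a (by omega))
      · exact if_neg e'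

end

namespace Qv

variable {I P E κ : Type} [Fintype I] [DecidableEq I] [Fintype P] [DecidableEq P] [Fintype E]
  [Fintype κ] [DecidableEq κ] {D : Qv I P E κ} {W W' : D.tri.Rep} {s : ℂ} {g : Fin 3 → Mt P}
  {A : Fin 2 → E ⊕ E → Mt P} {h : Fin 2 → Mt P} {ρ r : Option P → ℤ} {ν : I → ℤ}

theorem wt3_cases (p : D.tri.Wt) : p.1 = (none, none, some (none, 0)) ∨
    (∃ (n : Fin 2) (q : D.dbl.Wt),
      p.1 = (some (.inl q.1.1, n), some (q.1.2.1, n.castSucc), some (q.1.2.2, n.succ))) ∨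
    ∃ (n : Fin 2) (a b : Option P), D.cl a = D.cl b ∧
      p.1 = (some (.inr (D.cl a), n), some (a, n.castSucc), some (b, n.succ)) := by
  obtain ⟨⟨e, a, b⟩, h1, h2⟩ := p
  rcases b with _ | ⟨b, m⟩
  · exact absurd h2 (by simp [tri])
  rcases e with _ | ⟨e, n⟩
  · rcases a with _ | a
    · obtain ⟨k1, rfl⟩ := Prod.mk.inj (Option.some.inj h2)
      obtain rfl := Option.map_eq_none_iff.1 k1
      exact Or.inl rfl
    · exact absurd h1 (by simp [tri])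
  rcases a with _ | ⟨a, l⟩
  · exact absurd h1 (by simp [tri])
  obtain ⟨k1, rfl⟩ := Prod.mk.inj (Option.some.inj h1)
  obtain ⟨k2, rfl⟩ := Prod.mk.inj (Option.some.inj h2)
  rcases e with e | i
  · exact Or.inr (Or.inl ⟨n, ⟨(e, a, b), k1, k2⟩, rfl⟩)
  · obtain rfl : D.cl a = i := k1
    exact Or.inr (Or.inr ⟨n, a, b, k2.symm, rfl⟩)

variable (D) in
/-- the coordinate of `a n e` -/
def ca (n : Fin 2) (q : D.dbl.Wt) : D.tri.Wt :=
  ⟨(some (.inl q.1.1, n), some (q.1.2.1, n.castSucc), some (q.1.2.2, n.succ)), by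
    have := q.2
    exact ⟨congrArg (fun z => some (z, n.castSucc)) this.1,
      congrArg (fun z => some (z, n.succ)) this.2⟩⟩

variable (D) in
/-- the coordinate of `h n` -/
def ch (n : Fin 2) {a b : Option P} (e : D.cl a = D.cl b) : D.tri.Wt :=
  ⟨(some (.inr (D.cl a), n), some (a, n.castSucc), some (b, n.succ)),
    ⟨rfl, congrArg (fun z => some (z, n.succ)) e.symm⟩⟩

variable (D) in
/-- the coordinate of the framing vector -/
def cfr : D.tri.Wt := ⟨(none, none, some (none, 0)), ⟨rfl, rfl⟩⟩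

theorem T3A_ind {Q : D.tri.Wt → Prop} (h0 : Q D.cfr) (h1 : ∀ n q, Q (D.ca n q))
    (h2 : ∀ n a b (e : D.cl a = D.cl b), Q (D.ch n e)) (p : D.tri.Wt) : Q p := by
  rcases wt3_cases p with k | ⟨n, q, k⟩ | ⟨n, a, b, e, k⟩
  · exact (Subtype.ext k : p = D.cfr) ▸ h0
  · exact (Subtype.ext k : p = D.ca n q) ▸ h1 n q
  · exact (Subtype.ext k : p = D.ch n e) ▸ h2 n a b e

theorem T3A_zero (W : D.tri.Rep) (n : Fin 2) (z : (E ⊕ E) ⊕ Option I) {a b : Option P}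
    (k : ¬(D.cl a = Sum.elim D.dbl.src id z ∧ D.cl b = Sum.elim D.dbl.tgt id z)) :
    bk (D.tri.mat W (some (z, n))) n.succ n.castSucc b a = 0 :=
  sup_mat W _ _ _ fun k' =>
    k ⟨(Prod.mk.inj (Option.some.inj k'.1)).1, (Prod.mk.inj (Option.some.inj k'.2)).1⟩

theorem wa_app (W : D.tri.Rep) (n : Fin 2) (q : D.dbl.Wt) :
    D.wa W n q.1.1 q.1.2.2 q.1.2.1 = W (D.ca n q) := mat_app W (D.ca n q)

theorem wh_app (W : D.tri.Rep) (n : Fin 2) {a b : Option P} (e : D.cl a = D.cl b) :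
    D.wh W n b a = W (D.ch n e) := by
  rw [wh, Matrix.sum_apply, Finset.sum_eq_single (D.cl a)
    (fun i _ k => T3A_zero W n (.inr i) fun k' => k k'.1.symm) (by simp)]
  exact mat_app W (D.ch n e)

theorem wi_app (W : D.tri.Rep) : D.wi W = W D.cfr := mat_app W D.cfr

theorem sup_wa (W : D.tri.Rep) (n : Fin 2) : D.dbl.Sup (D.wa W n) := fun e _ _ k =>
  T3A_zero W n (.inl e) k

theorem grd_wh (W : D.tri.Rep) (n : Fin 2) : Grd D.cl (D.wh W n) := fun b a k => by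
  rw [wh, Matrix.sum_apply]
  exact Finset.sum_eq_zero fun i _ => T3A_zero W n (.inr i) fun k' => k (k'.2.trans k'.1.symm)

theorem tri_ext (h1 : ∀ n e, D.wa W n e = D.wa W' n e) (h2 : ∀ n, D.wh W n = D.wh W' n)
    (h3 : D.wi W = D.wi W') : W = W' := funext <| T3A_ind (by rw [← wi_app W, h3, wi_app])
  (fun n q => by rw [← wa_app W, h1, wa_app]) fun n a b e => by rw [← wh_app W, h2, wh_app]

theorem wa_mkW (hA : ∀ n, D.dbl.Sup (A n)) (h : Fin 2 → Mt P) (s : ℂ) (n : Fin 2) (e : E ⊕ E) :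
    D.wa (D.mkW A h s) n e = A n e := by
  ext b a
  by_cases k : a.map D.col = D.dbl.src e ∧ b.map D.col = D.dbl.tgt e
  · exact wa_app _ n ⟨(e, a, b), k⟩
  · rw [sup_wa _ n e b a k, hA n e b a k]

theorem wh_mkW (A : Fin 2 → E ⊕ E → Mt P) (hh : ∀ n, Grd D.cl (h n)) (s : ℂ) (n : Fin 2) :
    D.wh (D.mkW A h s) n = h n := by
  ext b a
  by_cases k : D.cl a = D.cl b
  · exact wh_app _ n k
  · rw [grd_wh _ n b a (Ne.symm k), hh n b a (Ne.symm k)]

theorem wi_mkW (A : Fin 2 → E ⊕ E → Mt P) (h : Fin 2 → Mt P) (s : ℂ) : D.wi (D.mkW A h s) = s :=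
  wi_app _

theorem wa_vg (x : D.dbl.Rep) (n : Fin 2) (e : E ⊕ E) : D.wa (D.vg x) n e = D.dbl.mat x e :=
  wa_mkW (fun _ => sup_mat x) _ _ n e

theorem wh_vg (x : D.dbl.Rep) (n : Fin 2) : D.wh (D.vg x) n = 1 := wh_mkW _ (fun _ => Grd.one) _ n

theorem wi_vg (x : D.dbl.Rep) : D.wi (D.vg x) = 1 := wi_mkW _ _ _

theorem wa_add (W W' : D.tri.Rep) (n : Fin 2) (e : E ⊕ E) :
    D.wa (W + W') n e = D.wa W n e + D.wa W' n e := by
  simp only [wa, mat_addH, T3A_badd]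

theorem wa_smul (z : ℂ) (W : D.tri.Rep) (n : Fin 2) (e : E ⊕ E) :
    D.wa (z • W) n e = z • D.wa W n e := by
  simp only [wa, mat_smulH, T3A_bsmul]

theorem wh_add (W W' : D.tri.Rep) (n : Fin 2) : D.wh (W + W') n = D.wh W n + D.wh W' n := by
  simp only [wh, mat_addH, T3A_badd, Finset.sum_add_distrib]

theorem wh_smul (z : ℂ) (W : D.tri.Rep) (n : Fin 2) : D.wh (z • W) n = z • D.wh W n := by
  simp only [wh, mat_smulH, T3A_bsmul, Finset.smul_sum]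

theorem cont_wa (n : Fin 2) (e : E ⊕ E) : Continuous fun W : D.tri.Rep => D.wa W n e :=
  (T3A_bcont _ _).comp (cont_mat _)

theorem cont_wh (n : Fin 2) : Continuous fun W : D.tri.Rep => D.wh W n :=
  continuous_finsetSum _ fun _ _ => (T3A_bcont _ _).comp (cont_mat _)

theorem cont_wi : Continuous D.wi := (cont_mat (D := D.tri) none).matrix_elem _ _

theorem grd_bd3 : Grd D.tri.cl (bd3 s g) ↔ ∀ n, Grd D.cl (g n) := by
  constructor
  · intro h n b a k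
    exact (if_pos rfl).symm.trans
      (h (some (b, n)) (some (a, n)) fun k' => k (Prod.mk.inj (Option.some.inj k')).1)
  · rintro h (_ | ⟨b, n⟩) (_ | ⟨a, m⟩) k
    · exact absurd rfl k
    · rfl
    · rfl
    · rcases eq_or_ne n m with rfl | e
      · exact (if_pos rfl).trans (h n b a fun k' => k (congrArg (fun z => some (z, n)) k'))
      · exact if_neg e

theorem eq_bd3 {ξ : Mt (Tr P)} (h1 : Grd D.tri.cl ξ) : ξ = bd3 (ξ none none) fun n => bk ξ n n := by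
  ext (_ | ⟨b, n⟩) (_ | ⟨a, m⟩)
  · rfl
  · exact h1 _ _ (by simp)
  · exact h1 _ _ (by simp)
  · rcases eq_or_ne n m with rfl | e
    · exact (if_pos rfl).symm
    · exact (h1 (some (b, n)) (some (a, m)) fun k => e (Prod.mk.inj (Option.some.inj k)).2).trans
        (if_neg e).symm

theorem gu_bd3 : GU D.tri.cl (bd3 s g) ↔ s ≠ 0 ∧ ∀ n, GU D.cl (g n) :=
  ⟨fun h => ⟨(isUnit_bd3.1 h.unit).1, fun n => ⟨grd_bd3.1 h.grd n, (isUnit_bd3.1 h.unit).2 n⟩⟩,
    fun h => ⟨grd_bd3.2 fun n => (h.2 n).grd, isUnit_bd3.2 ⟨h.1, fun n => (h.2 n).unit⟩⟩⟩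

theorem ku_bd3 : KU D.tri.cl (bd3 s g) ↔ ‖s‖ = 1 ∧ ∀ n, KU D.cl (g n) := by
  have h0 : star s * s = 1 ↔ ‖s‖ = 1 := by
    rw [Complex.star_def, Complex.conj_mul', ← Complex.ofReal_pow, Complex.ofReal_eq_one,
      pow_eq_one_iff_of_nonneg (norm_nonneg s) two_ne_zero]
  constructor
  · intro h
    have h1 := h.uni
    rw [bd3_adj, bd3_mul, ← bd3_one] at h1
    exact ⟨h0.1 (bd3_inj h1).1, fun n => ⟨grd_bd3.1 h.grd n, congrFun (bd3_inj h1).2 n⟩⟩
  · refine fun h => ⟨grd_bd3.2 fun n => (h.2 n).grd, ?_⟩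
    rw [bd3_adj, bd3_mul, h0.2 h.1, ← bd3_one]
    exact congrArg _ (funext fun n => (h.2 n).uni)

theorem T3A_i (s : ℂ) (g : Fin 3 → Mt P) (W : D.tri.Rep) :
    (bd3 s g * D.tri.mat W none) (some (none, 0)) none = g 0 none none * D.wi W := by
  rw [T3A_l, Fintype.sum_option, Finset.sum_eq_zero fun c _ => ?_, add_zero, wi]
  exact mul_eq_zero_of_right _ (sup_mat W _ _ _ (by simp [tri]))

theorem hm_bd3 (hg : ∀ n, Grd D.cl (g n)) : D.tri.Hm (bd3 s g) W W' ↔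
    (∀ (n : Fin 2) e, g n.succ * D.wa W n e = D.wa W' n e * g n.castSucc) ∧
    (∀ n : Fin 2, g n.succ * D.wh W n = D.wh W' n * g n.castSucc) ∧
      g 0 none none * D.wi W = D.wi W' * s := by
  have h0 := (grd_bd3 (s := s)).2 hg
  constructor
  · intro h
    refine ⟨fun n e => ?_, fun n => ?_, ?_⟩
    · rw [wa, wa, ← T3A_bl s, h.comm, T3A_br]
    · simp only [wh, Finset.mul_sum, Finset.sum_mul, ← T3A_bl s, h.comm, T3A_br]
    · rw [← T3A_i s g W, h.comm, T3A_r0, wi]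
  · rintro ⟨h1, h2, h3⟩
    have k1 := mat_unmat ((sup_mat W).mul h0 Grd.one)
    have k2 := mat_unmat ((sup_mat W').mul Grd.one h0)
    simp only [Matrix.mul_one, Matrix.one_mul] at k1 k2
    refine ⟨h0, fun e => (congrFun k1 e).symm.trans (Eq.trans ?_ (congrFun k2 e))⟩
    refine congrArg (D.tri.mat · e) (tri_ext (fun n e => ?_) (fun n => ?_) ?_)
    · rw [wa, wa, k1, k2, T3A_bl, T3A_br]
      exact h1 n e
    · simpa only [wh, k1, k2, T3A_bl, T3A_br, Finset.mul_sum, Finset.sum_mul] using h2 n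
    · rw [wi, wi, k1, k2]
      exact (T3A_i s g W).trans (h3.trans (T3A_r0 _ _ _ _).symm)

theorem wa_cnj (hs : s ≠ 0) (hg : ∀ n, GU D.cl (g n)) (W : D.tri.Rep) (n : Fin 2) (e : E ⊕ E) :
    D.wa (D.tri.cnj (bd3 s g) W) n e = g n.succ * D.wa W n e * (g n.castSucc)⁻¹ := by
  rw [wa, mat_cj (gu_bd3.2 ⟨hs, hg⟩).grd, bd3_inv hs fun n => (hg n).unit, T3A_br, T3A_bl, wa]

theorem wh_cnj (hs : s ≠ 0) (hg : ∀ n, GU D.cl (g n)) (W : D.tri.Rep) (n : Fin 2) :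
    D.wh (D.tri.cnj (bd3 s g) W) n = g n.succ * D.wh W n * (g n.castSucc)⁻¹ := by
  simp only [wh, mat_cj (gu_bd3.2 ⟨hs, hg⟩).grd, bd3_inv hs fun n => (hg n).unit, T3A_br, T3A_bl,
    Finset.mul_sum, Finset.sum_mul]

theorem wi_cnj (hs : s ≠ 0) (hg : ∀ n, GU D.cl (g n)) (W : D.tri.Rep) :
    D.wi (D.tri.cnj (bd3 s g) W) = g 0 none none * D.wi W * s⁻¹ := by
  rw [wi, mat_cj (gu_bd3.2 ⟨hs, hg⟩).grd, bd3_inv hs fun n => (hg n).unit, T3A_r0, T3A_i]

theorem wa_ad (hg : ∀ n, Grd D.cl (g n)) (W : D.tri.Rep) (n : Fin 2) (e : E ⊕ E) :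
    D.wa (D.tri.ad (bd3 s g) W) n e = g n.succ * D.wa W n e - D.wa W n e * g n.castSucc := by
  rw [wa, mat_ad (grd_bd3.2 hg), T3A_bsub, T3A_br, T3A_bl, wa]

theorem wh_ad (hg : ∀ n, Grd D.cl (g n)) (W : D.tri.Rep) (n : Fin 2) :
    D.wh (D.tri.ad (bd3 s g) W) n = g n.succ * D.wh W n - D.wh W n * g n.castSucc := by
  simp only [wh, mat_ad (grd_bd3.2 hg), T3A_bsub, T3A_br, T3A_bl, Finset.mul_sum, Finset.sum_mul,
    Finset.sum_sub_distrib]

theorem wi_ad (hg : ∀ n, Grd D.cl (g n)) (W : D.tri.Rep) :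
    D.wi (D.tri.ad (bd3 s g) W) = g 0 none none * D.wi W - D.wi W * s := by
  rw [wi, mat_ad (grd_bd3.2 hg), Matrix.sub_apply, T3A_r0, T3A_i, wi]

theorem wa_sc (χ : E3 I E → ℂ) (W : D.tri.Rep) (n : Fin 2) (e : E ⊕ E) :
    D.wa (D.tri.sc χ W) n e = χ (some (.inl e, n)) • D.wa W n e := by
  rw [wa, mat_sc, T3A_bsmul, wa]

theorem wh_sc {χ : E3 I E → ℂ} (h1 : ∀ i n, χ (some (.inr i, n)) = 1) (W : D.tri.Rep) (n : Fin 2) :
    D.wh (D.tri.sc χ W) n = D.wh W n := by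
  simp only [wh, mat_sc, h1, one_smul]

theorem wi_sc (χ : E3 I E → ℂ) (W : D.tri.Rep) : D.wi (D.tri.sc χ W) = χ none * D.wi W := by
  rw [wi_app, wi_app]
  rfl

theorem mem_Lin : W ∈ D.Lin ρ r ↔
    (∀ n e, MFil ρ ρ 1 (D.wa W n e)) ∧ ∀ n, MFil r r 0 (D.wh W n) := by
  constructor
  · refine fun h => ⟨fun n e b a k => ?_, fun n b a k => ?_⟩
    · by_cases k' : a.map D.col = D.dbl.src e ∧ b.map D.col = D.dbl.tgt e
      · exact (wa_app W n ⟨(e, a, b), k'⟩).trans (h _ (not_le.2 k))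
      · exact sup_wa W n e b a k'
    · by_cases k' : D.cl a = D.cl b
      · exact (wh_app W n k').trans (h _ (not_le.2 (add_zero (r a) ▸ k)))
      · exact grd_wh W n b a (Ne.symm k')
  · rintro ⟨h1, h2⟩
    exact T3A_ind (fun k => (k trivial).elim)
      (fun n q k => (wa_app W n q).symm.trans (h1 n _ _ _ (not_le.1 k)))
      fun n a b e k => (wh_app W n e).symm.trans (h2 n _ _ ((add_zero (r a)).symm ▸ not_le.1 k))

/-- every arrow raises the level by one -/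
theorem tri_acyclic (p : D.tri.Wt) :
    p.1.2.1.elim (0 : ℤ) (fun j => (j.2 : ℤ) + 1) + 1 = p.1.2.2.elim 0 fun j => (j.2 : ℤ) + 1 := by
  rcases wt3_cases p with k | ⟨n, q, k⟩ | ⟨n, a, b, e, k⟩ <;> rw [k] <;> simp

theorem gen_nu3 (ν : I → ℤ) : D.tri.Gen (D.nu3 ν) := gen_pert _

end Qv

end Pool.Agent.Work.MP_849ab0_ag.G
end
end

-- merged part: Pool.Agent.Work.MP_849ab0_ag.G.H1.T3B
section
/-!
The graded module of a stable module is stable; solutions and their tangent vectors.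

Hints.  `vg_stable0`: `stable_iff`.  A graded projection of the tripled quiver is `bd3 s Q` (`eq_bd3`,
`grd_bd3`, `bd3_mul`, `bd3_adj`, `bd3_inj`) with `s * s = s` and graded projections `Q n`.
`Pres (bd3 s Q) (mat (vg x) e)` for the three kinds of arrows gives (take blocks `bk · n.succ n.castSucc`,
sum the arrows `inr i` over `i`) `(1 - Q n.succ) * mat x e * Q n.castSucc = 0`,
`(1 - Q n.succ) * Q n.castSucc = 0`, `(1 - Q 0 none none) * s = 0`.  With `N = ∑ |thZ ν o| + 1`, the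
weight is `s - Q 0 none none + N (rk Q 0 - rk Q 2) + wtr (th ν) (Q 1)` (`sum_thZ` gives
`tri.thZ nu30 none = 1`), where `rk = wtr (fun _ => 1)` is an integer (`IsPr.wtr_int`), and
`Q 0 none none ∈ {0, 1}`.  If `rk Q 0 < rk Q 2` it is negative since `wtr (th ν) (Q 1) ≤ N - 1`.
Otherwise `Q 0 = Q 1 = Q 2` (`IsPr.eq_of_le`, monotonicity of `rk`), an invariant projection for `x`.
-/

noncomputable section

set_option linter.unusedSectionVars false
set_option linter.unusedVariables false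

namespace Pool.Agent.Work.MP_849ab0_ag.G

open Set Topology Matrix

namespace Qv

variable {I P E κ : Type} [Fintype I] [DecidableEq I] [Fintype P] [DecidableEq P] [Fintype E]
  [Fintype κ] [DecidableEq κ] {D : Qv I P E κ} {ν : I → ℤ} {ρ r : Option P → ℤ}
  {W W' δ : D.tri.Rep} {x y ε : D.dbl.Rep} {φ φ' η ζ : Mt P}

theorem T3B_some (a : Option P) (n : Fin 3) : D.tri.thZ (D.nu30 ν) (some (a, n)) =
    ![∑ o, |D.thZ ν o| + 1, D.thZ ν a, -(∑ o, |D.thZ ν o| + 1)] n -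
      if n = 0 ∧ a = none then 1 else 0 := by
  rcases a with _ | a
  · simp [thZ, tri, nu30]
  · simp [thZ, tri, nu30]

theorem T3B_none : D.tri.thZ (D.nu30 ν) none = 1 := by
  have h := sum_thZ (D := D.tri) (ν := D.nu30 ν)
  rw [Fintype.sum_option, Fintype.sum_prod_type] at h
  simp only [T3B_some, Fin.sum_univ_three] at h
  have h2 := sum_thZ (D := D) (ν := ν)
  generalize (∑ o, |D.thZ ν o| + 1 : ℤ) = N at h
  simp [Finset.sum_add_distrib, Finset.sum_sub_distrib] at h h2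
  linarith

theorem T3B_wtr (s : ℂ) (Q : Fin 3 → Mt P) : wtr (D.tri.th (D.nu30 ν)) (bd3 s Q) =
    s.re - (Q 0 none none).re + ((∑ o, |D.thZ ν o| + 1 : ℤ) : ℝ) *
      (wtr (fun _ => 1) (Q 0) - wtr (fun _ => 1) (Q 2)) + wtr (D.th ν) (Q 1) := by
  simp only [wtr, th]
  rw [Fintype.sum_option (α := Tr P), Fintype.sum_prod_type, T3B_none]
  simp only [T3B_some, Fin.sum_univ_three, T3A_ss, T3A_nn]
  generalize (∑ o, |D.thZ ν o| + 1 : ℤ) = N
  simp [Finset.sum_add_distrib, Finset.sum_sub_distrib, sub_mul, ← Finset.mul_sum]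
  ring

theorem T3B_idem {s : ℂ} (h : s * s = s) : s = 0 ∨ s = 1 := by
  rcases eq_or_ne s 0 with k | k
  · exact Or.inl k
  · exact Or.inr (mul_left_cancel₀ k (h.trans (mul_one s).symm))

theorem T3B_mono {J C : Type} [Fintype J] [DecidableEq J] {c : J → C} {Q Q' : Matrix J J ℂ}
    (h1 : IsPr c Q) (h2 : IsPr c Q') (e : Q' * Q = Q) :
    wtr (fun _ => 1) Q ≤ wtr (fun _ => 1) Q' := by
  rcases le_total (wtr (fun _ => 1) Q) (wtr (fun _ => 1) Q') with k | k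
  · exact k
  · rw [h1.eq_of_le h2 e k]

theorem vg_stable0 (hx : D.dbl.Stable ν x) : D.tri.Stable (D.nu30 ν) (D.vg x) := by
  rw [stable_iff] at hx ⊢
  intro M hM hp h0 h1
  obtain ⟨s, Q, rfl⟩ : ∃ s Q, M = bd3 s Q := ⟨_, _, eq_bd3 (D := D) hM.2.2⟩
  obtain ⟨a1, a2, a3⟩ := hM
  rw [bd3_adj] at a1
  rw [bd3_mul] at a2
  have hQ : ∀ n, IsPr D.cl (Q n) := fun n =>
    ⟨congrFun (bd3_inj a1).2 n, congrFun (bd3_inj a2).2 n, (grd_bd3 (D := D)).1 a3 n⟩
  have hs := T3B_idem (bd3_inj a2).1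
  have hq : Q 0 none none = 0 ∨ Q 0 none none = 1 := T3B_idem (by
    rw [← Grd.mul_none (c := D.col) (hQ 0).2.2, (hQ 0).2.1])
  simp only [spec_pres] at hp hx
  have ha : ∀ (n : Fin 2) e, Q n.succ * (D.dbl.mat x e * Q n.castSucc) =
      D.dbl.mat x e * Q n.castSucc := fun n e => by
    have := congrArg (bk · n.succ n.castSucc) (hp (some (.inl e, n)))
    simp only [T3A_bl, T3A_br] at this
    rwa [← wa, wa_vg] at this
  have hh : ∀ n : Fin 2, Q n.succ * Q n.castSucc = Q n.castSucc := fun n => by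
    have : Q n.succ * (D.wh (D.vg x) n * Q n.castSucc) = D.wh (D.vg x) n * Q n.castSucc := by
      simp only [wh, Finset.mul_sum, Finset.sum_mul]
      refine Finset.sum_congr rfl fun i _ => ?_
      have := congrArg (bk · n.succ n.castSucc) (hp (some (.inr i, n)))
      simpa only [T3A_bl, T3A_br] using this
    rwa [wh_vg, Matrix.one_mul] at this
  have hi : Q 0 none none * s = s := by
    have := congrFun (congrFun (hp none) (some (none, 0))) none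
    rwa [← Matrix.mul_assoc, T3A_r0, T3A_r0, T3A_i, ← wi, wi_vg, mul_one, one_mul] at this
  have h01 : Q 1 * Q 0 = Q 0 := hh 0
  have h12 : Q 2 * Q 1 = Q 1 := hh 1
  have hsq : s.re - (Q 0 none none).re ≤ 0 := by
    rcases hs with rfl | rfl
    · rcases hq with k | k <;> simp [k]
    · rw [mul_one] at hi
      simp [hi]
  have m1 := T3B_mono (hQ 0) (hQ 1) h01
  have m2 := T3B_mono (hQ 1) (hQ 2) h12
  rw [T3B_wtr]
  rcases le_or_gt (wtr (fun _ => 1) (Q 2)) (wtr (fun _ => 1) (Q 0)) with k | k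
  · have e1 : Q 1 = Q 0 := (hQ 0).eq_of_le (hQ 1) h01 (m2.trans k)
    have e2 : Q 2 = Q 1 := (hQ 1).eq_of_le (hQ 2) h12 (k.trans m1)
    have e3 : Q = fun _ => Q 0 := by
      funext n
      fin_cases n
      · rfl
      · exact e1
      · exact e2.trans e1
    rw [e2, e1, sub_self, mul_zero, add_zero]
    rcases eq_or_ne (Q 0) 0 with b0 | b0
    · refine absurd ?_ h0
      rw [b0, Matrix.zero_apply, zero_mul] at hi
      rw [e3, b0, ← hi]
      ext (_ | ⟨b, n⟩) (_ | ⟨a, m⟩)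
      · rfl
      · rfl
      · rfl
      · simp [T3A_ss]
    rcases eq_or_ne (Q 0) 1 with b1 | b1
    · rcases hs with rfl | rfl
      · rw [b1, wtr_one, sum_th]
        simp
      · exact absurd (by rw [e3, b1, bd3_one]) h1
    · have := hx (Q 0) (hQ 0) (fun e => by
        have := ha 0 e
        change Q 1 * (_ * Q 0) = _ * Q 0 at this
        rwa [e1] at this) b0 b1
      change wtr (D.th ν) (Q 0) < 0 at this
      linarith
  · obtain ⟨S0, -, -, c0⟩ := (hQ 0).wtr_int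
    obtain ⟨S1, -, -, c1⟩ := (hQ 1).wtr_int
    obtain ⟨S2, -, -, c2⟩ := (hQ 2).wtr_int
    rw [c0 _ fun _ _ _ => rfl, c2 _ fun _ _ _ => rfl] at k ⊢
    rw [c1 _ th_cl]
    simp only [Finset.sum_const, nsmul_eq_mul, mul_one, th] at k ⊢
    have k1 : (S0.card : ℤ) + 1 ≤ S2.card := by exact_mod_cast k
    have k2 : ∑ o ∈ S1, D.thZ ν o ≤ ∑ o, |D.thZ ν o| :=
      (Finset.sum_le_sum fun o _ => le_abs_self _).trans
        (Finset.sum_le_sum_of_subset_of_nonneg (Finset.subset_univ _) fun _ _ _ => abs_nonneg _)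
    have k3 : 0 ≤ ∑ o, |D.thZ ν o| := Finset.sum_nonneg fun _ _ => abs_nonneg _
    have k4 : (∑ o, |D.thZ ν o| + 1) * ((S0.card : ℤ) - S2.card) + ∑ o ∈ S1, D.thZ ν o < 0 := by
      nlinarith
    have k5 : ((∑ o, |D.thZ ν o| + 1 : ℤ) : ℝ) * ((S0.card : ℝ) - S2.card) +
        ∑ o ∈ S1, (D.thZ ν o : ℝ) < 0 := by exact_mod_cast k4
    linarith

theorem vg_stable (hx : D.dbl.Stable ν x) : D.tri.Stable (D.nu3 ν) (D.vg x) := (vg_stable0 hx).pert

theorem Good.stable (h : D.Good ν ρ r W) : D.tri.Stable (D.nu3 ν) W := lev_stable (gen_nu3 ν) h.lev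

/-- `r` is a total order that refines `ρ` -/
structure Rf (ρ r : Option P → ℤ) : Prop where
  inj : Function.Injective r
  lt : ∀ a b, ρ a < ρ b → r a < r b

/-- the diagonal matrix on the copy `n` -/
def tg (t : Tr P → Circle) (n : Fin 3) : Mt P := diagonal fun o => (t (o, n) : ℂ)

variable (D) in
/-- `φ` defines a homomorphism `vg x → W` -/
structure Sol (ν : I → ℤ) (ρ r : Option P → ℤ) (W : D.tri.Rep) (x : D.dbl.Rep) (φ : Mt P) :
    Prop where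
  good : D.Good ν ρ r W
  xs : x ∈ D.Xs ν
  grd : Grd D.cl φ
  fr : φ none none = D.wi W
  eq : ∀ e, D.wa W 0 e * φ = D.wh W 0 * φ * D.dbl.mat x e

variable (D) in
/-- the entries of `φ` below the diagonal of the Levi factor vanish -/
def Stair (ρ r : Option P → ℤ) (φ : Mt P) : Prop :=
  ∀ b a, D.col b = D.col a → ρ (some b) = ρ (some a) → r (some a) < r (some b) →
    φ (some b) (some a) = 0

variable (D) in
/-- the derivative of `rmu` -/
def drmu (W δ : D.tri.Rep) : Mt P := cxm (D.wa δ 1) (D.wa W 0) + cxm (D.wa W 1) (D.wa δ 0)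

variable (D) in
/-- the derivative of `rcm` -/
def drcm (W δ : D.tri.Rep) (e : E ⊕ E) : Mt P :=
  D.wa δ 1 e * D.wh W 0 + D.wa W 1 e * D.wh δ 0 - (D.wh δ 1 * D.wa W 0 e + D.wh W 1 * D.wa δ 0 e)

variable (D) in
/-- the derivative of `cx0` -/
def dcx (W : D.tri.Rep) (y : D.dbl.Rep) (φ : Mt P) (δ : D.tri.Rep) (ε : D.dbl.Rep) (ζ : Mt P)
    (e : E ⊕ E) : Mt P :=
  D.wa δ 0 e * φ + D.wa W 0 e * ζ -
    ((D.wh δ 0 * φ + D.wh W 0 * ζ) * D.dbl.mat y e + D.wh W 0 * φ * D.dbl.mat ε e)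

variable (D) in
/-- the linearised equations at `(W, y, φ, 0)` -/
structure Tan (ρ r : Option P → ℤ) (W : D.tri.Rep) (y : D.dbl.Rep) (φ : Mt P) (δ : D.tri.Rep)
    (ε : D.dbl.Rep) (ζ η : Mt P) : Prop where
  lin : δ ∈ D.Lin ρ r
  mu : ∀ a b, D.drmu W δ (some a) (some b) = 0
  cm : ∀ e, D.drcm W δ e = 0
  lev : D.tri.dmuR W δ = 0
  grd : Grd D.cl ζ
  fr : ζ none none = D.wi δ
  grd' : Grd D.cl η
  fr' : η none none = 0
  dmu : D.dmu y ε = 0
  eq : ∀ e, D.dcx W y φ δ ε ζ e + cxs (D.wa W 1) (D.wh W 1) (D.dbl.mat y) η e = 0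


end Qv

end Pool.Agent.Work.MP_849ab0_ag.G
end
end

-- merged part: Pool.Agent.Work.MP_849ab0_ag.G.H1.MnA
section
/-!
The zeros of the affine map `phi` are the isomorphisms `vg x ≃ W`.

Hints.  Write `a n e = wa W n e`, `h n = wh W n`; `rcm = 0` is `a 1 e * h 0 = h 1 * a 0 e`.
`Good.eta`: `cxs_eq_zero`; `bd3 0 ![ηᴴ * h 1 * h 0, ηᴴ * h 1, ηᴴ]` is a homomorphism `W → vg x`
(`hm_bd3`, `Grd.mul_none`), `Stable.hom_zero`, `bd3_inj`.  `Good.split`: `cx1_cx0`, `mem_M0`,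
`mu_eq_cxm`, `trace_frame`, `cx_split`.  `Good.inj`: `Good.hm` with `s = 0`, `Stable.hom_zero`.
`Sol.gu3`: `Stable.hom_gu`; `gu_bd3`; `h 0 = (h 0 * φ) * φ⁻¹`.  `Sol.el`: `mat (cnj φ x) e =
(h 0)⁻¹ * a 0 e`, `mem_Lin`, `MFil.refine`, `MFil.inv`, `MFil.mul`, `mem_Ed_Iic`.  `Sol.tri`:
`mfil_of_S0`.  `exists_sol`: `exists_tri` for `vg y` and `r' = fun o => o.elim 0 (r3 r)`, `eq_bd3`,
`mfil_bd3`, `wa_cnj`, `wh_cnj`, `wi_cnj`; `rmu W = g 2 * mu y * (g 0)⁻¹`.  `Sol.orbit`: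
`u = hom3 W' φ' * (hom3 W φ)⁻¹` is unitary by `lev_unique`; its blocks are triangular and unitary,
hence diagonal (`KU.grd_of_mfil`, `r` injective) with entries of norm one.
-/

noncomputable section

set_option linter.unusedSectionVars false
set_option linter.unusedVariables false

namespace Pool.Agent.Work.MP_849ab0_ag.G

open Set Topology Matrix

namespace Qv

variable {I P E κ : Type} [Fintype I] [DecidableEq I] [Fintype P] [DecidableEq P] [Fintype E]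
  [Fintype κ] [DecidableEq κ] {D : Qv I P E κ} {ν : I → ℤ} {ρ r : Option P → ℤ}
  {W W' δ : D.tri.Rep} {x y ε : D.dbl.Rep} {φ φ' η ζ : Mt P}

theorem MnA_cm (h : D.Good ν ρ r W) (e : E ⊕ E) :
    D.wa W 1 e * D.wh W 0 = D.wh W 1 * D.wa W 0 e := sub_eq_zero.1 (h.cm e)

theorem MnA_grd {a b c : Mt P} (ha : Grd D.cl a) (hb : Grd D.cl b) (hc : Grd D.cl c) (n : Fin 3) :
    Grd D.cl (![a, b, c] n) := by
  fin_cases n
  exacts [ha, hb, hc]

theorem MnA_zero {s : ℂ} {g : Fin 3 → Mt P} (h : bd3 s g = 0) (n : Fin 3) : g n = 0 := by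
  rw [← bk_bd3 s g n, h]
  rfl

theorem MnA_one (h : D.Good ν ρ r W)
    (h4 : ∀ e, D.wa W 0 e * φ = D.wh W 0 * φ * D.dbl.mat x e) (e : E ⊕ E) :
    D.wa W 1 e * (D.wh W 0 * φ) = D.wh W 1 * D.wh W 0 * φ * D.dbl.mat x e := by
  rw [← Matrix.mul_assoc, MnA_cm h, Matrix.mul_assoc, h4]
  simp only [Matrix.mul_assoc]

theorem MnA_mfil (h : D.Good ν ρ r W) (k : MFil r r 0 φ) (n : Fin 3) :
    MFil r r 0 (![φ, D.wh W 0 * φ, D.wh W 1 * D.wh W 0 * φ] n) := by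
  have l := (mem_Lin.1 h.lin).2
  fin_cases n
  exacts [k, QR_mul (l 0) k, QR_mul (QR_mul (l 1) (l 0)) k]

theorem MnA_diag {J C : Type} [Fintype J] [DecidableEq J] {c : J → C} {r : J → ℤ}
    (hr : Function.Injective r) {k : Matrix J J ℂ} (h1 : KU c k) (h2 : MFil r r 0 k) :
    ∃ t : J → Circle, k = diagonal fun o => (t o : ℂ) := by
  have hd : k = diagonal fun o => k o o := by
    ext a b
    by_cases e : a = b
    · rw [e, diagonal_apply_eq]
    · rw [diagonal_apply_ne _ e, h1.grd_of_mfil h2 a b fun e' => e (hr e')]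
  have hn : ∀ o, ‖k o o‖ = 1 := fun o => by
    have e := QR_diag_mul hr (h1.inv_eq ▸ h2.inv) h2 o
    rw [h1.uni, one_apply_eq, conjTranspose_apply] at e
    have e' := congrArg norm e
    rw [norm_mul, norm_star, norm_one] at e'
    nlinarith [norm_nonneg (k o o)]
  exact ⟨fun o => ⟨k o o, mem_sphere_zero_iff_norm.2 (hn o)⟩, hd⟩

theorem Good.eta (h : D.Good ν ρ r W) (hx : D.dbl.Stable ν x) (h2 : Grd D.cl η)
    (h3 : η none none = 0) (h4 : ∀ e, cxs (D.wa W 1) (D.wh W 1) (D.dbl.mat x) η e = 0) : η = 0 := by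
  have k := cxs_eq_zero.1 h4
  have g0 := grd_wh W 0
  have g1 := grd_wh W 1
  have hm : D.tri.Hm (bd3 0 ![ηᴴ * D.wh W 1 * D.wh W 0, ηᴴ * D.wh W 1, ηᴴ]) W (D.vg x) := by
    refine (hm_bd3 (MnA_grd ((h2.adj.mul g1).mul g0) (h2.adj.mul g1) h2.adj)).2
      ⟨Fin.forall_fin_two.2 ⟨fun e => ?_, fun e => ?_⟩, Fin.forall_fin_two.2 ⟨?_, ?_⟩, ?_⟩
    · change ηᴴ * D.wh W 1 * D.wa W 0 e = D.wa (D.vg x) 0 e * (ηᴴ * D.wh W 1 * D.wh W 0)
      rw [wa_vg, Matrix.mul_assoc, ← MnA_cm h, ← Matrix.mul_assoc, k]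
      simp only [Matrix.mul_assoc]
    · change ηᴴ * D.wa W 1 e = D.wa (D.vg x) 1 e * (ηᴴ * D.wh W 1)
      rw [wa_vg, k, Matrix.mul_assoc]
    · change ηᴴ * D.wh W 1 * D.wh W 0 = D.wh (D.vg x) 0 * (ηᴴ * D.wh W 1 * D.wh W 0)
      rw [wh_vg, Matrix.one_mul]
    · change ηᴴ * D.wh W 1 = D.wh (D.vg x) 1 * (ηᴴ * D.wh W 1)
      rw [wh_vg, Matrix.one_mul]
    · change (ηᴴ * D.wh W 1 * D.wh W 0) none none * D.wi W = _
      rw [Matrix.mul_assoc, h2.adj.mul_none, conjTranspose_apply, h3, star_zero, zero_mul, zero_mul,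
        mul_zero]
  exact conjTranspose_eq_zero.1 (MnA_zero (h.stable.hom_zero (vg_stable hx) hm rfl) 2)

theorem Good.split (h : D.Good ν ρ r W) (hx : x ∈ D.Xs ν) (h1 : Grd D.cl φ) (h2 : Grd D.cl η)
    (h3 : η none none = 0) (h4 : ∀ e, D.phi W x φ η e = 0) :
    η = 0 ∧ ∀ e, D.wa W 0 e * φ = D.wh W 0 * φ * D.dbl.mat x e := by
  have m1 : cxm (D.dbl.mat x) (D.dbl.mat x) = 0 := mem_M0.1 hx.1
  have k := cx_split (by
    rw [cx1_cx0 (MnA_cm h), m1, Matrix.mul_zero, sub_zero]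
    exact trace_frame h2 h3 h.mu h1) h4
  exact ⟨h.eta hx.2 h2 h3 k.2, fun e => sub_eq_zero.1 (k.1 e)⟩

theorem Good.hm (h : D.Good ν ρ r W) (h1 : Grd D.cl φ)
    (h4 : ∀ e, D.wa W 0 e * φ = D.wh W 0 * φ * D.dbl.mat x e) {s : ℂ}
    (h5 : φ none none = D.wi W * s) :
    D.tri.Hm (bd3 s ![φ, D.wh W 0 * φ, D.wh W 1 * D.wh W 0 * φ]) (D.vg x) W := by
  have g0 := grd_wh W 0
  have g1 := grd_wh W 1
  refine (hm_bd3 (MnA_grd h1 (g0.mul h1) ((g1.mul g0).mul h1))).2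
    ⟨Fin.forall_fin_two.2 ⟨fun e => ?_, fun e => ?_⟩, Fin.forall_fin_two.2 ⟨?_, ?_⟩, ?_⟩
  · change D.wh W 0 * φ * D.wa (D.vg x) 0 e = D.wa W 0 e * φ
    rw [wa_vg, h4]
  · change D.wh W 1 * D.wh W 0 * φ * D.wa (D.vg x) 1 e = D.wa W 1 e * (D.wh W 0 * φ)
    rw [wa_vg, MnA_one h h4]
  · change D.wh W 0 * φ * D.wh (D.vg x) 0 = D.wh W 0 * φ
    rw [wh_vg, Matrix.mul_one]
  · change D.wh W 1 * D.wh W 0 * φ * D.wh (D.vg x) 1 = D.wh W 1 * (D.wh W 0 * φ)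
    rw [wh_vg, Matrix.mul_one, Matrix.mul_assoc]
  · change φ none none * D.wi (D.vg x) = _
    rw [wi_vg, mul_one, h5]

theorem Good.inj (h : D.Good ν ρ r W) (hx : x ∈ D.Xs ν) (h1 : Grd D.cl φ) (h2 : Grd D.cl η)
    (h3 : η none none = 0) (h0 : φ none none = 0) (h4 : ∀ e, D.phi W x φ η e = 0) :
    φ = 0 ∧ η = 0 := by
  have k := h.split hx h1 h2 h3 h4
  have hm := h.hm h1 k.2 (s := 0) (h0.trans (mul_zero _).symm)
  exact ⟨MnA_zero ((vg_stable hx.2).hom_zero h.stable hm rfl) 0, k.1⟩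

theorem MnA_hm (h : D.Sol ν ρ r W x φ) : D.tri.Hm (D.hom3 W φ) (D.vg x) W :=
  h.good.hm h.grd h.eq (h.fr.trans (mul_one _).symm)

theorem Sol.phi (h : D.Sol ν ρ r W x φ) (e : E ⊕ E) : D.phi W x φ 0 e = 0 := by
  rw [Qv.phi, cx0, h.eq, sub_self, zero_add]
  exact cxs_eq_zero.2 (fun e => by simp) e

theorem Sol.gu3 (h : D.Sol ν ρ r W x φ) : GU D.tri.cl (D.hom3 W φ) :=
  (vg_stable h.xs.2).hom_gu h.good.stable (MnA_hm h) one_ne_zero

theorem Sol.eq_cnj (h : D.Sol ν ρ r W x φ) : W = D.tri.cnj (D.hom3 W φ) (D.vg x) :=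
  ((MnA_hm h).cj_eq h.gu3.unit).symm

theorem Sol.gu (h : D.Sol ν ρ r W x φ) : GU D.cl φ := (gu_bd3.1 h.gu3).2 0

theorem Sol.gu_wh (h : D.Sol ν ρ r W x φ) (n : Fin 2) : GU D.cl (D.wh W n) := by
  have k1 : GU D.cl (D.wh W 0 * φ) := (gu_bd3.1 h.gu3).2 1
  have k2 : GU D.cl (D.wh W 1 * D.wh W 0 * φ) := (gu_bd3.1 h.gu3).2 2
  have k3 := k1.mul h.gu.inv
  have k4 := k2.mul k1.inv
  rw [Matrix.mul_assoc, h.gu.mul_inv, Matrix.mul_one] at k3
  rw [Matrix.mul_assoc (D.wh W 1), Matrix.mul_assoc, k1.mul_inv, Matrix.mul_one] at k4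
  fin_cases n
  exacts [k3, k4]

theorem Sol.wi_ne (h : D.Sol ν ρ r W x φ) : D.wi W ≠ 0 := h.fr ▸ h.gu.none_ne

theorem Sol.wa_one (h : D.Sol ν ρ r W x φ) (e : E ⊕ E) :
    D.wa W 1 e * (D.wh W 0 * φ) = D.wh W 1 * D.wh W 0 * φ * D.dbl.mat x e :=
  MnA_one h.good h.eq e

theorem Sol.rmu (h : D.Sol ν ρ r W x φ) : D.rmu W = 0 := by
  have m1 : cxm (D.dbl.mat x) (D.dbl.mat x) = 0 := mem_M0.1 h.xs.1
  have k := cx1_cx0 (MnA_cm h.good) (D.dbl.mat x) φ
  have k0 : cx0 (D.wa W 0) (D.wh W 0) (D.dbl.mat x) φ = 0 :=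
    funext fun e => sub_eq_zero.2 (h.eq e)
  rw [k0, m1, Matrix.mul_zero, sub_zero] at k
  have k1 : D.rmu W * φ = 0 := k.symm.trans (by simp [cx1])
  rw [← Matrix.mul_one (D.rmu W), ← h.gu.mul_inv, ← Matrix.mul_assoc, k1, Matrix.zero_mul]

theorem Sol.el (hr : Rf ρ r) (h : D.Sol ν ρ r W x φ) : D.dbl.cnj φ x ∈ D.dbl.El ρ := by
  refine mem_Ed_Iic.2 fun e => ?_
  have k := mem_Lin.1 h.good.lin
  have e1 : D.dbl.mat (D.dbl.cnj φ x) e = (D.wh W 0)⁻¹ * D.wa W 0 e := by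
    rw [mat_cj (D := D.dbl) h.grd, ← Matrix.mul_one (D.wa W 0 e), ← h.gu.mul_inv,
      ← Matrix.mul_assoc (D.wa W 0 e), h.eq]
    simp only [← Matrix.mul_assoc, (h.gu_wh 0).inv_mul, Matrix.one_mul]
  rw [e1]
  exact ((k.2 0).refine hr.lt).inv.mul (k.1 0 e)

theorem Sol.zr (hr : Rf ρ r) (h : D.Sol ν ρ r W x φ) : x ∈ D.dbl.Zr ρ :=
  cj_inv (D := D.dbl) h.gu x ▸ cj_mem_Zr (D := D.dbl) h.gu.inv (El_sub_Zr (h.el hr))

theorem mfil_of_stair (hr : Rf ρ r) (h1 : Grd D.cl φ) (h2 : MFil ρ ρ 0 φ) (h3 : D.Stair ρ r φ) :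
    MFil r r 0 φ := by
  intro b a k
  rw [add_zero] at k
  rcases lt_trichotomy (ρ a) (ρ b) with c | c | c
  · exact h2 b a (by omega)
  · rcases b with _ | b <;> rcases a with _ | a
    · exact absurd k (lt_irrefl _)
    · exact h1 _ _ (by simp)
    · exact h1 _ _ (by simp)
    · by_cases e : D.col b = D.col a
      · exact h3 b a e c.symm k
      · exact h1 _ _ fun e' => e (Option.some.inj e')
  · exact absurd (hr.lt b a c) (by omega)

theorem stair_of_mfil (h : MFil r r 0 φ) : D.Stair ρ r φ := fun _ _ _ _ k => h _ _ (by omega)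

theorem Sol.tri (hr : Rf ρ r) (h : D.Sol ν ρ r W y φ) (hy : y ∈ D.S0 ν ρ) (h3 : D.Stair ρ r φ) :
    MFil r r 0 φ := mfil_of_stair hr h.grd (mfil_of_S0 hy h.gu (h.el hr)) h3

theorem exists_sol (hr : Rf ρ r) (hy : y ∈ D.S0 ν ρ) :
    ∃ W φ, D.Sol ν ρ r W y φ ∧ MFil r r 0 φ := by
  obtain ⟨b, h1, h2, h3, h4⟩ := exists_tri (vg_stable hy.1.2) fun o => o.elim 0 (r3 r)
  obtain ⟨g, rfl⟩ : ∃ g, b = bd3 1 g := ⟨_, h2 ▸ eq_bd3 h1.grd⟩
  have hg := (gu_bd3.1 h1).2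
  have hm := (mfil_bd3 (r := r) fun _ => rfl).1 h3
  have c : ∀ n (M : Mt P), (g n)⁻¹ * (g n * M) = M := fun n M => by
    rw [← Matrix.mul_assoc, (hg n).inv_mul, Matrix.one_mul]
  have a0 : ∀ e, D.wa (D.tri.cnj (bd3 1 g) (D.vg y)) 0 e = g 1 * D.dbl.mat y e * (g 0)⁻¹ :=
    fun e => by rw [wa_cnj one_ne_zero hg, wa_vg]; rfl
  have a1 : ∀ e, D.wa (D.tri.cnj (bd3 1 g) (D.vg y)) 1 e = g 2 * D.dbl.mat y e * (g 1)⁻¹ :=
    fun e => by rw [wa_cnj one_ne_zero hg, wa_vg]; rfl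
  have b0 : D.wh (D.tri.cnj (bd3 1 g) (D.vg y)) 0 = g 1 * (g 0)⁻¹ := by
    rw [wh_cnj one_ne_zero hg, wh_vg, Matrix.mul_one]; rfl
  have b1 : D.wh (D.tri.cnj (bd3 1 g) (D.vg y)) 1 = g 2 * (g 1)⁻¹ := by
    rw [wh_cnj one_ne_zero hg, wh_vg, Matrix.mul_one]; rfl
  have m0 : D.rmu (D.tri.cnj (bd3 1 g) (D.vg y)) = g 2 * D.mu y * (g 0)⁻¹ := by
    simp only [Qv.rmu, mu_eq_cxm, cxm, a0, a1, Finset.mul_sum, Finset.sum_mul, Matrix.mul_sub,
      Matrix.sub_mul, Matrix.mul_assoc, c]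
  refine ⟨D.tri.cnj (bd3 1 g) (D.vg y), g 0, ⟨⟨mem_Lin.2 ⟨fun n e => ?_, fun n => ?_⟩,
    fun a b => ?_, fun e => ?_, h4⟩, hy.1, (hg 0).grd, ?_, fun e => ?_⟩, hm 0⟩
  · rw [wa_cnj one_ne_zero hg, wa_vg]
    exact (((hm _).refine hr.lt).mul (mem_Ed_Iic.1 hy.2.1 e)).mul ((hm _).refine hr.lt).inv
  · rw [wh_cnj one_ne_zero hg, wh_vg, Matrix.mul_one]
    exact QR_mul (hm _) (hm _).inv
  · rw [m0, mem_M0.1 hy.1.1, Matrix.mul_zero, Matrix.zero_mul]
    rfl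
  · simp only [rcm, a0, a1, b0, b1, Matrix.mul_assoc, c, sub_self]
  · rw [wi_cnj one_ne_zero hg, wi_vg, inv_one, mul_one, mul_one]
  · rw [a0, b0]
    simp only [Matrix.mul_assoc, (hg 0).inv_mul, Matrix.mul_one]

theorem Sol.orbit (hr : Rf ρ r) (h : D.Sol ν ρ r W y φ) (h' : D.Sol ν ρ r W' y φ')
    (k : MFil r r 0 φ) (k' : MFil r r 0 φ') :
    ∃ t : Tr P → Circle, W' = D.tri.cnj (bd3 1 (tg t)) W ∧ φ' = tg t 0 * φ := by
  have hg := (gu_bd3.1 h.gu3).2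
  have hg' := (gu_bd3.1 h'.gu3).2
  have hu := h'.gu3.mul h.gu3.inv
  have e1 : W' = D.tri.cnj (D.hom3 W' φ' * (D.hom3 W φ)⁻¹) W := by
    have := cj_inv h.gu3 (D.vg y)
    rw [← h.eq_cnj] at this
    rw [cj_mul h'.gu3 h.gu3.inv, this]
    exact h'.eq_cnj
  rw [hom3, hom3, bd3_inv one_ne_zero fun n => (hg n).unit, bd3_mul, inv_one, mul_one] at hu e1
  have hk := (ku_bd3.1 (lev_unique h.good.stable h.good.lev hu norm_one (e1 ▸ h'.good.lev))).2
  choose t ht using fun n => MnA_diag hr.inj (hk n)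
    (QR_mul (MnA_mfil h'.good k' n) (MnA_mfil h.good k n).inv)
  refine ⟨fun j => t j.2 j.1, e1.trans (congrArg (fun g => D.tri.cnj (bd3 1 g) W) (funext ht)), ?_⟩
  have e2 : φ' * φ⁻¹ = tg (fun j => t j.2 j.1) 0 := ht 0
  rw [← e2, Matrix.mul_assoc, h.gu.inv_mul, Matrix.mul_one]


end Qv

end Pool.Agent.Work.MP_849ab0_ag.G
end
end
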