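import Pool.Agent.Work.MP_849ab0_ag.G.H1.MnF
import Pool.Agent.Work.MP_849ab0_ag.G.H1.MnA
import Mathlib

-- merged part: Pool.Agent.Work.MP_849ab0_ag.G.H1.MnO
section
/-!
The data `mnd` satisfy the hypotheses of the diagonal argument.

Hints.  `rl3_eq_zero`: entries outside the index sets vanish by the grading or by `MFil`.
`good_iff`: `mem_Lin`, `MFil.refine`, `MFil.mul`, `grd_cxm`, `Sup.mul`, `mem_lev_of` with `r3_inj`,
`mem_td3`; conversely `Lev` says that `muR W` is diagonal.  `aff3`: `M l = unmat (phi W x (lpm (l ∘ inl))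
(lpm (l ∘ inr)))` is complex linear in `l`, injective by `Good.inj`, `lpm_eq_zero`;
`c = unmat (phi W x (fr (wi W)) 0)`.  `ok_mnd`: `Sol.zr`, `h.eq`.
-/

noncomputable section

set_option linter.unusedSectionVars false
set_option linter.unusedVariables false

namespace Pool.Agent.Work.MP_849ab0_ag.G

open Set Topology Matrix

namespace Qv

variable {I P E κ : Type} [Fintype I] [DecidableEq I] [Fintype P] [DecidableEq P] [Fintype E]
  [Fintype κ] [DecidableEq κ] {D : Qv I P E κ} {ν : I → ℤ} {ρ r : Option P → ℤ}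
  {W δ : D.tri.Rep} {x y ε : D.dbl.Rep} {l l' : D.J3l → ℂ} {U : Set D.dbl.Rep}

theorem rl3_eq_zero {m : Mt P} {c : E ⊕ E → Mt P} {o : Mt (Tr P)} (h1 : Grd D.cl m)
    (h2 : D.dbl.Sup c) (h3 : W ∈ D.Lin ρ r → MFil ρ ρ 2 m ∧ ∀ e, MFil ρ ρ 1 (c e)) :
    D.rl3 ρ r W m c o = 0 ↔ W ∈ D.Lin ρ r ∧ (∀ a b, m (some a) (some b) = 0) ∧ (∀ e, c e = 0) ∧
      ∀ j j', D.tri.col j = D.tri.col j' → r3 r j < r3 r j' → o (some j) (some j') = 0 := by
  constructor
  · intro h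
    have h0 : W ∈ D.Lin ρ r := fun p hp => congrFun h (.inl (.inl ⟨p, hp⟩))
    obtain ⟨k1, k2⟩ := h3 h0
    refine ⟨h0, fun a b => ?_, fun e => ?_,
      fun j j' e1 e2 => congrFun h (.inr (.inr ⟨(j, j'), e1, e2⟩))⟩
    · by_cases c1 : D.col a = D.col b
      · by_cases c2 : ρ (some a) - ρ (some b) ≤ 2
        · exact congrFun h (.inl (.inr ⟨(a, b), c1, c2⟩))
        · exact k1 _ _ (by omega)
      · exact h1 _ _ fun e => c1 (Option.some.inj e)
    · ext b a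
      by_cases c1 : a.map D.col = D.dbl.src e ∧ b.map D.col = D.dbl.tgt e
      · by_cases c2 : ρ b - ρ a ≤ 1
        · exact congrFun h (.inr (.inl ⟨⟨(e, a, b), c1⟩, c2⟩))
        · exact k2 e _ _ (by omega)
      · exact h2 e b a c1
  · rintro ⟨a1, a2, a3, a4⟩
    funext q
    rcases q with (p | z) | (p | z)
    · exact a1 p.1 p.2
    · exact a2 _ _
    · exact congrFun (congrFun (a3 _) _) _
    · exact a4 _ _ z.2.1 z.2.2

theorem MnO_fil (hr : Rf ρ r) (h : W ∈ D.Lin ρ r) :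
    MFil ρ ρ 2 (D.rmu W) ∧ ∀ e, MFil ρ ρ 1 (D.rcm W e) := by
  obtain ⟨h1, h2⟩ := mem_Lin.1 h
  have h3 : ∀ n, MFil ρ ρ 0 (D.wh W n) := fun n => (h2 n).refine hr.lt
  refine ⟨fun b a k => ?_, fun e => ((h1 1 e).mul (h3 0)).sub ((h3 1).mul (h1 0 e))⟩
  rw [rmu, cxm, Matrix.sum_apply]
  exact Finset.sum_eq_zero fun e _ =>
    ((h1 1 _).mul (h1 0 _)).sub ((h1 1 _).mul (h1 0 _)) b a k

theorem MnO_sup (W : D.tri.Rep) : D.dbl.Sup (D.rcm W) := by
  have h1 := (sup_wa W 1).mul Grd.one (grd_wh W 0)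
  have h2 := (sup_wa W 0).mul (grd_wh W 1) Grd.one
  simp only [Matrix.one_mul, Matrix.mul_one] at h1 h2
  exact h1.sub h2

theorem good_iff (hr : Rf ρ r) :
    W ∈ (D.td3 ν).lev ∧ D.rel3 ρ r W = 0 ↔ D.Good ν ρ r W := by
  rw [rel3, rl3_eq_zero (m := D.rmu W) (grd_cxm (sup_wa W 1) (sup_wa W 0)) (MnO_sup W)
    (MnO_fil hr), mem_td3]
  constructor
  · rintro ⟨a, b, c, d, e⟩
    exact ⟨b, c, d, mem_lev_of (r3_inj hr.inj) a e⟩
  · intro h
    have k : D.tri.muR W = -dg (D.tri.th (D.nu3 ν)) := h.lev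
    refine ⟨fun j => ?_, h.lin, h.mu, h.cm, fun j j' _ e => ?_⟩
    · simp [k, dg, th, thZ]
    · have : j ≠ j' := fun q => e.ne (congrArg _ q)
      simp [k, dg, this]

theorem MnO_unmat {m : E ⊕ E → Mt P} (hm : D.dbl.Sup m) : D.dbl.unmat m = 0 ↔ ∀ e, m e = 0 :=
  ⟨fun h e => by rw [← mat_unmat hm, h, mat_zeroH], fun h => funext fun p =>
    congrFun (congrFun (h _) _) _⟩

theorem Phi3_eq_zero : D.Phi3 (l, W, x) = 0 ↔ ∀ e, D.phi W x (D.ph3 W l) (D.et3 l) e = 0 :=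
  MnO_unmat (sup_phi3 W x (grd_ph3 W l) (grd_et3 l))

theorem sol_of (h : D.Good ν ρ r W) (hx : x ∈ D.Xs ν) (h0 : D.Phi3 (l, W, x) = 0) :
    D.Sol ν ρ r W x (D.ph3 W l) ∧ l ∘ Sum.inr = 0 :=
  let ⟨a, b⟩ := h.split hx (grd_ph3 W l) (grd_et3 l) (et3_none l) (Phi3_eq_zero.1 h0)
  ⟨⟨h, hx, grd_ph3 W l, ph3_none W l, b⟩, lpm_eq_zero a⟩

theorem sol_of_mem (hr : Rf ρ r) (hU : U ⊆ D.Xs ν) {z : (D.J3l → ℂ) × D.tri.Rep × D.dbl.Rep}
    (hz : z ∈ (D.mnd ν ρ r).Vt U ∩ (D.mnd ν ρ r).Zd) :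
    D.Sol ν ρ r z.2.1 z.2.2 (D.ph3 z.2.1 z.1) :=
  (sol_of ((good_iff hr).1 ⟨hz.1.1, hz.2.1⟩) (hU hz.1.2) hz.2.2).1

theorem Sol.exists_l {φ : Mt P} (h : D.Sol ν ρ r W x φ) :
    ∃ l, D.ph3 W l = φ ∧ l ∘ Sum.inr = 0 ∧ D.Phi3 (l, W, x) = 0 := by
  have e1 : D.ph3 W (Sum.elim (D.unl φ) 0) = φ := by
    have := lpm_unl h.grd
    rwa [h.fr] at this
  have e2 : D.et3 (Sum.elim (D.unl φ) 0) = 0 := lpm_zero
  refine ⟨_, e1, rfl, Phi3_eq_zero.2 fun e => ?_⟩
  rw [e1, e2]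
  exact h.phi e

theorem MnO_si (z : D.J3s ρ r) : D.ph3 W l (some z.1.1) (some z.1.2) = l (D.si3 ρ r z) :=
  (add_zero _).trans (lpm_app (l ∘ Sum.inl)
    ⟨(D.col z.1.2, some z.1.2, some z.1.1), rfl, congrArg some z.2.1⟩)

theorem stair_iff : l ∘ D.si3 ρ r = 0 ↔ D.Stair ρ r (D.ph3 W l) :=
  ⟨fun h b a e1 e2 e3 => (MnO_si ⟨(b, a), e1, e2, e3⟩).trans (congrFun h _),
    fun h => funext fun z => (MnO_si z).symm.trans (h _ _ z.2.1 z.2.2.1 z.2.2.2)⟩

theorem l_ext (h1 : D.ph3 W l = D.ph3 W l') (h2 : l ∘ Sum.inr = l' ∘ Sum.inr) : l = l' := by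
  have h3 : D.lpm (l ∘ Sum.inl) = D.lpm (l' ∘ Sum.inl) := add_right_cancel h1
  have h4 : l ∘ Sum.inl = l' ∘ Sum.inl := by rw [← unl_lpm (l ∘ Sum.inl), h3, unl_lpm]
  funext q
  rcases q with q | q
  · exact congrFun h4 q
  · exact congrFun h2 q

theorem MnO_add (φ φ' η η' : Mt P) : D.dbl.unmat (D.phi W x (φ + φ') (η + η')) =
    D.dbl.unmat (D.phi W x φ η) + D.dbl.unmat (D.phi W x φ' η') := by
  have k : ∀ e, D.phi W x (φ + φ') (η + η') e = D.phi W x φ η e + D.phi W x φ' η' e := by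
    rintro (e | e) <;>
      simp only [phi, cx0, cxs, Sum.elim_inl, Sum.elim_inr, mul_add, add_mul] <;> abel
  exact funext fun p => congrFun (congrFun (k _) _) _

theorem MnO_smul (z : ℂ) (φ η : Mt P) :
    D.dbl.unmat (D.phi W x (z • φ) (z • η)) = z • D.dbl.unmat (D.phi W x φ η) := by
  have k : ∀ e, D.phi W x (z • φ) (z • η) e = z • D.phi W x φ η e := by
    rintro (e | e) <;> simp only [phi, cx0, cxs, Sum.elim_inl, Sum.elim_inr, Matrix.mul_smul,
      Matrix.smul_mul, smul_add, smul_sub]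
  exact funext fun p => congrFun (congrFun (k _) _) _

theorem aff3 (h : D.Good ν ρ r W) (hx : x ∈ D.Xs ν) :
    ∃ (M : (D.J3l → ℂ) →ₗ[ℂ] D.dbl.Rep) (c : D.dbl.Rep), Function.Injective M ∧
      ∀ l, D.Phi3 (l, W, x) = M l + c := by
  refine ⟨⟨⟨fun l => D.dbl.unmat (D.phi W x (D.lpm (l ∘ Sum.inl)) (D.lpm (l ∘ Sum.inr))),
    fun l l' => ?_⟩, fun z l => ?_⟩, D.dbl.unmat (D.phi W x (D.fr (D.wi W)) 0),
    (injective_iff_map_eq_zero _).2 fun l hl => ?_, fun l => ?_⟩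
  · rw [← MnO_add, ← lpm_add, ← lpm_add]
    rfl
  · rw [RingHom.id_apply, ← MnO_smul, ← lpm_smul, ← lpm_smul]
    rfl
  · obtain ⟨a, b⟩ := h.inj hx (grd_lpm _) (grd_lpm _) (lpm_none_left _ _) (lpm_none_left _ _)
      ((MnO_unmat (sup_phi3 W x (grd_lpm _) (grd_lpm _))).1 hl)
    funext q
    rcases q with q | q
    · exact congrFun (lpm_eq_zero a) q
    · exact congrFun (lpm_eq_zero b) q
  · refine Eq.trans ?_ (MnO_add _ _ _ _)
    rw [add_zero]
    rfl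

theorem ok_mnd (hr : Rf ρ r) (h : D.Step ν ρ U) : (D.mnd ν ρ r).Ok D.dbl.aN U (D.Sr ν ρ) :=
  ⟨ok_td3, rep_sig3, rep_L3, rep_M3, h.pr, cont_rel3, rel3_act, cont_Phi3,
    fun g z => Phi3_act g z.1 z.2.1 z.2.2, fun _ a b _ c => aff3 ((good_iff hr).1 ⟨a, b⟩) (h.sub c),
    fun _ hz => h.eq.subset ⟨hz.1.2, (sol_of_mem hr h.sub hz).zr hr⟩, bdd_td3, L3_act_one⟩


end Qv

end Pool.Agent.Work.MP_849ab0_ag.G
end
end

-- merged part: Pool.Agent.Work.MP_849ab0_ag.G.H1.MnJ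
section
/-!
On the solutions, the unitary factor of the inverse of `ph3` moves `x` into `S0`.

Hints.  On a solution put `g = wi W • (ph3 W l)⁻¹`; it is graded, invertible (`Sol.gu`, `Sol.wi_ne`)
and `g none none = 1` (`GU.inv_none`), so `g = hat 1 (unhat g)` (`hat_unhat`, `gu_hat`).
`cont`: `continuousOn_qrU`, `continuousOn_inv`, `cont_ph3`, `toUb_val` (continuity into a subtype of a
subtype: `continuousOn_iff_continuous_domRestrict`, `continuous_induced_rng`).  `mem`: with `k = qrU ..`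
and `b = kᴴ * unhat g` triangular (`qrU_spec`), `hat 1 kᴴ = (wi W)⁻¹ • (hat 1 b * ph3 W l)`; `aN_act`,
`cj_smul`, `cj_mul`, `Sol.el`, `cj_mem_Iic`, `MFil.refine` (for `hat 1 b` only the entries
`(some, some)` matter), `S0_eq`, `act_mem_Sr`, and `x ∈ Sr` by `(ok_mnd hr h).supp`.
`eqv`: `ph3_act`, `wi_act`, `qrU_eqv`.
-/

noncomputable section

set_option linter.unusedSectionVars false
set_option linter.unusedVariables false

namespace Pool.Agent.Work.MP_849ab0_ag.G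

open Set Topology Matrix

namespace Qv

variable {I P E κ : Type} [Fintype I] [DecidableEq I] [Fintype P] [DecidableEq P] [Fintype E]
  [Fintype κ] [DecidableEq κ] {D : Qv I P E κ} {ν : I → ℤ} {ρ r : Option P → ℤ}
  {W δ : D.tri.Rep} {x y ε : D.dbl.Rep} {l l' : D.J3l → ℂ} {U : Set D.dbl.Rep}

instance isHom_psi3 : IsHom (D.psi3 ρ) := by
  let f : D.G3.H → ((Gp.tor P).prod (Gp.tor κ)).H :=
    fun g => (fun a => g.1 (some a, 0) * (g.1 (none, 0))⁻¹, g.2.2)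
  have hf : IsHom f := by
    refine ⟨fun g h => Prod.ext (funext fun a => ?_) rfl, Continuous.prodMk (continuous_pi fun a =>
      ((continuous_apply _).comp continuous_fst).mul
        ((continuous_apply _).comp continuous_fst).inv) continuous_snd.snd⟩
    change g.1 (some a, 0) * h.1 (some a, 0) * (g.1 (none, 0) * h.1 (none, 0))⁻¹ =
      g.1 (some a, 0) * (g.1 (none, 0))⁻¹ * (h.1 (some a, 0) * (h.1 (none, 0))⁻¹)
    rw [mul_inv, mul_mul_mul_comm]
  exact IsHom.comp (φ := inc (D.cr ρ) (Gp.tor κ)) (ψ := f)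

theorem MnJ_hat {φ : Mt P} (h : D.Sol ν ρ r W x φ) :
    hat 1 (unhat (D.wi W • φ⁻¹)) = D.wi W • φ⁻¹ := by
  have k := hat_unhat (h.gu.inv.grd.smul (D.wi W))
  rwa [Matrix.smul_apply, h.gu.inv_none, h.fr, smul_eq_mul, mul_inv_cancel₀ h.wi_ne] at k

theorem MnJ_gu {φ : Mt P} (h : D.Sol ν ρ r W x φ) : GU D.col (unhat (D.wi W • φ⁻¹)) := by
  refine gu_hat.1 ?_
  rw [MnJ_hat h]
  refine ⟨h.gu.inv.grd.smul _, IsUnit.of_mul_eq_one ((D.wi W)⁻¹ • φ) ?_⟩
  rw [Matrix.smul_mul, Matrix.mul_smul, smul_smul, mul_inv_cancel₀ h.wi_ne, one_smul, h.gu.inv_mul]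

theorem MnJ_inj (hr : Rf ρ r) : Function.Injective (r ∘ some) :=
  hr.inj.comp (Option.some_injective P)

theorem MnJ_el (hr : Rf ρ r) {φ : Mt P} (h : D.Sol ν ρ r W x φ) :
    D.dbl.cnj (hat 1 (qrU D.col (r ∘ some) (unhat (D.wi W • φ⁻¹)))ᴴ) x ∈ D.dbl.El ρ := by
  obtain ⟨k1, k2, -⟩ := qrU_spec (MnJ_inj hr) (MnJ_gu h)
  have k3 := MnJ_gu h
  have k4 := MnJ_hat h
  generalize qrU D.col (r ∘ some) (unhat (D.wi W • φ⁻¹)) = k at k1 k2 ⊢
  generalize unhat (D.wi W • φ⁻¹) = m at k2 k3 k4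
  have g1 : GU D.cl (hat 1 (kᴴ * m)) := gu_hat.2 (k1.adj.gu.mul k3)
  have g2 : GU D.cl (hat 1 kᴴ) := gu_hat.2 k1.adj.gu
  have g3 : MFil ρ ρ 0 (hat 1 (kᴴ * m)) := by
    rintro (_ | b) (_ | a) e
    · omega
    · rfl
    · rfl
    · exact k2 b a (by have := hr.lt (some a) (some b) (by omega); simpa using this)
  have e : hat 1 (kᴴ * m) * φ = D.wi W • hat 1 kᴴ := by
    rw [← mul_one (1 : ℂ), ← hat_mulH, k4, Matrix.mul_assoc, Matrix.smul_mul, h.gu.inv_mul,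
      Matrix.mul_smul, Matrix.mul_one, mul_one]
  rw [← cj_smul (D := D.dbl) h.wi_ne g2, ← e, cj_mul (D := D.dbl) g1 h.gu]
  exact cj_mem_Iic (D := D.dbl) g1 g3 g3.inv (h.el hr)

theorem MnJ_act (g : D.G3.H) {φ : Mt P} (h : D.Sol ν ρ r W x φ) :
    unhat ((g.1 (none, 0) * D.wi W) • (tg g.1 0 * φ * (D.rk3 g)ᴴ)⁻¹) =
      g.2.1.1.1 * unhat (D.wi W • φ⁻¹) *
        diagonal fun a => ((g.1 (none, 0) * (g.1 (some a, 0))⁻¹ : Circle) : ℂ) := by
  have k1 : KU D.cl (D.rk3 g) := ku_hat.2 (ku_Ub g.2.1)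
  have k2 : (g.1 (none, 0) : ℂ) • (tg g.1 0)ᴴ =
      hat 1 (diagonal fun a => ((g.1 (none, 0) * (g.1 (some a, 0))⁻¹ : Circle) : ℂ)) := by
    rw [tg, diagonal_conjTranspose]
    ext (_ | a) (_ | b)
    · exact (Complex.mul_conj _).trans (by rw [Circle.normSq_coe]; rfl)
    · simp [hat]
    · simp [hat]
    · by_cases e : a = b
      · subst e
        simp [hat, ← Circle.coe_inv_eq_conj]
      · simp [hat, e]
  refine Eq.trans (congrArg unhat ?_) (unhat_hat (1 * 1 * 1) _)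
  rw [← hat_mulH, ← hat_mulH, MnJ_hat h, ← k2, Matrix.mul_inv_rev,
    Matrix.mul_inv_rev, k1.adj.inv_eq, conjTranspose_conjTranspose,
    (ku_tg (D := D) g.1 0).inv_eq]
  simp only [rk3, Matrix.mul_smul, Matrix.smul_mul, smul_smul, Matrix.mul_assoc]

theorem cj_mnd (hr : Rf ρ r) (h : D.Step ν ρ U) : (D.mnd ν ρ r).Cj D.dbl.aN U (D.Sr ν ρ) (D.iK ρ)
    (D.S0 ν ρ) (D.psi3 ρ) (D.k3 r) := by
  have sol := fun z hz => sol_of_mem (D := D) (ν := ν) (z := z) hr h.sub hz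
  have ku := fun z hz => (qrU_spec (MnJ_inj hr) (MnJ_gu (sol z hz))).1
  refine ⟨h.sr_sub, pr_S0, S0_sub_Sr, ?_, fun z hz => ?_, fun g z hz => ?_⟩
  · refine ContinuousOn.prodMk ?_ continuousOn_const
    refine continuousOn_iff_continuous_domRestrict.2
      (continuous_induced_rng.2 (continuous_induced_rng.2 ?_))
    have c1 : Continuous fun z : (D.J3l → ℂ) × D.tri.Rep × D.dbl.Rep => D.ph3 z.2.1 z.1 :=
      cont_ph3.comp (continuous_snd.fst.prodMk continuous_fst)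
    have c2 := (cont_wi.comp continuous_snd.fst).continuousOn.smul
      (continuousOn_inv.comp c1.continuousOn fun z hz => (sol z hz).gu.unit)
    have c3 : Continuous (unhat : Mt P → Matrix P P ℂ) := continuous_id.matrix_submatrix _ _
    have c4 := (continuousOn_qrU (MnJ_inj hr)).comp (c3.comp_continuousOn c2)
      fun z hz => MnJ_gu (sol z hz)
    refine (continuousOn_iff_continuous_domRestrict.1 c4).congr fun z => ?_
    exact (toUb_val (ku z.1 z.2)).symm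
  · rw [S0_eq]
    refine ⟨act_mem_Sr _ ((ok_mnd hr h).supp z hz), ?_⟩
    have e : D.dbl.aN.act (D.k3 r z)⁻¹ z.2.2 = D.dbl.cnj (hat 1 (qrU D.col (r ∘ some)
        (unhat (D.wi z.2.1 • (D.ph3 z.2.1 z.1)⁻¹)))ᴴ) z.2.2 := by
      rw [aN_act, ← toUb_val (ku z hz)]
      change D.dbl.sc (fun e => chr (D.dbl.t e) (1 : κ → Circle)⁻¹) _ = _
      funext p
      simp only [sc, chr, inv_one, Pi.one_apply, Circle.coe_one, _root_.one_zpow,
        Finset.prod_const_one, one_mul]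
      rfl
    rw [e]
    exact MnJ_el hr (sol z hz)
  · have hz' : ((D.mnd ν ρ r).bt D.dbl.aN).act g z ∈ (D.mnd ν ρ r).Vt U ∩ (D.mnd ν ρ r).Zd :=
      (ok_mnd hr h).pr_sol.inv g z hz
    refine Prod.ext (Subtype.ext (Subtype.ext ?_)) ?_
    · refine (toUb_val (ku _ hz')).trans ?_
      change qrU D.col (r ∘ some) (unhat (D.wi ((D.td3 ν).rep.act g z.2.1) •
        (D.ph3 ((D.td3 ν).rep.act g z.2.1) (D.L3.act g z.1))⁻¹)) =
        g.2.1.1.1 * (D.k3 r z).1.1.1 *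
          (diagonal fun a => ((g.1 (some a, 0) * (g.1 (none, 0))⁻¹ : Circle) : ℂ))ᴴ
      rw [wi_act, ph3_act, MnJ_act g (sol z hz),
        qrU_eqv (MnJ_inj hr) (MnJ_gu (sol z hz)) (ku_Ub g.2.1) fun a => Circle.norm_coe _,
        k3, toUb_val (ku z hz), diagonal_conjTranspose]
      congr 2
      funext a
      rw [Pi.star_apply, Complex.star_def, ← Circle.coe_inv_eq_conj, _root_.mul_inv_rev, inv_inv]
    · change (1 : κ → Circle) = g.2.2 * 1 * g.2.2⁻¹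
      rw [mul_one, mul_inv_cancel]


end Qv

end Pool.Agent.Work.MP_849ab0_ag.G
end
end

-- merged part: Pool.Agent.Work.MP_849ab0_ag.G.H1.StKey
section
/-!
The filtered deformation complex (owner helper71).

Hints.  `key_ad`: one step `MFil ρ ρ (d + 1) ξ → m ≤ d → MFil ρ ρ d ξ`: the part of degree `d + 2` of
`ad ξ y` vanishes and equals `ad (mpt ρ (d + 1) ξ) (gr ρ y)` (`mpt_mul`, `mat_prd`), so
`Stable.hom_zero`; start with `d` large.  `dmu_eq_zero`: `grd_dmu` and the trace vanishes.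
`dmu_onto`: if the linear map `Ed → (Lw → ℂ)` is not onto, a nonzero functional `∑ c z * x z` kills
its range; let `ζ` be the graded matrix with `ζ (some a) (some b) = c (b, a)`; then
`tr (ζ * dmu y δ) = 0` for all `δ ∈ Ed (Iic m)`; expanding with `δ = Pi.single p 1` gives
`ad ζ y ∈ Ed (Iic (-m - 1))`, so `MFil ρ ρ (-m - 2) ζ` and `c = 0`.  `cod_add`: on coordinates,
`σ : (Lw (Ioi 0) → ℂ) → (Ew (Ioi 1) → ℂ)` is injective (`key_ad`), `τ : (Ew (Ioi 1) → ℂ) → (Lw (Ioi 2) → ℂ)`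
is onto (`dmu_onto` with `m` large, `mfil_dmu`) and `τ σ = 0` (`dmu_ad`).
-/

noncomputable section

set_option linter.unusedSectionVars false
set_option linter.unusedVariables false

namespace Pool.Agent.Work.MP_849ab0_ag.G

open Set Topology Matrix

namespace Qv

variable {I P E κ : Type} [Fintype I] [DecidableEq I] [Fintype P] [DecidableEq P] [Fintype E]
  [Fintype κ] [DecidableEq κ] {D : Qv I P E κ}
  {ν : I → ℤ} {ρ ρ' : Option P → ℤ} {g k ξ : Mt P}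

theorem StKey_bd (ρ : Option P → ℤ) (m : ℤ) : ∃ n : ℕ, ∀ b a, ρ b - ρ a ≤ m + n := by
  obtain ⟨M, hM⟩ := (Set.finite_range fun z : Option P × Option P => ρ z.1 - ρ z.2).bddAbove
  refine ⟨(M - m).toNat, fun b a => ?_⟩
  have := hM ⟨(b, a), rfl⟩
  simp only at this
  omega

theorem StKey_dim {U V W X : Type} [AddCommGroup U] [Module ℂ U] [AddCommGroup V] [Module ℂ V]
    [AddCommGroup W] [Module ℂ W] [AddCommGroup X] [Module ℂ X] [FiniteDimensional ℂ V]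
    [FiniteDimensional ℂ W] (A : U →ₗ[ℂ] V) (R : V →ₗ[ℂ] W) (T : V →ₗ[ℂ] X)
    (hT : Function.Surjective T) (h1 : ∀ v, R v = 0 → T v = 0) (h2 : ∀ u, T (A u) = 0)
    (h3 : ∀ u, R (A u) = 0 → u = 0) :
    Module.finrank ℂ U + Module.finrank ℂ X ≤ Module.finrank ℂ W := by
  have e1 := T.finrank_range_add_finrank_ker
  rw [LinearMap.range_eq_top.2 hT, finrank_top] at e1
  have e2 := R.finrank_range_add_finrank_ker
  have e3 := Submodule.finrank_le (LinearMap.range R)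
  have e4 := Submodule.finrank_sup_add_finrank_inf_eq (LinearMap.range A) (LinearMap.ker R)
  have e5 : LinearMap.range A ⊓ LinearMap.ker R = ⊥ := by
    rw [eq_bot_iff]
    rintro _ ⟨⟨u, rfl⟩, hu⟩
    rw [h3 u hu, map_zero]
    exact Submodule.zero_mem _
  have e6 : LinearMap.range A ⊔ LinearMap.ker R ≤ LinearMap.ker T :=
    sup_le (by rintro _ ⟨u, rfl⟩; exact h2 u) h1
  have e7 := Submodule.finrank_mono e6
  have e8 := LinearMap.finrank_range_of_inj (f := A)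
    ((injective_iff_map_eq_zero A).2 fun u hu => h3 u (by rw [hu, map_zero]))
  rw [e5, finrank_bot] at e4
  omega

theorem StKey_lmat {s : Set ℤ} [Fintype (D.Lw ρ s)] (η : D.Lw ρ s → ℂ) :
    D.lmat η = ∑ z, η z • Matrix.single (some z.1.1) (some z.1.2) (1 : ℂ) := by
  ext b a
  rw [Matrix.sum_apply]
  by_cases h : ∃ z : D.Lw ρ s, some z.1.1 = b ∧ some z.1.2 = a
  · obtain ⟨z, rfl, rfl⟩ := h
    rw [lmat_apply, Finset.sum_eq_single z (fun z' _ hz => ?_) (by simp)]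
    · simp
    · rw [Matrix.smul_apply, Matrix.single_apply_of_ne, smul_zero]
      exact fun c => hz (Subtype.ext (Prod.ext (Option.some.inj c.1) (Option.some.inj c.2)))
  · rw [Finset.sum_eq_zero fun z _ => by
      rw [Matrix.smul_apply, Matrix.single_apply_of_ne _ _ _ _ _ fun c => h ⟨z, c⟩, smul_zero]]
    rcases b with _ | b <;> rcases a with _ | a
    · exact lmat_none η
    · exact grd_lmat η _ _ (by simp)
    · exact grd_lmat η _ _ (by simp)
    · by_cases c : D.col b = D.col a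
      · exact lmat_deg η fun c' => h ⟨⟨(b, a), c, c'⟩, rfl, rfl⟩
      · exact grd_lmat η _ _ (by simpa using c)

/-- the key lemma -/
theorem key_ad {y : D.Rep} (h1 : y ∈ D.El ρ) (h2 : D.Stable ν (D.gr ρ y)) (h3 : Grd D.cl ξ)
    (h4 : ξ none none = 0) {m : ℤ} (h5 : D.ad ξ y ∈ D.Ed ρ (Iic (m + 1))) : MFil ρ ρ m ξ := by
  have hy := mem_Ed_Iic.1 h1
  have h6 := mem_Ed_Iic.1 h5
  have step : ∀ d, m ≤ d → MFil ρ ρ (d + 1) ξ → MFil ρ ρ d ξ := fun d hd h b a hb => by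
    have h7 : mpt ρ (d + 1) ξ = 0 := by
      refine h2.hom_zero h2 ⟨fun a b c => ?_, fun e => ?_⟩ ?_
      · simp [mpt, h3 a b c]
      · rw [mat_prd, ← mpt_mul h (hy e), ← mpt_mul (hy e) h, add_comm 1 (d + 1)]
        ext b a
        simp only [mpt, Matrix.of_apply]
        split_ifs with c
        · have := h6 e b a (by omega)
          rwa [mat_ad h3, Matrix.sub_apply, sub_eq_zero] at this
        · rfl
      · simp [mpt, h4]
    by_cases c : ρ b - ρ a = d + 1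
    · have := congrFun (congrFun h7 b) a
      simpa [mpt, c] using this
    · exact h b a (by omega)
  have all : ∀ n : ℕ, MFil ρ ρ (m + n) ξ → MFil ρ ρ m ξ := fun n => by
    induction n with
    | zero => simp
    | succ n ih => exact fun h => ih (step _ (by omega) (h.mono (by omega)))
  obtain ⟨n, hn⟩ := StKey_bd ρ m
  exact all n fun b a c => absurd (hn b a) (by omega)

variable {y δ : D.dbl.Rep}

theorem grd_dmu (y δ : D.dbl.Rep) : Grd D.cl (D.dmu y δ) := by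
  have g1 : ∀ (x z : D.dbl.Rep) e, Grd D.cl (D.dbl.mat x (.inl e) * D.dbl.mat z (.inr e)) :=
    fun x z e => matc_grd (D.tgt e) (fun a c h => (matc_sup (D := D.dbl) x (.inl e) _ _ h).2)
      fun c b h => (matc_sup (D := D.dbl) z (.inr e) _ _ h).1
  have g2 : ∀ (x z : D.dbl.Rep) e, Grd D.cl (D.dbl.mat x (.inr e) * D.dbl.mat z (.inl e)) :=
    fun x z e => matc_grd (D.src e) (fun a c h => (matc_sup (D := D.dbl) x (.inr e) _ _ h).2)
      fun c b h => (matc_sup (D := D.dbl) z (.inl e) _ _ h).1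
  exact matc_grd_sum fun e => (((g1 _ _ e).add (g1 _ _ e)).sub (g2 _ _ e)).sub (g2 _ _ e)

theorem mfil_dmu (h1 : y ∈ D.dbl.El ρ) {m : ℤ} (h2 : δ ∈ D.dbl.Ed ρ (Iic m)) :
    MFil ρ ρ (m + 1) (D.dmu y δ) := by
  have k1 := mem_Ed_Iic.1 h1
  have k2 := mem_Ed_Iic.1 h2
  intro b a h
  rw [dmu, Matrix.sum_apply]
  refine Finset.sum_eq_zero fun e _ => ?_
  exact (((((k2 _).mul (k1 _)).add (((k1 _).mul (k2 _)).mono (add_comm _ _).le)).sub
    ((k2 _).mul (k1 _))).sub (((k1 _).mul (k2 _)).mono (add_comm _ _).le)) b a h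

theorem dmu_ad (h1 : y ∈ D.M0) (h3 : Grd D.cl ξ) : D.dmu y (D.dbl.ad ξ y) = 0 := by
  have e : D.dmu y (D.dbl.ad ξ y) = ξ * D.mu y - D.mu y * ξ := by
    simp only [dmu, mu, mat_ad (D := D.dbl) h3, Finset.mul_sum, Finset.sum_mul,
      ← Finset.sum_sub_distrib]
    refine Finset.sum_congr rfl fun e _ => ?_
    noncomm_ring
  rw [e, mem_M0.1 h1, Matrix.mul_zero, Matrix.zero_mul, sub_zero]

theorem StKey_tr (ζ A B A' B' : Mt P) : trace (ζ * (A' * B + A * B' - B' * A - B * A')) =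
    trace (B' * (ζ * A - A * ζ)) - trace (A' * (ζ * B - B * ζ)) := by
  simp only [mul_sub, mul_add, trace_sub, trace_add]
  rw [trace_mul_comm ζ (A' * B), trace_mul_comm ζ (B' * A), ← Matrix.mul_assoc ζ A,
    ← Matrix.mul_assoc ζ B, trace_mul_comm _ B', trace_mul_comm _ A', Matrix.mul_assoc A',
    Matrix.mul_assoc B']
  ring

theorem dmu_eq_zero (h : ∀ a b, D.col a = D.col b → D.dmu y δ (some a) (some b) = 0) :
    D.dmu y δ = 0 := by
  have g1 := grd_dmu y δ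
  have h1 : ∀ a b, D.dmu y δ (some a) (some b) = 0 := fun a b => by
    by_cases c : D.col a = D.col b
    · exact h a b c
    · exact g1 _ _ (by simpa using c)
  have h2 : trace (D.dmu y δ) = 0 := by
    rw [dmu, trace_sum]
    refine Finset.sum_eq_zero fun e _ => ?_
    rw [← Matrix.one_mul (_ - _), StKey_tr]
    simp
  ext a b
  cases a <;> cases b
  · rw [trace, Fintype.sum_option] at h2
    simpa only [diag_apply, h1, Finset.sum_const_zero, add_zero, Matrix.zero_apply] using h2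
  · exact g1 _ _ (by simp)
  · exact g1 _ _ (by simp)
  · exact h1 _ _

/-- the coordinates of `dmu y` as a linear map -/
def StKey_L (y : D.dbl.Rep) (ρ : Option P → ℤ) (s : Set ℤ) : D.dbl.Rep →ₗ[ℂ] (D.Lw ρ s → ℂ) where
  toFun δ z := D.dmu y δ (some z.1.1) (some z.1.2)
  map_add' δ δ' := by
    have e : D.dmu y (δ + δ') = D.dmu y δ + D.dmu y δ' := by
      simp only [dmu, mat_addH, ← Finset.sum_add_distrib]
      refine Finset.sum_congr rfl fun e _ => ?_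
      noncomm_ring
    rw [e]
    rfl
  map_smul' c δ := by
    have e : D.dmu y (c • δ) = c • D.dmu y δ := by
      simp only [dmu, mat_smulH, Finset.smul_sum, smul_sub, smul_add, smul_mul_assoc,
        mul_smul_comm]
    rw [e]
    rfl

theorem StKey_dual {w : D.dbl.Rep} {m : ℤ} (h : ∀ δ ∈ D.dbl.Ed ρ (Iic m),
    ∑ e, (trace (D.dbl.mat δ (.inr e) * D.dbl.mat w (.inl e)) -
      trace (D.dbl.mat δ (.inl e) * D.dbl.mat w (.inr e))) = 0) :
    w ∈ D.dbl.Ed ρ (Iic (-m - 2 + 1)) := by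
  classical
  rintro ⟨⟨e, a, b⟩, hp⟩ hd
  have hd' : ρ a - ρ b ≤ m := by
    simp only [dgr, mem_Iic] at hd
    omega
  have hs : D.dbl.Sup (Pi.single e.swap (Matrix.single a b (1 : ℂ))) := fun e' b' a' c => by
    by_cases c1 : e' = e.swap
    · rw [c1, Pi.single_eq_same, Matrix.single_apply_of_ne]
      rintro ⟨rfl, rfl⟩
      refine c ?_
      rw [c1]
      cases e
      exacts [⟨hp.2, hp.1⟩, ⟨hp.2, hp.1⟩]
    · rw [Pi.single_eq_of_ne c1, Matrix.zero_apply]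
  have h1 := h (D.dbl.unmat _) (mem_Ed_Iic.2 fun e' b' a' c => by
    rw [mat_unmat hs]
    by_cases c1 : e' = e.swap
    · rw [c1, Pi.single_eq_same, Matrix.single_apply_of_ne]
      rintro ⟨rfl, rfl⟩
      omega
    · rw [Pi.single_eq_of_ne c1, Matrix.zero_apply])
  rw [mat_unmat hs] at h1
  refine (mat_app (D := D.dbl) w ⟨(e, a, b), hp⟩).symm.trans ?_
  cases e <;> simpa [Pi.single_apply, ite_mul, apply_ite trace, trace_single_mul] using h1

/-- `dμ : E (≤ m) → L (≤ m + 1)` is onto -/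
theorem dmu_onto (h1 : y ∈ D.dbl.El ρ) (h2 : D.dbl.Stable ν (D.dbl.gr ρ y)) (m : ℤ)
    (η : D.Lw ρ (Iic (m + 1)) → ℂ) : ∃ δ ∈ D.dbl.Ed ρ (Iic m),
      ∀ z : D.Lw ρ (Iic (m + 1)), D.dmu y δ (some z.1.1) (some z.1.2) = η z := by
  classical
  suffices h : (D.dbl.Ed ρ (Iic m)).map (StKey_L y ρ (Iic (m + 1))) = ⊤ by
    obtain ⟨δ, h3, h4⟩ := (h.ge Submodule.mem_top : η ∈ _)
    exact ⟨δ, h3, congrFun h4⟩
  by_contra hne
  obtain ⟨f, hf0, hf⟩ := Submodule.exists_le_ker_of_lt_top _ (lt_top_iff_ne_top.2 hne)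
  obtain ⟨c, hc⟩ : ∃ c : D.Lw ρ (Iic (m + 1)) → ℂ, ∀ x, f x = ∑ z, x z * c z :=
    ⟨_, fun x => f.pi_apply_eq_sum_univ x⟩
  have g1 : Grd D.cl (D.lmat c)ᵀ := fun a b h => grd_lmat c b a h.symm
  have h3 : ∀ M : Mt P, trace ((D.lmat c)ᵀ * M) = ∑ z, M (some z.1.1) (some z.1.2) * c z :=
    fun M => by
      rw [StKey_lmat, transpose_sum, Finset.sum_mul, trace_sum]
      refine Finset.sum_congr rfl fun z _ => ?_
      rw [transpose_smul, transpose_single, smul_mul_assoc, trace_smul, trace_single_mul]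
      simp [mul_comm]
  have h4 := key_ad (D := D.dbl) h1 h2 g1 (lmat_none c) (m := -m - 2) (StKey_dual fun δ hδ => by
    have h5 : f (StKey_L y ρ _ δ) = 0 := hf ⟨δ, hδ, rfl⟩
    rw [hc] at h5
    have h6 := (h3 (D.dmu y δ)).trans h5
    simp only [dmu, Finset.mul_sum, trace_sum, StKey_tr] at h6
    simpa only [mat_ad (D := D.dbl) g1] using h6)
  refine hf0 (LinearMap.ext fun x => ?_)
  rw [hc, LinearMap.zero_apply]
  refine Finset.sum_eq_zero fun z _ => ?_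
  have h5 : ρ (some z.1.1) - ρ (some z.1.2) ≤ m + 1 := z.2.2
  have h6 := h4 (some z.1.2) (some z.1.1) (by omega)
  rw [transpose_apply, lmat_apply] at h6
  rw [h6, mul_zero]

theorem cod_add (hy : y ∈ D.S0 ν ρ) : D.cod ρ + Nat.card (D.Lw ρ (Ioi 0)) +
    Nat.card (D.Lw ρ (Ioi 2)) = Nat.card (D.dbl.Ew ρ (Ioi 1)) := by
  classical
  obtain ⟨⟨h0, -⟩, h1, h2⟩ := hy
  let A : (D.Lw ρ (Ioi 0) → ℂ) →ₗ[ℂ] D.dbl.Rep :=
    { toFun := fun η => D.dbl.ad (D.lmat η) y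
      map_add' := fun η η' => by
        have e : D.lmat (η + η') = D.lmat η + D.lmat η' := by
          simp only [StKey_lmat, Pi.add_apply, add_smul, Finset.sum_add_distrib]
        funext p
        simp only [e, ad, unmat, add_mul, mul_add, Pi.add_apply, Matrix.sub_apply, Matrix.add_apply]
        ring
      map_smul' := fun c η => by
        have e : D.lmat (c • η) = c • D.lmat η := by
          simp only [StKey_lmat, Pi.smul_apply, smul_assoc, Finset.smul_sum]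
        funext p
        simp only [e, ad, unmat, smul_mul_assoc, mul_smul_comm, ← smul_sub, Pi.smul_apply,
          Matrix.smul_apply, RingHom.id_apply] }
  have hk : ∀ v : D.dbl.Rep,
      LinearMap.funLeft ℂ ℂ (Subtype.val : D.dbl.Ew ρ (Ioi 1) → _) v = 0 →
      v ∈ D.dbl.Ed ρ (Iic 1) := fun v hv p hp => congrFun hv ⟨p, mem_Ioi.2 (not_le.1 hp)⟩
  have h3 := StKey_dim A (LinearMap.funLeft ℂ ℂ (Subtype.val : D.dbl.Ew ρ (Ioi 1) → _))
    (StKey_L y ρ (Ioi 2)) (fun η => ?_) (fun v hv => funext fun z => ?_)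
    (fun η => funext fun z => ?_) fun η hη => funext fun z => ?_
  · simp only [Module.finrank_fintype_fun_eq_card, ← Nat.card_eq_fintype_card] at h3
    have h4 : _ ≤ Nat.card (D.dbl.Ew ρ (Ioi 1)) := h3
    rw [cod]
    omega
  · obtain ⟨n, hn⟩ := StKey_bd ρ 1
    obtain ⟨δ, -, h4⟩ := dmu_onto h1 h2 n fun z => D.lmat η (some z.1.1) (some z.1.2)
    refine ⟨δ, funext fun z => ?_⟩
    exact (h4 ⟨z.1, z.2.1, (hn _ _).trans (add_comm _ _).le⟩).trans (lmat_apply η z)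
  · have h5 : 2 < ρ (some z.1.1) - ρ (some z.1.2) := z.2.2
    exact mfil_dmu h1 (hk v hv) _ _ (by omega)
  · exact congrFun (congrFun (dmu_ad h0 (grd_lmat η)) _) _
  · have h5 : 0 < ρ (some z.1.1) - ρ (some z.1.2) := z.2.2
    exact (lmat_apply η z).symm.trans (key_ad (D := D.dbl) h1 h2 (grd_lmat η) (lmat_none η)
      (m := 0) (hk _ hη) _ _ (by omega))

end Qv

end Pool.Agent.Work.MP_849ab0_ag.G
end
end

-- merged part: Pool.Agent.Work.MP_849ab0_ag.G.H1.MnB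
section
/-!
The solution over a slice is nondegenerate.

Hints.  Write `a n e = wa W n e`, `h n = wh W n`, primes for `δ`, `ψ = dcx ..`.
`cx1_dcx`: expand; use `hs.eq`, `hs.wa_one`, `rcm = 0`, `drcm = 0` to move everything to
`drmu * φ + rmu * ζ - (..) * mu y - h 1 * h 0 * φ * dmu y ε`, and `hs.rmu`, `mu y = 0`.  (It is the
derivative of `cx1_cx0`.)  `Tan.eta`: `trace_frame`, `cx_split`, `Good.eta`.
`Tan.el`: `ε + ξ y - y ξ = φ⁻¹ (h 0)⁻¹ (a' 0 φ - h' 0 φ y)` for `ξ = φ⁻¹ ζ`, using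
`a 0 = h 0 φ y φ⁻¹`.  `Tan.tri`: `key_ad` for `ξ - ξ none none • 1` and `m = 0`, then `ζ = φ ξ`,
`mfil_of_stair`.  `Tan.orbit`: `ζ 0 = ζ φ⁻¹`, `ζ 1 = (h' 0 + h 0 ζ 0) (h 0)⁻¹`,
`ζ 2 = (h' 1 + h 1 ζ 1) (h 1)⁻¹` are triangular, `δ = ad (bd3 0 ζ) W` (`tri_ext`, `wa_ad`, `wh_ad`,
`wi_ad`; for `a' 1` use `drcm = 0` and cancel `h 0`); `lev_tangent` gives `(ζ n)ᴴ = -ζ n`
(`bd3_adj`, `bd3_neg`, `bd3_inj`), so `ζ n` is diagonal with imaginary entries `I * ξ (o, n)`.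
-/

noncomputable section

set_option linter.unusedSectionVars false
set_option linter.unusedVariables false

namespace Pool.Agent.Work.MP_849ab0_ag.G

open Set Topology Matrix

namespace Qv

variable {I P E κ : Type} [Fintype I] [DecidableEq I] [Fintype P] [DecidableEq P] [Fintype E]
  [Fintype κ] [DecidableEq κ] {D : Qv I P E κ} {ν : I → ℤ} {ρ r : Option P → ℤ}
  {W W' δ : D.tri.Rep} {x y ε : D.dbl.Rep} {φ φ' η ζ : Mt P}

theorem MnB_pair {R : Type} [Ring R] {a1 a0 a0' a1' b0 b0' B B' C C' h0 h1 h0' h1' φ ζ : R}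
    (e1 : a1 * h0 = h1 * a0) (e2 : a1' * h0 + a1 * h0' - (h1' * a0 + h1 * a0') = 0)
    (e3 : a0 * φ = h0 * φ * B) (e4 : b0 * φ = h0 * φ * C)
    (e5 : a1 * (h0 * φ) = h1 * h0 * φ * B) :
    a1 * (b0' * φ + b0 * ζ - ((h0' * φ + h0 * ζ) * C + h0 * φ * C')) +
      h1 * (a0' * φ + a0 * ζ - ((h0' * φ + h0 * ζ) * B + h0 * φ * B')) * C =
      (a1' * b0 + a1 * b0') * φ + a1 * b0 * ζ -
        (h1 * h0 * ζ + (h1' * h0 + h1 * h0') * φ) * (B * C) - h1 * h0 * φ * (B' * C + B * C') := by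
  linear_combination (norm := noncomm_ring) -(e1 * ζ * C) - e2 * φ * C - h1' * e3 * C -
    a1' * e4 - e5 * C'

theorem MnB_diag {J : Type} [Fintype J] [DecidableEq J] {r : J → ℤ} {g : Matrix J J ℂ}
    (hr : Function.Injective r) (h1 : MFil r r 0 g) (h2 : gᴴ = -g) :
    g = diagonal fun o => Complex.I * ((g o o).im : ℝ) := by
  have k : ∀ b a, star (g a b) = -g b a := fun b a => by
    have := congrFun (congrFun h2 b) a
    simpa [conjTranspose_apply] using this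
  ext b a
  by_cases e : b = a
  · subst e
    rw [diagonal_apply_eq]
    have k1 := congrArg Complex.re (k b b)
    simp only [Complex.star_def, Complex.conj_re, Complex.neg_re] at k1
    apply Complex.ext <;> simp
    linarith
  · rw [diagonal_apply_ne _ e]
    rcases lt_or_gt_of_ne (hr.ne e) with l | l
    · have k1 := k b a
      rw [h1 a b (by omega), star_zero] at k1
      exact neg_eq_zero.1 k1.symm
    · exact h1 b a (by omega)

theorem cx1_dcx (hs : D.Sol ν ρ r W y φ) (h1 : ∀ e, D.drcm W δ e = 0) (h2 : D.dmu y ε = 0)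
    (ζ : Mt P) :
    cx1 (D.wa W 1) (D.wh W 1) (D.dbl.mat y) (D.dcx W y φ δ ε ζ) = D.drmu W δ * φ := by
  have cm : ∀ e, D.wa W 1 e * D.wh W 0 = D.wh W 1 * D.wa W 0 e := fun e =>
    sub_eq_zero.1 (hs.good.cm e)
  have k := fun l r' => MnB_pair (b0' := D.wa δ 0 r') (B' := D.dbl.mat ε l) (C' := D.dbl.mat ε r')
    (ζ := ζ) (cm l) (h1 l) (hs.eq l) (hs.eq r') (hs.wa_one l)
  have m1 : cxm (D.dbl.mat y) (D.dbl.mat y) = 0 := mem_M0.1 hs.xs.1
  have m2 : cxm (D.wa W 1) (D.wa W 0) = 0 := hs.rmu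
  have m3 : cx1 (D.wa W 1) (D.wh W 1) (D.dbl.mat y) (D.dcx W y φ δ ε ζ) =
      D.drmu W δ * φ + cxm (D.wa W 1) (D.wa W 0) * ζ -
      (D.wh W 1 * D.wh W 0 * ζ + (D.wh δ 1 * D.wh W 0 + D.wh W 1 * D.wh δ 0) * φ) *
        cxm (D.dbl.mat y) (D.dbl.mat y) - D.wh W 1 * D.wh W 0 * φ * D.dmu y ε := by
    simp only [cx1, drmu, cxm, dmu, ← Finset.sum_add_distrib, Finset.sum_mul, Finset.mul_sum,
      ← Finset.sum_sub_distrib, dcx]
    refine Finset.sum_congr rfl fun e _ => ?_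
    linear_combination (norm := noncomm_ring) k (.inl e) (.inr e) - k (.inr e) (.inl e)
  rw [m3, m1, m2, h2]
  simp

theorem Tan.eta (hs : D.Sol ν ρ r W y φ) (h : D.Tan ρ r W y φ δ ε ζ η) :
    η = 0 ∧ ∀ e, D.dcx W y φ δ ε ζ e = 0 := by
  have k := cx_split (η := η) (by
    rw [cx1_dcx hs h.cm h.dmu]
    exact trace_frame h.grd' h.fr' h.mu hs.grd) h.eq
  exact ⟨hs.good.eta hs.xs.2 h.grd' h.fr' k.2, k.1⟩

theorem Tan.el (hr : Rf ρ r) (hs : D.Sol ν ρ r W y φ) (hy : y ∈ D.dbl.El ρ) (hφ : MFil r r 0 φ)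
    (h : D.Tan ρ r W y φ δ ε ζ η) : ε - D.dbl.ad (-(φ⁻¹ * ζ)) y ∈ D.dbl.El ρ := by
  have g0 := hs.gu
  have g1 := hs.gu_wh 0
  have hξ : Grd D.cl (-(φ⁻¹ * ζ)) := (g0.grd.inv.mul h.grd).neg
  have l := mem_Lin.1 h.lin
  have l0 := mem_Lin.1 hs.good.lin
  refine mem_Ed_Iic.2 fun e => ?_
  have k : D.dbl.mat (ε - D.dbl.ad (-(φ⁻¹ * ζ)) y) e =
      φ⁻¹ * ((D.wh W 0)⁻¹ * (D.wa δ 0 e * φ - D.wh δ 0 * φ * D.dbl.mat y e)) := by
    rw [mat_sub, mat_ad (D := D.dbl) hξ]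
    have k1 := (h.eta hs).2 e
    rw [dcx] at k1
    have k2 := hs.eq e
    have k3 := g0.mul_inv
    have k4 := g0.inv_mul
    have k5 := g1.inv_mul
    generalize φ⁻¹ = ψ at *
    generalize (D.wh W 0)⁻¹ = j at *
    linear_combination (norm := noncomm_ring) -(ψ * j * k1) + ψ * j * k2 * ψ * ζ
      - ψ * j * D.wa W 0 e * k3 * ζ - ψ * k5 * (φ * D.dbl.mat ε e + ζ * D.dbl.mat y e
      - φ * D.dbl.mat y e * ψ * ζ) - k4 * (D.dbl.mat ε e - D.dbl.mat y e * ψ * ζ)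
  rw [k]
  have f1 : MFil ρ ρ 0 φ := hφ.refine hr.lt
  have f2 : MFil ρ ρ 0 (D.wh W 0) := (l0.2 0).refine hr.lt
  have f3 : MFil ρ ρ 0 (D.wh δ 0) := (l.2 0).refine hr.lt
  have f4 : MFil ρ ρ 1 (D.wa δ 0 e * φ) := (l.1 0 e).mul f1
  have f5 : MFil ρ ρ 1 (D.wh δ 0 * φ * D.dbl.mat y e) := (f3.mul f1).mul (mem_Ed_Iic.1 hy e)
  exact f1.inv.mul (f2.inv.mul (f4.sub f5))

theorem Tan.tri (hr : Rf ρ r) (hs : D.Sol ν ρ r W y φ) (hy : y ∈ D.S0 ν ρ) (hφ : MFil r r 0 φ)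
    (h : D.Tan ρ r W y φ δ 0 ζ η) (h3 : D.Stair ρ r ζ) : MFil r r 0 ζ := by
  have g0 := hs.gu
  have hξ : Grd D.cl (φ⁻¹ * ζ) := g0.grd.inv.mul h.grd
  have k := mem_Ed_Iic.1 (h.el hr hs hy.2.1 hφ)
  have h1 : Grd D.cl (φ⁻¹ * ζ - (φ⁻¹ * ζ) none none • (1 : Mt P)) := hξ.sub (Grd.one.smul _)
  have k2 : MFil ρ ρ 0 (φ⁻¹ * ζ - (φ⁻¹ * ζ) none none • (1 : Mt P)) := by
    refine key_ad (D := D.dbl) hy.2.1 hy.2.2 h1 (by simp) (mem_Ed_Iic.2 fun e => ?_)
    have k3 := k e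
    rw [mat_sub, mat_ad (D := D.dbl) hξ.neg, mat_zeroH] at k3
    rw [mat_ad (D := D.dbl) h1, zero_add]
    convert k3 using 1
    simp only [Matrix.sub_mul, Matrix.mul_sub, Matrix.smul_mul, Matrix.mul_smul, Matrix.one_mul,
      Matrix.mul_one, Matrix.neg_mul, Matrix.mul_neg]
    abel
  have k4 : MFil ρ ρ 0 (φ⁻¹ * ζ) := by
    have k5 : MFil ρ ρ 0 (1 : Mt P) := MFil.diag _
    simpa using k2.add (k5.smul ((φ⁻¹ * ζ) none none))
  have k6 : MFil ρ ρ 0 (φ * (φ⁻¹ * ζ)) := (hφ.refine hr.lt).mul k4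
  rw [← Matrix.mul_assoc, g0.mul_inv, Matrix.one_mul] at k6
  exact mfil_of_stair hr h.grd k6 h3

theorem Tan.orbit (hr : Rf ρ r) (hs : D.Sol ν ρ r W y φ) (hy : y ∈ D.S0 ν ρ) (hφ : MFil r r 0 φ)
    (h : D.Tan ρ r W y φ δ 0 ζ η) (h3 : D.Stair ρ r ζ) : ∃ ξ : Tr P → ℝ,
      (∀ b a, ζ b a = Complex.I * ξ (b, 0) * φ b a) ∧
      ∀ p, δ p = Complex.I * ((p.1.2.2.elim 0 ξ - p.1.2.1.elim 0 ξ : ℝ) : ℂ) * W p := by
  have g0 := hs.gu
  have g1 := hs.gu_wh 0
  have g2 := hs.gu_wh 1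
  have l := mem_Lin.1 h.lin
  have l0 := mem_Lin.1 hs.good.lin
  have tz := h.tri hr hs hy hφ h3
  obtain ⟨z0, e0⟩ : ∃ z, z = ζ * φ⁻¹ := ⟨_, rfl⟩
  obtain ⟨z1, e1⟩ : ∃ z, z = (D.wh δ 0 + D.wh W 0 * z0) * (D.wh W 0)⁻¹ := ⟨_, rfl⟩
  obtain ⟨z2, e2⟩ : ∃ z, z = (D.wh δ 1 + D.wh W 1 * z1) * (D.wh W 1)⁻¹ := ⟨_, rfl⟩
  have a0 : Grd D.cl z0 := e0 ▸ h.grd.mul g0.grd.inv
  have a1 : Grd D.cl z1 := e1 ▸ ((grd_wh δ 0).add (g1.grd.mul a0)).mul g1.grd.inv
  have a2 : Grd D.cl z2 := e2 ▸ ((grd_wh δ 1).add (g2.grd.mul a1)).mul g2.grd.inv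
  have b0 : MFil r r 0 z0 := e0 ▸ tz.mul hφ.inv
  have b1 : MFil r r 0 z1 := e1 ▸ ((l.2 0).add ((l0.2 0).mul b0)).mul (l0.2 0).inv
  have b2 : MFil r r 0 z2 := e2 ▸ ((l.2 1).add ((l0.2 1).mul b1)).mul (l0.2 1).inv
  have c0 : z0 * φ = ζ := by rw [e0, Matrix.mul_assoc, g0.inv_mul, Matrix.mul_one]
  have c1 : z1 * D.wh W 0 = D.wh δ 0 + D.wh W 0 * z0 := by
    rw [e1, Matrix.mul_assoc, g1.inv_mul, Matrix.mul_one]
  have c2 : z2 * D.wh W 1 = D.wh δ 1 + D.wh W 1 * z1 := by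
    rw [e2, Matrix.mul_assoc, g2.inv_mul, Matrix.mul_one]
  obtain ⟨g, hg⟩ : ∃ g : Fin 3 → Mt P, g = ![z0, z1, z2] := ⟨_, rfl⟩
  have gg : ∀ n, Grd D.cl (g n) := fun n => by
    subst hg
    fin_cases n
    exacts [a0, a1, a2]
  have gm : ∀ n, MFil r r 0 (g n) := fun n => by
    subst hg
    fin_cases n
    exacts [b0, b1, b2]
  have d0 : ∀ e, D.wa δ 0 e = z1 * D.wa W 0 e - D.wa W 0 e * z0 := fun e => by
    refine g0.unit.mul_right_cancel ?_
    have k1 := (h.eta hs).2 e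
    rw [dcx, mat_zeroH] at k1
    linear_combination (norm := noncomm_ring) k1 - z1 * hs.eq e - c1 * φ * D.dbl.mat y e
      + D.wa W 0 e * c0 - D.wh W 0 * c0 * D.dbl.mat y e
  have d1 : ∀ e, D.wa δ 1 e = z2 * D.wa W 1 e - D.wa W 1 e * z1 := fun e => by
    refine g1.unit.mul_right_cancel ?_
    have k1 := h.cm e
    have k2 := hs.good.cm e
    rw [drcm] at k1
    rw [rcm] at k2
    linear_combination (norm := noncomm_ring) k1 + D.wh W 1 * d0 e - z2 * k2 - c2 * D.wa W 0 e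
      + D.wa W 1 e * c1 + k2 * z0
  have key : δ = D.tri.ad (bd3 0 g) W := by
    refine tri_ext (fun n e => ?_) (fun n => ?_) ?_
    · rw [wa_ad gg]
      subst hg
      fin_cases n
      exacts [d0 e, d1 e]
    · rw [wh_ad gg]
      subst hg
      fin_cases n
      exacts [eq_sub_of_add_eq c1.symm, eq_sub_of_add_eq c2.symm]
    · rw [wi_ad gg, mul_zero, sub_zero, ← h.fr, ← c0, a0.mul_none, hs.fr, hg]
      rfl
  have sk := lev_tangent hs.good.stable hs.good.lev (grd_bd3.2 gg) (by simp [bd3_none])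
    (key ▸ h.lev)
  rw [bd3_adj, bd3_neg] at sk
  have dg : ∀ n, g n = diagonal fun o => Complex.I * ((g n o o).im : ℝ) := fun n =>
    MnB_diag hr.inj (gm n) (congrFun (bd3_inj sk).2 n)
  refine ⟨fun j => (g j.2 j.1 j.1).im, fun b a => ?_, fun p => ?_⟩
  · have k : g 0 = z0 := by rw [hg]; rfl
    rw [← c0, ← k]
    conv_lhs => rw [dg 0, diagonal_mul]
  · have k : bd3 0 g = diagonal fun o : Option (Tr P) =>
        Complex.I * (o.elim 0 (fun j => (g j.2 j.1 j.1).im) : ℝ) := by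
      rw [bd3_diag]
      congr 1
      · simp
      · exact funext dg
    conv_lhs => rw [key, k]
    simp only [ad, unmat, Matrix.sub_apply, diagonal_mul, mul_diagonal, mat_app]
    push_cast
    ring


end Qv

end Pool.Agent.Work.MP_849ab0_ag.G
end
end

-- merged part: Pool.Agent.Work.MP_849ab0_ag.G.H1.MnC
section
/-!
The dimension count.

Hints.  Let `n = |P|`, `l = |lp.Wt|` (pairs of the same colour), `N` the number of pairs `(a, b)` of
the same colour with `r a < r b`, `e = |dbl.Wt|`.  Then `l = n + 2 N`, `|tri.Wt| = 1 + 2 e + 2 (l + 1)`,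
`|J3d| = 2 |Ew (Ioi 1)| + 2 N`, `|J3o| = 3 N`, `N = |J3s| + |Lw (Ioi 0)|`,
`|J3m| + |Lw (Ioi 2)| = l`, `|J3c| + |Ew (Ioi 1)| = e`, `|Tr P| = 3 (n + 1)`; `cod_add`.  Work with
`Nat.card` and explicit equivalences (`wt3_cases`, `ca`, `ch`, `cfr` in T3A; `r3_lt`).
-/

noncomputable section

set_option linter.unusedSectionVars false
set_option linter.unusedVariables false

namespace Pool.Agent.Work.MP_849ab0_ag.G

open Set Topology Matrix

namespace Qv

variable {I P E κ : Type} [Fintype I] [DecidableEq I] [Fintype P] [DecidableEq P] [Fintype E]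
  [Fintype κ] [DecidableEq κ] {D : Qv I P E κ} {ν : I → ℤ} {ρ r : Option P → ℤ}
  {W δ : D.tri.Rep} {x y ε : D.dbl.Rep} {l l' : D.J3l → ℂ} {U : Set D.dbl.Rep}

/-- the indicator of a proposition -/
def MnC_iv (p : Prop) : ℕ := open Classical in if p then 1 else 0

theorem MnC_t : MnC_iv True = 1 := if_pos trivial

theorem MnC_f : MnC_iv False = 0 := if_neg id

theorem MnC_add {p q t : Prop} (h : t ↔ p ∨ q) (hd : ¬(p ∧ q)) :
    MnC_iv t = MnC_iv p + MnC_iv q := by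
  by_cases hp : p <;> by_cases hq : q <;> simp_all [MnC_iv]

theorem MnC_card {X : Type} [Fintype X] (p : X → Prop) :
    Nat.card {x // p x} = ∑ x, MnC_iv (p x) := by
  classical
  rw [Nat.card_eq_fintype_card, Fintype.card_subtype, Finset.card_filter]
  rfl

theorem MnC_cs {X : Type} [Fintype X] (p : X → Prop) :
    Fintype.card (Cs p) = ∑ x, MnC_iv (p x) :=
  Nat.card_eq_fintype_card.symm.trans (MnC_card p)

theorem MnC_one (X : Type) [Fintype X] : Fintype.card X = ∑ _x : X, MnC_iv True := by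
  simp [MnC_iv]

theorem MnC_sub {X : Type} [Fintype X] (p q : X → Prop) [Fintype {x // p x}] :
    ∑ z : {x // p x}, MnC_iv (q z.1) = ∑ x, MnC_iv (p x ∧ q x) := by
  rw [← MnC_card, ← MnC_card]
  exact Nat.card_congr (Equiv.subtypeSubtypeEquivSubtypeInter p q)

theorem MnC_opt (Q : Option P × Option P → Prop) :
    ∑ z : Option P × Option P, MnC_iv (D.cl z.1 = D.cl z.2 ∧ Q z) = MnC_iv (Q (none, none)) +
      ∑ z : P × P, MnC_iv (D.col z.1 = D.col z.2 ∧ Q (some z.1, some z.2)) := by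
  rw [Fintype.sum_prod_type, Fintype.sum_prod_type]
  simp [Fintype.sum_option, MnC_f]

theorem MnC_tri (F : D.tri.Wt → ℕ) : ∑ p, F p = F D.cfr + ∑ n : Fin 2, (∑ q, F (D.ca n q) +
    ∑ z : {z : Option P × Option P // D.cl z.1 = D.cl z.2}, F (D.ch n z.2)) := by
  let f : Option (Fin 2 × (D.dbl.Wt ⊕ {z : Option P × Option P // D.cl z.1 = D.cl z.2})) →
      D.tri.Wt := fun x => x.elim D.cfr fun x => x.2.elim (D.ca x.1) fun z => D.ch x.1 z.2
  have hf : Function.Bijective f := by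
    refine ⟨?_, T3A_ind ⟨none, rfl⟩ (fun n q => ⟨some (n, .inl q), rfl⟩)
      fun n a b e => ⟨some (n, .inr ⟨(a, b), e⟩), rfl⟩⟩
    rintro (_ | ⟨n, ⟨⟨e, a, b⟩, h⟩ | ⟨⟨a, b⟩, h⟩⟩) (_ | ⟨m, ⟨⟨e', a', b'⟩, h'⟩ | ⟨⟨a', b'⟩, h'⟩⟩) k <;>
      have k1 := congrArg Subtype.val k <;> simp only [f, Option.elim, Sum.elim_inl, Sum.elim_inr,
        ca, ch, cfr, Prod.mk.injEq, Option.some.injEq, reduceCtorEq, false_and, Sum.inl.injEq,
        Sum.inr.injEq] at k1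
    · rfl
    · obtain ⟨⟨rfl, rfl⟩, ⟨rfl, -⟩, rfl, -⟩ := k1
      rfl
    · obtain ⟨⟨-, rfl⟩, ⟨rfl, -⟩, rfl, -⟩ := k1
      rfl
  rw [← hf.sum_comp, Fintype.sum_option, Fintype.sum_prod_type]
  simp only [Fintype.sum_sum_type]
  rfl

theorem MnC_lp : Fintype.card D.lp.Wt = ∑ z : P × P, MnC_iv (D.col z.1 = D.col z.2) := by
  rw [← MnC_card, ← Nat.card_eq_fintype_card]
  refine (Nat.card_congr (Equiv.ofBijective (fun z : {z : P × P // D.col z.1 = D.col z.2} =>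
    (⟨(D.col z.1.1, some z.1.1, some z.1.2), rfl, congrArg some z.2.symm⟩ : D.lp.Wt))
      ⟨fun z w k => ?_, ?_⟩)).symm
  · have k1 := congrArg (fun p => p.1.2) k
    simp only [Prod.mk.injEq, Option.some.injEq] at k1
    exact Subtype.ext (Prod.ext k1.1 k1.2)
  · rintro ⟨⟨i, _ | a, _ | b⟩, h1, h2⟩
    · exact absurd h1 (by simp)
    · exact absurd h1 (by simp)
    · exact absurd h2 (by simp)
    · obtain rfl : D.col a = i := Option.some.inj h1
      exact ⟨⟨(a, b), (Option.some.inj h2).symm⟩, rfl⟩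

theorem MnC_o : Fintype.card (D.J3o r) =
    3 * ∑ z : Option P × Option P, MnC_iv (D.cl z.1 = D.cl z.2 ∧ r z.1 < r z.2) := by
  rw [← MnC_card, ← Nat.card_eq_fintype_card, ← Nat.card_fin 3, ← Nat.card_prod]
  refine (Nat.card_congr (Equiv.ofBijective
    (fun x : Fin 3 × {z : Option P × Option P // D.cl z.1 = D.cl z.2 ∧ r z.1 < r z.2} =>
      (⟨((x.2.1.1, x.1), (x.2.1.2, x.1)), congrArg (fun c => (c, x.1)) x.2.2.1,
        (r3_lt _ _ _).2 x.2.2.2⟩ : D.J3o r)) ⟨fun z w k => ?_, ?_⟩)).symm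
  · have k1 := congrArg Subtype.val k
    simp only [Prod.mk.injEq] at k1
    exact Prod.ext k1.1.2 (Subtype.ext (Prod.ext k1.1.1 k1.2.1))
  · rintro ⟨⟨⟨a, n⟩, b, m⟩, h1, h2⟩
    obtain ⟨h3, rfl : n = m⟩ := Prod.mk.inj h1
    exact ⟨(n, ⟨(a, b), h3, (r3_lt _ _ _).1 h2⟩), rfl⟩

theorem dim_mnd (hr : Rf ρ r) (hy : y ∈ D.S0 ν ρ) :
    Fintype.card (D.J3r ρ r) + Fintype.card D.dbl.Wt + Fintype.card (D.J3s ρ r) +
      Fintype.card (Tr P) = Fintype.card D.J3l + Fintype.card D.tri.Wt + D.cod ρ := by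
  have c0 := cod_add hy
  rw [MnC_card, MnC_card, MnC_card] at c0
  have c1 : ∑ z : Option P × Option P, MnC_iv (D.cl z.1 = D.cl z.2 ∧ r z.1 < r z.2) =
      ∑ z : P × P, MnC_iv (D.col z.1 = D.col z.2 ∧ r (some z.1) < r (some z.2)) := by
    rw [MnC_opt fun z => r z.1 < r z.2]
    simp [MnC_iv]
  have c2 : ∑ z : P × P, MnC_iv (D.col z.1 = D.col z.2 ∧ r (some z.1) < r (some z.2)) =
      ∑ z : P × P, MnC_iv (D.col z.1 = D.col z.2 ∧ r (some z.2) < r (some z.1)) :=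
    Fintype.sum_equiv (Equiv.prodComm P P) _ _ fun z => by rw [eq_comm (a := D.col z.1)]; rfl
  have c3 : ∑ z : P × P, MnC_iv (D.col z.1 = D.col z.2) = Fintype.card P +
      (∑ z : P × P, MnC_iv (D.col z.1 = D.col z.2 ∧ r (some z.1) < r (some z.2)) +
      ∑ z : P × P, MnC_iv (D.col z.1 = D.col z.2 ∧ r (some z.2) < r (some z.1))) := by
    have e : Fintype.card P = ∑ z : P × P, MnC_iv (z.1 = z.2) := by
      rw [MnC_one, Fintype.sum_prod_type]
      refine Finset.sum_congr rfl fun a _ => ?_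
      exact ((Finset.sum_eq_single_of_mem a (Finset.mem_univ a) fun b _ k => if_neg k.symm).trans
        ((if_pos rfl).trans MnC_t.symm)).symm
    rw [e, ← Finset.sum_add_distrib, ← Finset.sum_add_distrib]
    refine Finset.sum_congr rfl fun z _ => ?_
    have k : r (some z.1) = r (some z.2) → z.1 = z.2 := fun k => Option.some.inj (hr.inj k)
    rw [← MnC_add Iff.rfl (by omega)]
    refine MnC_add ⟨fun h => ?_, ?_⟩ fun h => by simp [h.1] at h
    · rcases lt_trichotomy (r (some z.1)) (r (some z.2)) with e | e | e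
      exacts [Or.inr (Or.inl ⟨h, e⟩), Or.inl (k e), Or.inr (Or.inr ⟨h, e⟩)]
    · rintro (h | h | h)
      exacts [congrArg _ h, h.1, h.1]
  have c4 : ∑ z : P × P, MnC_iv (D.col z.1 = D.col z.2 ∧ r (some z.2) < r (some z.1)) =
      Fintype.card (D.J3s ρ r) +
        ∑ z : P × P, MnC_iv (D.col z.1 = D.col z.2 ∧ ρ (some z.1) - ρ (some z.2) ∈ Ioi 0) := by
    rw [MnC_cs, ← Finset.sum_add_distrib]
    refine Finset.sum_congr rfl fun z _ => ?_
    have k1 := hr.lt (some z.1) (some z.2)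
    have k2 := hr.lt (some z.2) (some z.1)
    rw [mem_Ioi]
    exact MnC_add (by rw [← and_or_left]; exact and_congr_right fun _ => by omega) (by omega)
  have c5 : ∑ z : P × P, MnC_iv (D.col z.1 = D.col z.2) = Fintype.card (D.J3m ρ) +
      ∑ z : P × P, MnC_iv (D.col z.1 = D.col z.2 ∧ ρ (some z.1) - ρ (some z.2) ∈ Ioi 2) := by
    rw [MnC_cs, ← Finset.sum_add_distrib]
    refine Finset.sum_congr rfl fun z _ => ?_
    rw [mem_Ioi, mem_Iic]
    exact MnC_add (by rw [← and_or_left]; exact (and_iff_left (by omega)).symm) (by omega)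
  have c6 : Fintype.card D.dbl.Wt = Fintype.card (D.J3c ρ) +
      ∑ p : D.dbl.Wt, MnC_iv (D.dbl.dgr ρ p ∈ Ioi 1) := by
    rw [MnC_cs, ← Finset.sum_add_distrib, MnC_one]
    refine Finset.sum_congr rfl fun z _ => ?_
    rw [mem_Ioi, mem_Iic]
    exact MnC_add (iff_of_true trivial (by omega)) (by omega)
  have c7 : Fintype.card D.tri.Wt = 1 + 2 * (Fintype.card D.dbl.Wt +
      (1 + ∑ z : P × P, MnC_iv (D.col z.1 = D.col z.2))) := by
    rw [MnC_one D.tri.Wt, MnC_tri, ← MnC_one,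
      MnC_sub (fun z : Option P × Option P => D.cl z.1 = D.cl z.2) fun _ => True,
      MnC_opt fun _ => True]
    simp [MnC_t]
  have c8 : Fintype.card (D.J3d ρ r) = 2 * (∑ p : D.dbl.Wt, MnC_iv (D.dbl.dgr ρ p ∈ Ioi 1) +
      ∑ z : Option P × Option P, MnC_iv (D.cl z.1 = D.cl z.2 ∧ r z.1 < r z.2)) := by
    have e1 : ∀ n q, MnC_iv (¬D.Al ρ r (D.ca n q)) = MnC_iv (D.dbl.dgr ρ q ∈ Ioi 1) := fun n q =>
      congrArg _ (propext (not_le.trans lt_sub_iff_add_lt'.symm))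
    have e2 : ∀ n (z : {z : Option P × Option P // D.cl z.1 = D.cl z.2}),
        MnC_iv (¬D.Al ρ r (D.ch n z.2)) = MnC_iv (r z.1.1 < r z.1.2) := fun n z =>
      congrArg _ (propext not_le)
    have e3 : MnC_iv (¬D.Al ρ r D.cfr) = 0 := if_neg fun k => k trivial
    rw [MnC_cs, MnC_tri, e3]
    simp only [e1, e2]
    rw [MnC_sub (fun z : Option P × Option P => D.cl z.1 = D.cl z.2) fun z => r z.1 < r z.2]
    simp
  simp only [Fintype.card_sum, Fintype.card_prod, Fintype.card_option, Fintype.card_fin, MnC_lp,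
    MnC_o]
  omega


end Qv

end Pool.Agent.Work.MP_849ab0_ag.G
end
end

-- merged part: Pool.Agent.Work.MP_849ab0_ag.G.H1.MnS
section
/-!
The normal slices of the stratum are transversal slices for `mnd`.

Hints.  `tan_of`: `rl3_eq_zero`, `mem_Lin`, `dmuR_eq_zero` with `r3_inj`, `dmuR_diag`; the family under
`unmat` in `dPhi3` is supported on the arrows (`Sup.mul`, `sup_cxs`, `mat_unmat`).  `slice_mnd`:
`exists_sol`, `Sol.exists_l`, `good_iff`, `stair_iff`, `stair_of_mfil`; one orbit: `sol_of`,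
`Sol.tri`, `Sol.orbit`, `act_td3_one`, `ph3_act`, `l_ext`, `L3_act_one`; derivatives: `deriv_rel3`,
`deriv_Phi3` with `L.restrictScalars ℝ`; kernel: `tan_of`, `Tan.el` and `h3` give `v = 0`, then
`Tan.eta` (`lpm_eq_zero`), `Tan.orbit` (`lpm_app`); `dim_mnd`.
-/

noncomputable section

set_option linter.unusedSectionVars false
set_option linter.unusedVariables false

namespace Pool.Agent.Work.MP_849ab0_ag.G

open Set Topology Matrix

namespace Qv

variable {I P E κ : Type} [Fintype I] [DecidableEq I] [Fintype P] [DecidableEq P] [Fintype E]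
  [Fintype κ] [DecidableEq κ] {D : Qv I P E κ} {ν : I → ℤ} {ρ r : Option P → ℤ}
  {W δ : D.tri.Rep} {x y ε : D.dbl.Rep} {l l' : D.J3l → ℂ} {U : Set D.dbl.Rep}

theorem MnS_supL {m : E → Mt P} {g : Mt P} (hm : D.Sup m) (h : Grd D.cl g) :
    D.Sup fun e => g * m e := by simpa only [Matrix.mul_one] using hm.mul h Grd.one

theorem MnS_supR {m : E → Mt P} {g : Mt P} (hm : D.Sup m) (h : Grd D.cl g) :
    D.Sup fun e => m e * g := by simpa only [Matrix.one_mul] using hm.mul Grd.one h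

theorem MnS_cxm {A B : E ⊕ E → Mt P} (hA : ∀ e, MFil ρ ρ 1 (A e)) (hB : ∀ e, MFil ρ ρ 1 (B e)) :
    MFil ρ ρ 2 (cxm A B) := fun b a k => by
  rw [cxm, Matrix.sum_apply]
  exact Finset.sum_eq_zero fun e _ => (((hA _).mul (hB _)).sub ((hA _).mul (hB _))) b a k

theorem MnS_ph3 (W : D.tri.Rep) (l : D.J3l → ℂ) (p : D.lp.Wt) :
    D.ph3 W l p.1.2.2 p.1.2.1 = l (.inl p) := by
  rw [ph3, Matrix.add_apply, lpm_app]
  obtain ⟨⟨i, _ | a, _ | b⟩, k, k'⟩ := p
  · cases k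
  · cases k
  · cases k'
  · exact add_zero _

theorem MnS_elim {J : Type} [Fintype J] [DecidableEq J] (o : Option J) (ξ : J → ℝ) :
    ∑ i, ((if o = some i then 1 else 0 : ℤ) : ℝ) * ξ i = o.elim 0 ξ := by
  cases o <;> simp

theorem tan_of (hr : Rf ρ r) (hW : W ∈ D.Lin ρ r) (h1 : D.drel3 ρ r W δ = 0)
    (h2 : ∀ i, ∑ q, D.tri.wt q i * (starRingEnd ℂ (W q) * δ q).re = 0) (h3 : D.dmu y ε = 0)
    (h4 : D.dPhi3 l W y l' δ ε = 0) :
    D.Tan ρ r W y (D.ph3 W l) δ ε (D.ph3 δ l') (D.et3 l') := by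
  obtain ⟨a1, a2⟩ := mem_Lin.1 hW
  obtain ⟨b1, b2, b3, b4⟩ := (rl3_eq_zero
    ((grd_cxm (sup_wa δ 1) (sup_wa W 0)).add (grd_cxm (sup_wa W 1) (sup_wa δ 0)))
    (((MnS_supR (sup_wa δ 1) (grd_wh W 0)).add (MnS_supR (sup_wa W 1) (grd_wh δ 0))).sub
      ((MnS_supL (sup_wa W 0) (grd_wh δ 1)).add (MnS_supL (sup_wa δ 0) (grd_wh W 1))))
    fun k => by
      obtain ⟨c1, c2⟩ := mem_Lin.1 k
      exact ⟨(MnS_cxm (c1 1) (a1 0)).add (MnS_cxm (a1 1) (c1 0)), fun e =>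
        (((c1 1 e).mul ((a2 0).refine hr.lt)).add ((a1 1 e).mul ((c2 0).refine hr.lt))).sub
          ((((c2 1).refine hr.lt).mul (a1 0 e)).add (((a2 1).refine hr.lt).mul (c1 0 e)))⟩).1 h1
  have g1 := grd_ph3 W l
  have g2 := grd_ph3 δ l'
  refine ⟨b1, b2, b3, dmuR_eq_zero (D := D.tri) (r3_inj hr.inj) (fun j => ?_) b4, g2,
    ph3_none _ _, grd_et3 _, et3_none _, h3, fun e => ?_⟩
  · rw [dmuR_diag, Complex.ofReal_eq_zero]
    refine Eq.trans ?_ ((congrArg (2 * ·) (h2 j)).trans (mul_zero 2))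
    rw [Finset.mul_sum]
    refine Finset.sum_congr rfl fun q _ => ?_
    simp only [wt, Complex.star_def]
    push_cast
    ring
  · have s := (((MnS_supR (sup_wa δ 0) g1).add (MnS_supR (sup_wa W 0) g2)).sub
      ((MnS_supL (D := D.dbl) (sup_mat y) (((grd_wh δ 0).mul g1).add ((grd_wh W 0).mul g2))).add
        (MnS_supL (D := D.dbl) (sup_mat ε) ((grd_wh W 0).mul g1)))).add
      (sup_cxs (sup_wa W 1) (sup_mat y) (grd_wh W 1) (grd_et3 l'))
    exact (congrFun (mat_unmat s) e).symm.trans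
      ((congrArg (D.dbl.mat · e) h4).trans (mat_zeroH e))

theorem slice_mnd (hr : Rf ρ r) {β : (Fin (D.cod ρ) → ℂ) → D.dbl.Rep} {O : Set (Fin (D.cod ρ) → ℂ)}
    (hO : IsOpen O) (h0 : 0 ∈ O) (hc : ContinuousOn β O) (hm : MapsTo β O U)
    (hz : ∀ v ∈ O, β v ∈ D.Sr ν ρ → v = 0) (hy : β 0 ∈ D.S0 ν ρ)
    {L : (Fin (D.cod ρ) → ℂ) →L[ℂ] D.dbl.Rep} (h1 : HasFDerivAt β L 0)
    (h2 : ∀ v, D.dmu (β 0) (L v) = 0)
    (h3 : ∀ v ξ, Grd D.cl ξ → L v - D.dbl.ad ξ (β 0) ∈ D.dbl.El ρ → v = 0) :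
    (D.mnd ν ρ r).Slice U (D.Sr ν ρ) β O := by
  obtain ⟨W, φ, hs, hφ⟩ := exists_sol hr hy
  obtain ⟨l₀, rfl, e2, e3⟩ := hs.exists_l
  obtain ⟨r', r1, r2⟩ := deriv_rel3 (ρ := ρ) (r := r) W
  obtain ⟨Φ', f1, f2⟩ := deriv_Phi3 (h1.restrictScalars ℝ) e2 W
  have g := (good_iff hr).2 hs.good
  refine ⟨hO, h0, hc, hm, hz, ⟨l₀, W, g.1, g.2, e3, stair_iff.2 (stair_of_mfil hφ),
    fun l W' k1 k2 k3 k4 => ?_, r', Φ', r1, f1, fun l' δ v k1 k2 k3 k4 => ?_⟩, ?_⟩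
  · obtain ⟨hs', e⟩ := sol_of ((good_iff hr).1 ⟨k1, k2⟩) hy.1 k3
    obtain ⟨t, t1, t2⟩ := hs.orbit hr hs' hφ (hs'.tri hr hy (stair_iff.1 k4))
    rw [← act_td3_one (ν := ν)] at t1
    refine ⟨t, l_ext (W := W') (t2.trans ?_) (e.trans (funext fun q => ?_)), t1⟩
    · rw [t1]
      refine Eq.symm ((ph3_act _ _ _).trans ?_)
      rw [isUH_rk3.ku _ |>.inv_eq.symm, show D.rk3 (t, 1) = 1 from isUH_rk3.one, inv_one,
        Matrix.mul_one]
    · exact ((L3_act_one t l₀ _).trans ((congrArg _ (congrFun e2 q)).trans (mul_zero _))).symm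
  · have T := tan_of hr hs.good.lin ((r2 δ).symm.trans k1) k4 (h2 v) ((f2 l' δ v).symm.trans k2)
    obtain rfl := h3 v _ (hs.gu.grd.inv.mul T.grd).neg (T.el hr hs hy.2.1 hφ)
    rw [map_zero] at T
    obtain ⟨ξ, o1, o2⟩ := T.orbit hr hs hy hφ (stair_iff.1 k3)
    refine ⟨rfl, ξ, ?_, fun q => (o2 q).trans ?_⟩
    · rintro (p | p)
      · rw [← MnS_ph3 δ l', o1, MnS_ph3]
        simp [mnd, mL3, Pi.single_apply]
      · exact (congrFun (lpm_eq_zero (T.eta hs).1) p).trans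
          ((congrArg _ (congrFun e2 p)).trans (mul_zero _)).symm
    · simp only [mnd, td3, wt, Int.cast_sub, sub_mul, Finset.sum_sub_distrib, MnS_elim]
  · rw [Fintype.card_fin]
    exact dim_mnd hr hy

end Qv

end Pool.Agent.Work.MP_849ab0_ag.G
end
end

-- merged part: Pool.Agent.Work.MP_849ab0_ag.G.H1.StChA
section
/-!
Abstract analysis and linear algebra for the chart of a stratum (owner helper71).
-/

noncomputable section

set_option linter.unusedSectionVars false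
set_option linter.unusedVariables false

namespace Pool.Agent.Work.MP_849ab0_ag.G

open Set Topology Filter Module

section chart

variable {W X A V L : Type} [NormedAddCommGroup W] [NormedSpace ℂ W] [CompleteSpace W]
  [NormedAddCommGroup X] [NormedSpace ℂ X] [NormedAddCommGroup A] [NormedSpace ℂ A]
  [NormedAddCommGroup V] [NormedSpace ℂ V] [NormedAddCommGroup L] [NormedSpace ℂ L]

theorem stch_abs {Φ : W → X} {Φ' : W ≃L[ℂ] X} {Θ : W → A × V × L} {Θ' : W ≃L[ℂ] A × V × L}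
    {w₀ : W} {z : A} (hΦ : HasStrictFDerivAt Φ (Φ' : W →L[ℂ] X) w₀)
    (hΘ : HasStrictFDerivAt Θ (Θ' : W →L[ℂ] A × V × L) w₀) (h0 : Θ w₀ = (z, 0, 0)) {U S : Set X}
    (hU : ∀ᶠ w in 𝓝 w₀, (Φ w ∈ U ↔ (Θ w).2.2 = 0) ∧ (Φ w ∈ U → (Φ w ∈ S ↔ (Θ w).2.1 = 0))) :
    ∃ (O : Set (A × V)) (f : A × V → X) (M : V →L[ℂ] X), IsOpen O ∧ (z, 0) ∈ O ∧
      f (z, 0) = Φ w₀ ∧ (∀ w ∈ O, f w ∈ S ↔ w.2 = 0) ∧
      (∃ hm : MapsTo f O U, IsOpenEmbedding (hm.restrict f O U)) ∧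
      HasStrictFDerivAt (fun v => f (z, v)) M 0 ∧ ∀ v, M v = Φ' (Θ'.symm (0, v, 0)) := by
  obtain ⟨N, hN, hNo, hN0⟩ := eventually_nhds_iff.1 hU
  set e1 := hΦ.toOpenPartialHomeomorph Φ
  set e2 := hΘ.toOpenPartialHomeomorph Θ
  have s1 : w₀ ∈ e1.source := hΦ.mem_toOpenPartialHomeomorph_source
  have s2 : w₀ ∈ e2.source := hΘ.mem_toOpenPartialHomeomorph_source
  have c1 : (e1 : W → X) = Φ := rfl
  have c2 : (e2 : W → A × V × L) = Θ := rfl
  have i0 : e2.symm (z, 0, 0) = w₀ := by rw [← h0]; exact e2.left_inv s2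
  let j : A × V → A × V × L := fun w => (w.1, w.2, 0)
  have cj : Continuous j := by fun_prop
  let T : Set (A × V × L) := e2.target ∩ e2.symm ⁻¹' (e1.source ∩ N)
  have hT : IsOpen T := e2.isOpen_inter_preimage_symm (e1.open_source.inter hNo)
  have ri : ∀ q ∈ T, Θ (e2.symm q) = q := fun q hq => e2.right_inv hq.1
  have hm : MapsTo (fun w => Φ (e2.symm (j w))) (j ⁻¹' T) U := fun w hw =>
    (hN _ hw.2.2).1.2 (by rw [ri _ hw])
  have hc : ContinuousOn (fun w => Φ (e2.symm (j w))) (j ⁻¹' T) :=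
    e1.continuousOn.comp (e2.continuousOn_symm.comp cj.continuousOn fun w hw => hw.1)
      fun w hw => hw.2.1
  refine ⟨j ⁻¹' T, fun w => Φ (e2.symm (j w)),
    (Φ' : W →L[ℂ] X).comp ((Θ'.symm : A × V × L →L[ℂ] W).comp
      ((ContinuousLinearMap.inr ℂ A (V × L)).comp (ContinuousLinearMap.inl ℂ V L))),
    hT.preimage cj, ⟨by simpa only [j, ← h0, c2] using e2.map_source s2, by
      simp only [j, mem_preimage, i0]; exact ⟨s1, hN0⟩⟩,
    by simp only [j, i0], fun w hw => ?_, ⟨hm, ?_⟩, ?_, fun v => rfl⟩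
  · rw [(hN _ hw.2.2).2 (hm hw), ri _ hw]
  · refine .of_continuous_injective_isOpenMap (hc.mapsToRestrict hm) (fun a b e => ?_) ?_
    · have e' : Φ (e2.symm (j a)) = Φ (e2.symm (j b)) := congrArg Subtype.val e
      have := e2.symm.injOn a.2.1 b.2.1 (e1.injOn a.2.2.1 b.2.2.1 e')
      exact Subtype.ext (Prod.ext (congrArg (·.1) this) (congrArg (·.2.1) this))
    · intro B hB
      obtain ⟨B', hB', rfl⟩ := isOpen_induced_iff.1 hB
      have o1 : IsOpen (T ∩ (fun q : A × V × L => (q.1, q.2.1)) ⁻¹' B') :=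
        hT.inter (hB'.preimage (by fun_prop))
      have o2 := e2.symm.isOpen_image_of_subset_source o1 fun q hq => hq.1.1
      have o3 := e1.isOpen_image_of_subset_source o2 (by
        rintro _ ⟨q, hq, rfl⟩; exact hq.1.2.1)
      refine isOpen_induced_iff.2 ⟨_, o3, Set.ext fun u => ⟨?_, ?_⟩⟩
      · rintro ⟨_, ⟨q, hq, rfl⟩, e⟩
        have h1 : q.2.2 = 0 := by
          have := (hN _ hq.1.2.2).1.1 (by rw [← c1, e]; exact u.2)
          rwa [ri _ hq.1] at this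
        have h2 : j (q.1, q.2.1) = q := Prod.ext rfl (Prod.ext rfl h1.symm)
        refine ⟨⟨(q.1, q.2.1), by rw [mem_preimage, h2]; exact hq.1⟩, hq.2, Subtype.ext ?_⟩
        change Φ (e2.symm (j (q.1, q.2.1))) = u
        rw [h2]; exact e
      · rintro ⟨w, hw, rfl⟩
        exact ⟨_, ⟨j w, ⟨w.2, hw⟩, rfl⟩, rfl⟩
  · have d1 : HasStrictFDerivAt (fun v : V => j (z, v))
        ((ContinuousLinearMap.inr ℂ A (V × L)).comp (ContinuousLinearMap.inl ℂ V L)) 0 := by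
      have := (((ContinuousLinearMap.inr ℂ A (V × L)).comp
        (ContinuousLinearMap.inl ℂ V L)).hasStrictFDerivAt (x := 0)).const_add (z, 0, 0)
      simpa [j] using this
    have d2 : HasStrictFDerivAt e2.symm (Θ'.symm : A × V × L →L[ℂ] W) (j (z, 0)) := by
      have := hΘ.to_localInverse
      rwa [h0] at this
    have d3 : HasStrictFDerivAt Φ (Φ' : W →L[ℂ] X) (e2.symm (j (z, 0))) := by
      simp only [j, i0]; exact hΦ
    exact d3.comp 0 (HasStrictFDerivAt.comp (f := fun v : V => j (z, v)) 0 d2 d1)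

end chart

section alg

variable {W R E : Type} [NormedAddCommGroup W] [NormedSpace ℂ W] [NormedRing R] [NormedAlgebra ℂ R]
  [CompleteSpace R] [Fintype E]

theorem stch_conj (a b : W →L[ℂ] R) {w₀ : W} (h0 : a w₀ = 0) : ∃ M : W →L[ℂ] R,
    HasStrictFDerivAt (fun w => (1 + a w) * b w * Ring.inverse (1 + a w)) M w₀ ∧
      ∀ w, M w = a w * b w₀ - b w₀ * a w + b w := by
  have d1 : HasStrictFDerivAt (fun w => 1 + a w) a w₀ := a.hasStrictFDerivAt.const_add 1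
  have d3 := hasStrictFDerivAt_ringInverse (𝕜 := ℂ) (1 : Rˣ)
  rw [show ((1 : Rˣ) : R) = 1 + a w₀ by simp [h0]] at d3
  refine ⟨_, (d1.mul' b.hasStrictFDerivAt).mul' (d3.comp w₀ d1), fun w => ?_⟩
  simp [h0]
  abel

theorem stch_comm (a b : E → W →L[ℂ] R) (w₀ : W) : ∃ M : W →L[ℂ] R,
    HasStrictFDerivAt (fun w => ∑ e, (a e w * b e w - b e w * a e w)) M w₀ ∧
      ∀ w, M w = ∑ e, (a e w * b e w₀ + a e w₀ * b e w - b e w * a e w₀ - b e w₀ * a e w) := by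
  refine ⟨_, HasStrictFDerivAt.fun_sum fun e _ =>
    ((a e).hasStrictFDerivAt.mul' (b e).hasStrictFDerivAt).sub
      ((b e).hasStrictFDerivAt.mul' (a e).hasStrictFDerivAt), fun w => ?_⟩
  rw [ContinuousLinearMap.sum_apply]
  refine Finset.sum_congr rfl fun e _ => ?_
  simp
  abel

end alg

theorem stch_proj {U Z : Type} [AddCommGroup U] [Module ℂ U] [AddCommGroup Z] [Module ℂ Z]
    [FiniteDimensional ℂ U] {f : U →ₗ[ℂ] Z} (hf : Function.Surjective f) {c : ℕ}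
    (hc : finrank ℂ U = c + finrank ℂ Z) :
    ∃ π : U →ₗ[ℂ] (Fin c → ℂ), ∀ u, π u = 0 → f u = 0 → u = 0 := by
  have h1 := f.finrank_range_add_finrank_ker
  rw [LinearMap.range_eq_top.2 hf, finrank_top] at h1
  obtain ⟨e⟩ : Nonempty (LinearMap.ker f ≃ₗ[ℂ] (Fin c → ℂ)) :=
    FiniteDimensional.nonempty_linearEquiv_of_finrank_eq (by simp; omega)
  obtain ⟨g, hg⟩ := LinearMap.exists_leftInverse_of_injective (LinearMap.ker f).subtype
    (LinearMap.ker f).ker_subtype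
  refine ⟨e.toLinearMap ∘ₗ g, fun u h1 h2 => ?_⟩
  have h3 : g u = ⟨u, h2⟩ := LinearMap.congr_fun hg ⟨u, h2⟩
  have h4 : g u = 0 := e.injective (h1.trans (map_zero e).symm)
  exact congrArg Subtype.val (h3.symm.trans h4)

/-- linear equations close to the identity -/
theorem stch_solve {B V : Type} [TopologicalSpace B] [NormedAddCommGroup V] [NormedSpace ℂ V]
    [CompleteSpace V] {T : B → V →L[ℂ] V} {r : B → V} {b₀ : B} (hT : ContinuousAt T b₀)
    (hr : ContinuousAt r b₀) (h1 : T b₀ = 1) (h2 : r b₀ = 0) :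
    ∃ ξ : B → V, Tendsto ξ (𝓝 b₀) (𝓝 0) ∧ ∀ᶠ b in 𝓝 b₀, T b (ξ b) = r b := by
  have c1 : ContinuousAt (fun b => Ring.inverse (T b)) b₀ :=
    ContinuousAt.comp (g := Ring.inverse) (h1 ▸ NormedRing.inverse_continuousAt 1) hT
  refine ⟨fun b => Ring.inverse (T b) (r b), ?_, ?_⟩
  · have := (c1.clm_apply hr).tendsto
    simpa [h2] using this
  · filter_upwards [hT.eventually (Units.isOpen.mem_nhds (h1 ▸ isUnit_one))] with b hb
    exact congrArg (fun A : V →L[ℂ] V => A (r b)) (Ring.mul_inverse_cancel _ hb)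

end Pool.Agent.Work.MP_849ab0_ag.G
end
end

-- merged part: Pool.Agent.Work.MP_849ab0_ag.G.H1.StChB
section
/-!
Derivatives and the local structure of a stratum (owner helper71).
-/

noncomputable section

set_option linter.unusedSectionVars false
set_option linter.unusedVariables false

namespace Pool.Agent.Work.MP_849ab0_ag.G

open Set Topology Matrix Filter Module

namespace Qv

variable {I P E κ : Type} [Fintype I] [DecidableEq I] [Fintype P] [DecidableEq P] [Fintype E]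
  [Fintype κ] [DecidableEq κ] {D : Qv I P E κ}
  {ν : I → ℤ} {ρ ρ' : Option P → ℤ} {g k ξ : Mt P} {s : Set ℤ}

variable (D) in
/-- `mat` as a linear map -/
def matL (e : E) : D.Rep →ₗ[ℂ] Mt P where
  toFun y := D.mat y e
  map_add' x y := mat_addH x y e
  map_smul' z y := mat_smulH z y e

variable (D) in
/-- `lmat` as a linear map -/
def lmatL (ρ : Option P → ℤ) (s : Set ℤ) : (D.Lw ρ s → ℂ) →ₗ[ℂ] Mt P where
  toFun := D.lmat
  map_add' x y := by
    ext (_ | b) (_ | a) <;> simp [lmat, hat]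
    split_ifs <;> simp
  map_smul' z y := by
    ext (_ | b) (_ | a) <;> simp [lmat, hat]

variable (D) in
/-- `ad` as a linear map -/
def adL (y : D.Rep) : Mt P →ₗ[ℂ] D.Rep where
  toFun ξ := D.ad ξ y
  map_add' a b := by
    ext p; simp only [ad, unmat, Pi.add_apply, Matrix.add_mul, Matrix.mul_add, Matrix.sub_apply,
      Matrix.add_apply]; ring
  map_smul' z a := by
    ext p; simp only [ad, unmat, Pi.smul_apply, Matrix.smul_mul, Matrix.mul_smul, Matrix.sub_apply,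
      Matrix.smul_apply, RingHom.id_apply, smul_eq_mul]; ring

variable (D) in
/-- `dmu` as a linear map -/
def dmuL (y : D.dbl.Rep) : D.dbl.Rep →ₗ[ℂ] Mt P where
  toFun := D.dmu y
  map_add' a b := by
    simp only [dmu, mat_addH, Matrix.add_mul, Matrix.mul_add, ← Finset.sum_add_distrib]
    exact Finset.sum_congr rfl fun _ _ => by abel
  map_smul' z a := by
    simp only [dmu, mat_smulH, Matrix.smul_mul, Matrix.mul_smul, Finset.smul_sum, smul_add,
      smul_sub, RingHom.id_apply]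

variable (D) in
/-- the coordinates of a matrix -/
def lco (ρ : Option P → ℤ) (s : Set ℤ) : Mt P →ₗ[ℂ] (D.Lw ρ s → ℂ) where
  toFun g z := g (some z.1.1) (some z.1.2)
  map_add' _ _ := rfl
  map_smul' _ _ := rfl

theorem finrank_Ed : finrank ℂ (D.Ed ρ s) = Nat.card (D.Ew ρ s) := by
  classical
  let f : D.Ed ρ s →ₗ[ℂ] (D.Ew ρ s → ℂ) :=
    (LinearMap.funLeft ℂ ℂ Subtype.val).comp (D.Ed ρ s).subtype
  have hf : Function.Bijective f := by
    refine ⟨(injective_iff_map_eq_zero f).2 fun y h => Subtype.ext (funext fun p => ?_),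
      fun c => ⟨⟨fun p => if h : D.dgr ρ p ∈ s then c ⟨p, h⟩ else 0, fun p h => dif_neg h⟩,
        funext fun p => dif_pos p.2⟩⟩
    by_cases hp : D.dgr ρ p ∈ s
    · exact congrFun h ⟨p, hp⟩
    · exact y.2 p hp
  rw [(LinearEquiv.ofBijective f hf).finrank_eq, finrank_fintype_fun_eq_card,
    Nat.card_eq_fintype_card]

theorem finrank_rep (m : ℤ) :
    finrank ℂ D.Rep = Nat.card (D.Ew ρ (Iic m)) + Nat.card (D.Ew ρ (Ioi m)) := by
  classical
  rw [finrank_fintype_fun_eq_card, Nat.card_eq_fintype_card, Nat.card_eq_fintype_card,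
    ← Fintype.card_sum]
  exact Fintype.card_congr ((Equiv.sumCompl fun p => D.dgr ρ p ∈ Iic m).symm.trans
    (Equiv.sumCongr (.refl _) (Equiv.subtypeEquivRight fun p => by simp)))

section deriv

open scoped Matrix.Norms.Operator

variable {W : Type} [NormedAddCommGroup W] [NormedSpace ℂ W] [FiniteDimensional ℂ W]

theorem strict_cnj (a : W →ₗ[ℂ] Mt P) (b : W →ₗ[ℂ] D.Rep) {w₀ : W} (h0 : a w₀ = 0) :
    HasStrictFDerivAt (fun w => D.cnj (1 + a w) (b w))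
      (LinearMap.toContinuousLinearMap (D.adL (b w₀) ∘ₗ a + b)) w₀ := by
  refine hasStrictFDerivAt_pi'.2 fun p => ?_
  obtain ⟨M, h1, h2⟩ := stch_conj (R := Mt P) (LinearMap.toContinuousLinearMap a)
    (LinearMap.toContinuousLinearMap (D.matL p.1.1 ∘ₗ b)) h0
  have d4 := (LinearMap.toContinuousLinearMap
    (Matrix.entryLinearMap ℂ ℂ p.1.2.2 p.1.2.1)).hasStrictFDerivAt.comp w₀ h1
  convert d4 using 1
  · ext w
    simp [cnj, unmat, matL, Matrix.nonsing_inv_eq_ringInverse]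
  · ext w
    refine Eq.trans ?_ (congrFun (congrFun (h2 w) p.1.2.2) p.1.2.1).symm
    simp [adL, ad, unmat, matL, mat_app]

theorem strict_mu (b : W →ₗ[ℂ] D.dbl.Rep) (w₀ : W) :
    HasStrictFDerivAt (fun w => D.lco ρ s (D.mu (b w)))
      (LinearMap.toContinuousLinearMap (D.lco ρ s ∘ₗ D.dmuL (b w₀) ∘ₗ b)) w₀ := by
  obtain ⟨M, h1, h2⟩ := stch_comm (R := Mt P)
    (fun e => LinearMap.toContinuousLinearMap (D.dbl.matL (.inl e) ∘ₗ b))
    (fun e => LinearMap.toContinuousLinearMap (D.dbl.matL (.inr e) ∘ₗ b)) w₀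
  refine hasStrictFDerivAt_pi'.2 fun z => ?_
  have d4 := (LinearMap.toContinuousLinearMap
    (Matrix.entryLinearMap ℂ ℂ (some z.1.1) (some z.1.2))).hasStrictFDerivAt.comp w₀ h1
  exact d4.congr_fderiv (ContinuousLinearMap.ext fun w =>
    congrFun (congrFun (h2 w) (some z.1.1)) (some z.1.2))

end deriv

theorem mfil_mu {y : D.dbl.Rep} (h : y ∈ D.dbl.El ρ) : MFil ρ ρ 2 (D.mu y) := fun b a k => by
  have h1 := mfil_dmu h (m := 1) h b a k
  have h2 : D.dmu y y = (2 : ℂ) • D.mu y := by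
    simp only [dmu, mu, Finset.smul_sum]
    exact Finset.sum_congr rfl fun _ _ => by module
  simpa [h2] using h1

theorem M0_iff {y : D.dbl.Rep} : y ∈ D.M0 ↔
    D.lco ρ (Iic 2) (D.mu y) = 0 ∧ D.lco ρ (Ioi 2) (D.mu y) = 0 := by
  refine ⟨fun h => ⟨funext fun z => h _ _, funext fun z => h _ _⟩, fun h a b => ?_⟩
  by_cases e : D.col a = D.col b
  · rcases le_or_gt (ρ (some a) - ρ (some b)) 2 with k | k
    exacts [congrFun h.1 ⟨(a, b), e, k⟩, congrFun h.2 ⟨(a, b), e, k⟩]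
  · exact grd_mu y _ _ fun k => e (Option.some.inj k)

theorem mfil_of_lco (h1 : Grd D.cl g) (h2 : D.lco ρ (Ioi 0) g = 0) : MFil ρ ρ 0 g := by
  rintro (_ | b) (_ | a) k
  · simp at k
  · exact h1 _ _ (by simp)
  · exact h1 _ _ (by simp)
  · by_cases e : D.col b = D.col a
    · exact congrFun h2 ⟨(b, a), e, by simp only [mem_Ioi]; omega⟩
    · exact h1 _ _ fun k => e (Option.some.inj k)

theorem continuous_lmat : Continuous (D.lmat : (D.Lw ρ s → ℂ) → Mt P) :=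
  (D.lmatL ρ s).continuous_of_finiteDimensional

theorem lco_lmat (η : D.Lw ρ s → ℂ) : D.lco ρ s (D.lmat η) = η := funext (lmat_apply η)

/-- the big cell -/
theorem big_cell : ∃ ξ : Mt P → D.Lw ρ (Ioi 0) → ℂ, Tendsto ξ (𝓝 1) (𝓝 0) ∧
    ∀ᶠ h in 𝓝 (1 : Mt P), D.lco ρ (Ioi 0) (h * (1 + D.lmat (ξ h))) = 0 := by
  let T : Mt P →ₗ[ℂ] (D.Lw ρ (Ioi 0) → ℂ) →L[ℂ] (D.Lw ρ (Ioi 0) → ℂ) :=
    { toFun := fun h => LinearMap.toContinuousLinearMap
        (D.lco ρ _ ∘ₗ LinearMap.mulLeft ℂ h ∘ₗ D.lmatL ρ _)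
      map_add' := fun a b => by ext η z; simp [add_mul]
      map_smul' := fun c a => by ext η z; simp }
  obtain ⟨ξ, h1, h2⟩ := stch_solve (T := T) (r := fun h => -D.lco ρ (Ioi 0) h) (b₀ := 1)
    T.continuous_of_finiteDimensional.continuousAt
    (D.lco ρ _).continuous_of_finiteDimensional.neg.continuousAt
    (by ext η z; simp [T, lmatL, lco_lmat])
    (by
      ext z
      have : z.1.1 ≠ z.1.2 := fun e => by have := z.2.2; simp [e] at this
      exact neg_eq_zero.2 (Matrix.one_apply_ne fun e => this (Option.some.inj e)))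
  refine ⟨ξ, h1, h2.mono fun h e => ?_⟩
  rw [mul_add, mul_one, map_add]
  exact add_eq_zero_iff_eq_neg'.2 e

/-- points of the stratum near `y` come from the big cell -/
theorem near_Sr {y : D.dbl.Rep} (hy : y ∈ D.S0 ν ρ)
    {N : Set ((D.Lw ρ (Ioi 0) → ℂ) × D.dbl.Rep)} (hN : N ∈ 𝓝 (0, y)) :
    ∀ᶠ u in 𝓝 y, u ∈ D.Sr ν ρ → ∃ w ∈ N, w.2 ∈ D.dbl.El ρ ∧
      D.dbl.cnj (1 + D.lmat w.1) w.2 = u := by
  by_contra hc
  obtain ⟨u, hu, h⟩ := exists_seq_forall_of_frequently (not_eventually.1 hc)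
  simp only [Classical.not_imp] at h
  choose k hk x hx e using fun n => (h n).1
  have : FirstCountableTopology (Mt P) :=
    inferInstanceAs (FirstCountableTopology (Option P → Option P → ℂ))
  obtain ⟨k₀, hk₀, φ, hφ, t1⟩ := (isCompact_KU (c := D.cl)).tendsto_subseq hk
  have t2 := hu.comp hφ.tendsto_atTop
  have cc : ∀ {g : ℕ → Mt P} {g₀ : Mt P}, IsUnit g₀ → Tendsto g atTop (𝓝 g₀) →
      Tendsto (fun n => D.dbl.cnj (g n) (u (φ n))) atTop (𝓝 (D.dbl.cnj g₀ y)) := by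
    intro g g₀ k1 k2
    exact (ContinuousOn.continuousAt (x := (g₀, y)) (continuousOn_cj (D := D.dbl))
      ((isOpen_isUnit.prod isOpen_univ).mem_nhds ⟨k1, trivial⟩)).tendsto.comp
        (f := fun n => (g n, u (φ n))) (k2.prodMk_nhds t2)
  have t3 : Tendsto (fun n => (k (φ n))ᴴ) atTop (𝓝 k₀ᴴ) :=
    (continuous_id.matrix_conjTranspose.tendsto k₀).comp t1
  have x1 n : D.dbl.cnj (k n)ᴴ (u n) = x n := by
    rw [e n, ← (hk n).inv_eq]; exact cj_inv (D := D.dbl) (hk n).gu _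
  have m1 : D.dbl.cnj k₀ᴴ y ∈ D.dbl.El ρ := isClosed_Ed.mem_of_tendsto (cc hk₀.adj.gu.unit t3)
    (.of_forall fun n => by rw [x1]; exact (hx _).2.1)
  have g1 : Grd ρ k₀ := by
    simpa using (hk₀.adj.grd_of_mfil (mfil_of_S0 hy hk₀.adj.gu m1)).adj
  obtain ⟨ξ, t4, t5⟩ := big_cell (D := D) (ρ := ρ)
  have t6 : Tendsto (fun n => k₀ * (k (φ n))ᴴ) atTop (𝓝 1) := by
    rw [← hk₀.uni']
    exact t3.const_mul k₀
  have t7 := t4.comp t6
  have t8 : Tendsto (fun n => 1 + D.lmat (ξ (k₀ * (k (φ n))ᴴ))) atTop (𝓝 1) := by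
    have := ((continuous_lmat.tendsto 0).comp t7).const_add 1
    rwa [show D.lmat (0 : D.Lw ρ (Ioi 0) → ℂ) = 0 from (D.lmatL ρ _).map_zero, add_zero] at this
  have t9 := cc (g₀ := 1⁻¹) (by simp) ((continuousOn_inv.continuousAt
    (isOpen_isUnit.mem_nhds isUnit_one)).tendsto.comp t8)
  rw [inv_one, cj_one] at t9
  obtain ⟨n, n1, n2, n3⟩ := (((t7.prodMk_nhds t9).eventually hN).and ((t6.eventually t5).and
    (t8.eventually (isOpen_isUnit.mem_nhds isUnit_one)))).exists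
  have u1 : GU D.cl (1 + D.lmat (ξ (k₀ * (k (φ n))ᴴ))) := ⟨Grd.one.add (grd_lmat _), n3⟩
  have u2 := (hk₀.mul (hk (φ n)).adj).gu
  have u3 := u2.mul u1
  have f1 := mfil_of_lco u3.grd n2
  refine (h (φ n)).2 ⟨_, n1, ?_, cj_inv' (D := D.dbl) u1 _⟩
  have := cj_mem_Iic (D := D.dbl) u3.inv f1.inv (u3.inv_inv.symm ▸ f1)
    (cj_mem_Ed (D := D.dbl) hk₀.gu g1 (hx (φ n)).2.1)
  rwa [← x1, ← cj_mul (D := D.dbl) hk₀.gu (hk _).adj.gu, ← cj_mul (D := D.dbl) u3.inv u2,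
    Matrix.mul_inv_rev, mul_assoc,
    u2.inv_mul, mul_one] at this

end Qv

end Pool.Agent.Work.MP_849ab0_ag.G
end
end

-- merged part: Pool.Agent.Work.MP_849ab0_ag.G.H1.StCh
section
/-!
The stratum is locally flat (owner helper71).
-/

noncomputable section

set_option linter.unusedSectionVars false
set_option linter.unusedVariables false

namespace Pool.Agent.Work.MP_849ab0_ag.G

open Set Topology Matrix Filter Module

namespace Qv

variable {I P E κ : Type} [Fintype I] [DecidableEq I] [Fintype P] [DecidableEq P] [Fintype E]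
  [Fintype κ] [DecidableEq κ] {D : Qv I P E κ}
  {ν : I → ℤ} {ρ ρ' : Option P → ℤ} {g k ξ : Mt P}

/-- CH: the hypotheses of `thom_loc` with the derivative `L` of the normal slice -/
theorem Step.chart {U : Set D.dbl.Rep} (h : D.Step ν ρ U) {y : D.dbl.Rep} (hy : y ∈ D.S0 ν ρ) :
    ∃ (O : Set (D.ChA ρ × (Fin (D.cod ρ) → ℂ))) (f : D.ChA ρ × (Fin (D.cod ρ) → ℂ) → D.dbl.Rep)
      (z : D.ChA ρ) (L : (Fin (D.cod ρ) → ℂ) →L[ℂ] D.dbl.Rep),
      IsOpen O ∧ (z, 0) ∈ O ∧ f (z, 0) = y ∧ (∀ w ∈ O, f w ∈ D.Sr ν ρ ↔ w.2 = 0) ∧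
      (∃ hm : MapsTo f O U, IsOpenEmbedding (hm.restrict f O U)) ∧
      HasStrictFDerivAt (fun v => f (z, v)) L 0 ∧ (∀ v, D.dmu y (L v) = 0) ∧
      ∀ v ξ, Grd D.cl ξ → L v - D.dbl.ad ξ y ∈ D.dbl.El ρ → v = 0 := by
  classical
  obtain ⟨V, hV, hUV⟩ := h.op
  let σ := D.dbl.adL y ∘ₗ D.lmatL ρ (Ioi 0)
  obtain ⟨C, hC⟩ := (LinearMap.range σ ⊔ D.dbl.El ρ).exists_isCompl
  let W := (D.Lw ρ (Ioi 0) → ℂ) × D.dbl.El ρ × C
  let a : W →ₗ[ℂ] Mt P := D.lmatL ρ _ ∘ₗ LinearMap.fst ℂ _ _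
  let b : W →ₗ[ℂ] D.dbl.Rep := (D.dbl.El ρ).subtype.coprod C.subtype ∘ₗ LinearMap.snd ℂ _ _
  let w₀ : W := (0, ⟨y, hy.2.1⟩, 0)
  have b0 : b w₀ = y := add_zero y
  have a0 : a w₀ = 0 := (D.lmatL ρ _).map_zero
  let F := D.dbl.adL y ∘ₗ a + b
  have Fe (w : W) : F w = σ w.1 + (w.2.1.1 + w.2.2.1) := rfl
  have hx : ∀ (η) (x : C), x.1 - σ η ∈ D.dbl.El ρ → x = 0 := fun η x k =>
    Subtype.ext (Submodule.disjoint_def.1 hC.disjoint _ (by
      rw [← add_sub_cancel (σ η) x.1]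
      exact Submodule.add_mem_sup ⟨η, rfl⟩ k) x.2)
  have hF : Function.Bijective F := by
    refine ⟨(injective_iff_map_eq_zero F).2 fun w e => ?_, fun u => ?_⟩
    · rw [Fe] at e
      have h1 : w.2.2 = 0 := hx (-w.1) _ (by
        rw [show w.2.2.1 - σ (-w.1) = -w.2.1.1 by rw [map_neg]; linear_combination e]
        exact neg_mem w.2.1.2)
      rw [h1, Submodule.coe_zero, add_zero] at e
      have h2 : w.1 = 0 := funext fun z => (lmat_apply _ z).symm.trans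
        (key_ad (D := D.dbl) hy.2.1 hy.2.2 (grd_lmat (D := D) w.1) rfl (m := 0) (by
          rw [show D.dbl.ad (D.lmat w.1) y = -w.2.1.1 from eq_neg_of_add_eq_zero_left e]
          exact neg_mem w.2.1.2) _ _ (by have := z.2.2; simp only [mem_Ioi] at this; omega))
      rw [h2, map_zero, zero_add] at e
      exact Prod.ext h2 (Prod.ext (Subtype.ext e) h1)
    · obtain ⟨p, hp, x, hx, rfl⟩ := Submodule.mem_sup.1 (hC.sup_eq_top ▸ Submodule.mem_top (x := u))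
      obtain ⟨_, ⟨η, rfl⟩, y', hy', rfl⟩ := Submodule.mem_sup.1 hp
      exact ⟨(η, ⟨y', hy'⟩, ⟨x, hx⟩), (add_assoc _ _ _).symm⟩
  let f1 := D.lco ρ (Iic 2) ∘ₗ D.dmuL y ∘ₗ (D.dbl.El ρ).subtype
  let f2 := D.lco ρ (Ioi 2) ∘ₗ D.dmuL y ∘ₗ C.subtype
  have z2 (x : D.dbl.El ρ) : D.lco ρ (Ioi 2) (D.dmuL y x) = 0 := funext fun z =>
    mfil_dmu hy.2.1 (m := 1) x.2 _ _ (by have := z.2.2; simp only [mem_Ioi] at this; omega)
  have zσ (η) : D.dmuL y (σ η) = 0 := dmu_ad hy.1.1 (grd_lmat _)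
  have s1 : Function.Surjective f1 := fun η => by
    obtain ⟨δ, h1, h2⟩ := dmu_onto hy.2.1 hy.2.2 1 η
    exact ⟨⟨δ, h1⟩, funext h2⟩
  have s2 : Function.Surjective f2 := fun η => by
    obtain ⟨δ, -, h2⟩ := dmu_onto hy.2.1 hy.2.2 (2 * Fintype.card P)
      fun z => D.lmat η (some z.1.1) (some z.1.2)
    obtain ⟨w, rfl⟩ := hF.2 δ
    refine ⟨w.2.2, funext fun z => ?_⟩
    have h3 := h2 ⟨z.1, z.2.1, by
      have := abs_le.1 (h.bx.2 (some z.1.1))
      have := abs_le.1 (h.bx.2 (some z.1.2))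
      simp only [mem_Iic]; omega⟩
    rw [lmat_apply] at h3
    rw [← h3]
    change _ = D.lco ρ (Ioi 2) (D.dmuL y (F w)) z
    rw [Fe, map_add (D.dmuL y), zσ, zero_add, map_add (D.dmuL y), map_add, z2, zero_add]
    rfl
  have r0 : ∀ s, finrank ℂ (D.Lw ρ s → ℂ) = Nat.card (D.Lw ρ s) := fun s => by
    rw [finrank_fintype_fun_eq_card, Nat.card_eq_fintype_card]
  have r1 := (LinearEquiv.ofBijective F hF).finrank_eq
  rw [finrank_prod, finrank_prod, r0, finrank_Ed, finrank_rep (ρ := ρ) 1] at r1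
  have r2 := cod_add hy
  have r3 := LinearMap.finrank_le_finrank_of_surjective s1
  rw [r0, finrank_Ed] at r3
  obtain ⟨π1, p1⟩ := stch_proj s1
    (c := Nat.card (D.dbl.Ew ρ (Iic 1)) - Nat.card (D.Lw ρ (Iic 2))) (by rw [r0, finrank_Ed]; omega)
  obtain ⟨π2, p2⟩ := stch_proj s2 (c := D.cod ρ) (by rw [r0]; omega)
  let G1 : W →ₗ[ℂ] D.ChA ρ :=
    (LinearMap.fst ℂ _ _).prod (π1 ∘ₗ LinearMap.fst ℂ _ _ ∘ₗ LinearMap.snd ℂ _ _)
  let G2 : W →ₗ[ℂ] (Fin (D.cod ρ) → ℂ) := π2 ∘ₗ LinearMap.snd ℂ _ _ ∘ₗ LinearMap.snd ℂ _ _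
  let G := G1.prod (G2.prod ((D.lco ρ (Iic 2) ∘ₗ D.dmuL y ∘ₗ b).prod
    (D.lco ρ (Ioi 2) ∘ₗ D.dmuL y ∘ₗ b)))
  have be (s) (w : W) : D.lco ρ s (D.dmuL y (b w)) =
      D.lco ρ s (D.dmuL y w.2.1) + D.lco ρ s (D.dmuL y w.2.2) := by
    rw [← map_add, ← map_add]; rfl
  have hG : Function.Bijective G := by
    have hi : Function.Injective G := (injective_iff_map_eq_zero G).2 fun w e => by
      have h1 : w.2.2 = 0 := p2 _ (congrArg (·.2.1) e) (by
        have : D.lco ρ (Ioi 2) (D.dmuL y (b w)) = 0 := congrArg (·.2.2.2) e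
        rwa [be, z2, zero_add] at this)
      have h2 : w.2.1 = 0 := p1 _ (congrArg (·.1.2) e) (by
        have : D.lco ρ (Iic 2) (D.dmuL y (b w)) = 0 := congrArg (·.2.2.1) e
        rwa [be, h1, Submodule.coe_zero, map_zero, map_zero, add_zero] at this)
      exact Prod.ext (congrArg (·.1.1) e) (Prod.ext h2 h1)
    refine ⟨hi, (LinearMap.injective_iff_surjective_of_finrank_eq_finrank ?_).1 hi⟩
    simp only [W, finrank_prod, r0, finrank_Ed, finrank_fin_fun]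
    omega
  let Φ : W → D.dbl.Rep := fun w => D.dbl.cnj (1 + a w) (b w)
  let Θ : W → _ := fun w => (G1 w, G2 w, D.lco ρ (Iic 2) (D.mu (b w)), D.lco ρ (Ioi 2) (D.mu (b w)))
  have hΦ : HasStrictFDerivAt Φ ((LinearEquiv.ofBijective F hF).toContinuousLinearEquiv :
      W →L[ℂ] D.dbl.Rep) w₀ :=
    (strict_cnj a b a0).congr_fderiv (ContinuousLinearMap.ext fun w => by rw [b0]; rfl)
  have hΘ : HasStrictFDerivAt Θ ((LinearEquiv.ofBijective G hG).toContinuousLinearEquiv :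
      W →L[ℂ] _) w₀ :=
    ((LinearMap.toContinuousLinearMap G1).hasStrictFDerivAt.prodMk
      ((LinearMap.toContinuousLinearMap G2).hasStrictFDerivAt.prodMk
        ((strict_mu b w₀).prodMk (strict_mu b w₀)))).congr_fderiv
      (ContinuousLinearMap.ext fun w => by rw [b0]; rfl)
  have m0 := (M0_iff (ρ := ρ)).1 hy.1.1
  have Φ0 : Φ w₀ = y := by simp only [Φ, a0, b0, add_zero]; exact cj_one y
  have Θ0 : Θ w₀ = (G1 w₀, 0, 0) := by
    simp only [Θ, b0, m0.1, m0.2]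
    exact Prod.ext rfl (Prod.ext π2.map_zero rfl)
  have yU : y ∈ U := h.sr_sub (S0_sub_Sr hy)
  have E1 : ∀ᶠ w in 𝓝 w₀, GU D.cl (1 + a w) := by
    have c : Continuous fun w => 1 + a w := continuous_const.add a.continuous_of_finiteDimensional
    filter_upwards [c.continuousAt.eventually (isOpen_isUnit.mem_nhds
      (show IsUnit (1 + a w₀) by simp [a0]))] with w hw
    exact ⟨Grd.one.add (grd_lmat _), hw⟩
  have E2 : ∀ᶠ w in 𝓝 w₀, Φ w ∈ V :=
    hΦ.continuousAt.eventually (hV.mem_nhds (by rw [Φ0]; exact (hUV ▸ yU).2))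
  have E3 : ∀ᶠ w in 𝓝 w₀, D.dbl.gr ρ w.2.1.1 ∈ D.dbl.St ν :=
    (continuous_prd.comp (continuous_subtype_val.comp continuous_snd.fst)).continuousAt.eventually
      ((isOpen_st ν).mem_nhds hy.2.2)
  have E4 : ∀ᶠ w in 𝓝 w₀, Φ w ∈ D.Sr ν ρ → w.2.2 = 0 := by
    have n1 := (hΦ.toOpenPartialHomeomorph Φ).open_source.mem_nhds
      hΦ.mem_toOpenPartialHomeomorph_source
    let j : (D.Lw ρ (Ioi 0) → ℂ) × D.dbl.Rep → W := fun q =>
      (q.1, ⟨D.dbl.prd ρ (Iic 1) q.2, prd_mem _⟩, 0)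
    have cj : Continuous j := continuous_fst.prodMk
      (((continuous_prd.comp continuous_snd).subtype_mk _).prodMk continuous_const)
    have j0 : j (0, y) = w₀ := Prod.ext rfl (Prod.ext (Subtype.ext (prd_of_mem hy.2.1)) rfl)
    have n2 := near_Sr hy (cj.continuousAt.preimage_mem_nhds (by rw [j0]; exact n1))
    rw [← Φ0] at n2
    filter_upwards [n1, hΦ.continuousAt.eventually n2] with w k1 k2 k3
    obtain ⟨q, q1, q2, q3⟩ := k2 k3
    have : Φ (j q) = Φ w := by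
      have e : b (j q) = q.2 := (add_zero _).trans (prd_of_mem q2)
      rw [← q3, ← e]
      rfl
    rw [← (hΦ.toOpenPartialHomeomorph Φ).injOn q1 k1 this]
  have E5 : ∀ᶠ w in 𝓝 w₀, b w ∈ D.M0 → G2 w = 0 → w.2.2 = 0 := by
    have n1 := (hΘ.toOpenPartialHomeomorph Θ).open_source.mem_nhds
      hΘ.mem_toOpenPartialHomeomorph_source
    have c1 : Continuous fun q : (D.Lw ρ (Ioi 0) → ℂ) × D.dbl.El ρ => ((q.1, q.2, 0) : W) := by
      fun_prop
    obtain ⟨N1, n2, N2, n3, n4⟩ := mem_nhds_prod_iff.1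
      (c1.continuousAt (x := (0, w₀.2.1)).preimage_mem_nhds n1)
    have hi : Function.Injective (π1.prod f1) := (injective_iff_map_eq_zero _).2 fun u e =>
      p1 u (congrArg (·.1) e) (congrArg (·.2) e)
    have hs := (LinearMap.injective_iff_surjective_of_finrank_eq_finrank (by
        simp only [finrank_prod, r0, finrank_Ed, finrank_fin_fun]; omega)).1 hi
    have d1 := ((LinearMap.toContinuousLinearMap π1).hasStrictFDerivAt.prodMk
      (strict_mu (s := Iic 2) (D.dbl.El ρ).subtype w₀.2.1)).map_nhds_eq_of_surj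
      (LinearMap.range_eq_top.2 fun q => hs q)
    have n5 := image_mem_map (m := fun u : D.dbl.El ρ => (π1 u, D.lco ρ (Iic 2) (D.mu u))) n3
    erw [d1] at n5
    have c2 : Continuous fun w : W => (π1 w.2.1, (0 : D.Lw ρ (Iic 2) → ℂ)) :=
      (π1.continuous_of_finiteDimensional.comp continuous_snd.fst).prodMk continuous_const
    have n6 := c2.continuousAt (x := w₀).preimage_mem_nhds
      (t := (fun u : D.dbl.El ρ => (π1 u, D.lco ρ (Iic 2) (D.mu u))) '' N2) (by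
        rw [← m0.1]; exact n5)
    filter_upwards [n1, n6, continuous_fst.continuousAt.preimage_mem_nhds (x := w₀) n2]
      with w k1 k2 k3 k4 k5
    obtain ⟨u, u1, u2⟩ := k2
    have k6 := (M0_iff (ρ := ρ)).1 k4
    have bu : b (w.1, u, 0) = u := add_zero _
    have : Θ (w.1, u, 0) = Θ w := by
      refine Prod.ext (Prod.ext rfl (congrArg (·.1) u2)) (Prod.ext (π2.map_zero.trans k5.symm)
        (Prod.ext ?_ ?_))
      · simp only [Θ, bu, k6.1]; exact congrArg (·.2) u2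
      · simp only [Θ, bu, k6.2]
        exact funext fun z => mfil_mu u.2 _ _ (by
          have := z.2.2; simp only [mem_Ioi] at this; omega)
    rw [← (hΘ.toOpenPartialHomeomorph Θ).injOn (n4 (mk_mem_prod k3 u1)) k1 this]
  obtain ⟨O, f, M, o1, o2, o3, o4, o5, o6, o7⟩ := stch_abs hΦ hΘ Θ0 (U := U) (S := D.Sr ν ρ) (by
    filter_upwards [E1, E2, E3, E4, E5] with w k1 k2 k3 k4 k5
    have e : D.dbl.cnj (1 + a w)⁻¹ (Φ w) = b w := cj_inv (D := D.dbl) k1 _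
    have e1 : Φ w ∈ U ↔ b w ∈ D.M0 :=
      ⟨fun k => e ▸ M0_cj k1.inv (hUV ▸ k).1, fun k => hUV ▸ ⟨M0_cj k1 k, k2⟩⟩
    refine ⟨e1.trans ((M0_iff (ρ := ρ)).trans Prod.mk_eq_zero.symm), fun k => ⟨fun k' => ?_,
      fun k' => ?_⟩⟩
    · exact (congrArg π2 (k4 k')).trans π2.map_zero
    · have e2 : b w = w.2.1.1 := by
        change w.2.1.1 + w.2.2.1 = _
        rw [k5 (e1.1 k) k', Submodule.coe_zero, add_zero]
      exact cj_mem_Sr k1 (S0_sub_Sr ⟨h.sub (e ▸ h.cnj _ k1.inv _ k), e2 ▸ w.2.1.2, e2 ▸ k3⟩))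
  have o8 (v) : ∃ w : W, G w = (0, v, 0) ∧ M v = b w := by
    refine ⟨_, (LinearEquiv.ofBijective G hG).apply_symm_apply _, (o7 v).trans ?_⟩
    have : ((LinearEquiv.ofBijective G hG).symm (0, v, 0)).1 = 0 :=
      congrArg (·.1.1) ((LinearEquiv.ofBijective G hG).apply_symm_apply (0, v, 0))
    exact (Fe _).trans (by erw [this]; rw [map_zero, zero_add]; rfl)
  refine ⟨O, f, _, M, o1, o2, o3.trans Φ0, o4, o5, o6, fun v => ?_, fun v ζ k1 k2 => ?_⟩
  · obtain ⟨w, h1, h2⟩ := o8 v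
    rw [h2]
    refine dmu_eq_zero fun p q e => ?_
    rcases le_or_gt (ρ (some p) - ρ (some q)) 2 with k | k
    exacts [congrFun (congrArg (·.2.2.1) h1) ⟨(p, q), e, k⟩,
      congrFun (congrArg (·.2.2.2) h1) ⟨(p, q), e, k⟩]
  · obtain ⟨w, h1, h2⟩ := o8 v
    have g1 : Grd D.cl (ζ - D.lmat (D.lco ρ (Ioi 0) ζ)) := k1.sub (grd_lmat _)
    have g2 : D.dbl.ad (ζ - D.lmat (D.lco ρ (Ioi 0) ζ)) y ∈ D.dbl.El ρ := by
      have g3 := mfil_of_lco g1 (ρ := ρ) (by rw [map_sub, lco_lmat, sub_self])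
      refine mem_Ed_Iic.2 fun e => ?_
      rw [mat_ad (D := D.dbl) g1]
      exact MFil.sub (by simpa using g3.mul (mem_Ed_Iic.1 hy.2.1 e))
        (by simpa using (mem_Ed_Iic.1 hy.2.1 e).mul g3)
    have g4 : w.2.2 = 0 := hx (D.lco ρ (Ioi 0) ζ) _ (by
      have g5 := sub_mem (add_mem k2 g2) w.2.1.2
      have g6 : D.dbl.ad (ζ - D.lmat (D.lco ρ (Ioi 0) ζ)) y =
          D.dbl.ad ζ y - σ (D.lco ρ (Ioi 0) ζ) := (D.dbl.adL y).map_sub _ _
      rw [h2, g6, show b w = w.2.1.1 + w.2.2.1 from rfl] at g5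
      convert g5 using 1
      abel)
    exact (congrArg (·.2.1) h1).symm.trans ((congrArg π2 g4).trans π2.map_zero)

end Qv

end Pool.Agent.Work.MP_849ab0_ag.G
end
end
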