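import Pool.Agent.Work.MP_849ab0_ag.G.H2.Cs
import Pool.Agent.Work.MP_849ab0_ag.G.QBasic
import Pool.Agent.Work.MP_849ab0_ag.G.ApiI
import Pool.Agent.Work.MP_849ab0_ag.G.H1.MnA

-- merged part: Pool.Agent.Work.MP_849ab0_ag.G.H2.Kap
section
/-!
The class `kap` of a graph and the admissibility of the integral in `tint`.

Hints.  `kap_bij`: `excision` (ApiB) for the open part `sph ×ˢ (p ⁻¹' U ∩ O)`.  On `sph ×ˢ p ⁻¹' U`
the graph is `{z | z.2 ∈ O ∩ E ⁻¹' sph, z.1 = E z.2}`, closed because `O ∩ E ⁻¹' sph` is closed in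
`p ⁻¹' U` (`TAdm.lev`) and `E` is continuous there.  `kap_spec`: `apply_linv`.  `isDeg_kap`:
`isDeg_of_map` with `d = 0` (`IsDeg.gp`) and `isDeg_eul`.  `gp_kap`: apply the injective map of
`kap_bij` for the primed data, `gp_comp` twice, `kap_spec`, `gp_eul`.  `Fib.gadm_map`: on `p' ⁻¹' U'`
one has `f' z = s (f (p' z), F' z)` for the section `s` of `Fib.inv`; `(p, F)` is injective on
`p ⁻¹' U`.  `Fib.of_comp`: the inverse is `(y, v) ↦ s (p y, Sum.elim (F₁ y) v ∘ e.symm)`.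
-/

noncomputable section

set_option linter.unusedSectionVars false
set_option linter.unusedVariables false

namespace Pool.Agent.Work.MP_849ab0_ag.G

open Set Topology Matrix

variable {A R : Type} [Fintype A] [DecidableEq A] [Fintype R] [Nonempty R] {H H' : Gp} [H.Nice]
  [H'.Nice] {X X' Y Y' : Type}
  [TopologicalSpace X] [T3Space X] [SecondCountableTopology X]
  [TopologicalSpace X'] [T3Space X'] [SecondCountableTopology X']
  [TopologicalSpace Y] [T3Space Y] [SecondCountableTopology Y]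
  [TopologicalSpace Y'] [T3Space Y'] [SecondCountableTopology Y']
  {J : Type} [Fintype J] {χ : A × R → H.H → ℂ} {χ' : A × R → H'.H → ℂ}
  {a : Act H X} [a.Ok] {a' : Act H' X'} [a'.Ok]
  {b : Act (TG A H) Y} [b.Ok] {b' : Act (TG A H') Y'} [b'.Ok]
  {ρ : Act (TG A H) (J → ℂ)} [ρ.Rep] {p : Y → X} {F : Y → J → ℂ} {O : Set Y} {E : Y → A × R → ℂ}
  {U Z U₁ Z₁ Z₂ : Set X} {V W V₁ W₁ W₂ : Set Y} {U' Z' : Set X'} {V' W' O' : Set Y'}
  {φ : H'.H → H.H} [IsHom φ]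

section

variable {G G' : Gp} [G.Nice] [G'.Nice] {c : Act G X} [c.Ok] {c' : Act G' X'} [c'.Ok]
  {d : Act G Y} [d.Ok] {d' : Act G' Y'} [d'.Ok] {σ : Act G (J → ℂ)} {σ' : Act G' (J → ℂ)}
  {ψ : G'.H → G.H} [IsHom ψ]

theorem Fib.inj (h : Fib c d σ p F U) {y y' : Y} (hy : p y ∈ U) (e : p y = p y') (e' : F y = F y') :
    y = y' := by
  obtain ⟨s, -, -, hs⟩ := h.inv
  have h1 := hs y hy
  have h2 := hs y' (show p y' ∈ U from e ▸ hy)
  rw [← h1, e, e', h2]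

theorem Fib.mono (h : Fib c d σ p F U) (e : U₁ ⊆ U) : Fib c d σ p F U₁ := by
  obtain ⟨s, h1, h2, h3⟩ := h.inv
  exact ⟨h.contp, h.eqvp, h.contF.mono fun _ k => e k, fun g y k => h.eqvF g y (e k),
    s, h1.mono (Set.prod_mono e subset_rfl), fun x k => h2 x (e k), fun y k => h3 y (e k)⟩

/-- a map of trivial bundles is continuous and equivariant -/
theorem Fib.gadm_map (h : Fib c d σ p F U) {p' : Y' → X'} {F' : Y' → J → ℂ} (h' : Fib c' d' σ' p' F' U')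
    {f : X' → X} {f' : Y' → Y} (k : GAdm c' c ψ f U' Z' U Z)
    (e : ∀ g w, σ'.act g w = σ.act (ψ g) w) (e₁ : ∀ z, p' z ∈ U' → p (f' z) = f (p' z))
    (e₂ : ∀ z, p' z ∈ U' → F (f' z) = F' z) :
    GAdm d' d ψ f' (p' ⁻¹' U') (p' ⁻¹' Z') (p ⁻¹' U) (p ⁻¹' Z) := by
  have m : ∀ z, p' z ∈ U' → p (f' z) ∈ U := fun z hz => by rw [e₁ z hz]; exact k.maps hz
  refine ⟨k.src.preimage (φ := id) h'.contp h'.eqvp, k.tgt.preimage (φ := id) h.contp h.eqvp,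
    ?_, fun g z hz => ?_, m, fun z hz hz' => k.supp _ hz ?_⟩
  · obtain ⟨s, h1, -, h3⟩ := h.inv
    refine (h1.comp ((k.cont.comp h'.contp.continuousOn fun _ hz => hz).prodMk h'.contF)
      fun z hz => ⟨k.maps hz, trivial⟩).congr fun z hz => ?_
    have := h3 (f' z) (m z hz)
    rw [e₁ z hz, e₂ z hz] at this
    exact this.symm
  · have hz : p' z ∈ U' := hz
    have hg : p' (d'.act g z) ∈ U' := by rw [h'.eqvp]; exact k.src.inv g _ hz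
    refine h.inj (m _ hg) ?_ ?_
    · rw [e₁ _ hg, h'.eqvp, k.eqv g _ hz, h.eqvp, e₁ z hz]
    · rw [e₂ _ hg, h'.eqvF g z hz, e, h.eqvF _ _ (m z hz), e₂ z hz]
  · rw [← e₁ z hz]; exact hz'

theorem Fib.of_comp {Y₂ J₁ J₂ : Type} [TopologicalSpace Y₂] [Fintype J₁] [Fintype J₂]
    {d₂ : Act G Y₂} {σ₁ : Act G (J₁ → ℂ)} {σ₂ : Act G (J₂ → ℂ)} {e : J₁ ⊕ J₂ ≃ J}
    (he : IsSum σ σ₁ σ₂ e) (hU : c.Pr U Z) {F₁ : Y → J₁ → ℂ} {q : Y₂ → Y} {F₂ : Y₂ → J₂ → ℂ}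
    {F₃ : Y₂ → J → ℂ} (h₁ : Fib c d σ₁ p F₁ U) (h : Fib c d₂ σ (p ∘ q) F₃ U) (hq : Continuous q)
    (eq : ∀ g y, q (d₂.act g y) = d.act g (q y))
    (e₁ : ∀ z, p (q z) ∈ U → F₃ z ∘ e ∘ Sum.inl = F₁ (q z))
    (e₂ : ∀ z, p (q z) ∈ U → F₃ z ∘ e ∘ Sum.inr = F₂ z) : Fib d d₂ σ₂ q F₂ (p ⁻¹' U) := by
  refine ⟨hq, eq, ?_, fun g z hz => ?_, ?_⟩
  · refine ContinuousOn.congr (f := fun z => F₃ z ∘ e ∘ Sum.inr) ?_ fun z hz => (e₂ z hz).symm
    exact continuousOn_pi.2 fun j => continuousOn_pi.1 h.contF _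
  · have hz : p (q z) ∈ U := hz
    have hg : p (q (d₂.act g z)) ∈ U := by
      rw [eq, h₁.eqvp]; exact hU.inv g _ hz
    rw [← e₂ _ hg, h.eqvF g z hz, (he g _).2, e₂ z hz]
  · obtain ⟨s, h1, h2, h3⟩ := h.inv
    refine ⟨fun w => s (p w.1, Sum.elim (F₁ w.1) w.2 ∘ e.symm), ?_, fun y hy v => ?_,
      fun z hz => ?_⟩
    · refine h1.comp (((h₁.contp.comp continuous_fst).continuousOn).prodMk ?_)
        fun w hw => ⟨hw.1, trivial⟩
      refine continuousOn_pi.2 fun j => ?_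
      simp only [Function.comp_apply]
      cases e.symm j with
      | inl i =>
        exact (continuousOn_pi.1 h₁.contF i).comp continuous_fst.continuousOn fun w hw => hw.1
      | inr i => exact ((continuous_apply i).comp continuous_snd).continuousOn
    · obtain ⟨k1, k2⟩ := h2 (p y) hy (Sum.elim (F₁ y) v ∘ e.symm)
      have k1 : p (q (s (p y, Sum.elim (F₁ y) v ∘ e.symm))) = p y := k1
      have k3 : p (q (s (p y, Sum.elim (F₁ y) v ∘ e.symm))) ∈ U := by rw [k1]; exact hy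
      refine ⟨h₁.inj k3 k1 ?_, ?_⟩
      · rw [← e₁ _ k3, k2]
        funext i
        simp
      · rw [← e₂ _ k3, k2]
        funext i
        simp
    · have hz : p (q z) ∈ U := hz
      have : Sum.elim (F₁ (q z)) (F₂ z) ∘ e.symm = F₃ z := by
        rw [← e₁ z hz, ← e₂ z hz]
        funext j
        obtain ⟨i, rfl⟩ := e.surjective j
        cases i <;> simp
      change s (p (q z), Sum.elim (F₁ (q z)) (F₂ z) ∘ e.symm) = z
      rw [this]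
      exact h3 z hz

/-- adding a factor -/
theorem Fib.prod {S : Type} [TopologicalSpace S] (s : Act G S) (h : Fib c d σ p F U) (T : Set S) :
    Fib (s.prod c) (s.prod d) σ (fun z => (z.1, p z.2)) (fun z => F z.2) (T ×ˢ U) := by
  obtain ⟨t, h1, h2, h3⟩ := h.inv
  refine ⟨continuous_fst.prodMk (h.contp.comp continuous_snd),
    fun g y => Prod.ext rfl (h.eqvp g y.2),
    h.contF.comp continuous_snd.continuousOn fun _ hz => hz.2,
    fun g y hy => h.eqvF g y.2 hy.2, fun w => (w.1.1, t (w.1.2, w.2)), ?_,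
    fun x hx v => ⟨Prod.ext rfl (h2 x.2 hx.2 v).1, (h2 x.2 hx.2 v).2⟩,
    fun y hy => Prod.ext rfl (h3 y.2 hy.2)⟩
  exact continuous_fst.fst.continuousOn.prodMk (h1.comp
    (continuous_fst.snd.prodMk continuous_snd).continuousOn fun w hw => ⟨hw.1.2, trivial⟩)

end

section

omit [ρ.Rep]

theorem kap_pr_opn (h : TAdm χ a b ρ p F O E U Z V W) : b.Pr (p ⁻¹' U ∩ O) univ := by
  have := h.opn.top.diff h.opn
  rwa [Set.sdiff_compl] at this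

theorem kap_pr_gph (h : TAdm χ a b ρ p F O E U Z V W) :
    ((sphRep χ).prod b).Pr (sph A R ×ˢ (p ⁻¹' U)) (gph O E) := by
  have k := pr_sph h.ch h.lev
  refine ⟨k.lc, k.inv, fun g z hz hz' => ⟨((kap_pr_opn h).inv g z.2 ⟨hz.2, hz'.1⟩).2, ?_⟩,
    fun z hz => ?_⟩
  · change (sphRep χ).act g z.1 = E (b.act g z.2)
    rw [h.eqvE g z.2 ⟨hz.2, hz'.1⟩, hz'.2]
  · have h0 : sph A R ×ˢ (p ⁻¹' U) ∩ gph O E ⊆
        sph A R ×ˢ (p ⁻¹' U) ∩ univ ×ˢ (O ∩ E ⁻¹' sph A R) :=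
      fun w hw => ⟨hw.1, trivial, hw.2.1, by rw [mem_preimage, ← hw.2.2]; exact hw.1.1⟩
    have h1 : z ∈ univ ×ˢ (O ∩ E ⁻¹' sph A R) := k.cl ⟨hz.1, closure_mono h0 hz.2⟩
    refine ⟨h1.2.1, ?_⟩
    have h2 : ContinuousWithinAt (fun w : (A × R → ℂ) × Y => w.1 - E w.2)
        (sph A R ×ˢ (p ⁻¹' U) ∩ gph O E) z :=
      continuous_fst.continuousWithinAt.sub
        ((h.contE z.2 ⟨hz.1.2, h1.2.1⟩).comp continuous_snd.continuousWithinAt
          fun w hw => ⟨hw.1.2, hw.2.1⟩)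
    have h3 := h2.mem_closure (t := {0}) hz.2 fun w hw => sub_eq_zero.2 hw.2.2
    rw [closure_singleton] at h3
    exact sub_eq_zero.1 h3

theorem kap_pr_gph' (h : TAdm χ a b ρ p F O E U Z V W) :
    ((sphRep χ).prod b).Pr (sph A R ×ˢ (p ⁻¹' U ∩ O)) (gph O E) :=
  (kap_pr_gph h).mono (pr_sph h.ch (kap_pr_opn h)) (Set.prod_mono subset_rfl inter_subset_left)

theorem kap_eadm (h : TAdm χ a b ρ p F O E U Z V W) :
    EAdm ((sphRep χ).prod b) (sphRep χ) (fun z => z.1 - E z.2) (sph A R ×ˢ (p ⁻¹' U ∩ O))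
      (gph O E) := by
  haveI := rep_sphRep h.ch
  refine ⟨kap_pr_gph' h, Act.Rep.pr _, continuous_fst.continuousOn.sub
    (h.contE.comp continuous_snd.continuousOn fun _ hz => hz.2), fun g z hz => ?_,
    fun _ _ => trivial, fun z hz k => ⟨hz.2.2, sub_eq_zero.1 k⟩⟩
  change (sphRep χ).act g z.1 - E (b.act g z.2) = (sphRep χ).act g (z.1 - E z.2)
  rw [h.eqvE g z.2 hz.2, (Act.Rep.lin g).map_sub]

theorem kap_kap_bij (h : TAdm χ a b ρ p F O E U Z V W) :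
    Function.Bijective (gp ((sphRep χ).prod b) id id (sph A R ×ˢ (p ⁻¹' U ∩ O)) (gph O E) :
      EH ((sphRep χ).prod b) (sph A R ×ˢ (p ⁻¹' U)) (gph O E) → _) := by
  haveI := rep_sphRep h.ch
  refine excision (kap_pr_gph h) ((pr_sph h.ch h.opn).congr_mem fun z hz => ?_)
    (Set.prod_mono subset_rfl inter_subset_left) fun z hz => ⟨hz.1.1, hz.1.2, hz.2.1⟩
  exact ⟨fun k => ⟨hz, fun m => k.2 m.2.2⟩, fun k => ⟨trivial, fun m => k.2 ⟨hz.1, hz.2, m⟩⟩⟩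

theorem kap_kap_spec (h : TAdm χ a b ρ p F O E U Z V W) :
    gp ((sphRep χ).prod b) id id (sph A R ×ˢ (p ⁻¹' U ∩ O)) (gph O E) (kap χ b O E (p ⁻¹' U)) =
      eul ((sphRep χ).prod b) (sphRep χ) (fun z => z.1 - E z.2) (sph A R ×ˢ (p ⁻¹' U ∩ O))
        (gph O E) := apply_linv (kap_kap_bij h) _

theorem kap_mem_V (h : TAdm χ a b ρ p F O E U Z V W) {z : (A × R → ℂ) × Y}
    (hz : z ∈ sph A R ×ˢ (p ⁻¹' U)) (k : z ∈ gph O E) : z.2 ∈ V :=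
  h.sub z.2 k.1 (k.2 ▸ hz.1) hz.2

theorem kap_pr_src (h : TAdm χ a b ρ p F O E U Z V W) :
    ((sphRep χ).prod b).Pr (sph A R ×ˢ (V ∩ p ⁻¹' U)) (univ ×ˢ W) :=
  pr_sph h.ch (h.src.mono (Z' := univ) ⟨h.src.lc.inter h.lev.lc,
    fun g y hy => ⟨h.src.inv g y hy.1, h.lev.inv g y hy.2⟩, fun _ _ _ _ => trivial,
    fun _ _ => trivial⟩ inter_subset_left)

theorem kap_pr_supp (h : TAdm χ a b ρ p F O E U Z V W) :
    ((sphRep χ).prod b).Pr (sph A R ×ˢ (p ⁻¹' U)) (univ ×ˢ W ∩ gph O E) := by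
  have k := kap_pr_gph h
  refine ⟨k.lc, k.inv, fun g z hz hz' => ⟨⟨trivial, h.src.invz g z.2 (kap_mem_V h hz hz'.2)
    hz'.1.2⟩, k.invz g z hz hz'.2⟩, fun z hz => ?_⟩
  have h1 : z ∈ gph O E :=
    k.cl ⟨hz.1, closure_mono (inter_subset_inter_right _ inter_subset_right) hz.2⟩
  refine ⟨⟨trivial, h.src.cl ⟨kap_mem_V h hz.1 h1, ?_⟩⟩, h1⟩
  exact continuous_snd.continuousWithinAt.mem_closure hz.2
    fun w hw => ⟨kap_mem_V h hw.1 hw.2.2, hw.2.1.2⟩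

end

namespace TAdm

theorem pr_gph (h : TAdm χ a b ρ p F O E U Z V W) :
    ((sphRep χ).prod b).Pr (sph A R ×ˢ (p ⁻¹' U)) (gph O E) := kap_pr_gph h

theorem pr_opn (h : TAdm χ a b ρ p F O E U Z V W) : b.Pr (p ⁻¹' U ∩ O) univ := kap_pr_opn h

theorem eadm (h : TAdm χ a b ρ p F O E U Z V W) :
    EAdm ((sphRep χ).prod b) (sphRep χ) (fun z => z.1 - E z.2) (sph A R ×ˢ (p ⁻¹' U ∩ O))
      (gph O E) := kap_eadm h

theorem kap_bij (h : TAdm χ a b ρ p F O E U Z V W) :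
    Function.Bijective (gp ((sphRep χ).prod b) id id (sph A R ×ˢ (p ⁻¹' U ∩ O)) (gph O E) :
      EH ((sphRep χ).prod b) (sph A R ×ˢ (p ⁻¹' U)) (gph O E) → _) := kap_kap_bij h

theorem kap_spec (h : TAdm χ a b ρ p F O E U Z V W) :
    gp ((sphRep χ).prod b) id id (sph A R ×ˢ (p ⁻¹' U ∩ O)) (gph O E) (kap χ b O E (p ⁻¹' U)) =
      eul ((sphRep χ).prod b) (sphRep χ) (fun z => z.1 - E z.2) (sph A R ×ˢ (p ⁻¹' U ∩ O))
        (gph O E) := kap_kap_spec h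

theorem isDeg_kap (h : TAdm χ a b ρ p F O E U Z V W) :
    IsDeg (2 * (Fintype.card A * Fintype.card R)) (kap χ b O E (p ⁻¹' U)) := by
  haveI := rep_sphRep h.ch
  refine isDeg_of_map (kap_kap_bij h).1 (d := 0) (fun p x k => by simpa using k.gp _ _) ?_
  rw [add_zero]
  have := isDeg_eul (b := (sphRep χ).prod b) (ρ := sphRep χ) (F := fun z => z.1 - E z.2)
    (V := sph A R ×ˢ (p ⁻¹' U ∩ O)) (W := gph O E)
  rw [← kap_kap_spec h, Fintype.card_prod, Nat.cast_mul] at this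
  exact this

theorem ecup (h : TAdm χ a b ρ p F O E U Z V W) :
    ECup ((sphRep χ).prod b) (sph A R ×ˢ (V ∩ p ⁻¹' U)) (univ ×ˢ W) (sph A R ×ˢ (p ⁻¹' U))
      (gph O E) (sph A R ×ˢ (p ⁻¹' U)) (univ ×ˢ W ∩ gph O E) := by
  refine ⟨kap_pr_src h, kap_pr_gph h, kap_pr_supp h, subset_union_right, fun z hz => ?_,
    fun z hz => ?_⟩
  · by_cases k : z ∈ gph O E
    · exact Or.inl ⟨hz.1, kap_mem_V h hz k, hz.2⟩
    · exact Or.inr ⟨hz, k⟩
  · by_cases k : z ∈ gph O E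
    · exact Or.inl ⟨⟨hz.1.1, kap_mem_V h hz.1 k, hz.1.2⟩, fun m => hz.2 ⟨m, k⟩⟩
    · exact Or.inr ⟨hz.1, k⟩

theorem gadm (h : TAdm χ a b ρ p F O E U Z V W) :
    GAdm ((sphRep χ).prod b) b id Prod.snd (sph A R ×ˢ (V ∩ p ⁻¹' U)) (univ ×ˢ W) V W :=
  ⟨kap_pr_src h, h.src, continuous_snd.continuousOn, fun _ _ _ => rfl, fun _ hz => hz.2.1,
    fun _ _ k => ⟨trivial, k⟩⟩

theorem iadm (h : TAdm χ a b ρ p F O E U Z V W) :
    IAdm ((sphRep χ).prod (a.res Prod.snd)) ((sphRep χ).prod b) ρ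
      (fun z : (A × R → ℂ) × Y => (z.1, p z.2)) (fun z => F z.2) (sph A R ×ˢ U) (univ ×ˢ Z)
      (sph A R ×ˢ (p ⁻¹' U)) (univ ×ˢ W ∩ gph O E) := by
  obtain ⟨C, h1, h2, h3⟩ := h.bdd
  exact ⟨h.fib.prod (sphRep χ) (sph A R), (gadm_sph_snd h.ch h.tgt).src, kap_pr_supp h,
    fun _ hz => hz, fun y hy k => ⟨trivial, h.supp y.2 hy.1.2 hy.2.1 (hy.2.2 ▸ k.1) k.2⟩,
    fun z => C z.2, h1.comp continuous_snd.continuousOn fun _ hz => hz.2,
    fun g x hx => h2 g.2 x.2 hx.2, fun y hy k => h3 y.2 hy.1.2 hy.2.1 (hy.2.2 ▸ k.1) k.2⟩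

/-- base change; the representations play no role -/
theorem gp_kap {J' : Type} [Fintype J'] (h : TAdm χ a b ρ p F O E U Z V W)
    {σ : Act (TG A H') (J' → ℂ)} {p' : Y' → X'} {F' : Y' → J' → ℂ} {E' : Y' → A × R → ℂ}
    (h' : TAdm χ' a' b' σ p' F' O' E' U' Z' V' W') (e : ∀ z g, χ' z g = χ z (φ g)) {f' : Y' → Y}
    (k : GAdm b' b (mapT A φ) f' (p' ⁻¹' U') univ (p ⁻¹' U) univ)
    (eO : ∀ z, p' z ∈ U' → (z ∈ O' ↔ f' z ∈ O))
    (eE : ∀ z ∈ O', p' z ∈ U' → E' z = E (f' z)) :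
    GAdm ((sphRep χ').prod b') ((sphRep χ).prod b) (mapT A φ) (fun z => (z.1, f' z.2))
      (sph A R ×ˢ (p' ⁻¹' U')) (gph O' E') (sph A R ×ˢ (p ⁻¹' U)) (gph O E) ∧
    gp ((sphRep χ').prod b') (mapT A φ) (fun z => (z.1, f' z.2)) (sph A R ×ˢ (p' ⁻¹' U'))
      (gph O' E') (kap χ b O E (p ⁻¹' U)) = kap χ' b' O' E' (p' ⁻¹' U') := by
  haveI := rep_sphRep h.ch
  haveI := rep_sphRep h'.ch
  have es : ∀ (g : (TG A H').H) (w : A × R → ℂ),
      (sphRep χ').act g w = (sphRep χ).act (mapT A φ g) w := fun g w => funext fun j => by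
    change (g.1 j.1 : ℂ) * χ' j g.2 * w j = (g.1 j.1 : ℂ) * χ j (φ g.2) * w j
    rw [e]
  have k1 : GAdm ((sphRep χ').prod b') ((sphRep χ).prod b) (mapT A φ) (fun z => (z.1, f' z.2))
      (sph A R ×ˢ (p' ⁻¹' U')) (gph O' E') (sph A R ×ˢ (p ⁻¹' U)) (gph O E) :=
    ⟨kap_pr_gph h', kap_pr_gph h, continuous_fst.continuousOn.prodMk
      (k.cont.comp continuous_snd.continuousOn fun _ hz => hz.2),
      fun g z hz => Prod.ext (es g z.1) (k.eqv g z.2 hz.2), fun z hz => ⟨hz.1, k.maps hz.2⟩,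
      fun z hz m => ⟨(eO z.2 hz.2).2 m.1, m.2.trans (eE z.2 ((eO z.2 hz.2).2 m.1) hz.2).symm⟩⟩
  have s' : sph A R ×ˢ (p' ⁻¹' U' ∩ O') ⊆ sph A R ×ˢ (p' ⁻¹' U') :=
    Set.prod_mono subset_rfl inter_subset_left
  have s : sph A R ×ˢ (p ⁻¹' U ∩ O) ⊆ sph A R ×ˢ (p ⁻¹' U) :=
    Set.prod_mono subset_rfl inter_subset_left
  have k2 : GAdm ((sphRep χ').prod b') ((sphRep χ).prod b) (mapT A φ) (fun z => (z.1, f' z.2))
      (sph A R ×ˢ (p' ⁻¹' U' ∩ O')) (gph O' E') (sph A R ×ˢ (p ⁻¹' U ∩ O)) (gph O E) :=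
    ⟨kap_pr_gph' h', kap_pr_gph' h, k1.cont.mono s', fun g z hz => k1.eqv g z (s' hz),
      fun z hz => ⟨hz.1, k.maps hz.2.1, (eO z.2 hz.2.1).1 hz.2.2⟩,
      fun z hz => k1.supp z (s' hz)⟩
  refine ⟨k1, (kap_kap_bij h').1 ?_⟩
  rw [kap_kap_spec h', gp_comp k1 (gadm_id (kap_pr_gph h') (kap_pr_gph' h') s' inter_subset_right)
    (χ := mapT A φ) (fun _ => rfl) (k := fun z => (z.1, f' z.2)) (fun _ _ => rfl),
    ← gp_comp (gadm_id (kap_pr_gph h) (kap_pr_gph' h) s inter_subset_right) k2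
      (χ := mapT A φ) (fun _ => rfl) (k := fun z => (z.1, f' z.2)) (fun _ _ => rfl),
    kap_kap_spec h]
  exact gp_eul (kap_eadm h) k2 es fun y hy => by rw [eE y.2 hy.2.2 hy.2.1]

end TAdm

end Pool.Agent.Work.MP_849ab0_ag.G
end
end

-- merged part: Pool.Agent.Work.MP_849ab0_ag.G.H2.Germ
section
/-!
Projection formula when the integrand is only defined near the support of the other factor.

Hints.  Put `S₀ = U ∩ Z₁` (closed in `U`, contained in `S` by `hx.ok`).  `intg_unique` for `h'`: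
take `C` from `intg_spec h c`, `C'` from `h'.bdd`, and with `exists_bound` (ApiX) a continuous
invariant `R ≥ 0` on `U` with `R ≥ C'` and `R ≥ C` on `S₀` (bound the function `nsq ∘ F` on the set
`{y | p y ∈ S₀, nsq (F y) ≤ C (p y)} ∪ W₂`; near a point of `U \ S₀` the first set is empty, near a
point of `S₀` use continuity of `C` on `S`; then `max R 0`).  With `W' = p ⁻¹' Z₂ ∩ {nsq F ≤ R p}`:
`gp_id_ecup`, then `ecup_gp_right` (twice) to replace `c` by its image in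
`EH b (p ⁻¹' S) (p ⁻¹' Z ∩ {nsq F ≤ C p})`, which is `p^* x₀ ∪ eul` by `IsInt`; `ecup_assoc`, and
`gp_ecup` after restricting `x₀` to `S ∩ U` (`ecup_gp_right`).  For the primed version move the even
class `eul` with `ecup_comm` (`ev_eul`).
-/

noncomputable section

set_option linter.unusedSectionVars false
set_option linter.unusedVariables false

namespace Pool.Agent.Work.MP_849ab0_ag.G

open Set Topology Matrix

variable {G : Gp} [G.Nice] {X Y : Type}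
  [TopologicalSpace X] [T3Space X] [SecondCountableTopology X]
  [TopologicalSpace Y] [T3Space Y] [SecondCountableTopology Y]
  {a : Act G X} [a.Ok] {b : Act G Y} [b.Ok] {J : Type} [Fintype J] {ρ : Act G (J → ℂ)} [ρ.Rep]
  {U S Z Z₁ Z₂ : Set X} {V W W₂ : Set Y} {p : Y → X} {F : Y → J → ℂ}

theorem germ_nsq_zero : nsq (0 : J → ℂ) = 0 := by simp [nsq]

theorem germ_pr (h : Fib a b ρ p F U) (hU : a.Pr U Z) : b.Pr (p ⁻¹' U) (p ⁻¹' Z) :=
  hU.preimage (φ := id) h.contp h.eqvp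

theorem germ_eadm (h : Fib a b ρ p F U) (hU : a.Pr U Z) : EAdm b ρ F (p ⁻¹' U) (F ⁻¹' {0}) :=
  ⟨(Act.Rep.pr ρ).preimage' (φ := id) (germ_pr h hU) h.contF (mapsTo_univ _ _) h.eqvF,
    Act.Rep.pr ρ, h.contF, h.eqvF, mapsTo_univ _ _, fun _ _ k => k⟩

theorem germ_gadm (h : Fib a b ρ p F S) (hU : a.Pr U Z) {T : Set Y} (hT : b.Pr T (p ⁻¹' Z))
    (e : T ⊆ p ⁻¹' U) : GAdm b a id p T (p ⁻¹' Z) U Z :=
  ⟨hT, hU, h.contp.continuousOn, fun g y _ => h.eqvp g y, e, fun _ _ k => k⟩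

theorem germ_disc (h : Fib a b ρ p F U) (hU : a.Pr U Z) {R : X → ℝ} (hR : ContinuousOn R U)
    (hi : ∀ g, ∀ x ∈ U, R (a.act g x) = R x) :
    b.Pr (p ⁻¹' U) (p ⁻¹' Z ∩ {y | nsq (F y) ≤ R (p y)}) := by
  refine (germ_pr h hU).inter ?_
  have hn : Continuous (nsq : (J → ℂ) → ℝ) := by unfold nsq; fun_prop
  have k := ((Act.triv G ℝ).pr_univ (Z := Iic 0) isClosed_Iic fun _ _ k => k).preimage' (φ := id)
    (germ_pr h hU) (f := fun y => nsq (F y) - R (p y))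
    ((hn.comp_continuousOn h.contF).sub (hR.comp h.contp.continuousOn fun _ k => k))
    (mapsTo_univ _ _) fun g y hy => by
      rw [h.eqvF g y hy, h.eqvp, hi g _ hy, Act.Rep.nsq]
      rfl
  exact k.congr_mem fun y _ => (sub_nonpos (a := nsq (F y)) (b := R (p y)))

theorem germ_inter (h : a.Pr U Z₁) (h' : a.Pr S Z) : a.Pr (S ∩ U) Z :=
  h'.mono (Z' := univ) ⟨h'.lc.inter h.lc, fun g x k => ⟨h'.inv g x k.1, h.inv g x k.2⟩,
    fun _ _ _ _ => trivial, subset_univ _⟩ inter_subset_left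

theorem germ_bound (h : a.Pr U Z₁) (e : U ∩ Z₁ ⊆ S) {C C' : X → ℝ} (hC : ContinuousOn C S)
    (iC : ∀ y ∈ S, 0 ≤ C y ∧ ∀ g, C (a.act g y) = C y) (hC' : ContinuousOn C' U)
    (iC' : ∀ g, ∀ x ∈ U, C' (a.act g x) = C' x) :
    ∃ R : X → ℝ, ContinuousOn R U ∧ (∀ y ∈ U, 0 ≤ R y ∧ ∀ g, R (a.act g y) = R y) ∧
      (∀ x ∈ U, C' x ≤ R x) ∧ ∀ x ∈ U ∩ Z₁, C x ≤ R x := by
  obtain ⟨R, r1, r2, r3⟩ := exists_bound (b := a) h (p := id) (fun _ _ => rfl) (W := U ∩ Z₁)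
    (fun g y hy _ => ⟨h.inv g y hy.1, h.invz g y hy.1 hy.2⟩) (N := C)
    (fun g y hy _ => (iC y (e hy)).2 g) fun x hx => by
      refine ⟨C x + 1, ?_⟩
      by_cases hz : x ∈ Z₁
      · have k := (hC x (e ⟨hx, hz⟩)).eventually (eventually_le_nhds (lt_add_one (C x)))
        rw [eventually_nhdsWithin_iff] at k
        filter_upwards [mem_nhdsWithin_of_mem_nhds k] with x' hx' y hy ey
        exact (show y = x' from ey) ▸ hx' ((show y = x' from ey) ▸ e hy)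
      · have k : (closure (U ∩ Z₁))ᶜ ∈ 𝓝 x :=
          isClosed_closure.isOpen_compl.mem_nhds fun k => hz (h.cl ⟨hx, k⟩)
        filter_upwards [mem_nhdsWithin_of_mem_nhds k] with x' hx' y hy ey
        exact absurd (subset_closure ((show y = x' from ey) ▸ hy)) hx'
  refine ⟨fun x => max (max (R x) (C' x)) 0, (r1.sup hC').sup continuousOn_const,
    fun y hy => ⟨le_max_right _ _, fun g => by simp only [r2 g y hy, iC' g y hy]⟩,
    fun x _ => (le_max_right _ _).trans (le_max_left _ _), fun x hx => ?_⟩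
  exact (r3 x hx hx.1).trans ((le_max_left _ _).trans (le_max_left _ _))

/-- the common part of the two projection formulas -/
theorem germ_key (h : IAdm a b ρ p F S Z V W) (h' : IAdm a b ρ p F U Z₂ (p ⁻¹' U) W₂)
    (hx : ECup a U Z₁ S Z U Z₂) (c : EH b V W) :
    ∃ (R : X → ℝ) (D : Set Y), ContinuousOn R U ∧ (∀ y ∈ U, 0 ≤ R y ∧ ∀ g, R (a.act g y) = R y) ∧
      p ⁻¹' U ∩ W₂ ⊆ p ⁻¹' Z₂ ∩ {y | nsq (F y) ≤ R (p y)} ∧
      GAdm b b id id (p ⁻¹' (S ∩ U)) D V W ∧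
      ECup b (p ⁻¹' (S ∩ U)) (p ⁻¹' Z) (p ⁻¹' U) (F ⁻¹' {0}) (p ⁻¹' (S ∩ U)) D ∧
      ECup b (p ⁻¹' U) (p ⁻¹' Z₁) (p ⁻¹' (S ∩ U)) D (p ⁻¹' U)
        (p ⁻¹' Z₂ ∩ {y | nsq (F y) ≤ R (p y)}) ∧
      gp b id id (p ⁻¹' (S ∩ U)) D c = ecup (p ⁻¹' (S ∩ U)) D
        (gp b id p (p ⁻¹' (S ∩ U)) (p ⁻¹' Z) (intg a ρ p F S Z c))
        (eul b ρ F (p ⁻¹' U) (F ⁻¹' {0})) := by
  obtain ⟨C, c1, c2, c3, c4, c5⟩ := intg_spec h c
  obtain ⟨C', d1, d2, d3⟩ := h'.bdd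
  have e0 : U ∩ Z₁ ⊆ S := fun x k => (hx.ok.left k.1).resolve_left fun k' => k'.2 k.2
  obtain ⟨R, r1, r2, r3, r4⟩ := germ_bound hx.p1 e0 c1 c2 d1 d2
  have pT : b.Pr (p ⁻¹' (S ∩ U)) (p ⁻¹' Z) :=
    (germ_inter hx.p1 h.tgt).preimage (φ := id) h.fib.contp h.fib.eqvp
  have pS := germ_disc h.fib h.tgt c1 fun g x k => (c2 x k).2 g
  have eS : p ⁻¹' (S ∩ U) ⊆ p ⁻¹' S := fun _ k => k.1
  have eU : p ⁻¹' (S ∩ U) ⊆ p ⁻¹' U := fun _ k => k.2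
  have pD := pS.mono pT eS
  have pW := germ_disc h'.fib h'.tgt r1 fun g x k => (r2 x k).2 g
  have aU := germ_eadm h'.fib h'.tgt
  have aS := germ_eadm h.fib h.tgt
  have pE := aS.src.mono pT eS
  have e1 : ∀ y, p y ∈ S → y ∈ p ⁻¹' Z → y ∈ F ⁻¹' {0} →
      y ∈ p ⁻¹' Z ∩ {y | nsq (F y) ≤ C (p y)} := fun y k1 k2 k3 => ⟨k2, by
    have : F y = 0 := k3
    change nsq (F y) ≤ C (p y)
    rw [this, germ_nsq_zero]
    exact (c2 _ k1).1⟩
  have k3 : ECup b (p ⁻¹' (S ∩ U)) (p ⁻¹' Z) (p ⁻¹' (S ∩ U)) (F ⁻¹' {0}) (p ⁻¹' (S ∩ U))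
      (p ⁻¹' Z ∩ {y | nsq (F y) ≤ C (p y)}) :=
    ecup_of pT pE pD fun y k => e1 y k.1.1.1 k.1.2 k.2
  refine ⟨R, _, r1, r2, fun y k => ⟨h'.supp y k.2 k.1, (d3 y k.2 k.1).trans (r3 _ k.1)⟩,
    gadm_id h.src pD (eS.trans c3) fun y k => c4 ⟨k.1.1, k.2⟩,
    ⟨pT, aU.src, pD, fun y k => .inr k.2, fun y k => .inl k, fun y k => ?_⟩,
    ⟨germ_pr h'.fib hx.p1, pD, pW, fun y k => ?_, fun y k => .inl k, fun y k => ?_⟩, ?_⟩
  · by_cases k' : y ∈ p ⁻¹' Z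
    · exact .inr ⟨k.1.2, fun k'' => k.2 (e1 y k.1.1 k' k'')⟩
    · exact .inl ⟨k.1, k'⟩
  · by_cases k' : y ∈ p ⁻¹' Z₁
    · exact .inr ⟨e0 ⟨k, k'⟩, k⟩
    · exact .inl ⟨k, k'⟩
  · by_cases k' : y ∈ p ⁻¹' Z₁
    · refine .inr ⟨⟨e0 ⟨k.1, k'⟩, k.1⟩, fun k'' => k.2 ⟨?_, le_trans k''.2 (r4 _ ⟨k.1, k'⟩)⟩⟩
      by_contra k4
      rcases hx.ok.supp ⟨k.1, k4⟩ with k5 | k5
      exacts [k5.2 k', k5.2 k''.1]
    · exact .inl ⟨k.1, k'⟩
  · have gS := gadm_id aS.src pE eS inter_subset_right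
    have gU := gadm_id aU.src pE eU inter_subset_right
    have gZ := gadm_id (germ_pr h.fib h.tgt) pT eS inter_subset_right
    have kS : ECup b (p ⁻¹' (S ∩ U)) (p ⁻¹' Z) (p ⁻¹' S) (F ⁻¹' {0}) (p ⁻¹' (S ∩ U))
        (p ⁻¹' Z ∩ {y | nsq (F y) ≤ C (p y)}) :=
      ⟨pT, aS.src, pD, fun y k => .inr k.1, fun y k => .inl k, fun y k =>
        (k3.ok.supp k).imp_right fun k' => ⟨k'.1.1, k'.2⟩⟩
    rw [← res_res h.src pS pD c3 c4 eS inter_subset_right, c5,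
      gp_id_ecup (ecup_of (germ_pr h.fib h.tgt) aS.src pS fun y k => e1 y k.1.1 k.1.2 k.2)
        (gadm_id pS pD eS inter_subset_right),
      ← ecup_gp_left kS gZ, ← ecup_gp_right k3 gS, ← ecup_gp_right k3 gU,
      gp_eul aS gS (σ := ρ) (fun _ _ => rfl) (F' := F) fun _ _ => rfl,
      gp_eul aU gU (σ := ρ) (fun _ _ => rfl) (F' := F) fun _ _ => rfl,
      gp_comp (germ_gadm h.fib h.tgt (germ_pr h.fib h.tgt) subset_rfl) gZ (χ := id)
        (fun _ => rfl) (k := p) fun _ _ => rfl]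

theorem germ_res (hx : ECup a U Z₁ S Z U Z₂) : ECup a U Z₁ (S ∩ U) Z U Z₂ :=
  ⟨hx.p1, germ_inter hx.p1 hx.p2, hx.p3, fun _ k => (hx.ok.left k).imp_right fun k' => ⟨k', k⟩,
    fun _ k => .inl k, fun _ k => (hx.ok.supp k).imp_right fun k' => ⟨⟨k'.1, k.1⟩, k'.2⟩⟩

theorem germ_pre (h : Fib a b ρ p F S) {U₁ Z₁ U₂ Z₂ : Set X} (hx : ECup a U₁ Z₁ U₂ Z₂ U Z) :
    ECup b (p ⁻¹' U₁) (p ⁻¹' Z₁) (p ⁻¹' U₂) (p ⁻¹' Z₂) (p ⁻¹' U) (p ⁻¹' Z) :=
  ⟨hx.p1.preimage (φ := id) h.contp h.eqvp, hx.p2.preimage (φ := id) h.contp h.eqvp,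
    hx.p3.preimage (φ := id) h.contp h.eqvp, fun _ k => hx.ok.left k, fun _ k => hx.ok.right k,
    fun _ k => hx.ok.supp k⟩

theorem germ_top (h' : Fib a b ρ p F U) (hU : a.Pr U Z₂) {R : X → ℝ} (r1 : ContinuousOn R U)
    (r2 : ∀ y ∈ U, 0 ≤ R y ∧ ∀ g, R (a.act g y) = R y) :
    ECup b (p ⁻¹' U) (p ⁻¹' Z₂) (p ⁻¹' U) (F ⁻¹' {0}) (p ⁻¹' U)
      (p ⁻¹' Z₂ ∩ {y | nsq (F y) ≤ R (p y)}) :=
  ecup_of (germ_pr h' hU) (germ_eadm h' hU).src (germ_disc h' hU r1 fun g x k => (r2 x k).2 g)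
    fun y k => ⟨k.1.2, by
      have : F y = 0 := k.2
      change nsq (F y) ≤ R (p y)
      rw [this, germ_nsq_zero]
      exact (r2 _ k.1.1).1⟩

theorem intg_ecup_germ (h : IAdm a b ρ p F S Z V W) (h' : IAdm a b ρ p F U Z₂ (p ⁻¹' U) W₂)
    (hx : ECup a U Z₁ S Z U Z₂) (hy : ECup b (p ⁻¹' U) (p ⁻¹' Z₁) V W (p ⁻¹' U) W₂)
    (x : EH a U Z₁) (c : EH b V W) :
    intg a ρ p F U Z₂ (ecup (p ⁻¹' U) W₂ (gp b id p (p ⁻¹' U) (p ⁻¹' Z₁) x) c) =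
      ecup U Z₂ x (intg a ρ p F S Z c) := by
  obtain ⟨R, D, r1, r2, k1, k2, k3, k4, k5⟩ := germ_key h h' hx c
  have hr := germ_res hx
  have hp := germ_pre h.fib hr
  have gr := gadm_id hx.p2 hr.p2 inter_subset_left inter_subset_right
  refine intg_unique h' ⟨R, r1, r2, subset_rfl, k1, ?_⟩
  rw [gp_id_ecup hy (gadm_id h'.src k4.p3 subset_rfl k1), ← ecup_gp_right k4 k2, k5,
    ← ecup_assoc hp (germ_top h'.fib h'.tgt r1 r2) k3 k4, ← ecup_gp_right hr gr,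
    gp_ecup hr hp (germ_gadm h.fib hr.p3 hp.p3 subset_rfl) (germ_gadm h.fib hr.p1 hp.p1 subset_rfl)
      (germ_gadm h.fib hr.p2 hp.p2 subset_rfl) subset_rfl fun _ k => k.2,
    gp_comp gr (germ_gadm h.fib hr.p2 hp.p2 subset_rfl) (χ := id) (fun _ => rfl) (k := p)
      fun _ _ => rfl]

theorem intg_ecup_germ' (h : IAdm a b ρ p F S Z V W) (h' : IAdm a b ρ p F U Z₂ (p ⁻¹' U) W₂)
    (hx : ECup a S Z U Z₁ U Z₂) (hy : ECup b V W (p ⁻¹' U) (p ⁻¹' Z₁) (p ⁻¹' U) W₂)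
    (x : EH a U Z₁) (c : EH b V W) :
    intg a ρ p F U Z₂ (ecup (p ⁻¹' U) W₂ c (gp b id p (p ⁻¹' U) (p ⁻¹' Z₁) x)) =
      ecup U Z₂ (intg a ρ p F S Z c) x := by
  obtain ⟨R, D, r1, r2, k1, k2, k3, k4, k5⟩ := germ_key h h' hx.symm c
  have hr := (germ_res hx.symm).symm
  have hp := germ_pre h.fib hr
  have gr := gadm_id hx.p1 hr.p1 inter_subset_left inter_subset_right
  have kt := germ_top h'.fib h'.tgt r1 r2
  have k6 : ECup b (p ⁻¹' U) (p ⁻¹' Z₁) (p ⁻¹' U) (F ⁻¹' {0}) (p ⁻¹' U) (p ⁻¹' Z₁ ∩ F ⁻¹' {0}) :=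
    ecup_of hp.p2 kt.p2 (hp.p2.inter kt.p2) fun y k => ⟨k.1.2, k.2⟩
  have k7 : ECup b (p ⁻¹' (S ∩ U)) (p ⁻¹' Z) (p ⁻¹' U) (p ⁻¹' Z₁ ∩ F ⁻¹' {0}) (p ⁻¹' U)
      (p ⁻¹' Z₂ ∩ {y | nsq (F y) ≤ R (p y)}) := by
    refine ⟨hp.p1, k6.p3, kt.p3, fun y k => .inr k,
      fun y k => (hp.ok.right k).imp_right fun k' => ⟨k, fun k'' => k'.2 k''.1⟩, fun y k => ?_⟩
    rcases kt.ok.supp k with k' | k'
    · exact (hp.ok.supp k').imp_right fun k'' => ⟨k.1, fun j => k''.2 j.1⟩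
    · exact .inr ⟨k.1, fun j => k'.2 j.2⟩
  refine intg_unique h' ⟨R, r1, r2, subset_rfl, k1, ?_⟩
  rw [gp_id_ecup hy (gadm_id h'.src k4.p3 subset_rfl k1), ← ecup_gp_left k4.symm k2, k5,
    ecup_assoc k3 k4.symm k6.symm k7, ← ecup_comm k6 _ ev_eul, ← ecup_assoc hp kt k6 k7,
    ← ecup_gp_left hr gr,
    gp_ecup hr hp (germ_gadm h.fib hr.p3 hp.p3 subset_rfl) (germ_gadm h.fib hr.p1 hp.p1 subset_rfl)
      (germ_gadm h.fib hr.p2 hp.p2 subset_rfl) (fun _ k => k.2) subset_rfl,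
    gp_comp gr (germ_gadm h.fib hr.p1 hp.p1 subset_rfl) (χ := id) (fun _ => rfl) (k := p)
      fun _ _ => rfl]

/-- only the restriction of the integrand to `p ⁻¹' U` matters -/
theorem intg_gp_id {V₁ W₁ : Set Y} (h : IAdm a b ρ p F U Z V W) (h₁ : IAdm a b ρ p F U Z V₁ W₁)
    (k : GAdm b b id id V₁ W₁ V W) (c : EH b V W) :
    intg a ρ p F U Z (gp b id id V₁ W₁ c) = intg a ρ p F U Z c := by
  rw [← gp_intg h h₁ (gadm_id h.tgt h.tgt subset_rfl inter_subset_right) k (fun _ _ => rfl)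
    (fun _ _ => rfl) (fun _ _ => rfl), gp_id h.tgt]

end Pool.Agent.Work.MP_849ab0_ag.G
end
end

-- merged part: Pool.Agent.Work.MP_849ab0_ag.G.H2.TInt
section
/-!
The calculus of `tint`.

Hints.  Start with `tint_apply` (`rfl`), `haveI := rep_sphRep h.ch`.  Notation `bW = (sphRep χ).prod b`,
`T = sph ×ˢ p ⁻¹' U`, `Zg = univ ×ˢ W ∩ gph O E`.
`gp_tint`: `gp_stop`, `gp_intg` (with `h.iadm`, `h'.iadm`; the map of total spaces is admissible by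
`Fib.gadm_map` and `TAdm.gp_kap`; its support condition uses `h'.sub` and `k'.supp`), `gp_ecup`,
`TAdm.gp_kap`, `gp_comp`.
`tint_ecup`: `gp_ecup` for `Prod.snd` with the first factor restricted to
`sph ×ˢ (p ⁻¹' U₁ ∩ V ∩ p ⁻¹' U)` (remove the restriction again by `ecup_gp_left`), `ecup_assoc`,
`intg_ecup` (ApiT), `stop_ecup`.  `tint_ecup'`: the same with `ecup_comm` for the even class `kap`
(`isDeg_kap`, `IsDeg.ev`), `intg_ecup'`, `stop_ecup'`.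
`tint_intg`: `intg_intg` over the base `T` (`Fib.of_comp`, `Fib.prod`; the bound on the support
`univ ×ˢ W₃ ∩ gph` comes from `h.bdd` because `nsq (F₂ y) ≤ nsq (F₃ y)`), `gp_kap` with `φ = id`
(note `mapT A id = id`), `intg_ecup_germ'` with `S = sph ×ˢ (V ∩ p ⁻¹' U)`, and `gp_intg` for
`Prod.snd : bW → b`.
-/

noncomputable section

set_option linter.unusedSectionVars false
set_option linter.unusedVariables false

namespace Pool.Agent.Work.MP_849ab0_ag.G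

open Set Topology Matrix

variable {A R : Type} [Fintype A] [DecidableEq A] [Fintype R] [Nonempty R] {H H' : Gp} [H.Nice]
  [H'.Nice] {X X' Y Y' : Type}
  [TopologicalSpace X] [T3Space X] [SecondCountableTopology X]
  [TopologicalSpace X'] [T3Space X'] [SecondCountableTopology X']
  [TopologicalSpace Y] [T3Space Y] [SecondCountableTopology Y]
  [TopologicalSpace Y'] [T3Space Y'] [SecondCountableTopology Y']
  {J : Type} [Fintype J] {χ : A × R → H.H → ℂ} {χ' : A × R → H'.H → ℂ}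
  {a : Act H X} [a.Ok] {a' : Act H' X'} [a'.Ok]
  {b : Act (TG A H) Y} [b.Ok] {b' : Act (TG A H') Y'} [b'.Ok]
  {ρ : Act (TG A H) (J → ℂ)} [ρ.Rep] {p : Y → X} {F : Y → J → ℂ} {O : Set Y} {E : Y → A × R → ℂ}
  {U Z U₁ Z₁ Z₂ : Set X} {V W V₁ W₁ W₂ : Set Y} {U' Z' : Set X'} {V' W' O' : Set Y'}
  {φ : H'.H → H.H} [IsHom φ]

theorem tint_apply (c : EH b V W) : tint χ a ρ p F O E U Z c =
    stop χ a U Z (intg ((sphRep χ).prod (a.res Prod.snd)) ρ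
      (fun z : (A × R → ℂ) × Y => (z.1, p z.2)) (fun z => F z.2) (sph A R ×ˢ U) (univ ×ˢ Z)
      (ecup (sph A R ×ˢ (p ⁻¹' U)) (univ ×ˢ W ∩ gph O E)
        (gp ((sphRep χ).prod b) id Prod.snd (sph A R ×ˢ (V ∩ p ⁻¹' U)) (univ ×ˢ W) c)
        (kap χ b O E (p ⁻¹' U)))) := rfl

theorem tint_inter (h : b.Pr V W) (h' : b.Pr V₁ W₁) : b.Pr (V ∩ V₁) W₁ :=
  h'.mono (Z' := univ) ⟨h.lc.inter h'.lc, fun g x hx => ⟨h.inv g x hx.1, h'.inv g x hx.2⟩,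
    fun _ _ _ _ => trivial, fun _ _ => trivial⟩ inter_subset_right

theorem tint_snd (hχ : ∀ z, IsChar (χ z)) (h : b.Pr V W) (h' : b.Pr V₁ W) (e : V₁ ⊆ V) :
    GAdm ((sphRep χ).prod b) b id Prod.snd (sph A R ×ˢ V₁) (univ ×ˢ W) V W :=
  ⟨pr_sph hχ h', h, continuousOn_snd, fun _ _ _ => rfl, fun _ hz => e hz.2,
    fun _ _ hz => ⟨trivial, hz⟩⟩

theorem tint_res {f : X' → X} (k : GAdm a' a φ f U' Z' U Z) :
    GAdm (a'.res (G' := TG A H') Prod.snd) (a.res (G' := TG A H) Prod.snd) (mapT A φ) f U' Z' U Z :=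
  ⟨k.src.res _, k.tgt.res _, k.cont, fun g => k.eqv g.2, k.maps, k.supp⟩

theorem tint_cup {V₂ V₃ W₃ : Set Y} (hχ : ∀ z, IsChar (χ z)) (h : ECup b V₁ W₁ V₂ W₂ V₃ W₃) :
    ECup ((sphRep χ).prod b) (sph A R ×ˢ V₁) (univ ×ˢ W₁) (sph A R ×ˢ V₂) (univ ×ˢ W₂)
      (sph A R ×ˢ V₃) (univ ×ˢ W₃) :=
  ⟨pr_sph hχ h.p1, pr_sph hχ h.p2, pr_sph hχ h.p3,
    fun _ hz => (h.ok.left hz.2).imp (fun k => ⟨⟨hz.1, k.1⟩, fun l => k.2 l.2⟩) fun k => ⟨hz.1, k⟩,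
    fun _ hz => (h.ok.right hz.2).imp (fun k => ⟨hz.1, k⟩) fun k => ⟨⟨hz.1, k.1⟩, fun l => k.2 l.2⟩,
    fun _ hz => (h.ok.supp ⟨hz.1.2, fun l => hz.2 ⟨trivial, l⟩⟩).imp
      (fun k => ⟨⟨hz.1.1, k.1⟩, fun l => k.2 l.2⟩) fun k => ⟨⟨hz.1.1, k.1⟩, fun l => k.2 l.2⟩⟩

theorem tint_mem (h : TAdm χ a b ρ p F O E U Z V W) {z : (A × R → ℂ) × Y}
    (hz : z ∈ sph A R ×ˢ (p ⁻¹' U)) (hg : z ∈ gph O E) : z.2 ∈ V :=
  h.sub _ hg.1 (hg.2 ▸ hz.1) hz.2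

theorem gp_tint (h : TAdm χ a b ρ p F O E U Z V W) {σ : Act (TG A H') (J → ℂ)} [σ.Rep]
    {p' : Y' → X'} {F' : Y' → J → ℂ} {E' : Y' → A × R → ℂ}
    (h' : TAdm χ' a' b' σ p' F' O' E' U' Z' V' W') (ec : ∀ z g, χ' z g = χ z (φ g)) {f : X' → X}
    {f' : Y' → Y} (k : GAdm a' a φ f U' Z' U Z) (k' : GAdm b' b (mapT A φ) f' V' W' V W)
    (e : ∀ g w, σ.act g w = ρ.act (mapT A φ g) w) (e₁ : ∀ z, p' z ∈ U' → p (f' z) = f (p' z))
    (e₂ : ∀ z, p' z ∈ U' → F (f' z) = F' z) (eO : ∀ z, p' z ∈ U' → (z ∈ O' ↔ f' z ∈ O))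
    (eE : ∀ z ∈ O', p' z ∈ U' → E' z = E (f' z)) (c : EH b V W) :
    gp a' φ f U' Z' (tint χ a ρ p F O E U Z c) =
      tint χ' a' σ p' F' O' E' U' Z' (gp b' (mapT A φ) f' V' W' c) := by
  have := rep_sphRep h.ch
  have := rep_sphRep h'.ch
  obtain ⟨k₂, hk⟩ := h.gp_kap h' ec (h.fib.gadm_map h'.fib (tint_res (Z := univ) (Z' := univ)
    ⟨k.src.top, k.tgt.top, k.cont, k.eqv, k.maps, fun _ _ _ => trivial⟩) e e₁ e₂) eO eE
  have kX : GAdm ((sphRep χ').prod (a'.res Prod.snd)) ((sphRep χ).prod (a.res Prod.snd))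
      (mapT A φ) (fun z => (z.1, f z.2)) (sph A R ×ˢ U') (univ ×ˢ Z') (sph A R ×ˢ U)
      (univ ×ˢ Z) :=
    ⟨h'.iadm.tgt, h.iadm.tgt,
      continuousOn_fst.prodMk (k.cont.comp continuousOn_snd fun _ hz => hz.2),
      fun g z hz => Prod.ext (funext fun j => congrArg (fun t => (g.1 j.1 : ℂ) * t * z.1 j)
        (ec j g.2)) (k.eqv g.2 z.2 hz.2),
      fun z hz => ⟨hz.1, k.maps hz.2⟩, fun z hz hz' => ⟨trivial, k.supp _ hz.2 hz'.2⟩⟩
  have kY : GAdm ((sphRep χ').prod b') ((sphRep χ).prod b) (mapT A φ) (fun z => (z.1, f' z.2))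
      (sph A R ×ˢ (p' ⁻¹' U')) (univ ×ˢ W' ∩ gph O' E') (sph A R ×ˢ (p ⁻¹' U))
      (univ ×ˢ W ∩ gph O E) :=
    ⟨h'.iadm.src, h.iadm.src, k₂.cont, k₂.eqv, k₂.maps, fun z hz hz' =>
      ⟨⟨trivial, k'.supp _ (tint_mem h' hz (k₂.supp z hz hz'.2)) hz'.1.2⟩, k₂.supp z hz hz'.2⟩⟩
  have s₁ : sph A R ×ˢ (V' ∩ p' ⁻¹' U') ⊆ sph A R ×ˢ (p' ⁻¹' U') := fun _ hz => ⟨hz.1, hz.2.2⟩
  have k₁ : GAdm ((sphRep χ').prod b') ((sphRep χ).prod b) (mapT A φ) (fun z => (z.1, f' z.2))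
      (sph A R ×ˢ (V' ∩ p' ⁻¹' U')) (univ ×ˢ W') (sph A R ×ˢ (V ∩ p ⁻¹' U)) (univ ×ˢ W) :=
    ⟨h'.gadm.src, h.gadm.src, k₂.cont.mono s₁, fun g z hz => k₂.eqv g z (s₁ hz),
      fun z hz => ⟨hz.1, k'.maps hz.2.1, (k₂.maps (s₁ hz)).2⟩,
      fun z hz hz' => ⟨trivial, k'.supp _ hz.2.1 hz'.2⟩⟩
  rw [tint_apply, tint_apply, gp_stop h.ch ec k,
    gp_intg h.iadm h'.iadm kX kY e (fun z hz => Prod.ext rfl (e₁ _ hz.2)) fun z hz => e₂ _ hz.2,
    gp_ecup h.ecup h'.ecup kY k₁ k₂ s₁ subset_rfl, hk,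
    gp_comp h.gadm k₁ (χ := mapT A φ) (fun _ => rfl) (k := fun z => f' z.2) fun _ _ => rfl,
    gp_comp k' h'.gadm (χ := mapT A φ) (fun _ => rfl) (k := fun z => f' z.2) fun _ _ => rfl]

theorem tint_eq_zero (h : TAdm χ a b ρ p F O E U Z V W)
    (e : ∀ z ∈ W, p z ∈ U → z ∈ O → E z ∉ sph A R) (c : EH b V W) :
    tint χ a ρ p F O E U Z c = 0 := by
  have := rep_sphRep h.ch
  rw [tint_apply, eq_zero_of_disjoint h.iadm.src (eq_empty_of_forall_notMem fun z hz =>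
    e _ hz.2.1.2 hz.1.2 hz.2.2.1 (hz.2.2.2 ▸ hz.1.1)) (ecup _ _ _ _), map_zero, map_zero]

theorem tint_cupW (h : TAdm χ a b ρ p F O E U Z V W) (h' : TAdm χ a b ρ p F O E U Z₂ V W₂)
    (hy : ECup b V₁ W₁ V W V W₂) :
    ECup ((sphRep χ).prod b) (sph A R ×ˢ V₁) (univ ×ˢ W₁) (sph A R ×ˢ (p ⁻¹' U))
      (univ ×ˢ W ∩ gph O E) (sph A R ×ˢ (p ⁻¹' U)) (univ ×ˢ W₂ ∩ gph O E) := by
  refine ⟨pr_sph h.ch hy.p1, h.iadm.src, h'.iadm.src, fun _ hz => Or.inr hz, fun z hz => ?_,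
    fun z hz => ?_⟩
  · refine or_iff_not_imp_right.2 fun k => ?_
    have k1 : z ∈ univ ×ˢ W ∩ gph O E := not_not.1 fun l => k ⟨hz, l⟩
    exact ⟨hz.1, (hy.ok.right (tint_mem h hz k1.2)).resolve_right fun l => l.2 k1.1.2⟩
  · refine or_iff_not_imp_right.2 fun k => ?_
    have k1 : z ∈ univ ×ˢ W ∩ gph O E := not_not.1 fun l => k ⟨hz.1, l⟩
    have k2 := (hy.ok.supp ⟨tint_mem h hz.1 k1.2, fun l => hz.2 ⟨⟨trivial, l⟩, k1.2⟩⟩).resolve_right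
      fun l => l.2 k1.1.2
    exact ⟨⟨hz.1.1, k2.1⟩, fun l => k2.2 l.2⟩

theorem tint_cup0 {B : Set Y} (hB : b.Pr B univ) (hy : ECup b V₁ W₁ V W V W₂) :
    ECup b V₁ W₁ (V ∩ B) W (V ∩ B) W₂ ∧ ECup b (V ∩ B ∩ V₁) W₁ (V ∩ B) W (V ∩ B) W₂ := by
  have h0 := tint_inter hy.p2 hB
  have h1 := hy.p2.mono h0 inter_subset_left
  have h2 := hy.p3.mono h0 inter_subset_left
  refine ⟨⟨hy.p1, h1, h2, fun _ hz => Or.inr hz, fun z hz => ?_, fun z hz => ?_⟩,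
    tint_inter h0 hy.p1, h1, h2, fun _ hz => Or.inr hz, fun z hz => ?_, fun z hz => ?_⟩
  · exact (hy.ok.right hz.1).imp_right fun k => ⟨hz, k.2⟩
  · exact (hy.ok.supp ⟨hz.1.1, hz.2⟩).imp_right fun k => ⟨hz.1, k.2⟩
  · exact (hy.ok.right hz.1).imp (fun k => ⟨hz, k⟩) fun k => ⟨hz, k.2⟩
  · exact (hy.ok.supp ⟨hz.1.1, hz.2⟩).imp (fun k => ⟨⟨hz.1, k.1⟩, k.2⟩) fun k => ⟨hz.1, k.2⟩

theorem tint_top (h : TAdm χ a b ρ p F O E U Z V W) : b.Pr (p ⁻¹' U) univ := h.opn.top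

/-- the pull-back of a product to the total space -/
theorem tint_gp_cup (h : TAdm χ a b ρ p F O E U Z V W) (h' : TAdm χ a b ρ p F O E U Z₂ V W₂)
    (hy : ECup b V₁ W₁ V W V W₂) (x : EH b V₁ W₁) (c : EH b V W) :
    gp ((sphRep χ).prod b) id Prod.snd (sph A R ×ˢ (V ∩ p ⁻¹' U)) (univ ×ˢ W₂) (ecup V W₂ x c) =
      ecup (sph A R ×ˢ (V ∩ p ⁻¹' U)) (univ ×ˢ W₂)
        (gp ((sphRep χ).prod b) id Prod.snd (sph A R ×ˢ V₁) (univ ×ˢ W₁) x)
        (gp ((sphRep χ).prod b) id Prod.snd (sph A R ×ˢ (V ∩ p ⁻¹' U)) (univ ×ˢ W) c) ∧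
    gp ((sphRep χ).prod b) id Prod.snd (sph A R ×ˢ (V ∩ p ⁻¹' U)) (univ ×ˢ W₂) (ecup V W₂ c x) =
      ecup (sph A R ×ˢ (V ∩ p ⁻¹' U)) (univ ×ˢ W₂)
        (gp ((sphRep χ).prod b) id Prod.snd (sph A R ×ˢ (V ∩ p ⁻¹' U)) (univ ×ˢ W) c)
        (gp ((sphRep χ).prod b) id Prod.snd (sph A R ×ˢ V₁) (univ ×ˢ W₁) x) := by
  have := rep_sphRep h.ch
  have c1 := (tint_cup0 (tint_top h) hy).2
  have c2 := tint_cup h.ch c1
  have k0 := tint_snd h.ch hy.p1 hy.p1 subset_rfl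
  have k1 := tint_snd h.ch hy.p1 c1.p1 inter_subset_right
  have k2 := gadm_id k0.src k1.src (fun _ hz => ⟨hz.1, hz.2.2⟩) inter_subset_right
  have k3 := gp_comp k0 k2 (χ := id) (fun _ => rfl) (k := Prod.snd) (fun _ _ => rfl) x
  have s1 : sph A R ×ˢ (V ∩ p ⁻¹' U ∩ V₁) ⊆ sph A R ×ˢ (V ∩ p ⁻¹' U) := fun _ hz => ⟨hz.1, hz.2.1⟩
  constructor
  · rw [gp_ecup hy c2 h'.gadm k1 h.gadm s1 subset_rfl, ← k3, ecup_gp_left c2 k2]
  · rw [gp_ecup hy.symm c2.symm h'.gadm h.gadm k1 subset_rfl s1, ← k3, ecup_gp_right c2.symm k2]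

theorem tint_gp_p (h : TAdm χ a b ρ p F O E U Z V W) (h₁ : a.Pr U₁ Z₁) (x : EH a U₁ Z₁) :
    gp ((sphRep χ).prod b) id Prod.snd (sph A R ×ˢ (p ⁻¹' U₁)) (univ ×ˢ (p ⁻¹' Z₁))
        (gp b Prod.snd p (p ⁻¹' U₁) (p ⁻¹' Z₁) x) =
      gp ((sphRep χ).prod b) id (fun z : (A × R → ℂ) × Y => (z.1, p z.2))
        (sph A R ×ˢ (p ⁻¹' U₁)) (univ ×ˢ (p ⁻¹' Z₁))
        (gp ((sphRep χ).prod (a.res Prod.snd)) Prod.snd Prod.snd (sph A R ×ˢ U₁) (univ ×ˢ Z₁) x) := by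
  have := rep_sphRep h.ch
  have h2 : b.Pr (p ⁻¹' U₁) (p ⁻¹' Z₁) := (h₁.res (G' := TG A H) Prod.snd).preimage (φ := id)
    h.fib.contp h.fib.eqvp
  have k1 : GAdm b a Prod.snd p (p ⁻¹' U₁) (p ⁻¹' Z₁) U₁ Z₁ :=
    ⟨h2, h₁, h.fib.contp.continuousOn, fun g z _ => h.fib.eqvp g z, fun _ hz => hz, fun _ _ hz => hz⟩
  have k2 := gadm_sph_snd h.ch h₁
  have k3 : GAdm ((sphRep χ).prod b) ((sphRep χ).prod (a.res Prod.snd)) id
      (fun z : (A × R → ℂ) × Y => (z.1, p z.2)) (sph A R ×ˢ (p ⁻¹' U₁)) (univ ×ˢ (p ⁻¹' Z₁))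
      (sph A R ×ˢ U₁) (univ ×ˢ Z₁) :=
    ⟨pr_sph h.ch h2, k2.src, (continuous_fst.prodMk (h.fib.contp.comp continuous_snd)).continuousOn,
      fun g z _ => Prod.ext rfl (h.fib.eqvp g z.2), fun _ hz => hz, fun _ _ hz => hz⟩
  rw [gp_comp k1 (tint_snd h.ch h2 h2 subset_rfl) (χ := Prod.snd) (fun _ => rfl)
      (k := fun z => p z.2) fun _ _ => rfl,
    gp_comp k2 k3 (χ := Prod.snd) (fun _ => rfl) (k := fun z => p z.2) fun _ _ => rfl]

theorem tint_cup_res {U₂ U₃ Z₃ : Set X} (h : ECup a U₁ Z₁ U₂ Z₂ U₃ Z₃) :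
    ECup (a.res (G' := TG A H) Prod.snd) U₁ Z₁ U₂ Z₂ U₃ Z₃ :=
  ⟨h.p1.res _, h.p2.res _, h.p3.res _, h.ok⟩

theorem tint_ecup (h : TAdm χ a b ρ p F O E U Z V W) (h' : TAdm χ a b ρ p F O E U Z₂ V W₂)
    (hx : ECup a U₁ Z₁ U Z U Z₂) (hy : ECup b (p ⁻¹' U₁) (p ⁻¹' Z₁) V W V W₂) (e : U₁ ⊆ U)
    (x : EH a U₁ Z₁) (c : EH b V W) :
    tint χ a ρ p F O E U Z₂ (ecup V W₂ (gp b Prod.snd p (p ⁻¹' U₁) (p ⁻¹' Z₁) x) c) =
      ecup U Z₂ x (tint χ a ρ p F O E U Z c) := by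
  have := rep_sphRep h.ch
  have hW := tint_cupW h h' hy
  rw [tint_apply, tint_apply, ← stop_ecup h.ch hx e, (tint_gp_cup h h' hy _ c).1,
    ecup_assoc (tint_cup h.ch (tint_cup0 (tint_top h) hy).1) h'.ecup h.ecup hW,
    tint_gp_p h hx.p1]
  exact congrArg _ (intg_ecup h.iadm h'.iadm (tint_cup h.ch (tint_cup_res hx)) hW
    (prod_mono subset_rfl e) _ _)

theorem tint_ecup' (h : TAdm χ a b ρ p F O E U Z V W) (h' : TAdm χ a b ρ p F O E U Z₂ V W₂)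
    (hx : ECup a U Z U₁ Z₁ U Z₂) (hy : ECup b V W (p ⁻¹' U₁) (p ⁻¹' Z₁) V W₂) (e : U₁ ⊆ U)
    (x : EH a U₁ Z₁) (c : EH b V W) :
    tint χ a ρ p F O E U Z₂ (ecup V W₂ c (gp b Prod.snd p (p ⁻¹' U₁) (p ⁻¹' Z₁) x)) =
      ecup U Z₂ (tint χ a ρ p F O E U Z c) x := by
  have := rep_sphRep h.ch
  have hW := tint_cupW h h' hy.symm
  have ev : Ev (kap χ b O E (p ⁻¹' U)) := h.isDeg_kap.ev (even_two_mul _)
  rw [tint_apply, tint_apply, ← stop_ecup' h.ch hx e, (tint_gp_cup h h' hy.symm _ c).2,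
    ecup_comm h'.ecup _ ev, ← ecup_assoc h.ecup.symm hW.symm
      (tint_cup h.ch (tint_cup0 (tint_top h) hy.symm).1).symm h'.ecup.symm,
    ← ecup_comm h.ecup _ ev, tint_gp_p h hx.p2]
  exact congrArg _ (intg_ecup' h.iadm h'.iadm (tint_cup h.ch (tint_cup_res hx)) hW.symm
    (prod_mono subset_rfl e) _ _)

theorem tint_sm (h : TAdm χ a b ρ p F O E U Z V W) (d : HPt H) (c : EH b V W) :
    tint χ a ρ p F O E U Z (sm (gpt Prod.snd d) c) = sm d (tint χ a ρ p F O E U Z c) := by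
  have := rep_sphRep h.ch
  rw [tint_apply, tint_apply, gp_sm h.gadm, gpt_id, ecup_sm_left h.ecup, intg_sm h.iadm,
    stop_sm h.ch h.tgt]

theorem isDeg_tint (h : TAdm χ a b ρ p F O E U Z V W) {m : ℤ} {c : EH b V W}
    (hc : IsDeg (m + 2 * Fintype.card J - 2 * Fintype.card A) c) :
    IsDeg m (tint χ a ρ p F O E U Z c) := by
  have := rep_sphRep h.ch
  rw [tint_apply]
  refine isDeg_stop h.ch h.tgt (IsDeg.intg h.iadm ?_)
  convert (hc.gp _ _).ecup h.isDeg_kap using 1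
  ring

theorem tint_nsq {J₁ J₂ : Type} [Fintype J₁] [Fintype J₂] (e : J₁ ⊕ J₂ ≃ J) (w : J → ℂ) :
    nsq (w ∘ e ∘ Sum.inr) ≤ nsq w := by
  rw [nsq, nsq, ← e.sum_comp, Fintype.sum_sum_type]
  exact le_add_of_nonneg_left (Finset.sum_nonneg fun _ _ => sq_nonneg _)

theorem tint_intg {Y₂ J₁ J₂ : Type} [TopologicalSpace Y₂] [T3Space Y₂] [SecondCountableTopology Y₂]
    [Fintype J₁] [Fintype J₂] {b₂ : Act (TG A H) Y₂} [b₂.Ok] {V₂ W₃ O₃ : Set Y₂}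
    {ρ₁ : Act (TG A H) (J₁ → ℂ)} [ρ₁.Rep] {ρ₂ : Act (TG A H) (J₂ → ℂ)} [ρ₂.Rep]
    {e : J₁ ⊕ J₂ ≃ J} (he : IsSum ρ ρ₁ ρ₂ e) {F₁ : Y → J₁ → ℂ} {q : Y₂ → Y}
    {F₂ : Y₂ → J₂ → ℂ} {F₃ : Y₂ → J → ℂ} {E₃ : Y₂ → A × R → ℂ}
    (h₁ : TAdm χ a b ρ₁ p F₁ O E U Z V W) (h₂ : IAdm b b₂ ρ₂ q F₂ V W V₂ W₃)
    (h : TAdm χ a b₂ ρ (p ∘ q) F₃ O₃ E₃ U Z V₂ W₃)
    (e₁ : ∀ z, p (q z) ∈ U → F₃ z ∘ e ∘ Sum.inl = F₁ (q z))
    (e₂ : ∀ z, p (q z) ∈ U → F₃ z ∘ e ∘ Sum.inr = F₂ z)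
    (eO : ∀ z, p (q z) ∈ U → (z ∈ O₃ ↔ q z ∈ O)) (eE : ∀ z ∈ O₃, p (q z) ∈ U → E₃ z = E (q z))
    (c : EH b₂ V₂ W₃) :
    tint χ a ρ₁ p F₁ O E U Z (intg b ρ₂ q F₂ V W c) = tint χ a ρ (p ∘ q) F₃ O₃ E₃ U Z c := by
  have := rep_sphRep h.ch
  have hq := h₂.fib.contp
  obtain ⟨k₂, hk⟩ := h₁.gp_kap (φ := id) h (fun _ _ => rfl) (f' := q)
    ⟨tint_top h, tint_top h₁, hq.continuousOn, fun g z _ => h₂.fib.eqvp g z, fun _ hz => hz,
      fun _ _ _ => trivial⟩ eO eE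
  have k₃ : GAdm ((sphRep χ).prod b₂) ((sphRep χ).prod b) id (fun z => (z.1, q z.2))
      (sph A R ×ˢ ((p ∘ q) ⁻¹' U)) (gph O₃ E₃) (sph A R ×ˢ (p ⁻¹' U)) (gph O E) := k₂
  have hk' : gp ((sphRep χ).prod b₂) id (fun z => (z.1, q z.2)) (sph A R ×ˢ ((p ∘ q) ⁻¹' U))
      (gph O₃ E₃) (kap χ b O E (p ⁻¹' U)) = kap χ b₂ O₃ E₃ ((p ∘ q) ⁻¹' U) := hk
  have g1 : ∀ z ∈ sph A R ×ˢ ((p ∘ q) ⁻¹' U), z ∈ gph O₃ E₃ → (z.1, q z.2) ∈ gph O E :=
    fun z hz hg => ⟨(eO _ hz.2).1 hg.1, hg.2.trans (eE _ hg.1 hz.2)⟩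
  have hA : IAdm ((sphRep χ).prod b) ((sphRep χ).prod b₂) ρ₂ (fun z => (z.1, q z.2))
      (fun z => F₂ z.2) (sph A R ×ˢ (V ∩ p ⁻¹' U)) (univ ×ˢ W)
      (sph A R ×ˢ (V₂ ∩ (p ∘ q) ⁻¹' U)) (univ ×ˢ W₃) := by
    obtain ⟨C, c1, c2, c3⟩ := h₂.bdd
    exact ⟨(h₂.fib.mono inter_subset_left).prod _ _, h₁.gadm.src, h.gadm.src,
      fun z hz => ⟨hz.1, h₂.sub hz.2.1, hz.2.2⟩, fun z hz hz' => ⟨trivial, h₂.supp _ hz.2 hz'.2.1⟩,
      fun z => C z.2, c1.comp continuousOn_snd fun _ hz => hz.2.1, fun g z hz => c2 g _ hz.2.1,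
      fun z hz hz' => c3 _ hz.2 hz'.2.1⟩
  have hB : IAdm ((sphRep χ).prod b) ((sphRep χ).prod b₂) ρ₂ (fun z => (z.1, q z.2))
      (fun z => F₂ z.2) (sph A R ×ˢ (p ⁻¹' U)) (univ ×ˢ W ∩ gph O E)
      (sph A R ×ˢ ((p ∘ q) ⁻¹' U)) (univ ×ˢ W₃ ∩ gph O₃ E₃) := by
    obtain ⟨C, c1, c2, c3⟩ := h.bdd
    refine ⟨(Fib.of_comp he (h.tgt.res _) h₁.fib h.fib hq h₂.fib.eqvp e₁ e₂).prod _ _,
      h₁.iadm.src, h.iadm.src, fun _ hz => hz, fun z hz hz' => ⟨⟨trivial, h₂.supp _ hz.1.2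
        (tint_mem h₁ hz' (g1 z hz' hz.2))⟩, g1 z hz' hz.2⟩, fun z => C (p z.2),
      c1.comp (h₁.fib.contp.comp continuous_snd).continuousOn fun _ hz => hz.2,
      fun g z hz => (congrArg C (h₁.fib.eqvp g z.2)).trans (c2 g.2 _ hz.2), fun z hz hz' => ?_⟩
    exact ((congrArg nsq (e₂ _ hz'.2)).ge.trans (tint_nsq e _)).trans
      (c3 _ hz.1.2 hz.2.1 (hz.2.2 ▸ hz'.1) hz'.2)
  have p1 : ((sphRep χ).prod b₂).Pr (sph A R ×ˢ ((p ∘ q) ⁻¹' U))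
      ((fun z => (z.1, q z.2)) ⁻¹' gph O E) :=
    k₃.src.congr_mem fun z hz => ⟨g1 z hz, k₃.supp z hz⟩
  have k₄ := gadm_id k₃.src p1 subset_rfl fun z hz => g1 z hz.1 hz.2
  have hy : ECup ((sphRep χ).prod b₂) (sph A R ×ˢ (V₂ ∩ (p ∘ q) ⁻¹' U)) (univ ×ˢ W₃)
      (sph A R ×ˢ ((p ∘ q) ⁻¹' U)) ((fun z => (z.1, q z.2)) ⁻¹' gph O E)
      (sph A R ×ˢ ((p ∘ q) ⁻¹' U)) (univ ×ˢ W₃ ∩ gph O₃ E₃) :=
    ⟨h.ecup.p1, p1, h.ecup.p3, h.ecup.ok.left,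
      fun z hz => (h.ecup.ok.right hz).imp_right fun k => ⟨hz, fun l => k.2 (k₃.supp z hz l)⟩,
      fun z hz => (h.ecup.ok.supp hz).imp_right fun k => ⟨k.1, fun l => k.2 (k₃.supp z k.1 l)⟩⟩
  rw [tint_apply, tint_apply, gp_intg h₂ hA h₁.gadm h.gadm (fun _ _ => rfl) (fun _ _ => rfl)
    (fun _ _ => rfl), ← intg_ecup_germ' hA hB h₁.ecup hy, ← ecup_gp_right hy k₄, ← hk',
    gp_comp k₃ k₄ (χ := id) (fun _ => rfl) (k := fun z => (z.1, q z.2)) fun _ _ => rfl]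
  exact congrArg _ (intg_intg he h₁.iadm hB h.iadm (fun z hz => e₁ _ hz.2)
    (fun z hz => e₂ _ hz.2) _)

end Pool.Agent.Work.MP_849ab0_ag.G
end
end

-- merged part: Pool.Agent.Work.MP_849ab0_ag.G.H2.NormC
section
/-!
NORM for `tint`.

Hints.  `tint_apply`; let `C` be the cup product in it, `w₀ = E z₀ = slc u π v₀` (`exists_slice`).
The support of `C` on `sph ×ˢ snd ⁻¹' U` is `{(E z, z) | z in the orbit of z₀}`, so `h.iadm` stays true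
for the smaller target support `orbS w₀ ×ˢ {z₀.2}` (`h.eqvE`, `pr_orbS`); let `d` be that integral.
`gp_intg` with identity maps and `stop_ne_zero` reduce the claim to `d ≠ 0`.  Pull back along
`gadm_slice`: `gp_intg` to the trivial group on `L = (SI π → ℂ) × ((J → ℂ) × (J' → ℂ))`,
`p' z = (z.1, z.2.2)`, `F' z = z.2.1`, `f' z = (slc z.1, z.2)`, support `{(v₀, z₀)}` (`slc_unique`);
`intg_graph` says that this integral is injective, so it is enough to see that the pull-back of `C`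
is nonzero.  Restrict further to the open set `univ ×ˢ O₁`: there it is
`eul (fun z => Sum.elim (Γ z.2) (slc z.1 - E z.2))` (`gp_comp`, `gp_ecup`, `kap_spec`, `hc`, `gp_eul`,
`ecup_gp_left` to pass from the germ `V₀` to `O₁`, `eul_sum` with `isSum_sum`), nonzero by `loc_deg`:
the derivative is injective by `slc_tangent`, `hk`, `slc_orbit`; dimension by `card_SI`.
-/

noncomputable section

set_option linter.unusedSectionVars false
set_option linter.unusedVariables false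

namespace Pool.Agent.Work.MP_849ab0_ag.G

open Set Topology Matrix

variable {A R : Type} [Fintype A] [DecidableEq A] [Fintype R] [Nonempty R]
  {χ : A × R → Gp.one.H → ℂ} {J J' J'' : Type} [Fintype J] [Fintype J'] [Fintype J'']
  {ρ : Act (TG A Gp.one) (J → ℂ)} [ρ.Rep] {σ : Act (TG A Gp.one) (J'' → ℂ)} [σ.Rep]

section

variable {L J₁ J₂ : Type} [Fintype J₁] [Fintype J₂]

theorem normc_pr [TopologicalSpace L] {O Z : Set L} (hO : IsLocallyClosed O) (hZ : IsClosed Z) :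
    (Act.triv Gp.one L).Pr O Z := Act.pr_of _ hO (fun _ _ h => h) hZ fun _ _ h => h

theorem normc_eadm [TopologicalSpace L] {O : Set L} (hO : IsOpen O) {Γ : L → J₁ → ℂ}
    (hc : ContinuousOn Γ O) :
    EAdm (Act.triv Gp.one L) (Act.triv Gp.one _) Γ O (Γ ⁻¹' {0}) :=
  ⟨(Act.Rep.pr (Act.triv Gp.one (J₁ → ℂ))).preimage' (φ := id)
      (normc_pr hO.isLocallyClosed isClosed_univ) hc (mapsTo_univ _ _) fun _ _ _ => rfl,
    Act.Rep.pr _, hc, fun _ _ _ => rfl, mapsTo_univ _ _, fun _ _ k => k⟩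

theorem normc_loc [NormedAddCommGroup L] [NormedSpace ℝ L] [FiniteDimensional ℝ L]
    (hL : Module.finrank ℝ L = 2 * (Fintype.card J₁ + Fintype.card J₂)) {O : Set L}
    (hO : IsOpen O) {w : L} (hw : w ∈ O) {Γ₁ : L → J₁ → ℂ} {Γ₂ : L → J₂ → ℂ}
    (c₁ : ContinuousOn Γ₁ O) (c₂ : ContinuousOn Γ₂ O) (z₁ : Γ₁ w = 0) (z₂ : Γ₂ w = 0)
    (h0 : ∀ y ∈ O, Γ₁ y = 0 → Γ₂ y = 0 → y = w) {A₁ : L →L[ℝ] J₁ → ℂ} {A₂ : L →L[ℝ] J₂ → ℂ}
    (d₁ : HasFDerivAt Γ₁ A₁ w) (d₂ : HasFDerivAt Γ₂ A₂ w)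
    (hi : ∀ δ, A₁ δ = 0 → A₂ δ = 0 → δ = 0) :
    ecup O {w} (eul (Act.triv Gp.one L) (Act.triv Gp.one _) Γ₁ O (Γ₁ ⁻¹' {0}))
      (eul (Act.triv Gp.one L) (Act.triv Gp.one _) Γ₂ O (Γ₂ ⁻¹' {0})) ≠ 0 := by
  let e := (ContinuousLinearEquiv.sumPiEquivProdPi ℝ J₁ J₂ fun _ => ℂ).symm
  have he : IsSum (Act.triv Gp.one (J₁ ⊕ J₂ → ℂ)) (Act.triv Gp.one _) (Act.triv Gp.one _)
      (Equiv.refl _) := fun _ _ => ⟨rfl, rfl⟩
  have h1 := eul_sum (b := Act.triv Gp.one L) (F := fun y => e (Γ₁ y, Γ₂ y)) (V := O) (W := {w})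
    he (normc_eadm hO c₁) (normc_eadm hO c₂) (normc_pr hO.isLocallyClosed isClosed_singleton)
    fun y k => h0 y k.1.1 k.1.2 k.2
  have h2 := loc_deg (J := J₁ ⊕ J₂) (by rw [hL, Fintype.card_sum]) hO hw
    (Γ := fun y => e (Γ₁ y, Γ₂ y)) (e.continuous.comp_continuousOn (c₁.prodMk c₂))
    (fun y hy => by
      rw [e.map_eq_zero_iff, Prod.mk_eq_zero]
      exact ⟨fun k => h0 y hy k.1 k.2, fun k => k ▸ ⟨z₁, z₂⟩⟩)
    (e.hasFDerivAt.comp w (d₁.prodMk d₂))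
    ((injective_iff_map_eq_zero _).2 fun δ k => by
      have k' : (A₁ δ, A₂ δ) = 0 := e.map_eq_zero_iff.1 k
      rw [Prod.mk_eq_zero] at k'
      exact hi δ k'.1 k'.2)
  rw [h1] at h2
  exact h2

end

theorem normc_act (hχ : ∀ z, IsChar (χ z)) (g : (TG A Gp.one).H) (w : A × R → ℂ) :
    (sphRep χ).act g w = fun z => (g.1 z.1 : ℂ) * w z := by
  funext z
  have e : g.2 = 1 := Subsingleton.elim _ _
  change (g.1 z.1 : ℂ) * χ z g.2 * w z = _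
  rw [e, (hχ z).one, mul_one]

theorem tnorm {U : Set (J' → ℂ)} (hU : IsOpen U) {V W O : Set ((J → ℂ) × (J' → ℂ))}
    {E : (J → ℂ) × (J' → ℂ) → A × R → ℂ} {z₀ : (J → ℂ) × (J' → ℂ)}
    (h : TAdm χ (Act.triv _ _) (ρ.prod ((Act.triv _ _).res Prod.snd)) ρ Prod.snd Prod.fst O E U
      {z₀.2} V W)
    (h₀ : E z₀ ∈ sph A R)
    (hW : ∀ z ∈ W, z ∈ O → E z ∈ sph A R → z.2 ∈ U → ∃ g, z.1 = ρ.act g z₀.1)
    {O₁ : Set ((J → ℂ) × (J' → ℂ))} (hO : IsOpen O₁) (hz : z₀ ∈ O₁) (hOU : ∀ z ∈ O₁, z.2 ∈ U)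
    (hOO : O₁ ⊆ O) (iO : ∀ g, ∀ z ∈ O₁, (ρ.act g z.1, z.2) ∈ O₁)
    {Γ : (J → ℂ) × (J' → ℂ) → J'' → ℂ} (cΓ : ContinuousOn Γ O₁)
    (eΓ : ∀ g, ∀ z ∈ O₁, Γ (ρ.act g z.1, z.2) = σ.act g (Γ z)) (zΓ : Γ z₀ = 0)
    {V₀ : Set ((J → ℂ) × (J' → ℂ))} (hV₀ : (ρ.prod ((Act.triv _ _).res Prod.snd)).Pr V₀ W)
    (sV₀ : V₀ ⊆ O₁ ∩ V) (lV₀ : ∀ z ∈ O₁, E z ∈ sph A R → z ∈ V₀) (wΓ : ∀ z ∈ V₀, Γ z = 0 → z ∈ W)
    {c : EH (ρ.prod ((Act.triv Gp.one (J' → ℂ)).res Prod.snd)) V W}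
    (hc : gp _ id id V₀ W c = eul (ρ.prod ((Act.triv _ _).res Prod.snd)) σ Γ V₀ W)
    {Γ' : ((J → ℂ) × (J' → ℂ)) →L[ℝ] J'' → ℂ} (hΓ : HasFDerivAt Γ Γ' z₀)
    {E' : ((J → ℂ) × (J' → ℂ)) →L[ℝ] A × R → ℂ} (hE : HasFDerivAt E E' z₀)
    (hk : ∀ δ, Γ' δ = 0 → (∀ j, ∑ r, (starRingEnd ℂ (E z₀ (j, r)) * E' δ (j, r)).re = 0) →
      ∃ ξ : A → ℝ, (E' δ = fun z => Complex.I * ξ z.1 * E z₀ z) ∧ (ξ = 0 → δ = 0))
    (hd : Fintype.card J'' + Fintype.card A = Fintype.card J + Fintype.card J') :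
    tint χ (Act.triv _ _) ρ Prod.snd Prod.fst O E U {z₀.2} c ≠ 0 := by
  classical
  have := rep_sphRep h.ch
  have : IsHom (G := Gp.one) (G' := Gp.one) id := IsHom.id
  obtain ⟨π, u, v₀, hu, hv⟩ := exists_slice h₀
  have hx : z₀.2 ∈ U := hOU _ hz
  have horb : ∀ z ∈ W, z ∈ O → E z ∈ sph A R → z.2 ∈ U → ∃ g : (TG A Gp.one).H,
      z = (ρ.act g z₀.1, z₀.2) ∧ E z = fun i => (g.1 i.1 : ℂ) * E z₀ i := by
    intro z k1 k2 k3 k4
    obtain ⟨g, hg⟩ := hW z k1 k2 k3 k4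
    have e : z = (ρ.act g z₀.1, z₀.2) := Prod.ext hg (h.supp z k1 k2 k3 k4)
    refine ⟨g, e, ?_⟩
    rw [e, ← normc_act h.ch]
    exact h.eqvE g z₀ ⟨hx, hOO hz⟩
  have hpt : ∀ (v : SI π → ℂ), ∀ z ∈ W, z ∈ O → slc u π v = E z → z.2 ∈ U →
      (v, z) = (v₀, z₀) := by
    intro v z k1 k2 k3 k4
    obtain ⟨g, e1, e2⟩ := horb z k1 k2 (k3 ▸ slc_mem hu v) k4
    rw [← k3, ← hv] at e2
    obtain ⟨e3, e4⟩ := slc_unique hu e2.symm
    have e5 : g = 1 := Prod.ext e3 (Subsingleton.elim _ _)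
    rw [e1, e5, Act.Ok.one, e4]
  have h1 := h.iadm
  have h2 : IAdm (aS χ J') _ ρ _ _ (sph A R ×ˢ U) (orbS (slc u π v₀) ×ˢ {z₀.2}) _ _ :=
    ⟨h1.fib, pr_orbS h.ch hU _ _, h1.src, h1.sub, fun y k m => by
      obtain ⟨g, e1, e2⟩ := horb y.2 k.1.2 k.2.1 (k.2.2 ▸ m.1) m.2
      exact ⟨⟨g.1, by rw [hv, ← e2]; exact k.2.2⟩, (h1.supp y k m).2⟩, h1.bdd⟩
  rw [tint_apply]
  generalize hC : ecup (sph A R ×ˢ (Prod.snd ⁻¹' U)) (univ ×ˢ W ∩ gph O E)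
    (gp ((sphRep χ).prod (ρ.prod ((Act.triv Gp.one (J' → ℂ)).res Prod.snd))) id Prod.snd
      (sph A R ×ˢ (V ∩ Prod.snd ⁻¹' U)) (univ ×ˢ W) c)
    (kap χ (ρ.prod ((Act.triv Gp.one (J' → ℂ)).res Prod.snd)) O E (Prod.snd ⁻¹' U)) = C
  have e1 := gp_intg h2 h1
    (gadm_id h2.tgt h1.tgt subset_rfl fun y k => ⟨trivial, k.2.2⟩)
    (gadm_id h1.src h1.src subset_rfl inter_subset_right) (fun _ _ => rfl) (fun _ _ => rfl)
    (fun _ _ => rfl) C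
  rw [gp_id h1.src] at e1
  rw [← e1]
  refine stop_ne_zero h.ch hU hx (slc_mem hu v₀) fun hd0 => ?_
  -- the slice
  have hF : Fib (Act.triv Gp.one ((SI π → ℂ) × (J' → ℂ)))
      (Act.triv Gp.one ((SI π → ℂ) × ((J → ℂ) × (J' → ℂ)))) (Act.triv Gp.one (J → ℂ))
      (fun z => (z.1, z.2.2)) (fun z => z.2.1) (univ ×ˢ U) :=
    ⟨by fun_prop, fun _ _ => rfl, by fun_prop, fun _ _ _ => rfl,
      fun q => (q.1.1, (q.2, q.1.2)), by fun_prop, fun _ _ _ => ⟨rfl, rfl⟩, fun _ _ => rfl⟩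
  have kS := gadm_slice (x₀ := z₀.2) (π := π) (v₀ := v₀) h.ch hU hu
  have hP : (Act.triv Gp.one ((SI π → ℂ) × ((J → ℂ) × (J' → ℂ)))).Pr
      ((fun z => (z.1, z.2.2)) ⁻¹' ((univ : Set (SI π → ℂ)) ×ˢ U)) {(v₀, z₀)} :=
    normc_pr ((isOpen_univ.prod hU).preimage (by fun_prop)).isLocallyClosed isClosed_singleton
  obtain ⟨h3, hb⟩ := intg_graph hF kS.src hP (r := fun _ => z₀.1) continuousOn_const
    (fun _ _ _ => rfl) fun y _ => by
      simp only [mem_singleton_iff, Prod.ext_iff]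
      tauto
  have cs : Continuous fun z : (SI π → ℂ) × ((J → ℂ) × (J' → ℂ)) => (slc u π z.1, z.2) :=
    ((continuous_slc u π).comp continuous_fst).prodMk continuous_snd
  have adm : ∀ {S T : Set ((SI π → ℂ) × ((J → ℂ) × (J' → ℂ)))}
      {S' T' : Set ((A × R → ℂ) × ((J → ℂ) × (J' → ℂ)))}, (Act.triv Gp.one _).Pr S T →
      ((sphRep χ).prod (ρ.prod ((Act.triv Gp.one (J' → ℂ)).res Prod.snd))).Pr S' T' →
      (∀ z ∈ S, (slc u π z.1, z.2) ∈ S') → (∀ z ∈ S, (slc u π z.1, z.2) ∈ T' → z ∈ T) →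
      GAdm (Act.triv Gp.one _) ((sphRep χ).prod (ρ.prod ((Act.triv Gp.one (J' → ℂ)).res Prod.snd)))
        (fun _ => 1) (fun z => (slc u π z.1, z.2)) S T S' T' := fun p1 p2 p3 p4 =>
    ⟨p1, p2, cs.continuousOn, fun _ _ _ => (Act.Ok.one _).symm, p3, p4⟩
  have k' := adm hP h1.src (fun z k => ⟨slc_mem hu _, k.2⟩)
    fun z k m => hpt z.1 z.2 m.1.2 m.2.1 m.2.2 k.2
  have e2 := gp_intg h2 h3 kS k' (fun _ w => (Act.Ok.one w).symm) (fun _ _ => rfl)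
    (fun _ _ => rfl) C
  rw [hd0, map_zero] at e2
  have e3 := (injective_iff_map_eq_zero _).1 hb.1 _ e2.symm
  -- the open set
  have hO' : IsOpen ((univ : Set (SI π → ℂ)) ×ˢ O₁) := isOpen_univ.prod hO
  have pO := normc_pr hO'.isLocallyClosed (isClosed_singleton (x := (v₀, z₀)))
  have k0 := gadm_id hP pO (fun z k => ⟨trivial, hOU _ k.2⟩) inter_subset_right
  have e4 := gp_comp k' k0 (χ := fun _ => 1) (fun _ => rfl)
    (k := fun z => (slc u π z.1, z.2)) (fun _ _ => rfl) C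
  rw [e3, map_zero] at e4
  have cE : ContinuousOn E O₁ := h.contE.mono fun z k => ⟨hOU z k, hOO k⟩
  have c₁ : ContinuousOn (fun y : (SI π → ℂ) × ((J → ℂ) × (J' → ℂ)) => Γ y.2) (univ ×ˢ O₁) :=
    cΓ.comp continuousOn_snd fun _ k => k.2
  have c₂ : ContinuousOn (fun y : (SI π → ℂ) × ((J → ℂ) × (J' → ℂ)) => slc u π y.1 - E y.2)
      (univ ×ˢ O₁) := ((continuous_slc u π).comp continuous_fst).continuousOn.sub
        (cE.comp continuousOn_snd fun _ k => k.2)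
  have a₁ := normc_eadm hO' c₁
  have a₂ := normc_eadm hO' c₂
  have pV : (Act.triv Gp.one ((SI π → ℂ) × ((J → ℂ) × (J' → ℂ)))).Pr (Prod.snd ⁻¹' V₀)
      (Prod.snd ⁻¹' W) :=
    hV₀.preimage (φ := fun _ => 1) continuous_snd fun _ y => (Act.Ok.one y.2).symm
  have mV : ∀ y : (SI π → ℂ) × ((J → ℂ) × (J' → ℂ)), y.2 ∈ O₁ → slc u π y.1 - E y.2 = 0 →
      y.2 ∈ V₀ := fun y k m => lV₀ _ k (sub_eq_zero.1 m ▸ slc_mem hu _)
  have cup : ECup (Act.triv Gp.one _) _ _ _ _ _ _ := ⟨pV, a₂.src, pO, fun _ k => Or.inr k,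
    fun y k => (em _).imp (mV y k.2) fun m => ⟨k, m⟩,
    fun y k => (em _).imp (fun m => ⟨mV y k.1.2 m, fun n =>
      k.2 (hpt _ _ n (hOO k.1.2) (sub_eq_zero.1 m) (hOU _ k.1.2))⟩) fun m => ⟨k.1, m⟩⟩
  have k₁ := adm pV h.ecup.p1 (fun z k => ⟨slc_mem hu _, (sV₀ k).2, hOU _ (sV₀ k).1⟩)
    fun z _ m => m.2
  have k₂ := adm a₂.src h.ecup.p2 (fun z k => ⟨slc_mem hu _, hOU _ k.2⟩)
    fun z _ m => sub_eq_zero.2 m.2
  have k₃ := adm a₂.src h.eadm.src (fun z k => ⟨slc_mem hu _, hOU _ k.2, hOO k.2⟩)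
    fun z _ m => sub_eq_zero.2 m.2
  have k₄ : GAdm (Act.triv Gp.one ((SI π → ℂ) × ((J → ℂ) × (J' → ℂ))))
      (ρ.prod ((Act.triv Gp.one (J' → ℂ)).res Prod.snd)) (fun _ => 1) Prod.snd (Prod.snd ⁻¹' V₀)
      (Prod.snd ⁻¹' W) V₀ W :=
    ⟨pV, hV₀, continuousOn_snd, fun _ y _ => (Act.Ok.one y.2).symm, fun _ k => k, fun _ _ k => k⟩
  have aΓ : EAdm (ρ.prod ((Act.triv Gp.one (J' → ℂ)).res Prod.snd)) σ Γ V₀ W :=
    ⟨hV₀, Act.Rep.pr σ, cΓ.mono fun _ k => (sV₀ k).1, fun g z k => eΓ g z (sV₀ k).1,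
      mapsTo_univ _ _, wΓ⟩
  have k₅ := gadm_id a₁.src pV (fun _ k => ⟨trivial, (sV₀ k).1⟩) fun y k => wΓ _ k.1 k.2
  have k₆ := adm pO h1.src (fun z k => ⟨slc_mem hu _, hOU _ k.2⟩)
    fun z k m => hpt z.1 z.2 m.1.2 m.2.1 m.2.2 (hOU _ k.2)
  rw [← hC, gp_ecup h.ecup cup k₆ k₁ k₂ (fun _ k => ⟨trivial, (sV₀ k).1⟩) subset_rfl,
    gp_comp h.gadm k₁ (χ := fun _ => 1) (fun _ => rfl) (k := Prod.snd) (fun _ _ => rfl),
    ← gp_comp (gadm_id h.src hV₀ (fun _ k => (sV₀ k).2) inter_subset_right) k₄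
      (χ := fun _ => 1) (fun _ => rfl) (k := Prod.snd) (fun _ _ => rfl), hc,
    gp_eul aΓ k₄ (σ := Act.triv Gp.one _) (fun _ w => (Act.Ok.one w).symm)
      (F' := fun y => Γ y.2) (fun _ _ => rfl),
    ← gp_eul a₁ k₅ (σ := Act.triv Gp.one _) (fun _ _ => rfl) (F' := fun y => Γ y.2)
      (fun _ _ => rfl),
    ecup_gp_left cup k₅,
    ← gp_comp (gadm_id h.ecup.p2 h.eadm.src (prod_mono_right inter_subset_left)
      inter_subset_right) k₃ (χ := fun _ => 1) (fun _ => rfl)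
      (k := fun z => (slc u π z.1, z.2)) (fun _ _ => rfl), h.kap_spec,
    gp_eul h.eadm k₃ (σ := Act.triv Gp.one _) (fun _ w => (Act.Ok.one w).symm)
      (F' := fun y => slc u π y.1 - E y.2) (fun _ _ => rfl)] at e4
  have hS := (differentiable_slc u π v₀).hasFDerivAt
  have d₂ := (HasFDerivAt.comp (v₀, z₀) (f := Prod.fst) hS hasFDerivAt_fst).sub
    (HasFDerivAt.comp (v₀, z₀) (f := Prod.snd) hE hasFDerivAt_snd)
  refine normc_loc ?_ hO' (w := (v₀, z₀)) ⟨trivial, hz⟩ c₁ c₂ zΓ (sub_eq_zero.2 hv)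
    (fun y k m n => hpt _ _ (wΓ _ (mV y k.2 n) m) (hOO k.2) (sub_eq_zero.1 n) (hOU _ k.2))
    (hΓ.comp (v₀, z₀) hasFDerivAt_snd) d₂ ?_ e4.symm
  · have := card_SI π
    simp only [Module.finrank_prod, Module.finrank_pi_fintype, Complex.finrank_real_complex,
      Finset.sum_const, Finset.card_univ, smul_eq_mul, Fintype.card_prod]
    omega
  · intro δ m n
    have n' : E' δ.2 = fderiv ℝ (slc u π) v₀ δ.1 := (sub_eq_zero.1 n).symm
    obtain ⟨ξ, e5, e6⟩ := hk δ.2 m fun j => by rw [n', ← hv]; exact slc_tangent hu hS _ j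
    rw [n', ← hv] at e5
    obtain ⟨e7, e8⟩ := slc_orbit hu hS e5
    exact Prod.ext e8 (e6 e7)

end Pool.Agent.Work.MP_849ab0_ag.G
end
end

-- merged part: Pool.Agent.Work.MP_849ab0_ag.G.H2.Int
section
/-!
The toric integral `TD.int`: the statements used by the diagonal arguments (owner helper87).

Hints.  Everything is the statement for `tint` (TInt, NormC) applied to `Adm.tadm`; `congr_emb` for
the base change; `mapT A id = id`.  `norm`: `tnorm` with `O₁ = O ∩ {z | z.1 ∘ i ∈ D.opn}`;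
`emb_radial`: differentiate `nsq_emb` along `w + t δ`; `emb_orbit`: differentiate `Ok.emb_act` along
`t ↦ (fun j => Circle.exp (t * ξ j), 1)`.  `norm_pt`: `gp_int` from the point to the base
`Empty → ℂ` along `f' = Prod.fst`, then `norm`.
-/

noncomputable section

set_option linter.unusedSectionVars false
set_option linter.unusedVariables false

namespace Pool.Agent.Work.MP_849ab0_ag.G

open Set Topology Matrix

namespace TD

variable {A J : Type} [Fintype A] [DecidableEq A] [Fintype J] {H H' : Gp} [H.Nice] [H'.Nice]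
  {D : TD A J H} {D' : TD A J H'} {X X' Y Y' : Type}
  [TopologicalSpace X] [T3Space X] [SecondCountableTopology X]
  [TopologicalSpace X'] [T3Space X'] [SecondCountableTopology X']
  [TopologicalSpace Y] [T3Space Y] [SecondCountableTopology Y]
  [TopologicalSpace Y'] [T3Space Y'] [SecondCountableTopology Y']
  {Jt : Type} [Fintype Jt] {a : Act H X} [a.Ok] {a' : Act H' X'} [a'.Ok]
  {b : Act (TG A H) Y} [b.Ok] {b' : Act (TG A H') Y'} [b'.Ok]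
  {ρ : Act (TG A H) (Jt → ℂ)} [ρ.Rep] {p : Y → X} {F : Y → Jt → ℂ} {y : Y → J → ℂ}
  {U Z U₁ Z₁ Z₂ : Set X} {V W V₁ W₁ W₂ : Set Y} {U' Z' : Set X'} {V' W' : Set Y'}

/-- base change -/
theorem gp_int (h : D.Adm a b ρ p F y U Z V W) {φ : H'.H → H.H} [IsHom φ]
    {σ : Act (TG A H') (Jt → ℂ)} [σ.Rep] {p' : Y' → X'} {F' : Y' → Jt → ℂ} {y' : Y' → J → ℂ}
    (h' : D'.Adm a' b' σ p' F' y' U' Z' V' W') (em : D'.m = D.m) (eθ : D'.θ = D.θ)
    (ec : ∀ q g, D'.c q g = D.c q (φ g)) {f : X' → X} {f' : Y' → Y}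
    (k : GAdm a' a φ f U' Z' U Z) (k' : GAdm b' b (mapT A φ) f' V' W' V W)
    (e : ∀ g w, σ.act g w = ρ.act (mapT A φ g) w) (e₁ : ∀ z, p' z ∈ U' → p (f' z) = f (p' z))
    (e₂ : ∀ z, p' z ∈ U' → F (f' z) = F' z) (e₃ : ∀ z, p' z ∈ U' → y (f' z) = y' z)
    (c : EH b V W) :
    gp a' φ f U' Z' (D.int a ρ p F y U Z c) =
      D'.int a' σ p' F' y' U' Z' (gp b' (mapT A φ) f' V' W' c) := by
  obtain ⟨-, eo, ee, er⟩ := congr_emb (D := D) (D' := D') em eθ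
  refine gp_tint h.tadm h'.tadm (fun z g => ?_) k k' e e₁ e₂ (fun z hz => ?_) (fun z _ hz => ?_) c
  · simp only [chi, ec, er]
  · rw [mem_preimage, mem_preimage, e₃ z hz, eo]
  · rw [e₃ z hz, ee]

/-- change of the domains and of the supports -/
theorem gp_id_int (h : D.Adm a b ρ p F y U Z V W) (h₁ : D.Adm a b ρ p F y U₁ Z₁ V₁ W₁)
    (k : GAdm a a id id U₁ Z₁ U Z) (k' : GAdm b b id id V₁ W₁ V W) (c : EH b V W) :
    gp a id id U₁ Z₁ (D.int a ρ p F y U Z c) = D.int a ρ p F y U₁ Z₁ (gp b id id V₁ W₁ c) :=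
  gp_int h h₁ rfl rfl (fun _ _ => rfl) k k' (fun _ _ => rfl) (fun _ _ => rfl) (fun _ _ => rfl)
    (fun _ _ => rfl) c

theorem int_gp_id (h : D.Adm a b ρ p F y U Z V W) (h₁ : D.Adm a b ρ p F y U Z V₁ W₁)
    (k' : GAdm b b id id V₁ W₁ V W) (c : EH b V W) :
    D.int a ρ p F y U Z (gp b id id V₁ W₁ c) = D.int a ρ p F y U Z c := by
  rw [← gp_id_int h h₁ (gadm_id h.tgt h.tgt subset_rfl inter_subset_right) k', gp_id h.tgt]

/-- the support does not meet the level set -/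
theorem int_eq_zero (h : D.Adm a b ρ p F y U Z V W) (e : ∀ z ∈ W, p z ∈ U → y z ∉ D.lev)
    (c : EH b V W) : D.int a ρ p F y U Z c = 0 :=
  tint_eq_zero h.tadm (fun z hz hp ho hs => e z hz hp (h.ok.mem_lev.2 ⟨ho, hs⟩)) c

/-- projection formula -/
theorem int_ecup (h : D.Adm a b ρ p F y U Z V W) (h' : D.Adm a b ρ p F y U Z₂ V W₂)
    (hx : ECup a U₁ Z₁ U Z U Z₂) (hy : ECup b (p ⁻¹' U₁) (p ⁻¹' Z₁) V W V W₂) (e : U₁ ⊆ U)
    (x : EH a U₁ Z₁) (c : EH b V W) :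
    D.int a ρ p F y U Z₂ (ecup V W₂ (gp b Prod.snd p (p ⁻¹' U₁) (p ⁻¹' Z₁) x) c) =
      ecup U Z₂ x (D.int a ρ p F y U Z c) := tint_ecup h.tadm h'.tadm hx hy e x c

theorem int_ecup' (h : D.Adm a b ρ p F y U Z V W) (h' : D.Adm a b ρ p F y U Z₂ V W₂)
    (hx : ECup a U Z U₁ Z₁ U Z₂) (hy : ECup b V W (p ⁻¹' U₁) (p ⁻¹' Z₁) V W₂) (e : U₁ ⊆ U)
    (x : EH a U₁ Z₁) (c : EH b V W) :
    D.int a ρ p F y U Z₂ (ecup V W₂ c (gp b Prod.snd p (p ⁻¹' U₁) (p ⁻¹' Z₁) x)) =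
      ecup U Z₂ (D.int a ρ p F y U Z c) x := tint_ecup' h.tadm h'.tadm hx hy e x c

theorem int_sm (h : D.Adm a b ρ p F y U Z V W) (d : HPt H) (c : EH b V W) :
    D.int a ρ p F y U Z (sm (gpt Prod.snd d) c) = sm d (D.int a ρ p F y U Z c) :=
  tint_sm h.tadm d c

theorem isDeg_int (h : D.Adm a b ρ p F y U Z V W) {m : ℤ} {c : EH b V W}
    (hc : IsDeg (m + 2 * Fintype.card Jt - 2 * Fintype.card A) c) :
    IsDeg m (D.int a ρ p F y U Z c) := isDeg_tint h.tadm hc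

/-- Fubini -/
theorem int_intg {Y₂ J₁ J₂ : Type} [TopologicalSpace Y₂] [T3Space Y₂] [SecondCountableTopology Y₂]
    [Fintype J₁] [Fintype J₂] {b₂ : Act (TG A H) Y₂} [b₂.Ok] {V₂ W₃ : Set Y₂}
    {ρ₁ : Act (TG A H) (J₁ → ℂ)} [ρ₁.Rep] {ρ₂ : Act (TG A H) (J₂ → ℂ)} [ρ₂.Rep]
    {e : J₁ ⊕ J₂ ≃ Jt} (he : IsSum ρ ρ₁ ρ₂ e) {F₁ : Y → J₁ → ℂ} {q : Y₂ → Y}
    {F₂ : Y₂ → J₂ → ℂ} {F₃ : Y₂ → Jt → ℂ} {y₃ : Y₂ → J → ℂ} (h₁ : D.Adm a b ρ₁ p F₁ y U Z V W)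
    (h₂ : IAdm b b₂ ρ₂ q F₂ V W V₂ W₃) (h : D.Adm a b₂ ρ (p ∘ q) F₃ y₃ U Z V₂ W₃)
    (e₁ : ∀ z, p (q z) ∈ U → F₃ z ∘ e ∘ Sum.inl = F₁ (q z))
    (e₂ : ∀ z, p (q z) ∈ U → F₃ z ∘ e ∘ Sum.inr = F₂ z) (e₃ : ∀ z, p (q z) ∈ U → y₃ z = y (q z))
    (c : EH b₂ V₂ W₃) :
    D.int a ρ₁ p F₁ y U Z (intg b ρ₂ q F₂ V W c) = D.int a ρ (p ∘ q) F₃ y₃ U Z c :=
  tint_intg he h₁.tadm h₂ h.tadm e₁ e₂ (fun z hz => by rw [mem_preimage, mem_preimage, e₃ z hz])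
    (fun z _ hz => by rw [e₃ z hz]) c

section

variable {D : TD A J Gp.one} {J' J'' : Type} [Fintype J'] [Fintype J'']
  {ρ : Act (TG A Gp.one) (Jt → ℂ)} [ρ.Rep] {σ : Act (TG A Gp.one) (J'' → ℂ)} [σ.Rep]

theorem emb_radial {D : TD A J H} (h : D.Ok) {w : J → ℂ} (hw : w ∈ D.lev)
    {E' : (J → ℂ) →L[ℝ] A × Finset J → ℂ} (hE : HasFDerivAt D.emb E' w) (δ : J → ℂ) (j : A) :
    ∑ S, (starRingEnd ℂ (D.emb w (j, S)) * E' δ (j, S)).re =
      2 * ∑ q, D.m q j * (starRingEnd ℂ (w q) * δ q).re := by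
  have l : HasDerivAt (fun t : ℝ => w + t • δ) δ 0 := by
    simpa using ((hasDerivAt_id (0 : ℝ)).smul_const δ).const_add w
  have l1 : HasDerivAt (fun t : ℝ => D.emb (w + t • δ)) (E' δ) 0 :=
    hE.comp_hasDerivAt_of_eq 0 l (by simp)
  have l2 : HasDerivAt (fun t : ℝ => nsq fun S => D.emb (w + t • δ) (j, S))
      (∑ S, 2 * inner ℝ (D.emb (w + (0 : ℝ) • δ) (j, S)) (E' δ (j, S))) 0 :=
    HasDerivAt.fun_sum fun S _ => (hasDerivAt_pi.1 l1 (j, S)).norm_sq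
  have l3 := ((hasDerivAt_mu (D := D) w δ j).const_mul 2).exp
  have l4 : ∀ᶠ t in nhds (0 : ℝ), w + t • δ ∈ D.opn :=
    l.continuousAt.preimage_mem_nhds (isOpen_opn.mem_nhds (by simpa using h.lev_sub_opn hw))
  have l5 := l2.unique (l3.congr_of_eventuallyEq (l4.mono fun t ht => nsq_emb ht j))
  simp only [zero_smul, add_zero, hw j, mul_zero, Real.exp_zero, one_mul, ← Finset.mul_sum,
    Complex.inner] at l5
  have l6 := mul_left_cancel₀ two_ne_zero l5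
  simpa only [mul_comm] using l6

theorem emb_orbit {D : TD A J H} (h : D.Ok) {w : J → ℂ} {E' : (J → ℂ) →L[ℝ] A × Finset J → ℂ}
    (hE : HasFDerivAt D.emb E' w) (ξ : A → ℝ) :
    E' (fun q => Complex.I * (∑ j, D.m q j * ξ j : ℝ) * w q) =
      fun z => Complex.I * ξ z.1 * D.emb w z := by
  have l0 : ∀ (s : ℝ) (u : ℂ), HasDerivAt (fun t : ℝ => Complex.exp (t * (Complex.I * s)) * u)
      (Complex.I * s * u) 0 := fun s u => by
    simpa using (((hasDerivAt_id (0 : ℝ)).ofReal_comp.mul_const (Complex.I * s)).cexp).mul_const u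
  have c1 : ∀ q, D.c q 1 = 1 := fun q => (h.ch q).one
  have l1 : HasDerivAt (fun t : ℝ => D.rep.act (fun j => Circle.exp (t * ξ j), 1) w)
      (fun q => Complex.I * (∑ j, D.m q j * ξ j : ℝ) * w q) 0 := hasDerivAt_pi.2 fun q => by
    refine (l0 (∑ j, D.m q j * ξ j) (w q)).congr_of_eventuallyEq (.of_forall fun t => ?_)
    simp only [rep, Act.dg, chr, c1, mul_one, Circle.coe_exp, ← Complex.exp_int_mul,
      ← Complex.exp_sum]
    push_cast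
    simp only [Finset.mul_sum]
    congr 2
    exact Finset.sum_congr rfl fun j _ => by ring
  have l2 : D.rep.act (fun j => Circle.exp ((0 : ℝ) * ξ j), 1) w = w := by
    ext q
    simp [rep, Act.dg, chr, c1]
  refine (hE.comp_hasDerivAt_of_eq 0 l1 l2.symm).unique (hasDerivAt_pi.2 fun z =>
    (l0 (ξ z.1) (D.emb w z)).congr_of_eventuallyEq (.of_forall fun t => ?_))
  simp only [Function.comp, h.emb_act, sphRep, Act.dg, (h.isChar_chi z).one, mul_one,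
    Circle.coe_exp]
  push_cast
  congr 2
  ring

/-- NORM over a base `U ⊆ ℂ ^ J'`: `c` is the class of the zeros of `Γ` near one transversal
orbit. -/
theorem norm {mt : Jt → A → ℤ} (hρ : ∀ g w q, ρ.act g w q = chr (mt q) g.1 * w q) (i : J → Jt)
    (hm : ∀ q, mt (i q) = D.m q) {U : Set (J' → ℂ)} (hU : IsOpen U) {V W : Set ((Jt → ℂ) × (J' → ℂ))}
    {z₀ : (Jt → ℂ) × (J' → ℂ)}
    (h : D.Adm (Act.triv _ _) (ρ.prod ((Act.triv _ _).res Prod.snd)) ρ Prod.snd Prod.fst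
      (fun z => z.1 ∘ i) U {z₀.2} V W)
    (h₀ : z₀.1 ∘ i ∈ D.lev) (hW : ∀ z ∈ W, z.1 ∘ i ∈ D.lev → z.2 ∈ U → ∃ g, z.1 = ρ.act g z₀.1)
    {O : Set ((Jt → ℂ) × (J' → ℂ))} (hO : IsOpen O) (hz : z₀ ∈ O) (hOU : ∀ z ∈ O, z.2 ∈ U)
    (iO : ∀ g, ∀ z ∈ O, (ρ.act g z.1, z.2) ∈ O) {Γ : (Jt → ℂ) × (J' → ℂ) → J'' → ℂ}
    (cΓ : ContinuousOn Γ O) (eΓ : ∀ g, ∀ z ∈ O, Γ (ρ.act g z.1, z.2) = σ.act g (Γ z))
    (zΓ : Γ z₀ = 0) {V₀ : Set ((Jt → ℂ) × (J' → ℂ))}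
    (hV₀ : (ρ.prod ((Act.triv _ _).res Prod.snd)).Pr V₀ W) (sV₀ : V₀ ⊆ O ∩ V)
    (lV₀ : ∀ z ∈ O, z.1 ∘ i ∈ D.lev → z ∈ V₀) (wΓ : ∀ z ∈ V₀, Γ z = 0 → z ∈ W)
    {c : EH (ρ.prod ((Act.triv Gp.one (J' → ℂ)).res Prod.snd)) V W}
    (hc : gp _ id id V₀ W c = eul (ρ.prod ((Act.triv _ _).res Prod.snd)) σ Γ V₀ W)
    {Γ' : ((Jt → ℂ) × (J' → ℂ)) →L[ℝ] J'' → ℂ} (hΓ : HasFDerivAt Γ Γ' z₀)
    (hk : ∀ δ, Γ' δ = 0 →
      (∀ j, ∑ q, D.m q j * (starRingEnd ℂ (z₀.1 (i q)) * δ.1 (i q)).re = 0) →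
      ∃ ξ : A → ℝ, δ.2 = 0 ∧ ∀ q, δ.1 q = Complex.I * (∑ j, mt q j * ξ j : ℝ) * z₀.1 q)
    (hd : Fintype.card J'' + Fintype.card A = Fintype.card Jt + Fintype.card J') :
    D.int (Act.triv _ _) ρ Prod.snd Prod.fst (fun z => z.1 ∘ i) U {z₀.2} c ≠ 0 := by
  let L : ((Jt → ℂ) × (J' → ℂ)) →L[ℝ] J → ℂ := ContinuousLinearMap.pi fun q =>
    (ContinuousLinearMap.proj (i q)).comp (ContinuousLinearMap.fst ℝ _ _)
  have o₀ := h.ok.lev_sub_opn h₀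
  have hE := (differentiableAt_emb o₀).hasFDerivAt
  have oL : IsOpen {z : (Jt → ℂ) × (J' → ℂ) | z.1 ∘ i ∈ D.opn} := isOpen_opn.preimage L.continuous
  have iL : ∀ g, ∀ z ∈ O, z.1 ∘ i ∈ D.opn → ρ.act g z.1 ∘ i ∈ D.opn := fun g z k k' =>
    h.eqvy g z (hOU z k) ▸ (h.ok.act_mem_opn g).2 k'
  have p₁ : (ρ.prod ((Act.triv Gp.one (J' → ℂ)).res Prod.snd)).Pr
      (V₀ ∩ {z | z.1 ∘ i ∈ D.opn}) W := hV₀.mono (Z' := univ) ⟨hV₀.lc.inter oL.isLocallyClosed,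
    fun g z k => ⟨hV₀.inv g z k.1, iL g z (sV₀ k.1).1 k.2⟩, fun _ _ _ _ => trivial,
    fun _ _ => trivial⟩ inter_subset_left
  have k₁ := gadm_id hV₀ p₁ inter_subset_left inter_subset_right
  refine tnorm hU h.tadm (h.ok.mem_lev.1 h₀).2
    (fun z k ho hs hu => hW z k (h.ok.mem_lev.2 ⟨ho, hs⟩) hu) (hO.inter oL) ⟨hz, o₀⟩
    (fun z k => hOU z k.1) inter_subset_right (fun g z k => ⟨iO g z k.1, iL g z k.1 k.2⟩)
    (cΓ.mono inter_subset_left) (fun g z k => eΓ g z k.1) zΓ p₁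
    (fun z k => ⟨⟨(sV₀ k.1).1, k.2⟩, (sV₀ k.1).2⟩)
    (fun z k hs => ⟨lV₀ z k.1 (h.ok.mem_lev.2 ⟨k.2, hs⟩), k.2⟩) (fun z k => wΓ z k.1) ?_ hΓ
    (HasFDerivAt.comp (f := L) z₀ hE L.hasFDerivAt :) (fun δ k k' => ?_) hd
  · rw [← gp_comp (gadm_id h.src hV₀ (fun z k => (sV₀ k).2) inter_subset_right) k₁ (χ := id)
      (fun _ => rfl) (k := id) (fun _ _ => rfl), hc]
    exact gp_eul ⟨hV₀, Act.Rep.pr σ, cΓ.mono fun z k => (sV₀ k).1, fun g z k => eΓ g z (sV₀ k).1,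
      fun _ _ => trivial, wΓ⟩ k₁ (fun _ _ => rfl) fun _ _ => rfl
  · obtain ⟨ξ, e₁, e₂⟩ := hk δ k fun j => by
      have := (emb_radial h.ok h₀ hE (L δ) j).symm.trans (k' j)
      exact (mul_eq_zero.1 this).resolve_left two_ne_zero
    refine ⟨ξ, (congrArg (fderiv ℝ D.emb (z₀.1 ∘ i)) (funext fun q => ?_)).trans
      (emb_orbit h.ok hE ξ), fun e => Prod.ext (funext fun q => ?_) e₁⟩
    · exact (e₂ (i q)).trans (by rw [hm]; rfl)
    · simp [e₂, e]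

/-- NORM over a point -/
theorem norm_pt {mt : Jt → A → ℤ} (hρ : ∀ g w q, ρ.act g w q = chr (mt q) g.1 * w q) (i : J → Jt)
    (hm : ∀ q, mt (i q) = D.m q) {V W : Set (Jt → ℂ)} {z₀ : Jt → ℂ}
    (h : D.Adm (Act.pt _) ρ ρ (fun _ => ()) id (fun z => z ∘ i) univ univ V W)
    (h₀ : z₀ ∘ i ∈ D.lev) (hW : ∀ z ∈ W, z ∘ i ∈ D.lev → ∃ g, z = ρ.act g z₀)
    {O : Set (Jt → ℂ)} (hO : IsOpen O) (hz : z₀ ∈ O) (iO : ∀ g, ∀ z ∈ O, ρ.act g z ∈ O)
    {Γ : (Jt → ℂ) → J'' → ℂ} (cΓ : ContinuousOn Γ O)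
    (eΓ : ∀ g, ∀ z ∈ O, Γ (ρ.act g z) = σ.act g (Γ z)) (zΓ : Γ z₀ = 0) {V₀ : Set (Jt → ℂ)}
    (hV₀ : ρ.Pr V₀ W) (sV₀ : V₀ ⊆ O ∩ V) (lV₀ : ∀ z ∈ O, z ∘ i ∈ D.lev → z ∈ V₀)
    (wΓ : ∀ z ∈ V₀, Γ z = 0 → z ∈ W) {c : EH ρ V W} (hc : gp _ id id V₀ W c = eul ρ σ Γ V₀ W)
    {Γ' : (Jt → ℂ) →L[ℝ] J'' → ℂ} (hΓ : HasFDerivAt Γ Γ' z₀)
    (hk : ∀ δ, Γ' δ = 0 → (∀ j, ∑ q, D.m q j * (starRingEnd ℂ (z₀ (i q)) * δ (i q)).re = 0) →
      ∃ ξ : A → ℝ, ∀ q, δ q = Complex.I * (∑ j, mt q j * ξ j : ℝ) * z₀ q)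
    (hd : Fintype.card J'' + Fintype.card A = Fintype.card Jt) :
    D.int (Act.pt _) ρ (fun _ => ()) id (fun z => z ∘ i) univ univ c ≠ 0 := fun e => by
  have pr : ∀ {V W : Set (Jt → ℂ)}, ρ.Pr V W →
      GAdm (ρ.prod ((Act.triv Gp.one (Empty → ℂ)).res Prod.snd)) ρ id Prod.fst (Prod.fst ⁻¹' V)
        (Prod.fst ⁻¹' W) V W := fun k => ⟨k.preimage (φ := id) continuous_fst fun _ _ => rfl, k,
    continuousOn_fst, fun _ _ _ => rfl, fun _ k => k, fun _ _ k => k⟩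
  have t : (Act.triv Gp.one (Empty → ℂ)).Pr univ {0} :=
    Act.pr_univ _ isClosed_singleton fun _ _ k => k
  obtain ⟨C, -, -, hC⟩ := h.bdd
  have h' : D.Adm (Act.triv Gp.one (Empty → ℂ)) (ρ.prod ((Act.triv _ _).res Prod.snd)) ρ Prod.snd
      Prod.fst (fun z => z.1 ∘ i) univ {0} (Prod.fst ⁻¹' V) (Prod.fst ⁻¹' W) :=
    ⟨h.ok, fib_prod (t.res _), t, (pr h.src).src,
      h.conty.comp continuousOn_fst fun _ _ => trivial, fun g z _ => h.eqvy g z.1 trivial,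
      fun z k _ => h.sub z.1 k trivial, fun _ _ _ _ => Subsingleton.elim _ _,
      fun _ => C (), continuousOn_const, fun _ _ _ => rfl, fun z k k' _ => hC z.1 k k' trivial⟩
  have e' := gp_int (φ := fun g => g) h h' rfl rfl (fun _ _ => rfl) (f := fun _ => ())
    ⟨t, Act.pr_pt _, continuousOn_const, fun _ _ _ => rfl, fun _ _ => trivial,
      fun _ _ _ => Subsingleton.elim _ _⟩ (pr h.src) (fun _ _ => rfl) (fun _ _ => rfl)
    (fun _ _ => rfl) (fun _ _ => rfl) c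
  rw [e, map_zero] at e'
  refine norm (z₀ := (z₀, 0)) hρ i hm isOpen_univ h' h₀ (fun z k k' _ => hW z.1 k k')
    (hO.preimage continuous_fst) hz (fun _ _ => trivial) (fun g z k => iO g z.1 k)
    (Γ := fun z => Γ z.1) (cΓ.comp continuousOn_fst fun _ k => k) (fun g z k => eΓ g z.1 k) zΓ
    (pr hV₀).src (fun z k => sV₀ k) (fun z => lV₀ z.1) (fun z => wΓ z.1) ?_
    (hΓ.comp (z₀, 0) hasFDerivAt_fst)
    (fun δ k k' => (hk δ.1 k k').imp fun ξ e => ⟨Subsingleton.elim _ _, e⟩) (by simpa using hd)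
    e'.symm
  refine (gp_comp (pr h.src) (gadm_id (pr h.src).src (pr hV₀).src (fun z k => (sV₀ k).2)
    inter_subset_right) (χ := id) (fun _ => rfl) (k := Prod.fst) (fun _ _ => rfl) c).trans ?_
  rw [← gp_comp (gadm_id h.src hV₀ (fun z k => (sV₀ k).2) inter_subset_right) (pr hV₀) (χ := id)
    (fun _ => rfl) (k := Prod.fst) (fun _ _ => rfl), hc]
  exact gp_eul ⟨hV₀, Act.Rep.pr σ, cΓ.mono fun z k => (sV₀ k).1, fun g z k => eΓ g z (sV₀ k).1,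
    fun _ _ => trivial, wΓ⟩ (pr hV₀) (fun _ _ => rfl) fun _ _ => rfl

end

end TD

end Pool.Agent.Work.MP_849ab0_ag.G
end
end

-- merged part: Pool.Agent.Work.MP_849ab0_ag.G.H3.Ind
section
/-!
Induction over a filtration by open sets, and the Gysin sequence (owner helper37).
-/

noncomputable section

set_option linter.unusedSectionVars false
set_option linter.unusedVariables false

namespace Pool.Agent.Work.MP_849ab0_ag.G

open Set Topology Matrix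

variable {G G' : Gp} [G.Nice] [G'.Nice] {X X' : Type}
  [TopologicalSpace X] [T3Space X] [SecondCountableTopology X]
  [TopologicalSpace X'] [T3Space X'] [SecondCountableTopology X']
  {a : Act G X} [a.Ok] {a' : Act G' X'} [a'.Ok] {φ : G'.H → G.H} [IsHom φ]
  {U S : Set X} {U' : Set X'}

/-- tautological classes -/
abbrev kpt {G : Gp} {X : Type} [TopologicalSpace X] (a : Act G X) (U : Set X) :
    HPt G →ₗ[ℂ] EH a U univ := gp a id (fun _ => ()) U univ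

theorem gp_kpt {f : X' → X} (k : GAdm a' a φ f U' univ U univ) (c : HPt G) :
    gp a' φ f U' univ (kpt a U c) = kpt a' U' (gpt φ c) := by
  rw [gpt_apply, gp_comp (gadm_pt k.tgt id) k (χ := φ) (fun _ => rfl) (k := fun _ => ())
    (fun _ _ => rfl), gp_comp (gadm_pt (Act.pr_pt G') φ) (gadm_pt k.src id) (χ := φ)
    (fun _ => rfl) (k := fun _ => ()) (fun _ _ => rfl)]

theorem gp_id_kpt {f : X → X} {V : Set X} (k : GAdm a a id f V univ U univ) (c : HPt G) :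
    gp a id f V univ (kpt a U c) = kpt a V c := by
  rw [gp_kpt k, gpt_id]

theorem kpt_mul (h : a.Pr U univ) (c d : HPt G) : kpt a U (c * d) = sm c (kpt a U d) := by
  rw [← sm_pt, gp_sm (gadm_pt h id), gpt_id]

theorem ev_of_kpt (hG : ∀ c : HPt G, Ev c) (h : Function.Surjective (kpt a U))
    (y : EH a U univ) : Ev y := by
  obtain ⟨c, rfl⟩ := h y
  exact (hG c).gp _ _

theorem surj_step (h : a.Pr U S) (hO : Function.Surjective (kpt a (U \ S)))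
    (ht : ∀ y : EH a U S, ∃ c, gp a id id U univ y = kpt a U c) :
    Function.Surjective (kpt a U) := by
  intro y
  have k : GAdm a a id id (U \ S) univ U univ :=
    gadm_id h.top (h.top.diff h) sdiff_subset (subset_univ _)
  obtain ⟨c, hc⟩ := hO (gp a id id (U \ S) univ y)
  obtain ⟨z, hz⟩ := (les_mid h.top h (subset_univ _) (y - kpt a U c)).1
    (by rw [map_sub, gp_id_kpt k, hc, sub_self])
  obtain ⟨d, hd⟩ := ht z
  exact ⟨c + d, by rw [map_add, ← hd, hz, add_sub_cancel]⟩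

/-- a finite filtration of `U` by open invariant sets -/
structure Filt (a : Act G X) (U : Set X) (N : ℕ) (O : ℕ → Set X) : Prop where
  zero : O 0 = ∅
  top : O N = U
  mono : ∀ j < N, O j ⊆ O (j + 1)
  pr : ∀ j < N, a.Pr (O (j + 1)) (O (j + 1) \ O j)

theorem Act.pr_empty (a : Act G X) (Z : Set X) : a.Pr ∅ Z :=
  ⟨isClosed_empty.isLocallyClosed, fun _ _ h => h, fun _ _ h => h.elim, fun _ h => h.1.elim⟩

theorem Filt.surj {N : ℕ} {O : ℕ → Set X} (h : Filt a U N O)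
    (ht : ∀ j < N, ∀ y : EH a (O (j + 1)) (O (j + 1) \ O j),
      ∃ c, gp a id id (O (j + 1)) univ y = kpt a (O (j + 1)) c) :
    Function.Surjective (kpt a U) := by
  suffices ∀ j ≤ N, Function.Surjective (kpt a (O j)) from h.top ▸ this N le_rfl
  intro j
  induction j with
  | zero =>
    intro _ y
    exact ⟨0, by
      rw [map_zero]
      exact (eq_zero_of_disjoint (h.zero ▸ a.pr_empty univ) (by rw [h.zero, empty_inter]) y).symm⟩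
  | succ j ih =>
    intro hj
    refine surj_step (h.pr j hj) ?_ (ht j hj)
    rw [sdiff_sdiff_cancel_left (h.mono j hj)]
    exact ih (le_of_lt hj)

/-! ### parity -/

section

variable {A B : Type} [TopologicalSpace A] [TopologicalSpace B] {V W : Set A} {V' W' : Set B}

theorem ev_of_inj {L : H V W →ₗ[ℂ] H V' W'} (hL : Function.Injective L)
    (hd : ∀ p x, IsDeg p x → IsDeg p (L x)) {x : H V W} (hx : Ev (L x)) : Ev x :=
  ev_iff.2 fun m hm => hL (by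
    rw [dpr_eq_prj, prj_map (d := 0) (fun p x k => by rw [add_zero]; exact hd p x k), add_zero,
      map_zero]
    exact hx.prj_odd (by exact_mod_cast hm))

theorem eq_zero_of_odd {L : H V W →ₗ[ℂ] H V' W'} (hd : ∀ p x, IsDeg p x → IsDeg (p + 1) (L x))
    {x : H V W} (hx : Ev x) (hy : Ev (L x)) : L x = 0 :=
  eq_zero_of_prj fun p => by
    rcases Int.even_or_odd (p : ℤ) with k | k
    · have := prj_map hd ((p : ℤ) - 1) x
      rw [sub_add_cancel, hx.prj_odd (k.sub_odd odd_one), map_zero] at this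
      exact this.symm
    · exact hy.prj_odd k

theorem eq_zero_of_div {L : H V W →ₗ[ℂ] H V W} (hd : ∀ p x, IsDeg p x → IsDeg (p + 2) (L x))
    {Q : H V W → Prop} (hQ : ∀ y, Q y → ∃ z, Q z ∧ y = L z) {y : H V W} (hy : Q y) : y = 0 := by
  suffices ∀ p : ℕ, ∀ q ≤ p, ∀ y, Q y → prj {(q : ℤ)} y = 0 from
    eq_zero_of_prj fun p => this p p le_rfl y hy
  intro p
  induction p with
  | zero =>
    intro q hq y hy
    obtain ⟨z, -, rfl⟩ := hQ y hy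
    have := prj_map hd ((q : ℤ) - 2) z
    rw [sub_add_cancel, (isDeg_prj _ z).eq_zero (by omega), map_zero] at this
    exact this.symm
  | succ p ih =>
    intro q hq y hy
    obtain ⟨z, hz, rfl⟩ := hQ y hy
    have := prj_map hd ((q : ℤ) - 2) z
    rw [sub_add_cancel] at this
    rw [← this]
    by_cases h2 : q < 2
    · rw [(isDeg_prj _ z).eq_zero (by omega), map_zero]
    · have e : (q : ℤ) - 2 = ((q - 2 : ℕ) : ℤ) := by omega
      rw [e, ih (q - 2) (by omega) z hz, map_zero]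

end

/-! ### the Gysin sequence -/

section Gysin

variable {χ : G.H → ℂ} {a₀ : Act G' X} [a₀.Ok]

/-- the line with the character `χ` -/
abbrev lin (χ : G.H → ℂ) : Act G (Unit → ℂ) := Act.dg fun _ => χ

/-- the Thom isomorphism of the line -/
def gth (a : Act G X) (χ : G.H → ℂ) (U : Set X) (x : EH a U univ) :
    EH ((lin χ).prod a) (Prod.snd ⁻¹' U) (Prod.snd ⁻¹' univ ∩ Prod.fst ⁻¹' {0}) :=
  ecup _ _ (gp _ id Prod.snd (Prod.snd ⁻¹' U) univ x)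
    (eul _ (lin χ) Prod.fst (Prod.snd ⁻¹' U) (Prod.fst ⁻¹' {0}))

theorem gys_pr (h : a.Pr U univ) : ((lin χ).prod a).Pr (Prod.snd ⁻¹' U) univ :=
  h.preimage (φ := id) continuous_snd fun _ _ => rfl

theorem gys_pr0 (h : a.Pr U univ) : ((lin χ).prod a).Pr (Prod.snd ⁻¹' U) (Prod.fst ⁻¹' {0}) :=
  Act.pr_of _ (gys_pr (χ := χ) h).lc (gys_pr (χ := χ) h).inv (isClosed_singleton.preimage continuous_fst)
    fun g z k => funext fun j => by
      change χ g * z.1 j = 0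
      rw [show z.1 = 0 from k, Pi.zero_apply, mul_zero]

theorem gys_pr1 (h : a.Pr U univ) :
    ((lin χ).prod a).Pr (Prod.snd ⁻¹' U) (Prod.snd ⁻¹' univ ∩ Prod.fst ⁻¹' {0}) :=
  (gys_pr h).inter (gys_pr0 h)

theorem gys_snd {V : Set ((Unit → ℂ) × X)} (h : a.Pr U univ) (hV : ((lin χ).prod a).Pr V univ)
    (e : V ⊆ Prod.snd ⁻¹' U) : GAdm ((lin χ).prod a) a id Prod.snd V univ U univ :=
  ⟨hV, h, continuous_snd.continuousOn, fun _ _ _ => rfl, e, fun _ _ _ => trivial⟩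

theorem isDeg_eu (hχ : IsChar χ) : IsDeg 2 (eu χ) := by
  have : (lin χ).Rep := Act.rep_dg fun _ => hχ
  have := isDeg_eul (b := Act.pt G) (ρ := lin χ) (F := fun _ => 0) (V := univ) (W := univ)
  rwa [Fintype.card_unit, Nat.cast_one, mul_one] at this

theorem eu_one : eu (fun _ : G.H => (1 : ℂ)) = 0 := by
  have h : IsChar fun _ : G.H => (1 : ℂ) := ⟨fun _ _ => (one_mul _).symm, continuous_const,
    fun _ => norm_one⟩
  have := eu_mul h h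
  simp only [one_mul] at this
  exact left_eq_add.1 this

theorem gp_gth (hχ : IsChar χ) (h : a.Pr U univ) (x : EH a U univ) :
    gp _ id id (Prod.snd ⁻¹' U) univ (gth a χ U x) =
      gp ((lin χ).prod a) id Prod.snd (Prod.snd ⁻¹' U) univ (sm (eu χ) x) := by
  have : (lin χ).Rep := Act.rep_dg fun _ => hχ
  have p := gys_pr (χ := χ) h
  have p0 := gys_pr0 (χ := χ) h
  have p1 := gys_pr1 (χ := χ) h
  have k0 : GAdm ((lin χ).prod a) ((lin χ).prod a) id id (Prod.snd ⁻¹' U) univ (Prod.snd ⁻¹' U)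
      (Prod.fst ⁻¹' {0}) := gadm_id p0 p subset_rfl (subset_univ _)
  have e0 : EAdm ((lin χ).prod a) (lin χ) Prod.fst (Prod.snd ⁻¹' U) (Prod.fst ⁻¹' {0}) :=
    ⟨p0, Act.Rep.pr _, continuous_fst.continuousOn, fun _ _ _ => rfl, fun _ _ => trivial,
      fun _ _ k => k⟩
  have e1 : EAdm ((lin χ).prod a) (lin χ) Prod.fst (Prod.snd ⁻¹' U) univ :=
    ⟨p, Act.Rep.pr _, continuous_fst.continuousOn, fun _ _ _ => rfl, fun _ _ => trivial,
      fun _ _ _ => trivial⟩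
  have c : ECup ((lin χ).prod a) (Prod.snd ⁻¹' U) univ (Prod.snd ⁻¹' U) univ (Prod.snd ⁻¹' U)
    univ := ecup_of p p p (subset_univ _)
  rw [gth, gp_id_ecup (ecup_of p p0 p1 fun _ k => ⟨trivial, k.2⟩)
    (gadm_id p1 p subset_rfl (subset_univ _)), ← ecup_gp_right c k0,
    gp_eul e0 k0 (fun _ _ => rfl) (F' := Prod.fst) (fun _ _ => rfl), eul_univ e1, gp_sm (gys_snd h p subset_rfl),
    gpt_id]
  erw [ecup_sm_right c ev_eul, ecup_eone c (gadm_id p p subset_rfl (subset_univ _)), gp_id p]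
  rfl

theorem gth_bij (hχ : IsChar χ) (h : a.Pr U univ) : Function.Bijective (gth a χ U) := by
  have : (lin χ).Rep := Act.rep_dg fun _ => hχ
  exact thom_bij (fib_prod h) h

/-- restriction to the zero section -/
theorem gys_zero (hχ : IsChar χ) (h : a.Pr U univ) (y : EH a U univ) :
    gp a id (fun x => ((0 : Unit → ℂ), x)) U univ
      (gp ((lin χ).prod a) id Prod.snd (Prod.snd ⁻¹' U) univ y) = y := by
  have : (lin χ).Rep := Act.rep_dg fun _ => hχ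
  have p := gys_pr (χ := χ) h
  have k : GAdm a ((lin χ).prod a) id (fun x => ((0 : Unit → ℂ), x)) U univ (Prod.snd ⁻¹' U)
      univ := ⟨h, p, by fun_prop, fun g x _ => Prod.ext (funext fun _ => (mul_zero _).symm) rfl,
    fun _ k => k, fun _ _ _ => trivial⟩
  rw [gp_comp (gys_snd h p subset_rfl) k (χ := id) (fun _ => rfl) (k := id) (fun _ _ => rfl),
    gp_id h]

/-- the unit circle -/
def circ : Set (Unit → ℂ) := {w | ‖w ()‖ = 1}

theorem gys_prS (hχ : IsChar χ) (h : a.Pr U univ) : ((lin χ).prod a).Pr (circ ×ˢ U) univ :=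
  ⟨((isClosed_eq (by fun_prop) continuous_const : IsClosed circ).isLocallyClosed.preimage
      continuous_fst).inter (h.lc.preimage continuous_snd),
    fun g z k => ⟨by
      change ‖χ g * z.1 ()‖ = 1
      rw [norm_mul, hχ.norm, one_mul]
      exact k.1, h.inv g _ k.2⟩, fun _ _ _ _ => trivial, fun _ _ => trivial⟩

/-- restriction from the circle bundle to the kernel of the character -/
theorem gys_ind (hχ : IsChar χ) (hs : ∀ z : ℂ, ‖z‖ = 1 → ∃ g, χ g = z)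
    (hφ : Function.Injective φ) (hk : ∀ g, χ g = 1 ↔ g ∈ range φ) (h : a.Pr U univ)
    (e : ∀ g x, a₀.act g x = a.act (φ g) x) :
    GAdm a₀ ((lin χ).prod a) φ (fun x => (fun _ => 1, x)) U univ (circ ×ˢ U) univ ∧
      Function.Bijective (gp a₀ φ (fun x => (fun _ => 1, x)) U univ :
        EH ((lin χ).prod a) (circ ×ˢ U) univ → _) := by
  have : (lin χ).Rep := Act.rep_dg fun _ => hχ
  have pS := gys_prS hχ h
  have h₀ : a₀.Pr U univ := ⟨h.lc, fun g x k => e g x ▸ h.inv _ x k, fun _ _ _ _ => trivial,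
    fun _ _ => trivial⟩
  have e1 : ∀ g, χ (φ g) = 1 := fun g => (hk _).2 ⟨g, rfl⟩
  have k : GAdm a₀ ((lin χ).prod a) φ (fun x => (fun _ => 1, x)) U univ (circ ×ˢ U) univ :=
    ⟨h₀, pS, by fun_prop, fun g x _ => Prod.ext (funext fun _ => by
      change 1 = χ (φ g) * 1
      rw [e1, one_mul]) (e g x), fun _ k => ⟨norm_one, k⟩, fun _ _ _ => trivial⟩
  refine ⟨k, ?_⟩
  have b1 := gp_ind (b := lin χ) pS hφ (π := Prod.fst) continuous_fst.continuousOn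
    (fun _ _ _ => rfl) (y₀ := fun _ => 1)
    (fun z hz => (hs _ hz.1).imp fun g k => funext fun _ => by
      change χ g * 1 = _
      rw [k, mul_one])
    (fun g => by
      rw [← hk]
      exact ⟨fun k => (mul_one _).symm.trans (congrFun k ()), fun k => funext fun _ => by
        change χ g * 1 = 1
        rw [k, mul_one]⟩)
  set V : Set ((Unit → ℂ) × X) := circ ×ˢ U ∩ Prod.fst ⁻¹' {fun _ => 1} with hV
  have pV : (((lin χ).prod a).res φ).Pr V univ :=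
    ⟨pS.lc.inter (isClosed_singleton.preimage continuous_fst).isLocallyClosed,
      fun g z k => ⟨pS.inv _ z k.1, funext fun j => by
        change χ (φ g) * z.1 j = 1
        rw [e1, one_mul, show z.1 = fun _ => 1 from k.2]⟩, fun _ _ _ _ => trivial,
      fun _ _ => trivial⟩
  have k1 : GAdm a₀ (((lin χ).prod a).res φ) id (fun x => (fun _ => 1, x)) U univ V univ :=
    ⟨h₀, pV, k.cont, k.eqv, fun _ k => ⟨⟨norm_one, k⟩, rfl⟩, fun _ _ _ => trivial⟩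
  have k2 : GAdm (((lin χ).prod a).res φ) a₀ id Prod.snd V univ U univ :=
    ⟨pV, h₀, continuous_snd.continuousOn, fun g z _ => (e g z.2).symm, fun _ k => k.1.2,
      fun _ _ _ => trivial⟩
  have k3 : GAdm (((lin χ).prod a).res φ) ((lin χ).prod a) φ id V univ (circ ×ˢ U) univ :=
    ⟨pV, pS, continuousOn_id, fun _ _ _ => rfl, fun _ k => k.1, fun _ _ _ => trivial⟩
  have b2 := gp_bij_homeo k1 k2 (fun _ => rfl) (fun _ => rfl)
    (fun z k => Prod.ext (Eq.symm k.2) rfl) (fun _ _ => rfl)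
  convert b2.comp b1 using 1
  exact funext fun c => (gp_comp k3 k1 (fun _ => rfl) (fun _ _ => rfl) c).symm

theorem gys_diff : (Prod.snd ⁻¹' U) \ (Prod.snd ⁻¹' univ ∩ Prod.fst ⁻¹' {0}) =
    {z : (Unit → ℂ) × X | z.2 ∈ U ∧ z.1 () ≠ 0} :=
  Set.ext fun z => and_congr_right fun _ => not_congr
    ⟨fun k => congrFun k.2 (), fun k => ⟨trivial, funext fun _ => k⟩⟩

/-- restriction from the punctured line bundle to the circle bundle -/
theorem gys_retr (hχ : IsChar χ) (h : a.Pr U univ) :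
    GAdm ((lin χ).prod a) ((lin χ).prod a) id id (circ ×ˢ U) univ
      ((Prod.snd ⁻¹' U) \ (Prod.snd ⁻¹' univ ∩ Prod.fst ⁻¹' {0})) univ ∧
    Function.Bijective (gp ((lin χ).prod a) id id (circ ×ˢ U) univ : EH ((lin χ).prod a)
      ((Prod.snd ⁻¹' U) \ (Prod.snd ⁻¹' univ ∩ Prod.fst ⁻¹' {0})) univ → _) := by
  have : (lin χ).Rep := Act.rep_dg fun _ => hχ
  have pS := gys_prS hχ h
  have pD := (gys_pr (χ := χ) h).diff (gys_pr1 h)
  rw [gys_diff] at pD ⊢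
  have sub : circ ×ˢ U ⊆ {z : (Unit → ℂ) × X | z.2 ∈ U ∧ z.1 () ≠ 0} := fun z k =>
    ⟨k.2, fun m => by have := k.1; rw [circ, mem_ofPred_eq, m, norm_zero] at this; simp at this⟩
  refine ⟨gadm_id pD pS sub (subset_univ _), ?_⟩
  have cF : ContinuousOn (fun z : ℝ × (Unit → ℂ) × X =>
      ((((1 - z.1 + z.1 * ‖z.2.1 ()‖⁻¹ : ℝ) : ℂ) • z.2.1, z.2.2) : (Unit → ℂ) × X))
      (univ ×ˢ {z : (Unit → ℂ) × X | z.2 ∈ U ∧ z.1 () ≠ 0}) := by
    refine ContinuousOn.prodMk (ContinuousOn.smul (Complex.continuous_ofReal.comp_continuousOn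
      (ContinuousOn.add (by fun_prop) (ContinuousOn.mul (by fun_prop)
        (ContinuousOn.inv₀ (by fun_prop) fun z k => norm_ne_zero_iff.2 k.2.2)))) (by fun_prop))
      (by fun_prop)
  refine gp_bij_retract pD pS sub (F := fun s z =>
    (((1 - s + s * ‖z.1 ()‖⁻¹ : ℝ) : ℂ) • z.1, z.2)) (cF.mono (prod_mono (subset_univ _) subset_rfl))
    (fun s hs => ⟨pD, pD, cF.comp (f := fun z => (s, z)) (by fun_prop) fun _ k => ⟨trivial, k⟩,
      fun g z _ => Prod.ext (funext fun j => ?_) rfl, fun z k => ⟨k.1, ?_⟩, fun _ _ _ => trivial⟩)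
    (fun s _ z k => ⟨?_, k.2⟩) (fun z _ => by simp) fun z k => ⟨?_, k.1⟩
  · change ((1 - s + s * ‖χ g * z.1 ()‖⁻¹ : ℝ) : ℂ) * (χ g * z.1 j) =
      χ g * (((1 - s + s * ‖z.1 ()‖⁻¹ : ℝ) : ℂ) * z.1 j)
    rw [norm_mul, hχ.norm, one_mul, mul_left_comm]
  · refine mul_ne_zero (Complex.ofReal_ne_zero.2 (ne_of_gt ?_)) k.2
    have : 0 < ‖z.1 ()‖⁻¹ := inv_pos.2 (norm_pos_iff.2 k.2)
    rcases hs.2.eq_or_lt with e | e
    · simpa [e] using k.2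
    · nlinarith [mul_nonneg hs.1 this.le]
  · change ‖((1 - s + s * ‖z.1 ()‖⁻¹ : ℝ) : ℂ) * z.1 ()‖ = 1
    rw [show ‖z.1 ()‖ = 1 from k.1]
    simpa using show ‖z.1 ()‖ = 1 from k.1
  · change ‖((1 - 1 + 1 * ‖z.1 ()‖⁻¹ : ℝ) : ℂ) * z.1 ()‖ = 1
    simp [k.2]

/-- the composite `EH G (ℂ^* × U) → EH G' U` is injective -/
theorem gys_comp (hχ : IsChar χ) (hs : ∀ z : ℂ, ‖z‖ = 1 → ∃ g, χ g = z)
    (hφ : Function.Injective φ) (hk : ∀ g, χ g = 1 ↔ g ∈ range φ) (h : a.Pr U univ)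
    (e : ∀ g x, a₀.act g x = a.act (φ g) x) :
    GAdm a₀ ((lin χ).prod a) φ (fun x => (fun _ => 1, x)) U univ
      ((Prod.snd ⁻¹' U) \ (Prod.snd ⁻¹' univ ∩ Prod.fst ⁻¹' {0})) univ ∧
      Function.Injective (gp a₀ φ (fun x => (fun _ => 1, x)) U univ : EH ((lin χ).prod a)
        ((Prod.snd ⁻¹' U) \ (Prod.snd ⁻¹' univ ∩ Prod.fst ⁻¹' {0})) univ → _) := by
  have : (lin χ).Rep := Act.rep_dg fun _ => hχ
  obtain ⟨k1, b1⟩ := gys_ind hχ hs hφ hk h e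
  obtain ⟨k2, b2⟩ := gys_retr hχ h
  refine ⟨k2.comp k1, ?_⟩
  convert b1.1.comp b2.1 using 1
  exact funext fun c => (gp_comp k2 k1 (fun _ => rfl) (fun _ _ => rfl) c).symm

/-- the kernel of the restriction to the kernel of `χ` consists of the multiples of `e (χ)` -/
theorem gysin_ker (hχ : IsChar χ) (hs : ∀ z : ℂ, ‖z‖ = 1 → ∃ g, χ g = z)
    (hφ : Function.Injective φ) (hk : ∀ g, χ g = 1 ↔ g ∈ range φ) (h : a.Pr U univ)
    (e : ∀ g x, a₀.act g x = a.act (φ g) x) {y : EH a U univ} (hy : gp a₀ φ id U univ y = 0) :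
    ∃ x, y = sm (eu χ) x := by
  have : (lin χ).Rep := Act.rep_dg fun _ => hχ
  obtain ⟨k, b⟩ := gys_comp hχ hs hφ hk h e
  have p := gys_pr (χ := χ) h
  obtain ⟨t, ht⟩ := (les_mid p (gys_pr1 h) (subset_univ _)
    (gp ((lin χ).prod a) id Prod.snd (Prod.snd ⁻¹' U) univ y)).1 (b (by
      rw [gp_comp (gys_snd h p subset_rfl) (gadm_id p k.tgt sdiff_subset (subset_univ _))
        (χ := id) (fun _ => rfl) (k := Prod.snd) (fun _ _ => rfl),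
        gp_comp (gys_snd h k.tgt sdiff_subset) k (χ := φ) (fun _ => rfl) (k := id)
        (fun _ _ => rfl), hy, map_zero]))
  obtain ⟨x, rfl⟩ := (gth_bij hχ h).2 t
  exact ⟨x, by rw [← gys_zero hχ h y, ← ht, gp_gth hχ h, gys_zero hχ h]⟩

/-- if the cohomology for the kernel of `χ` is even then `e (χ)` is not a zero divisor -/
theorem gysin_inj (hχ : IsChar χ) (hs : ∀ z : ℂ, ‖z‖ = 1 → ∃ g, χ g = z)
    (hφ : Function.Injective φ) (hk : ∀ g, χ g = 1 ↔ g ∈ range φ) (h : a.Pr U univ)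
    (e : ∀ g x, a₀.act g x = a.act (φ g) x) (h₀ : ∀ w : EH a₀ U univ, Ev w) {x : EH a U univ}
    (hx : Ev x) (hz : sm (eu χ) x = 0) : x = 0 := by
  have : (lin χ).Rep := Act.rep_dg fun _ => hχ
  obtain ⟨k, b⟩ := gys_comp hχ hs hφ hk h e
  have p := gys_pr (χ := χ) h
  obtain ⟨w, hw⟩ := (les_left p (gys_pr1 h) (subset_univ _) (gth a χ U x)).1
    (by rw [gp_gth hχ h, hz, map_zero])
  have ew : Ev w := ev_of_inj b (fun _ _ k => k.gp _ _) (h₀ _)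
  have et : Ev (gth a χ U x) := (hx.gp _ _).ecup ev_eul
  have := eq_zero_of_odd (fun _ _ k => IsDeg.ebd k) ew (hw ▸ et)
  refine (gth_bij hχ h).1 ?_
  rw [← hw, this, gth, map_zero, map_zero, LinearMap.zero_apply]

end Gysin

end Pool.Agent.Work.MP_849ab0_ag.G
end
end

-- merged part: Pool.Agent.Work.MP_849ab0_ag.G.H2.DM1
section
/-!
Families of injective affine maps.

Hints.  `AffOn.exists`: with the section `s` of `Fib.inv` put `r x = Φ (s (x, 0))`,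
`M x i j = (Φ (s (x, Pi.single j 1)) - r x) i`; equivariance from `s (g x, g v) = g s (x, v)`
(`(p, F)` is injective over `U`) and linearity of `ρ`, `ρ'`.  `aff_bound`: `M x` injective gives
`c ‖v‖ ≤ ‖M x v‖` with `c > 0` (finite dimension, `LinearMap.exists_antilipschitzWith` or a left
inverse), and `‖(M x' - M x) v‖ ≤ (c / 2) ‖v‖` for `x'` near `x` in `S`.  `dm_adm`: `exists_bound`
(ApiX) for `N = nsq ∘ F`; near a point of `U \ Z₁` the support is empty (`h₁.cl`), near a point of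
`U ∩ Z₁` use `aff_bound` with `s = 1`.
-/

noncomputable section

set_option linter.unusedSectionVars false
set_option linter.unusedVariables false

namespace Pool.Agent.Work.MP_849ab0_ag.G

open Set Topology Matrix

variable {G : Gp} [G.Nice] {X Y : Type}
  [TopologicalSpace X] [T3Space X] [SecondCountableTopology X]
  [TopologicalSpace Y] [T3Space Y] [SecondCountableTopology Y]
  {a : Act G X} [a.Ok] {b : Act G Y} [b.Ok] {J J' : Type} [Fintype J] [Fintype J']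
  {ρ : Act G (J → ℂ)} [ρ.Rep] {ρ' : Act G (J' → ℂ)} [ρ'.Rep]
  {U S Z Z₁ Z₂ : Set X} {V₁ W₁ W₂ : Set Y} {p : Y → X} {F : Y → J → ℂ} {Φ : Y → J' → ℂ}

/-- on the fibres over `S` the map `Φ` is affine and injective -/
def AffOn (p : Y → X) (F : Y → J → ℂ) (Φ : Y → J' → ℂ) (S : Set X) : Prop :=
  ∀ x ∈ S, ∃ (M : (J → ℂ) →ₗ[ℂ] J' → ℂ) (r : J' → ℂ), Function.Injective M ∧
    ∀ z, p z = x → Φ z = M (F z) + r

/-- a continuous equivariant family of injective affine maps -/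
structure AffFam (a : Act G X) (ρ : Act G (J → ℂ)) (ρ' : Act G (J' → ℂ)) (S : Set X)
    (M : X → Matrix J' J ℂ) (r : X → J' → ℂ) : Prop where
  contM : ContinuousOn M S
  contr : ContinuousOn r S
  eqvM : ∀ g, ∀ x ∈ S, ∀ v, M (a.act g x) *ᵥ ρ.act g v = ρ'.act g (M x *ᵥ v)
  eqvr : ∀ g, ∀ x ∈ S, r (a.act g x) = ρ'.act g (r x)
  inj : ∀ x ∈ S, ∀ v, M x *ᵥ v = 0 → v = 0

theorem AffOn.exists (hA : AffOn p F Φ S) (hf : Fib a b ρ p F U) (hS : a.Pr S univ) (e : S ⊆ U)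
    (hΦ : EAdm b ρ' Φ V₁ W₁) (hV : p ⁻¹' S ⊆ V₁) :
    ∃ M r, AffFam a ρ ρ' S M r ∧ ∀ z, p z ∈ S → Φ z = M (p z) *ᵥ F z + r (p z) := by
  classical
  obtain ⟨s, hs, hs1, hs2⟩ := hf.inv
  have hU : ∀ x ∈ S, ∀ v, p (s (x, v)) ∈ S := fun x hx v => by
    rw [(hs1 x (e hx) v).1]
    exact hx
  have hc : ∀ v, ContinuousOn (fun x => Φ (s (x, v))) S := fun v =>
    hΦ.cont.comp (hs.comp (f := fun x => (x, v)) (by fun_prop) fun x hx => ⟨e hx, mem_univ _⟩)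
      fun x hx => hV (hU x hx v)
  obtain ⟨r, hr⟩ : ∃ r : X → J' → ℂ, r = fun x => Φ (s (x, 0)) := ⟨_, rfl⟩
  obtain ⟨M, hM⟩ : ∃ M : X → Matrix J' J ℂ,
      M = fun x => Matrix.of fun i j => (Φ (s (x, Pi.single j 1)) - Φ (s (x, 0))) i := ⟨_, rfl⟩
  have key : ∀ x ∈ S, ∀ v, Φ (s (x, v)) = M x *ᵥ v + r x ∧ (M x *ᵥ v = 0 → v = 0) := by
    intro x hx v
    obtain ⟨L, c, hL, hLc⟩ := hA x hx
    have h1 : ∀ w, Φ (s (x, w)) = L w + c := fun w => by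
      rw [hLc _ (hs1 x (e hx) w).1, (hs1 x (e hx) w).2]
    have h2 : r x = c := by simp [hr, h1]
    have h3 : M x *ᵥ v = L v := by
      have hv : v = ∑ j, v j • (Pi.single j 1 : J → ℂ) := by
        ext k
        simp [Finset.sum_apply, Pi.single_apply]
      conv_rhs => rw [hv, map_sum]
      ext i
      simp [hM, Matrix.mulVec, dotProduct, h1, mul_comm]
    rw [h3, h1, h2]
    exact ⟨rfl, fun h => hL (by rw [h, map_zero])⟩
  have hsg : ∀ g, ∀ x ∈ S, ∀ v, s (a.act g x, ρ.act g v) = b.act g (s (x, v)) := by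
    intro g x hx v
    have h1 := hs1 x (e hx) v
    have h2 : p (b.act g (s (x, v))) = a.act g x := by rw [hf.eqvp, h1.1]
    have h3 : F (b.act g (s (x, v))) = ρ.act g v := by
      rw [hf.eqvF g _ (e (hU x hx v)), h1.2]
    have := hs2 (b.act g (s (x, v))) (by
      rw [mem_preimage, h2]
      exact e (hS.inv g x hx))
    rwa [h2, h3] at this
  have hg : ∀ g, ∀ x ∈ S, ∀ v, Φ (s (a.act g x, ρ.act g v)) = ρ'.act g (Φ (s (x, v))) := by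
    intro g x hx v
    rw [hsg g x hx v]
    exact hΦ.eqv g _ (hV (hU x hx v))
  have hr0 : ∀ g, ∀ x ∈ S, r (a.act g x) = ρ'.act g (r x) := by
    intro g x hx
    have := hg g x hx 0
    rw [(Act.Rep.lin (ρ := ρ) g).map_zero] at this
    rw [hr]
    exact this
  refine ⟨M, r, ⟨?_, hr ▸ hc 0, fun g x hx v => ?_, hr0, fun x hx v => (key x hx v).2⟩,
    fun z hz => ?_⟩
  · rw [hM]
    refine continuousOn_pi.2 fun i => continuousOn_pi.2 fun j => ?_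
    exact continuousOn_pi.1 ((hc _).sub (hc 0)) i
  · have := hg g x hx v
    rw [(key _ (hS.inv g x hx) _).1, (key x hx v).1, (Act.Rep.lin (ρ := ρ') g).map_add,
      hr0 g x hx] at this
    exact add_right_cancel this
  · rw [← (key _ hz _).1, hs2 z (e hz)]

theorem dm1_mulVec (A : Matrix J' J ℂ) (v : J → ℂ) :
    ‖A *ᵥ v‖ ≤ (∑ i, ∑ j, ‖A i j‖) * ‖v‖ := by
  refine (pi_norm_le_iff_of_nonneg (by positivity)).2 fun i => ?_
  refine (norm_sum_le _ _).trans ?_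
  refine le_trans ?_ (mul_le_mul_of_nonneg_right (Finset.single_le_sum
    (f := fun i => ∑ j, ‖A i j‖) (fun _ _ => by positivity) (Finset.mem_univ i)) (norm_nonneg _))
  rw [Finset.sum_mul]
  refine Finset.sum_le_sum fun j _ => ?_
  rw [norm_mul]
  exact mul_le_mul_of_nonneg_left (norm_le_pi_norm v j) (norm_nonneg _)

theorem dm1_nsq (v : J → ℂ) : nsq v ≤ Fintype.card J * ‖v‖ ^ 2 := by
  have := Finset.sum_le_card_nsmul Finset.univ (fun j => ‖v j‖ ^ 2) (‖v‖ ^ 2) fun j _ => by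
    gcongr
    exact norm_le_pi_norm v j
  rwa [nsmul_eq_mul] at this

theorem aff_bound {M : X → Matrix J' J ℂ} {r : X → J' → ℂ} (h : AffFam a ρ ρ' S M r) {x : X}
    (hx : x ∈ S) : ∃ C : ℝ, ∀ᶠ x' in 𝓝[S] x, ∀ v, ∀ s ∈ Icc (0 : ℝ) 1,
      M x' *ᵥ v + (s : ℂ) • r x' = 0 → nsq v ≤ C := by
  classical
  obtain ⟨K, -, hK⟩ := (Matrix.mulVecLin (M x)).exists_antilipschitzWith
    (LinearMap.ker_eq_bot'.2 fun v hv => h.inj x hx v hv)
  have hK' : ∀ v, ‖v‖ ≤ K * ‖M x *ᵥ v‖ := fun v => by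
    simpa using hK.le_mul_norm (map_zero _) v
  have c1 : ContinuousWithinAt (fun x' => (K : ℝ) * ∑ i, ∑ j, ‖M x' i j - M x i j‖) S x := by
    refine continuousWithinAt_const.mul
      (tendsto_finsetSum _ fun i _ => tendsto_finsetSum _ fun j _ => ?_)
    exact ((continuousWithinAt_pi.1 (continuousWithinAt_pi.1 (h.contM x hx) i) j).sub
      continuousWithinAt_const).norm
  have e1 := c1.eventually_lt_const (u := 1 / 2) (by simp)
  have e2 := (h.contr x hx).norm.eventually_lt_const (lt_add_one _)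
  refine ⟨Fintype.card J * (2 * K * (‖r x‖ + 1)) ^ 2, ?_⟩
  filter_upwards [e1, e2] with x' h1 h2 v s hs hv
  have h3 : ‖M x' *ᵥ v‖ ≤ ‖r x‖ + 1 := by
    rw [eq_neg_of_add_eq_zero_left hv, norm_neg, norm_smul, Complex.norm_real,
      Real.norm_of_nonneg hs.1]
    exact (mul_le_of_le_one_left (norm_nonneg _) hs.2).trans h2.le
  have h4 := dm1_mulVec (M x' - M x) v
  have h5 : ‖M x *ᵥ v‖ ≤ ‖M x' *ᵥ v‖ + ‖(M x' - M x) *ᵥ v‖ := by
    rw [Matrix.sub_mulVec]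
    exact norm_le_norm_add_norm_sub _ _
  have h6 := hK' v
  have h7 : (0 : ℝ) ≤ K := K.2
  have h8 := norm_nonneg v
  simp only [Matrix.sub_apply] at h4
  have h9 : ‖v‖ ≤ 2 * K * (‖r x‖ + 1) := by
    have := mul_le_mul_of_nonneg_left (h5.trans (add_le_add h3 h4)) h7
    nlinarith [mul_le_mul_of_nonneg_right h1.le h8]
  exact (dm1_nsq v).trans (by gcongr)

/-- a continuous invariant bound for the zeros of the homotopy -/
theorem AffFam.bound {M : X → Matrix J' J ℂ} {r : X → J' → ℂ} (h : AffFam a ρ ρ' S M r)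
    (hS : a.Pr S univ) : ∃ C : X → ℝ, ContinuousOn C S ∧ (∀ g, ∀ x ∈ S, C (a.act g x) = C x) ∧
      ∀ x ∈ S, ∀ v, ∀ s ∈ Icc (0 : ℝ) 1, M x *ᵥ v + (s : ℂ) • r x = 0 → nsq v ≤ C x := by
  obtain ⟨R, h1, h2, h3⟩ := exists_bound (b := ρ.prod a) hS (p := Prod.snd) (fun _ _ => rfl)
    (W := {y | ∃ s ∈ Icc (0 : ℝ) 1, M y.2 *ᵥ y.1 + (s : ℂ) • r y.2 = 0}) (N := fun y => nsq y.1)
    (by
      rintro g y ⟨s, hs, hy⟩ hS'
      refine ⟨s, hs, ?_⟩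
      change M (a.act g y.2) *ᵥ ρ.act g y.1 + (s : ℂ) • r (a.act g y.2) = 0
      rw [h.eqvM g _ hS', h.eqvr g _ hS', ← (Act.Rep.lin (ρ := ρ') g).map_smul,
        ← (Act.Rep.lin (ρ := ρ') g).map_add, hy, (Act.Rep.lin (ρ := ρ') g).map_zero])
    (fun g y _ _ => Act.Rep.nsq (ρ := ρ) g y.1)
    (fun x hx => (aff_bound h hx).imp fun C hC => hC.mono fun x' hx' y hy e => by
      obtain ⟨s, hs, hy⟩ := hy
      exact hx' y.1 s hs (e ▸ hy))
  exact ⟨R, h1, h2, fun x hx v s hs hv => h3 (v, x) ⟨s, hs, hv⟩ hx⟩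

theorem pr_supp (h₁ : a.Pr U Z₁) : a.Pr (U ∩ Z₁) univ := by
  refine ⟨?_, fun g x hx => ⟨h₁.inv g x hx.1, h₁.invz g x hx.1 hx.2⟩, fun _ _ _ _ => mem_univ _,
    subset_univ _⟩
  have : U ∩ Z₁ = U ∩ closure (U ∩ Z₁) :=
    Subset.antisymm (fun x hx => ⟨hx.1, subset_closure hx⟩) fun x hx => ⟨hx.1, h₁.cl hx⟩
  rw [this]
  exact h₁.lc.inter isClosed_closure.isLocallyClosed

/-- the zeros of `Φ` over the support are bounded -/
theorem dm_adm (hf : Fib a b ρ p F U) (h₁ : a.Pr U Z₁) (h₂ : a.Pr U Z₂)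
    (hΦ : EAdm b ρ' Φ V₁ W₁) (hV : p ⁻¹' (U ∩ Z₁) ⊆ V₁) (hA : AffOn p F Φ (U ∩ Z₁))
    (hZ : ∀ z, p z ∈ U → p z ∈ Z₁ → Φ z = 0 → p z ∈ Z₂) :
    IAdm a b ρ p F U Z₂ (p ⁻¹' U) (p ⁻¹' Z₁ ∩ Φ ⁻¹' {0}) := by
  have hP : b.Pr (p ⁻¹' U) (p ⁻¹' Z₁) := h₁.preimage (φ := id) hf.contp hf.eqvp
  have hz : ∀ g, ∀ y ∈ p ⁻¹' U, y ∈ p ⁻¹' Z₁ ∩ Φ ⁻¹' {0} →
      b.act g y ∈ p ⁻¹' Z₁ ∩ Φ ⁻¹' {0} := by
    intro g y hy hy'
    refine ⟨hP.invz g y hy hy'.1, ?_⟩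
    have h0 : Φ y = 0 := hy'.2
    change Φ _ = 0
    rw [hΦ.eqv g y (hV ⟨hy, hy'.1⟩), h0]
    exact (Act.Rep.lin (ρ := ρ') g).map_zero
  refine ⟨hf, h₂, ⟨hP.lc, hP.inv, hz, fun y hy => ?_⟩, Subset.rfl,
    fun y hy hU => hZ y hU hy.1 hy.2, ?_⟩
  · have h1 : y ∈ p ⁻¹' Z₁ :=
      hP.cl ⟨hy.1, closure_mono (inter_subset_inter_right _ inter_subset_left) hy.2⟩
    refine ⟨h1, ?_⟩
    have h2 := ((hΦ.cont y (hV ⟨hy.1, h1⟩)).mono
      (fun z (hz : z ∈ p ⁻¹' U ∩ (p ⁻¹' Z₁ ∩ Φ ⁻¹' {0})) => hV ⟨hz.1, hz.2.1⟩)).mem_closure hy.2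
        (t := {0}) fun z hz => hz.2.2
    rwa [closure_singleton] at h2
  · refine exists_bound h₁ hf.eqvp (fun g y hy hU => hz g y hU hy) (N := fun y => nsq (F y))
      (fun g y hy hU => by rw [hf.eqvF g y hU, Act.Rep.nsq]) fun x hx => ?_
    by_cases hx' : x ∈ Z₁
    · obtain ⟨M, r, hM, hMr⟩ := hA.exists hf (pr_supp h₁) inter_subset_left hΦ hV
      obtain ⟨C, hC⟩ := aff_bound hM ⟨hx, hx'⟩
      refine ⟨C, ?_⟩
      rw [eventually_nhdsWithin_iff] at hC ⊢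
      filter_upwards [hC] with x' h1 h2 y hy e
      subst e
      refine h1 ⟨h2, hy.1⟩ (F y) 1 ⟨zero_le_one, le_rfl⟩ ?_
      rw [Complex.ofReal_one, one_smul, ← hMr y ⟨h2, hy.1⟩]
      exact hy.2
    · refine ⟨0, ?_⟩
      rw [eventually_nhdsWithin_iff]
      have : (closure (U ∩ Z₁))ᶜ ∈ 𝓝 x :=
        isClosed_closure.isOpen_compl.mem_nhds fun h => hx' (h₁.cl ⟨hx, h⟩)
      filter_upwards [this] with x' h1 h2 y hy e
      subst e
      exact (h1 (subset_closure ⟨h2, hy.1⟩)).elim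

end Pool.Agent.Work.MP_849ab0_ag.G
end
end

-- merged part: Pool.Agent.Work.MP_849ab0_ag.G.H2.Vq
section
/-!
The virtual Euler class `vq`.

Hints.  Write `u = polx Unit G (X ())`, `ι = gpt Prod.snd : HPt G → HPt (TG Unit G)`.  By `adj_span`,
`adj_indep` (ApiG, for the point; `sm_pt`, `gpt_apply`) every class is uniquely `∑ u ^ i * ι (z i)`.
`u` is even, hence central (`ecup_comm`, `mul_def`).  `monic_div` and `monic_cancel` are the division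
by the monic `euc ρ.scal = u ^ l + ∑ u ^ i * ι (c i)` (`euc_scal`; the `c i` are even, hence
central): induction on the top exponent.  `monic_cancel` is stated for a space with a trivial
action of the circle: write `y = ∑ u ^ i • x i` by `adj_span`, look at the top exponent `m` with
`x m ≠ 0`; the coefficient of `u ^ (l + m)` on the left is `x m`, on the right `0` (`adj_indep`).
`IsVq.unique`: `monic_cancel` for the point applied to `Q - Q'`.  `IsVq.gpt`: apply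
`gpt (mapT Unit φ)` (`euc_res`, `euc_congr`, `gpt_comp`).  `isDeg_vq`: `euc` is homogeneous
(`isDeg_eul`); take homogeneous components (`sum_dpr`, `IsDeg.dpr_eq`, `IsDeg.ecup`) of the defining
equation: `Q' = dpr (2 (|J'| - |J|)) Q` (or `0` if `|J'| < |J|`) satisfies an equation of the same
shape, so `Q = Q'`.
-/

noncomputable section

set_option linter.unusedSectionVars false
set_option linter.unusedVariables false

namespace Pool.Agent.Work.MP_849ab0_ag.G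

open Set Topology Matrix

section

variable {M M' : Type} [AddCommGroup M] [Module ℂ M] [AddCommGroup M'] [Module ℂ M']
  {T : ℕ → M →ₗ[ℂ] M'} {E : M' →ₗ[ℂ] M'} {l : ℕ}

/-- sums with exponents below `n` -/
def vq_S (T : ℕ → M →ₗ[ℂ] M') (n : ℕ) : Submodule ℂ M' :=
  LinearMap.range (∑ i ∈ Finset.range n, T i ∘ₗ LinearMap.proj i : (ℕ → M) →ₗ[ℂ] M')

theorem vq_mem {n : ℕ} {y : M'} :
    y ∈ vq_S T n ↔ ∃ x : ℕ → M, y = ∑ i ∈ Finset.range n, T i (x i) := by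
  simp only [vq_S, LinearMap.mem_range, LinearMap.sum_apply, LinearMap.comp_apply,
    LinearMap.proj_apply, eq_comm]

theorem vq_lt {i n : ℕ} (h : i < n) (x : M) : T i x ∈ vq_S T n := by
  refine vq_mem.2 ⟨Pi.single i x, ?_⟩
  rw [Finset.sum_eq_single_of_mem i (Finset.mem_range.2 h) fun j _ e => by
    rw [Pi.single_eq_of_ne e, map_zero], Pi.single_eq_same]

theorem vq_E (hE : ∀ m x, E (T m x) - T (l + m) x ∈ vq_S T (l + m)) {n : ℕ} {y : M'}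
    (hy : y ∈ vq_S T n) : E y ∈ vq_S T (l + n) := by
  obtain ⟨x, rfl⟩ := vq_mem.1 hy
  rw [map_sum]
  refine Submodule.sum_mem _ fun i hi => ?_
  have k := Nat.add_lt_add_left (Finset.mem_range.1 hi) l
  obtain ⟨z, e⟩ := vq_mem.1 (hE i (x i))
  rw [sub_eq_iff_eq_add.1 e]
  exact add_mem (Submodule.sum_mem _ fun j hj => vq_lt ((Finset.mem_range.1 hj).trans k) _)
    (vq_lt k _)

theorem vq_div (hE : ∀ m x, E (T m x) - T (l + m) x ∈ vq_S T (l + m)) (n : ℕ) :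
    ∀ y ∈ vq_S T n, ∃ Q, y - E Q ∈ vq_S T l := by
  induction n with
  | zero => exact fun y hy => ⟨0, by simp [(vq_mem.1 hy).choose_spec]⟩
  | succ n ih =>
    intro y hy
    obtain ⟨x, rfl⟩ := vq_mem.1 hy
    rw [Finset.sum_range_succ]
    rcases lt_or_ge n l with h | h
    · exact ⟨0, by
        rw [map_zero, sub_zero]
        exact add_mem (Submodule.sum_mem _ fun j hj => vq_lt ((Finset.mem_range.1 hj).trans h) _)
          (vq_lt h _)⟩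
    · obtain ⟨m, rfl⟩ := Nat.exists_eq_add_of_le h
      obtain ⟨Q, hQ⟩ := ih _ (sub_mem (vq_mem.2 ⟨x, rfl⟩) (hE m (x (l + m))))
      refine ⟨Q + T m (x (l + m)), (congrArg (· ∈ _) ?_).mp hQ⟩
      rw [map_add]
      abel

theorem vq_cancel (hE : ∀ m x, E (T m x) - T (l + m) x ∈ vq_S T (l + m))
    (hI : ∀ n x, T n x ∈ vq_S T n → x = 0) (n : ℕ) : ∀ y ∈ vq_S T n, E y ∈ vq_S T l → y = 0 := by
  induction n with
  | zero => exact fun y hy _ => (vq_mem.1 hy).choose_spec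
  | succ n ih =>
    intro y hy h
    obtain ⟨x, rfl⟩ := vq_mem.1 hy
    have k : ∑ i ∈ Finset.range n, T i (x i) ∈ vq_S T n := vq_mem.2 ⟨x, rfl⟩
    obtain ⟨z, e⟩ := vq_mem.1 h
    rw [Finset.sum_range_succ] at h e ⊢
    have k1 : E (T n (x n)) ∈ vq_S T (l + n) := by
      rw [map_add] at e
      rw [eq_sub_of_add_eq' e]
      exact sub_mem (Submodule.sum_mem _ fun j hj =>
        vq_lt ((Finset.mem_range.1 hj).trans_le (Nat.le_add_right _ _)) _) (vq_E hE k)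
    rw [hI _ _ ((Submodule.sub_mem_iff_right _ k1).1 (hE n (x n))), map_zero, add_zero] at h ⊢
    exact ih _ k h

end

variable {G G' : Gp} [G.Nice] [G'.Nice] {J J' : Type} [Fintype J] [Fintype J']
  {ρ : Act G (J → ℂ)} [ρ.Rep] {ρ' : Act G (J' → ℂ)} [ρ'.Rep]

section

variable {X : Type} [TopologicalSpace X] [T3Space X] [SecondCountableTopology X]
  {a : Act G X} [a.Ok] {c : Act (TG Unit G) X} [c.Ok] {U Z : Set X}

/-- `x ↦ u ^ i x` -/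
def vq_T (a : Act G X) (c : Act (TG Unit G) X) (U Z : Set X) (i : ℕ) : EH a U Z →ₗ[ℂ] EH c U Z :=
  sm (polx Unit G (MvPolynomial.X () ^ i)) ∘ₗ gp c Prod.snd id U Z

theorem vq_span (h : a.Pr U Z) (e : ∀ g, ∀ x ∈ U, c.act g x = a.act g.2 x) (y : EH c U Z) :
    ∃ n, y ∈ vq_S (vq_T a c U Z) n := by
  obtain ⟨z, rfl⟩ := adj_span h e y
  refine ⟨z.support.sup (· ()) + 1, Submodule.sum_mem _ fun m hm => ?_⟩
  have := vq_lt (T := vq_T a c U Z) (Nat.lt_succ_of_le (Finset.le_sup (f := (· ())) hm)) (z m)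
  rwa [vq_T, MvPolynomial.X_pow_eq_monomial, ← Finsupp.unique_single m] at this

theorem vq_indep (h : a.Pr U Z) (e : ∀ g, ∀ x ∈ U, c.act g x = a.act g.2 x) (n : ℕ)
    (x : EH a U Z) (hx : vq_T a c U Z n x ∈ vq_S (vq_T a c U Z) n) : x = 0 := by
  obtain ⟨z, hz⟩ := vq_mem.1 hx
  have k := adj_indep h e (z := Finsupp.single (Finsupp.single () n) x -
    ∑ i ∈ Finset.range n, Finsupp.single (Finsupp.single () i) (z i)) (by
      refine (Finsupp.lsum_apply ℂ (fun m => sm (polx Unit G (MvPolynomial.monomial m 1)) ∘ₗ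
        gp c Prod.snd id U Z) _).symm.trans ?_
      simp only [map_sub, map_sum, Finsupp.lsum_single, ← MvPolynomial.X_pow_eq_monomial]
      exact sub_eq_zero.2 hz)
  have k1 := DFunLike.congr_fun k (Finsupp.single () n)
  rwa [Finsupp.sub_apply, Finsupp.single_eq_same, Finsupp.finset_sum_apply,
    Finset.sum_eq_zero fun i hi => Finsupp.single_eq_of_ne fun c =>
      (Finset.mem_range.1 hi).ne' (Finsupp.single_injective _ c), sub_zero] at k1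

theorem vq_monic (ρ : Act G (J → ℂ)) [ρ.Rep] (h : a.Pr U Z) (h' : c.Pr U Z)
    (e : ∀ g, ∀ x ∈ U, c.act g x = a.act g.2 x) (m : ℕ) (x : EH a U Z) :
    sm (euc ρ.scal) (vq_T a c U Z m x) - vq_T a c U Z (Fintype.card J + m) x ∈
      vq_S (vq_T a c U Z) (Fintype.card J + m) := by
  obtain ⟨d, -, k⟩ := euc_scal ρ
  have k1 : GAdm c a Prod.snd id U Z U Z :=
    ⟨h', h, continuousOn_id, e, fun _ k => k, fun _ _ k => k⟩
  have k2 : ∀ w, w * polx Unit G (MvPolynomial.X () ^ m) = polx Unit G (MvPolynomial.X () ^ m) * w :=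
    fun w => ecup_comm (ecup_top (Act.pr_pt _)) w ((ev_pol _).gp _ _)
  simp only [vq_T, LinearMap.comp_apply]
  rw [← sm_mul h', k, add_mul, ← map_mul, ← pow_add, map_add, LinearMap.add_apply,
    add_sub_cancel_left, Finset.sum_mul, map_sum, LinearMap.sum_apply]
  refine Submodule.sum_mem _ fun i hi => ?_
  rw [mul_assoc, k2, ← mul_assoc, ← map_mul, ← pow_add, sm_mul h', ← gp_sm k1]
  exact vq_lt (T := vq_T a c U Z) (Nat.add_lt_add_right (Finset.mem_range.1 hi) m) _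

theorem vq_can (ρ : Act G (J → ℂ)) [ρ.Rep] (h : a.Pr U Z) (h' : c.Pr U Z)
    (e : ∀ g, ∀ x ∈ U, c.act g x = a.act g.2 x) {y : EH c U Z}
    (hy : sm (euc ρ.scal) y ∈ vq_S (vq_T a c U Z) (Fintype.card J)) : y = 0 :=
  (vq_span h e y).elim fun n hn => vq_cancel (vq_monic ρ h h' e) (vq_indep h e) n y hn hy

end

theorem vq_pt (i : ℕ) (x : HPt G) : vq_T (Act.pt G) (Act.pt (TG Unit G)) univ univ i x =
    polx Unit G (MvPolynomial.X () ^ i) * gpt Prod.snd x := sm_pt _ _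

theorem monic_div (ρ : Act G (J → ℂ)) [ρ.Rep] (y : HPt (TG Unit G)) :
    ∃ (Q : HPt (TG Unit G)) (r : ℕ → HPt G), y = euc ρ.scal * Q +
      ∑ i ∈ Finset.range (Fintype.card J),
        polx Unit G (MvPolynomial.X () ^ i) * gpt Prod.snd (r i) := by
  obtain ⟨n, hn⟩ := vq_span (Act.pr_pt G) (c := Act.pt _) (fun _ _ _ => rfl) y
  obtain ⟨Q, hQ⟩ := vq_div (vq_monic ρ (Act.pr_pt G) (Act.pr_pt _) fun _ _ _ => rfl) n y hn
  obtain ⟨r, hr⟩ := vq_mem.1 hQ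
  simp only [vq_pt, sm_pt] at hr
  exact ⟨Q, r, sub_eq_iff_eq_add'.1 hr⟩

theorem monic_cancel {X : Type} [TopologicalSpace X] [T3Space X] [SecondCountableTopology X]
    {a : Act G X} [a.Ok] {U Z : Set X} (h : a.Pr U Z) {y : EH (a.res (G' := TG Unit G) Prod.snd) U Z}
    {r : ℕ → EH a U Z}
    (e : sm (euc ρ.scal) y = ∑ i ∈ Finset.range (Fintype.card J),
      sm (polx Unit G (MvPolynomial.X () ^ i)) (gp _ Prod.snd id U Z (r i))) : y = 0 :=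
  vq_can ρ h (h.res _) (fun _ _ _ => rfl) (vq_mem.2 ⟨r, e⟩)

theorem isVq_vq : IsVq ρ ρ' (vq ρ ρ') :=
  have ⟨Q, r, h⟩ := monic_div ρ (euc ρ'.scal)
  Classical.epsilon_spec ⟨_, Q, r, h, rfl⟩

theorem IsVq.unique {q q' : HPt G} (h : IsVq ρ ρ' q) (h' : IsVq ρ ρ' q') : q = q' := by
  obtain ⟨Q, r, e, rfl⟩ := h
  obtain ⟨Q', r', e', rfl⟩ := h'
  refine congrArg _ (sub_eq_zero.1 (vq_can ρ (Act.pr_pt G) (Act.pr_pt _) (fun _ _ _ => rfl)
    (vq_mem.2 ⟨r' - r, ?_⟩)))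
  simp only [Pi.sub_apply, map_sub, vq_pt, sm_pt, Finset.sum_sub_distrib]
  rw [sub_eq_sub_iff_add_eq_add, ← e, add_comm, ← e']

theorem IsVq.gpt {q : HPt G} (h : IsVq ρ ρ' q) (φ : G'.H → G.H) [IsHom φ] :
    IsVq (ρ.res φ) (ρ'.res φ) (gpt φ q) := by
  obtain ⟨Q, r, e, rfl⟩ := h
  refine ⟨MP_849ab0_ag.G.gpt (mapT Unit φ) Q, fun i => MP_849ab0_ag.G.gpt φ (r i), ?_,
    (gpt_comp (χ := inT Unit G ∘ φ) (by exact fun _ => rfl) Q).trans
      (gpt_comp (by exact fun _ => rfl) Q).symm⟩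
  have k := congrArg (MP_849ab0_ag.G.gpt (mapT Unit φ)) e
  rw [map_add, map_mul, map_sum, euc_res, euc_res] at k
  refine k.trans (congrArg _ (Finset.sum_congr rfl fun i _ => ?_))
  rw [map_mul]
  exact congrArg₂ _ (gpt_comp (by exact fun _ => rfl) _)
    ((gpt_comp (χ := φ ∘ Prod.snd) (by exact fun _ => rfl) _).trans
      (gpt_comp (by exact fun _ => rfl) _).symm)

theorem isDeg_vq : IsDeg (2 * Fintype.card J' - 2 * Fintype.card J) (vq ρ ρ') := by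
  obtain ⟨Q, r, e, -⟩ := isVq_vq (ρ := ρ) (ρ' := ρ')
  have k : IsVq ρ ρ' (gpt (inT Unit G)
      (prj {(2 * Fintype.card J' - 2 * Fintype.card J : ℤ)} Q)) := by
    refine ⟨_, fun i => prj {(2 * Fintype.card J' - 2 * i : ℤ)} (r i), ?_, rfl⟩
    have k1 := congrArg (prj {(2 * Fintype.card J' : ℤ)}) e
    rw [map_add, map_sum] at k1
    refine ((isDeg_iff.1 isDeg_eul).symm.trans k1).trans (congrArg₂ _ ?_ (Finset.sum_congr rfl fun i _ => ?_))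
    · rw [← sm_pt, ← sm_pt, prj_map (d := 2 * Fintype.card J) fun p x hx =>
        add_comm p _ ▸ IsDeg.sm isDeg_eul hx, sub_add_cancel]
    · rw [← vq_pt, ← vq_pt, prj_map (d := 2 * i) fun p x hx => add_comm p _ ▸
        IsDeg.sm ((isDeg_pol (MvPolynomial.isHomogeneous_X_pow _ _)).gp _ _) (hx.gp _ _),
        sub_add_cancel]
  rw [isVq_vq.unique k]
  exact (isDeg_prj _ _).gp _ _

theorem ev_vq : Ev (vq ρ ρ') := isDeg_vq.ev ((even_two_mul _).sub (even_two_mul _))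

theorem gpt_vq {φ : G'.H → G.H} [IsHom φ] {σ : Act G' (J → ℂ)} {σ' : Act G' (J' → ℂ)}
    (e : ∀ g w, σ.act g w = ρ.act (φ g) w) (e' : ∀ g w, σ'.act g w = ρ'.act (φ g) w) :
    gpt φ (vq ρ ρ') = vq σ σ' := by
  obtain rfl : σ = ρ.res φ := congrArg Act.mk (funext₂ e)
  obtain rfl : σ' = ρ'.res φ := congrArg Act.mk (funext₂ e')
  exact (isVq_vq.gpt φ).unique isVq_vq

end Pool.Agent.Work.MP_849ab0_ag.G
end
end

-- merged part: Pool.Agent.Work.MP_849ab0_ag.G.H2.DM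
section
/-!
The diagonal machine: integration of the class of the zeros of a family of injective affine maps
(owner helper87).

Hints.  `dm_lin`: work first for the group `TG Unit G`, the actions `a.res Prod.snd`, `ρ.scal`,
`ρ'.scal`; let `c₁` be the integral.  Pull the equation of `intg_spec` back along the zero section
`x ↦ (0, x)` to `EH S univ` (`gp_comp`, `gp_eul`, `gp_ecup`, `eul_univ`, `ecup_sm_right`,
`ecup_eone`): `sm (euc ρ.scal) c₁ = sm (euc ρ'.scal) 1`.  With `Q`, `r` of `isVq_vq`,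
`monic_cancel` gives `c₁ = sm Q 1`; pull back along `inT Unit G` (`gp_intg`, `gp_eul`, `gp_sm`,
`gp_eone`).  `dm_aff`: `AffFam.bound`, enlarge both supports to `{nsq z.1 ≤ C z.2}` (`intg_gp_id`,
`gp_eul`) and use `eul_htpy` for `M v + s r`.  `dm_base`: `AffOn.exists`, `gp_intg` along
`f' z = s (z.2, z.1)` for the section `s` of the `Fib`.  `dm`: replace `eul b ρ' Φ V₁ W₁` by
`eul b ρ' Φ (p ⁻¹' S) (Φ ⁻¹' {0})`, `S = U ∩ Z₁` (`ecup_gp_right`, `gp_eul`; pass through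
`(p ⁻¹' S, W₁)`), `intg_ecup_germ` with `Z = univ` (`dm_adm` for `U := S`, `Z₁ := univ`), `dm_base`,
`ecup_sm_right`, `ecup_eone`, `gp_id`.
-/

noncomputable section

set_option linter.unusedSectionVars false
set_option linter.unusedVariables false

namespace Pool.Agent.Work.MP_849ab0_ag.G

open Set Topology Matrix

variable {G : Gp} [G.Nice] {X Y : Type}
  [TopologicalSpace X] [T3Space X] [SecondCountableTopology X]
  [TopologicalSpace Y] [T3Space Y] [SecondCountableTopology Y]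
  {a : Act G X} [a.Ok] {b : Act G Y} [b.Ok] {J J' : Type} [Fintype J] [Fintype J']
  {ρ : Act G (J → ℂ)} [ρ.Rep] {ρ' : Act G (J' → ℂ)} [ρ'.Rep]
  {U S Z Z₁ Z₂ : Set X} {V₁ W₁ W₂ : Set Y} {p : Y → X} {F : Y → J → ℂ} {Φ : Y → J' → ℂ}

theorem dm_act_zero (ρ : Act G (J → ℂ)) [ρ.Rep] (g : G.H) : ρ.act g 0 = 0 :=
  (Act.Rep.lin (ρ := ρ) g).map_zero

theorem dm_top (hS : a.Pr S univ) : (ρ.prod a).Pr (Prod.snd ⁻¹' S) univ :=
  (hS.preimage (b := ρ.prod a) (φ := id) continuous_snd fun _ _ => rfl).top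

theorem dm_pr0 (hS : a.Pr S univ) : (ρ.prod a).Pr (Prod.snd ⁻¹' S) (Prod.fst ⁻¹' {0}) :=
  (Act.Rep.pr ρ).preimage' (φ := id) (dm_top hS) continuous_fst.continuousOn (mapsTo_univ _ _)
    fun _ _ _ => rfl

theorem dm_prle (hS : a.Pr S univ) {C : X → ℝ} (hC : ContinuousOn C S)
    (hi : ∀ g, ∀ x ∈ S, C (a.act g x) = C x) :
    (ρ.prod a).Pr (Prod.snd ⁻¹' S) {z | nsq z.1 ≤ C z.2} := by
  refine ⟨(dm_top (ρ := ρ) hS).lc, (dm_top hS).inv, fun g z hz h => ?_, fun z hz => ?_⟩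
  · change nsq (ρ.act g z.1) ≤ C (a.act g z.2)
    rwa [Act.Rep.nsq, hi g _ hz]
  · have h1 : Continuous fun z : (J → ℂ) × X => nsq z.1 := by unfold nsq; fun_prop
    exact ContinuousWithinAt.closure_le hz.2 h1.continuousWithinAt
      (((hC.comp continuous_snd.continuousOn fun _ h => h) z hz.1).mono inter_subset_left)
      fun _ h => h.2

theorem dm_iadm (hS : a.Pr S univ) {W : Set ((J → ℂ) × X)}
    (hW : (ρ.prod a).Pr (Prod.snd ⁻¹' S) W) {C : X → ℝ} (hC : ContinuousOn C S)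
    (hi : ∀ g, ∀ x ∈ S, C (a.act g x) = C x) (hb : ∀ z ∈ W, z.2 ∈ S → nsq z.1 ≤ C z.2) :
    IAdm a (ρ.prod a) ρ Prod.snd Prod.fst S univ (Prod.snd ⁻¹' S) W :=
  ⟨fib_prod hS, hS, hW, subset_rfl, fun _ _ _ => trivial, C, hC, hi, hb⟩

theorem dm_iadm0 (hS : a.Pr S univ) :
    IAdm a (ρ.prod a) ρ Prod.snd Prod.fst S univ (Prod.snd ⁻¹' S) (Prod.fst ⁻¹' {0}) :=
  dm_iadm hS (dm_pr0 hS) (C := fun _ => 0) continuousOn_const (fun _ _ _ => rfl) fun z hz _ => by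
    rw [show z.1 = 0 from hz]
    simp [nsq]

theorem dm_cont {M : X → Matrix J' J ℂ} {r : X → J' → ℂ} (h : AffFam a ρ ρ' S M r) :
    ContinuousOn (fun y : ℝ × (J → ℂ) × X => M y.2.2 *ᵥ y.2.1 + (y.1 : ℂ) • r y.2.2)
      {y | y.2.2 ∈ S} := by
  have h1 : ContinuousOn (fun y : ℝ × (J → ℂ) × X => M y.2.2) {y | y.2.2 ∈ S} :=
    h.contM.comp continuous_snd.snd.continuousOn fun _ h => h
  have h2 : ContinuousOn (fun y : ℝ × (J → ℂ) × X => r y.2.2) {y | y.2.2 ∈ S} :=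
    h.contr.comp continuous_snd.snd.continuousOn fun _ h => h
  have h3 : Continuous fun y : Matrix J' J ℂ × (J → ℂ) => y.1 *ᵥ y.2 :=
    continuous_fst.matrix_mulVec continuous_snd
  exact (h3.comp_continuousOn (h1.prodMk continuous_snd.fst.continuousOn)).add
    ((Complex.continuous_ofReal.comp continuous_fst).continuousOn.smul h2)

theorem dm_eadm {M : X → Matrix J' J ℂ} {r : X → J' → ℂ} (h : AffFam a ρ ρ' S M r) (s : ℝ)
    {W : Set ((J → ℂ) × X)} (hW : (ρ.prod a).Pr (Prod.snd ⁻¹' S) W)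
    {E : (J → ℂ) × X → J' → ℂ} (e : ∀ z, E z = M z.2 *ᵥ z.1 + (s : ℂ) • r z.2)
    (hz : ∀ z, z.2 ∈ S → E z = 0 → z ∈ W) : EAdm (ρ.prod a) ρ' E (Prod.snd ⁻¹' S) W := by
  obtain rfl : E = _ := funext e
  refine ⟨hW, Act.Rep.pr ρ', (dm_cont h).comp (f := fun z => (s, z)) (by fun_prop) fun _ h => h,
    fun g z hz => ?_, mapsTo_univ _ _, hz⟩
  change M (a.act g z.2) *ᵥ ρ.act g z.1 + (s : ℂ) • r (a.act g z.2) = ρ'.act g _
  rw [h.eqvM g _ hz, h.eqvr g _ hz, (Act.Rep.lin (ρ := ρ') g).map_add,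
    (Act.Rep.lin (ρ := ρ') g).map_smul]

theorem dm_eadm0 {M : X → Matrix J' J ℂ} {r : X → J' → ℂ} (h : AffFam a ρ ρ' S M r)
    (hS : a.Pr S univ) :
    EAdm (ρ.prod a) ρ' (fun z => M z.2 *ᵥ z.1) (Prod.snd ⁻¹' S) (Prod.fst ⁻¹' {0}) :=
  dm_eadm h 0 (dm_pr0 hS) (by simp) fun z hz e => h.inj _ hz _ e

theorem dm_shrink {V : Set Y} (h : IAdm a b ρ p F U Z V W₁) (h' : IAdm a b ρ p F U Z V W₂)
    (hΦ : EAdm b ρ' Φ V W₁) (e : V ∩ W₁ ⊆ W₂) :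
    intg a ρ p F U Z (eul b ρ' Φ V W₂) = intg a ρ p F U Z (eul b ρ' Φ V W₁) := by
  have k := gadm_id h.src h'.src subset_rfl e
  rw [← intg_gp_id h h' k, gp_eul hΦ k (σ := ρ') (fun _ _ => rfl) (F' := Φ) fun _ _ => rfl]

theorem dm_key {M : X → Matrix J' J ℂ} {r : X → J' → ℂ} (h : AffFam a ρ ρ' S M r)
    (hS : a.Pr S univ) :
    sm (euc ρ) (intg a ρ Prod.snd Prod.fst S univ
      (eul (ρ.prod a) ρ' (fun z => M z.2 *ᵥ z.1) (Prod.snd ⁻¹' S) (Prod.fst ⁻¹' {0}))) =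
      sm (euc ρ') (eone a S) := by
  obtain ⟨R, h1, h2, -, h3, h4⟩ := intg_spec (dm_iadm0 (ρ := ρ) hS)
    (eul (ρ.prod a) ρ' (fun z => M z.2 *ᵥ z.1) (Prod.snd ⁻¹' S) (Prod.fst ⁻¹' {0}))
  have k : ∀ W, (ρ.prod a).Pr (Prod.snd ⁻¹' S) W →
      GAdm a (ρ.prod a) id (fun x => (0, x)) S univ (Prod.snd ⁻¹' S) W := fun W hW =>
    ⟨hS, hW, by fun_prop, fun g x _ => Prod.ext (dm_act_zero ρ g).symm rfl, fun _ h => h,
      fun _ _ _ => trivial⟩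
  have p0 := dm_pr0 (ρ := ρ) hS
  have p1 : (ρ.prod a).Pr (Prod.snd ⁻¹' S) (Prod.snd ⁻¹' univ) := dm_top hS
  have p2 := p1.inter (dm_prle hS h1 fun g x hx => (h2 x hx).2 g)
  have k1 : GAdm (ρ.prod a) a id Prod.snd (Prod.snd ⁻¹' S) (Prod.snd ⁻¹' univ) S univ :=
    ⟨p1, hS, continuous_snd.continuousOn, fun _ _ _ => rfl, fun _ h => h, fun _ _ h => h⟩
  have e1 : EAdm (ρ.prod a) ρ Prod.fst (Prod.snd ⁻¹' S) (Prod.fst ⁻¹' {0}) :=
    ⟨p0, Act.Rep.pr ρ, continuous_fst.continuousOn, fun _ _ _ => rfl, mapsTo_univ _ _,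
      fun _ _ h => h⟩
  have c := ecup_of hS hS hS (subset_univ _)
  have h5 := congrArg (gp a id (fun x => ((0 : J → ℂ), x)) S univ) h4
  rw [gp_comp (gadm_id p0 p2 subset_rfl h3) (k _ p2) (χ := id) (fun _ => rfl)
      (k := fun x => (0, x)) (fun _ _ => rfl),
    gp_eul (dm_eadm0 h hS) (k _ p0) (σ := ρ') (fun _ _ => rfl) (F' := fun _ => 0)
      (fun _ _ => (mulVec_zero _).symm), eul_univ (eadm_zero hS),
    gp_ecup (ecup_of p1 p0 p2 fun z hz => h3 ⟨hz.1.1, hz.2⟩) c (k _ p2) (k _ p1) (k _ p0)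
      subset_rfl subset_rfl,
    gp_comp k1 (k _ p1) (χ := id) (fun _ => rfl) (k := id) (fun _ _ => rfl), gp_id hS,
    gp_eul e1 (k _ p0) (σ := ρ) (fun _ _ => rfl) (F' := fun _ => 0) (fun _ _ => rfl),
    eul_univ (eadm_zero hS), ecup_sm_right c (c := euc ρ) ev_eul,
    ecup_eone c (gadm_id hS hS subset_rfl inter_subset_right), gp_id hS] at h5
  exact h5.symm

theorem dm_lin {M : X → Matrix J' J ℂ} {r : X → J' → ℂ} (h : AffFam a ρ ρ' S M r)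
    (hS : a.Pr S univ) :
    intg a ρ Prod.snd Prod.fst S univ
      (eul (ρ.prod a) ρ' (fun z => M z.2 *ᵥ z.1) (Prod.snd ⁻¹' S) (Prod.fst ⁻¹' {0})) =
      sm (vq ρ ρ') (eone a S) := by
  have hS₁ : (a.res (G' := TG Unit G) Prod.snd).Pr S univ := hS.res _
  have h₁ : AffFam (a.res (G' := TG Unit G) Prod.snd) ρ.scal ρ'.scal S M 0 :=
    ⟨h.contM, continuousOn_const, fun g x hx v => by
      change M (a.act g.2 x) *ᵥ (_ • ρ.act g.2 v) = _ • ρ'.act g.2 _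
      rw [mulVec_smul, h.eqvM _ _ hx], fun g _ _ => (dm_act_zero _ g).symm, h.inj⟩
  obtain ⟨Q, c, e, e'⟩ := isVq_vq (ρ := ρ) (ρ' := ρ')
  have k : GAdm (a.res (G' := TG Unit G) Prod.snd) a Prod.snd id S univ S univ :=
    ⟨hS₁, hS, continuousOn_id, fun _ _ _ => rfl, fun _ h => h, fun _ _ h => h⟩
  have k' : GAdm a (a.res (G' := TG Unit G) Prod.snd) (inT Unit G) id S univ S univ :=
    ⟨hS, hS₁, continuousOn_id, fun _ _ _ => rfl, fun _ h => h, fun _ _ h => h⟩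
  have s1 : ∀ g w, ρ.act g w = ρ.scal.act (inT Unit G g) w := fun g w => (one_smul ℂ _).symm
  have s2 : ∀ g w, ρ'.act g w = ρ'.scal.act (inT Unit G g) w := fun g w => (one_smul ℂ _).symm
  have k'' : GAdm (ρ.prod a) (ρ.scal.prod (a.res (G' := TG Unit G) Prod.snd)) (inT Unit G) id
      (Prod.snd ⁻¹' S) (Prod.fst ⁻¹' {0}) (Prod.snd ⁻¹' S) (Prod.fst ⁻¹' {0}) :=
    ⟨dm_pr0 hS, dm_pr0 hS₁, continuousOn_id, fun g z _ => Prod.ext (s1 g _) rfl, fun _ h => h,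
      fun _ _ h => h⟩
  have h2 := dm_key h₁ hS₁
  rw [e, map_add, LinearMap.add_apply, sm_mul hS₁, ← sub_eq_iff_eq_add', ← map_sub, map_sum,
    LinearMap.sum_apply] at h2
  have h3 := monic_cancel (ρ := ρ) hS (r := fun i => sm (c i) (eone a S))
    (h2.trans (Finset.sum_congr rfl fun i _ => by rw [sm_mul hS₁, gp_sm k, gp_eone k]))
  have h4 := congrArg (gp a (inT Unit G) id S univ) (sub_eq_zero.1 h3)
  rwa [gp_intg (dm_iadm0 hS₁) (dm_iadm0 hS) k' k'' s1 (fun _ _ => rfl) (fun _ _ => rfl),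
    gp_eul (dm_eadm0 h₁ hS₁) k'' s2 (F' := fun z => M z.2 *ᵥ z.1) (fun _ _ => rfl), gp_sm k',
    gp_eone k', ← e'] at h4

theorem dm_praff {M : X → Matrix J' J ℂ} {r : X → J' → ℂ} (h : AffFam a ρ ρ' S M r)
    (hS : a.Pr S univ) : EAdm (ρ.prod a) ρ' (fun z => M z.2 *ᵥ z.1 + r z.2) (Prod.snd ⁻¹' S)
      {z | M z.2 *ᵥ z.1 + r z.2 = 0} := by
  have k := dm_eadm h 1 (dm_top hS) (E := fun z => M z.2 *ᵥ z.1 + r z.2) (by simp)
    fun _ _ _ => trivial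
  exact dm_eadm h 1 (k.tgt.preimage' k.src k.cont k.maps k.eqv) (by simp) fun _ _ e => e

theorem dm_iaff {M : X → Matrix J' J ℂ} {r : X → J' → ℂ} (h : AffFam a ρ ρ' S M r)
    (hS : a.Pr S univ) : IAdm a (ρ.prod a) ρ Prod.snd Prod.fst S univ (Prod.snd ⁻¹' S)
      {z | M z.2 *ᵥ z.1 + r z.2 = 0} := by
  obtain ⟨C, h1, h2, h3⟩ := h.bound hS
  exact dm_iadm hS (dm_praff h hS).src h1 h2 fun z e hz =>
    h3 _ hz _ 1 ⟨zero_le_one, le_rfl⟩ (by simpa using e)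

theorem dm_aff {M : X → Matrix J' J ℂ} {r : X → J' → ℂ} (h : AffFam a ρ ρ' S M r)
    (hS : a.Pr S univ) :
    intg a ρ Prod.snd Prod.fst S univ (eul (ρ.prod a) ρ' (fun z => M z.2 *ᵥ z.1 + r z.2)
      (Prod.snd ⁻¹' S) {z | M z.2 *ᵥ z.1 + r z.2 = 0}) = sm (vq ρ ρ') (eone a S) := by
  obtain ⟨C, h1, h2, h3⟩ := h.bound hS
  have p1 := dm_prle (ρ := ρ) hS h1 h2
  have i1 := dm_iadm hS p1 h1 h2 fun _ e _ => e
  have h4 := eul_htpy (b := ρ.prod a) (ρ := ρ') (V := Prod.snd ⁻¹' S)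
    (F := fun s z => M z.2 *ᵥ z.1 + (s : ℂ) • r z.2) ((dm_cont h).mono fun _ h => h.2)
    fun s hs => dm_eadm h s p1 (fun _ => rfl) fun z hz e => h3 _ hz _ s hs e
  simp only [Complex.ofReal_zero, zero_smul, add_zero, Complex.ofReal_one, one_smul] at h4
  rw [← dm_shrink (dm_iaff h hS) i1 (dm_praff h hS) fun z hz =>
      h3 _ hz.1 _ 1 ⟨zero_le_one, le_rfl⟩ (by simpa using hz.2), ← h4,
    dm_shrink (dm_iadm0 hS) i1 (dm_eadm0 h hS) fun z hz =>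
      h3 _ hz.1 _ 0 ⟨le_rfl, zero_le_one⟩ (by simp [show z.1 = 0 from hz.2]), dm_lin h hS]

theorem dm_base (h : IAdm a b ρ p F S univ (p ⁻¹' S) W₁) (hΦ : EAdm b ρ' Φ (p ⁻¹' S) W₁)
    (hA : AffOn p F Φ S) :
    intg a ρ p F S univ (eul b ρ' Φ (p ⁻¹' S) W₁) = sm (vq ρ ρ') (eone a S) := by
  have hS := h.tgt
  obtain ⟨M, r, hM, e⟩ := hA.exists h.fib hS subset_rfl hΦ subset_rfl
  obtain ⟨s, s1, s2, s3⟩ := h.fib.inv
  obtain ⟨C, c1, c2, c3⟩ := h.bdd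
  have f1 : ContinuousOn (fun z : (J → ℂ) × X => s (z.2, z.1)) (Prod.snd ⁻¹' S) :=
    s1.comp (by fun_prop) fun _ h => ⟨h, trivial⟩
  have f2 : MapsTo (fun z : (J → ℂ) × X => s (z.2, z.1)) (Prod.snd ⁻¹' S) (p ⁻¹' S) :=
    fun z hz => by rwa [mem_preimage, (s2 _ hz _).1]
  have f3 : ∀ g, ∀ z ∈ Prod.snd ⁻¹' S, s (((ρ.prod a).act g z).2, ((ρ.prod a).act g z).1) =
      b.act g (s (z.2, z.1)) := by
    intro g z hz
    rw [← s3 _ (h.src.inv g _ (f2 hz)), h.fib.eqvp, h.fib.eqvF g _ (f2 hz), (s2 _ hz _).1,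
      (s2 _ hz _).2]
    rfl
  have p1 := h.src.preimage' (φ := id) (dm_top hS) f1 f2 f3
  have i1 := dm_iadm hS p1 c1 c2 fun z hz hz' => by
    simpa only [(s2 _ hz' _).1, (s2 _ hz' _).2] using c3 _ hz (f2 hz')
  have k : GAdm (ρ.prod a) b id (fun z : (J → ℂ) × X => s (z.2, z.1)) _ _ _ _ :=
    ⟨p1, h.src, f1, f3, f2, fun _ _ h => h⟩
  have e1 : ∀ z ∈ Prod.snd ⁻¹' S, M z.2 *ᵥ z.1 + r z.2 = Φ (s (z.2, z.1)) := fun z hz => by
    rw [e _ (f2 hz), (s2 _ hz _).1, (s2 _ hz _).2]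
  rw [← gp_id hS (intg a ρ p F S univ _), gp_intg h i1 (gadm_id hS hS subset_rfl inter_subset_right)
      k (fun _ _ => rfl) (fun z hz => (s2 _ hz _).1) (fun z hz => (s2 _ hz _).2),
    gp_eul hΦ k (σ := ρ') (fun _ _ => rfl) e1,
    dm_shrink (dm_iaff hM hS) i1 (dm_praff hM hS) fun z hz =>
      hΦ.supp _ (f2 hz.1) ((e1 z hz.1).symm.trans hz.2), dm_aff hM hS]

/-- DM -/
theorem dm (h : IAdm a b ρ p F U Z₁ (p ⁻¹' U) W₂) (hΦ : EAdm b ρ' Φ V₁ W₁)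
    (hV : p ⁻¹' (U ∩ Z₁) ⊆ V₁) (hA : AffOn p F Φ (U ∩ Z₁))
    (hc : ECup b (p ⁻¹' U) (p ⁻¹' Z₁) V₁ W₁ (p ⁻¹' U) W₂) (γ : EH a U Z₁) :
    intg a ρ p F U Z₁ (ecup (p ⁻¹' U) W₂ (gp b id p (p ⁻¹' U) (p ⁻¹' Z₁) γ) (eul b ρ' Φ V₁ W₁)) =
      sm (vq ρ ρ') γ := by
  have hS := pr_supp h.tgt
  have p1 : b.Pr (p ⁻¹' (U ∩ Z₁)) W₁ :=
    hΦ.src.mono (hS.preimage (φ := id) h.fib.contp h.fib.eqvp) hV
  have k := gadm_id hΦ.src p1 hV inter_subset_right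
  have w : ∀ y, p y ∈ U → p y ∈ Z₁ → y ∉ W₂ → y ∉ W₁ := fun y h1 h2 h3 =>
    (hc.ok.supp ⟨h1, h3⟩).elim (fun h4 => (h4.2 h2).elim) fun h4 => h4.2
  have hy : ECup b (p ⁻¹' U) (p ⁻¹' Z₁) (p ⁻¹' (U ∩ Z₁)) W₁ (p ⁻¹' U) W₂ :=
    ⟨hc.p1, p1, hc.p3, fun y hy => (em (p y ∈ Z₁)).elim (fun h1 => .inr ⟨hy, h1⟩)
      fun h1 => .inl ⟨hy, h1⟩, subset_union_left, fun y hy => (em (p y ∈ Z₁)).elim
        (fun h1 => .inr ⟨⟨hy.1, h1⟩, w y hy.1 h1 hy.2⟩) fun h1 => .inl ⟨hy.1, h1⟩⟩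
  have hx : ECup a U Z₁ (U ∩ Z₁) univ U Z₁ :=
    ⟨h.tgt, hS, h.tgt, fun y hy => (em (y ∈ Z₁)).elim (fun h1 => .inr ⟨hy, h1⟩)
      fun h1 => .inl ⟨hy, h1⟩, subset_union_left, subset_union_left⟩
  obtain ⟨s, s1, s2, s3⟩ := h.fib.inv
  obtain ⟨C, c1, c2, c3⟩ := h.bdd
  have i1 : IAdm a b ρ p F (U ∩ Z₁) univ (p ⁻¹' (U ∩ Z₁)) W₁ :=
    ⟨⟨h.fib.contp, h.fib.eqvp, h.fib.contF.mono fun _ h => h.1, fun g y hy => h.fib.eqvF g y hy.1,
      s, s1.mono fun _ h => ⟨h.1.1, h.2⟩, fun x hx => s2 x hx.1, fun y hy => s3 y hy.1⟩, hS, p1,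
      subset_rfl, fun _ _ _ => trivial, C, c1.mono inter_subset_left, fun g x hx => c2 g x hx.1,
      fun y h1 h2 => c3 y (by_contra fun h3 => w y h2.1 h2.2 h3 h1) h2.1⟩
  rw [← ecup_gp_right hy k, gp_eul hΦ k (σ := ρ') (fun _ _ => rfl) (F' := Φ) (fun _ _ => rfl),
    intg_ecup_germ i1 h hx hy, dm_base (Φ := Φ) i1 (hΦ.comp k) hA, ecup_sm_right hx ev_vq,
    ecup_eone hx (gadm_id h.tgt h.tgt subset_rfl inter_subset_right), gp_id h.tgt]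

end Pool.Agent.Work.MP_849ab0_ag.G
end
end

-- merged part: Pool.Agent.Work.MP_849ab0_ag.G.H2.EsDef
section
/-!
The abstract diagonal argument: data and basic admissibility.

`H = K × T` acts on `X ⊇ Lv`; `G = T_P × H`.  The parameter `y` lives in a representation of
`T_P × T` and is cut out by the toric level set and by `rel y = 0`; `j y ∈ Lv`.  The equation
`Φ (l, y, x) = 0` says that `j y = k l · x`.

Hints.  All statements are elementary: `Act.pr_of`, `Act.Pr.preimage`, `TD.Ok.act_mem_lev`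
(`D1.lev = D0.lev` by `rfl`, `D1.rep.act g = D0.rep.act (om g)` by `rfl`); `nsq (Sum.elim u v) =
nsq u + nsq v`; for `fibT` the inverse is `(x, v) ↦ (v ∘ inr, v ∘ inl, x)`.
-/

noncomputable section

set_option linter.unusedSectionVars false
set_option linter.unusedVariables false

namespace Pool.Agent.Work.MP_849ab0_ag.G

open Set Topology Matrix

/-- data of a diagonal argument -/
structure ESD {P C : Type} [Fintype P] [DecidableEq P] (c : P → C) (κ : Type) [Fintype κ]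
    [DecidableEq κ] (X J Jr JL JE Js : Type) where
  D0 : TD P J (Gp.tor κ)
  Lv : Set X
  j : (J → ℂ) → X
  σ : Act (TG P (Gp.tor κ)) (Jr → ℂ)
  rel : (J → ℂ) → Jr → ℂ
  L : Act (TG P (KT c κ)) (JL → ℂ)
  E : Act (TG P (KT c κ)) (JE → ℂ)
  Φ : (JL → ℂ) × (J → ℂ) × X → JE → ℂ
  k : (JL → ℂ) → Ub c
  mL : JL → P → ℤ
  si : Js → JL

namespace ESD

variable {P C : Type} [Fintype P] [DecidableEq P] {c : P → C} {κ : Type} [Fintype κ]
  [DecidableEq κ] {X J Jr JL JE Js : Type} [TopologicalSpace X] [T3Space X]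
  [SecondCountableTopology X] [Fintype J] [Fintype Jr] [Fintype JL] [Fintype JE] [Fintype Js]
  (S : ESD c κ X J Jr JL JE Js) (a : Act (KT c κ) X)

/-- forget `K` -/
abbrev om (c : P → C) (κ : Type) [Fintype κ] [DecidableEq κ] :
    (TG P (KT c κ)).H → (TG P (Gp.tor κ)).H := mapT P (H := Gp.tor κ) (H' := KT c κ) Prod.snd

/-- the toric data over `K × T` -/
def D1 : TD P J (KT c κ) := ⟨S.D0.m, fun q g => S.D0.c q g.2, S.D0.θ⟩

/-- the parameters -/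
def R0 : Set (J → ℂ) := S.rel ⁻¹' {0}

/-- the action on pairs `(y, x)` -/
abbrev b1 : Act (TG P (KT c κ)) ((J → ℂ) × X) := S.D1.rep.prod (a.res Prod.snd)

/-- the action on triples `(l, y, x)` -/
abbrev bt : Act (TG P (KT c κ)) ((JL → ℂ) × (J → ℂ) × X) := S.L.prod (S.b1 a)

/-- pairs over the level sets -/
def V1 : Set ((J → ℂ) × X) := S.D0.lev ×ˢ S.Lv

/-- triples over the level sets -/
abbrev Vt : Set ((JL → ℂ) × (J → ℂ) × X) := Prod.snd ⁻¹' S.V1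

/-- the support of the diagonal class, cut by `W` -/
def Zd (W : Set (J → ℂ)) : Set ((JL → ℂ) × (J → ℂ) × X) := {z | z.2.1 ∈ W ∧ S.Φ z = 0}

/-- the hypotheses -/
structure Ok : Prop where
  ok0 : S.D0.Ok
  repσ : S.σ.Rep
  repL : S.L.Rep
  repE : S.E.Rep
  pr : a.Pr S.Lv univ
  contj : Continuous S.j
  eqvj : ∀ g y, S.j (S.D0.rep.act g y) = a.act (inc c _ g) (S.j y)
  contr : Continuous S.rel
  eqvr : ∀ g y, S.rel (S.D0.rep.act g y) = S.σ.act g (S.rel y)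
  memj : ∀ y ∈ S.D0.lev, S.rel y = 0 → S.j y ∈ S.Lv
  contΦ : Continuous S.Φ
  eqvΦ : ∀ g z, S.Φ ((S.bt a).act g z) = S.E.act g (S.Φ z)
  aff : ∀ y ∈ S.D0.lev, S.rel y = 0 → ∀ x ∈ S.Lv, ∃ (M : (JL → ℂ) →ₗ[ℂ] JE → ℂ) (r : JE → ℂ),
    Function.Injective M ∧ ∀ l, S.Φ (l, y, x) = M l + r
  zero : ∀ z ∈ S.Vt ∩ S.Zd S.R0, S.j z.2.1 = a.act (S.k z.1, 1) z.2.2
  contk : ContinuousOn (fun z => S.k z.1) (S.Vt ∩ S.Zd S.R0)
  eqvk : ∀ g, ∀ z ∈ S.Vt ∩ S.Zd S.R0, S.k (S.L.act g z.1) = diagU c g.1 * S.k z.1 * g.2.1⁻¹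
  bdd : ∃ R : X → ℝ, ContinuousOn R S.Lv ∧ (∀ g, ∀ x ∈ S.Lv, R (a.act g x) = R x) ∧
    ∀ z ∈ S.Vt ∩ S.Zd S.R0, nsq z.1 + nsq z.2.1 ≤ R z.2.2
  wL : ∀ (g : P → Circle) l q, S.L.act (g, 1) l q = chr (S.mL q) g * l q
  norm : ∀ x ∈ S.Lv, ∃ l₀ y₀, (l₀, y₀, x) ∈ S.Vt ∩ S.Zd S.R0 ∧ l₀ ∘ S.si = 0 ∧
    (∀ l y, (l, y, x) ∈ S.Vt ∩ S.Zd S.R0 → l ∘ S.si = 0 →
      ∃ g : P → Circle, l = S.L.act (g, 1) l₀ ∧ y = S.D0.rep.act (g, 1) y₀) ∧
    ∃ (r' : (J → ℂ) →L[ℝ] Jr → ℂ) (Φ' : ((JL → ℂ) × (J → ℂ)) →L[ℝ] JE → ℂ),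
      HasFDerivAt S.rel r' y₀ ∧ HasFDerivAt (fun z => S.Φ (z.1, z.2, x)) Φ' (l₀, y₀) ∧
      ∀ δ ε, r' ε = 0 → Φ' (δ, ε) = 0 → δ ∘ S.si = 0 →
        (∀ i, ∑ q, S.D0.m q i * (starRingEnd ℂ (y₀ q) * ε q).re = 0) →
        ∃ ξ : P → ℝ, (∀ q, δ q = Complex.I * (∑ i, S.mL q i * ξ i : ℝ) * l₀ q) ∧
          ∀ q, ε q = Complex.I * (∑ i, S.D0.m q i * ξ i : ℝ) * y₀ q
  dim : Fintype.card Jr + Fintype.card JE + Fintype.card Js + Fintype.card P =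
    Fintype.card JL + Fintype.card J

/-- supports for the parameter -/
structure Sp (W : Set (J → ℂ)) : Prop where
  pr : S.D0.rep.Pr S.D0.lev W
  sub : S.D0.lev ∩ W ⊆ S.R0

/-- `W` is bounded on the level set -/
def Bd (W : Set (J → ℂ)) : Prop := ∃ B : ℝ, ∀ y ∈ S.D0.lev, y ∈ W → nsq y ≤ B

/-- the class of the diagonal -/
def dia : EH (S.bt a) S.Vt (S.Φ ⁻¹' {0}) := eul (S.bt a) S.E S.Φ S.Vt (S.Φ ⁻¹' {0})

/-- pull back from the parameter -/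
def pb (W : Set (J → ℂ)) : EH S.D0.rep S.D0.lev W →ₗ[ℂ] EH (S.bt a) S.Vt {z | z.2.1 ∈ W} :=
  gp (S.bt a) (om c κ) (fun z => z.2.1) S.Vt {z | z.2.1 ∈ W}

/-- the integral over `(l, y)` -/
def intT {W : Set ((JL → ℂ) × (J → ℂ) × X)} : EH (S.bt a) S.Vt W →ₗ[ℂ] EH a S.Lv univ :=
  S.D1.int a (S.D1.rep.sum S.L) (Prod.snd ∘ Prod.snd) (fun z => Sum.elim z.2.1 z.1)
    (fun z => z.2.1) S.Lv univ

/-- the integral against the diagonal -/
def JJ (W : Set (J → ℂ)) (β : EH S.D0.rep S.D0.lev W) : EH a S.Lv univ :=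
  S.intT a (ecup S.Vt (S.Zd W) (S.pb a W β) (S.dia a))

/-- the integral over `y` alone -/
def intP {W : Set (J → ℂ)} : EH S.D1.rep S.D0.lev W →ₗ[ℂ] HPt (KT c κ) :=
  S.D1.int (Act.pt _) S.D1.rep (fun _ => ()) id id univ univ

/-- the stair class -/
def stc : MvPolynomial P ℂ := ∏ z, lf ℂ (S.mL (S.si z))

/-- the basic class on the parameter space -/
def β0 : EH S.D0.rep S.D0.lev S.R0 :=
  sm (polx P _ S.stc) (eul S.D0.rep S.σ S.rel S.D0.lev S.R0)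

/-- the normalising class -/
def NN : EH a S.Lv univ := S.JJ a S.R0 S.β0

/-- `β0` times a class on `Lv` -/
def jb (g : EH a S.Lv univ) : EH S.D0.rep S.D0.lev S.R0 :=
  ecup S.D0.lev S.R0 (gp S.D0.rep (inc c _) S.j (S.D0.lev ∩ S.R0) univ g) S.β0

variable {S a} [a.Ok] {W W' : Set (J → ℂ)}

theorem Ok.ok1 (h : S.Ok a) : S.D1.Ok :=
  ⟨fun q => (h.ok0.ch q).comp (G' := KT c κ) Prod.snd, h.ok0.free⟩

theorem Ok.pr_lev (h : S.Ok a) : S.D0.rep.Pr S.D0.lev univ :=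
  Act.pr_of _ TD.isClosed_lev.isLocallyClosed (fun g _ => h.ok0.act_mem_lev g) isClosed_univ
    fun _ _ _ => trivial

theorem Ok.sp_R0 (h : S.Ok a) : S.Sp S.R0 :=
  have := h.repσ
  ⟨((Act.Rep.pr S.σ).preimage (φ := id) h.contr h.eqvr).mono h.pr_lev (subset_univ _),
    inter_subset_right⟩

theorem Ok.eadm_rel (h : S.Ok a) : EAdm S.D0.rep S.σ S.rel S.D0.lev S.R0 :=
  have := h.repσ
  ⟨h.sp_R0.pr, Act.Rep.pr _, h.contr.continuousOn, fun g y _ => h.eqvr g y, mapsTo_univ _ _,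
    fun _ _ k => k⟩

theorem Ok.pr_V1 (h : S.Ok a) (hW : S.D0.rep.Pr S.D0.lev W) :
    (S.b1 a).Pr S.V1 (Prod.fst ⁻¹' W) :=
  (hW.preimage (b := S.b1 a) (φ := om c κ) continuous_fst fun _ _ => rfl).mono (Z' := univ)
    ⟨(hW.lc.preimage continuous_fst).inter (h.pr.lc.preimage continuous_snd),
      fun g _ k => ⟨hW.inv (om c κ g) _ k.1, h.pr.inv g.2 _ k.2⟩,
      fun _ _ _ _ => trivial, fun _ _ => trivial⟩ fun _ k => k.1

theorem Ok.pr_Vt (h : S.Ok a) (hW : S.D0.rep.Pr S.D0.lev W) :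
    (S.bt a).Pr S.Vt {z | z.2.1 ∈ W} :=
  (h.pr_V1 hW).preimage (φ := id) continuous_snd fun _ _ => rfl

theorem Ok.pr_dia (h : S.Ok a) : (S.bt a).Pr S.Vt (S.Φ ⁻¹' {0}) :=
  have := h.repE
  ((Act.Rep.pr S.E).preimage (φ := id) h.contΦ h.eqvΦ).mono (h.pr_Vt h.pr_lev) (subset_univ _)

theorem Ok.pr_Zd (h : S.Ok a) (hW : S.D0.rep.Pr S.D0.lev W) : (S.bt a).Pr S.Vt (S.Zd W) :=
  (h.pr_Vt hW).inter h.pr_dia

theorem Ok.eadm_dia (h : S.Ok a) : EAdm (S.bt a) S.E S.Φ S.Vt (S.Φ ⁻¹' {0}) :=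
  have := h.repE
  ⟨h.pr_dia, Act.Rep.pr _, h.contΦ.continuousOn, fun g y _ => h.eqvΦ g y, mapsTo_univ _ _,
    fun _ _ k => k⟩

theorem Ok.gadm_pb (h : S.Ok a) (hW : S.D0.rep.Pr S.D0.lev W) :
    GAdm (S.bt a) S.D0.rep (om c κ) (fun z => z.2.1) S.Vt {z | z.2.1 ∈ W} S.D0.lev W :=
  ⟨h.pr_Vt hW, hW, continuous_snd.fst.continuousOn, fun _ _ _ => rfl, fun _ k => k.1,
    fun _ _ k => k⟩

theorem Ok.gadm_om (h : S.Ok a) (hW : S.D0.rep.Pr S.D0.lev W) :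
    GAdm S.D1.rep S.D0.rep (om c κ) id S.D0.lev W S.D0.lev W :=
  ⟨hW.res (om c κ), hW, continuousOn_id, fun _ _ _ => rfl, fun _ k => k, fun _ _ k => k⟩

theorem Ok.pr_lev0 (h : S.Ok a) : S.D0.rep.Pr (S.D0.lev ∩ S.R0) univ :=
  Act.pr_of _ (TD.isClosed_lev.inter (isClosed_singleton.preimage h.contr)).isLocallyClosed
    h.sp_R0.pr.inv_inter isClosed_univ fun _ _ _ => trivial

theorem Ok.gadm_j (h : S.Ok a) :
    GAdm S.D0.rep a (inc c _) S.j (S.D0.lev ∩ S.R0) univ S.Lv univ :=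
  ⟨h.pr_lev0, h.pr, h.contj.continuousOn, fun g y _ => h.eqvj g y, fun y k => h.memj y k.1 k.2,
    fun _ _ _ => trivial⟩

theorem Ok.ecup_dia (h : S.Ok a) (hW : S.D0.rep.Pr S.D0.lev W) :
    ECup (S.bt a) S.Vt {z | z.2.1 ∈ W} S.Vt (S.Φ ⁻¹' {0}) S.Vt (S.Zd W) :=
  ⟨h.pr_Vt hW, h.pr_dia, h.pr_Zd hW, .of_subset subset_rfl subset_rfl fun _ _ k k' => ⟨k, k'⟩⟩

theorem Ok.ecup_jb (h : S.Ok a) :
    ECup S.D0.rep (S.D0.lev ∩ S.R0) univ S.D0.lev S.R0 S.D0.lev S.R0 :=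
  ⟨h.pr_lev0, h.sp_R0.pr, h.sp_R0.pr, subset_union_right, fun y k => by
    by_cases e : y ∈ S.R0
    exacts [.inl ⟨k, e⟩, .inr ⟨k, e⟩], subset_union_right⟩

theorem Ok.fibT (h : S.Ok a) : Fib (a.res Prod.snd) (S.bt a) (S.D1.rep.sum S.L)
    (Prod.snd ∘ Prod.snd) (fun z => Sum.elim z.2.1 z.1) S.Lv :=
  ⟨continuous_snd.snd, fun _ _ => rfl,
    (continuous_pi fun q => by cases q <;> simp only [Sum.elim_inl, Sum.elim_inr] <;>
      fun_prop).continuousOn, fun _ _ _ => rfl,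
    fun z => (z.2 ∘ Sum.inr, z.2 ∘ Sum.inl, z.1), Continuous.continuousOn (by fun_prop),
    fun _ _ v => ⟨rfl, Sum.elim_comp_inl_inr v⟩, fun _ _ => rfl⟩

theorem Ok.admT (h : S.Ok a) (hW : S.Sp W) :
    S.D1.Adm a (S.bt a) (S.D1.rep.sum S.L) (Prod.snd ∘ Prod.snd) (fun z => Sum.elim z.2.1 z.1)
      (fun z => z.2.1) S.Lv univ S.Vt (S.Zd W) :=
  let ⟨R, r1, r2, r3⟩ := h.bdd
  ⟨h.ok1, h.fibT, h.pr, h.pr_Zd hW.pr, continuous_snd.fst.continuousOn, fun _ _ _ => rfl,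
    fun _ k k' => ⟨k, k'⟩, fun _ _ _ _ => trivial, R, r1, r2, fun z k k₁ k₂ =>
    ((nsq_splitT (Equiv.refl _) _).trans (add_comm _ _)).trans_le
      (r3 z ⟨⟨k₁, k₂⟩, hW.sub ⟨k₁, k.1⟩, k.2⟩)⟩

theorem Ok.adm1 (h : S.Ok a) (hW : S.D0.rep.Pr S.D0.lev W) (hb : S.Bd W) :
    S.D1.Adm a (S.b1 a) S.D1.rep Prod.snd Prod.fst Prod.fst S.Lv univ S.V1 (Prod.fst ⁻¹' W) :=
  let ⟨B, hB⟩ := hb
  ⟨h.ok1, ⟨continuous_snd, fun _ _ => rfl, continuousOn_fst, fun _ _ _ => rfl, Prod.swap,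
    continuous_swap.continuousOn, fun _ _ _ => ⟨rfl, rfl⟩, fun _ _ => rfl⟩, h.pr, h.pr_V1 hW,
    continuousOn_fst, fun _ _ _ => rfl, fun _ k k' => ⟨k, k'⟩, fun _ _ _ _ => trivial,
    fun _ => B, continuousOn_const, fun _ _ _ => rfl, fun z k k' _ => hB z.1 k' k⟩

theorem Ok.admP (h : S.Ok a) (hW : S.D0.rep.Pr S.D0.lev W) (hb : S.Bd W) :
    S.D1.Adm (Act.pt _) S.D1.rep S.D1.rep (fun _ => ()) id id univ univ S.D0.lev W :=
  let ⟨B, hB⟩ := hb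
  have := h.ok1.rep
  ⟨h.ok1, fib_pt _, Act.pr_pt _, hW.res (om c κ), continuousOn_id, fun _ _ _ => rfl,
    fun _ k _ => k, fun _ _ _ _ => trivial, fun _ => B, continuousOn_const, fun _ _ _ => rfl,
    fun z k k' _ => hB z k' k⟩

end ESD

end Pool.Agent.Work.MP_849ab0_ag.G
end
end

-- merged part: Pool.Agent.Work.MP_849ab0_ag.G.H2.EsA
section
/-!
The diagonal integral is tautological, and linear over the cohomology of `Lv`.

Hints.  Use `haveI := h.repL`, `h.repE`, `h.ok1.rep`, `h.ok0.rep`.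
`JJ_eq`: `TD.int_intg` (right to left) with `isSum_sum`, `q = Prod.snd`, `F₂ = Prod.fst`, `adm1`,
`admT` and the `IAdm` given by `dm_adm` (`fib_prod`, `U = V1`, `Z₁ = Z₂ = Prod.fst ⁻¹' W`; the support
is `Zd W` by `rfl`); `dm` with `γ = gp b1 om Prod.fst V1 (Prod.fst ⁻¹' W) β` (`gp_comp` shows that
`pb β` is its pull-back); `TD.gp_int` from the point with `φ = id`, `f' = Prod.fst`
(`mapT P id = id` by `rfl`), `gp_sm`, `gpt_id`, `gp_comp`.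
`JJ_jb`: `gp_ecup` gives `pb (jb g) = G₁ ∪ pb β0`, `G₁ = gp bt (inc ∘ om) (j ∘ y) g` on
`Vt ∩ {y ∈ R0}`; `ecup_assoc`; restrict `G₁` to `Z = Vt ∩ Zd R0` (`ecup_gp_left`, `gp_comp`);
`gp_conj` (ApiX) with `k z = (S.k z.1, 1)` replaces it by the restriction of
`gp bt Prod.snd (Prod.snd ∘ Prod.snd) g`; `TD.int_ecup` with `U₁ = Lv`, `Z₁ = univ`; `mul_def`.
-/

noncomputable section

set_option linter.unusedSectionVars false
set_option linter.unusedVariables false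

namespace Pool.Agent.Work.MP_849ab0_ag.G

open Set Topology Matrix

namespace ESD

variable {P C : Type} [Fintype P] [DecidableEq P] {c : P → C} {κ : Type} [Fintype κ]
  [DecidableEq κ] {X J Jr JL JE Js : Type} [TopologicalSpace X] [T3Space X]
  [SecondCountableTopology X] [Fintype J] [Fintype Jr] [Fintype JL] [Fintype JE] [Fintype Js]
  {S : ESD c κ X J Jr JL JE Js} {a : Act (KT c κ) X} [a.Ok] {W W' : Set (J → ℂ)}

theorem Ok.JJ_eq (h : S.Ok a) (hW : S.Sp W) (hb : S.Bd W) (β : EH S.D0.rep S.D0.lev W) :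
    S.JJ a W β =
      kpt a S.Lv (S.intP (sm (vq S.L S.E) (gp S.D1.rep (om c κ) id S.D0.lev W β))) := by
  have := h.repL
  have := h.repE
  have := h.ok1.rep
  have := h.ok0.rep
  have p1 := h.pr_V1 hW.pr
  have aff : AffOn (Prod.snd : (JL → ℂ) × (J → ℂ) × X → _) Prod.fst S.Φ
      (S.V1 ∩ Prod.fst ⁻¹' W) := fun x hx => by
    obtain ⟨M, r, h1, h2⟩ := h.aff x.1 hx.1.1 (hW.sub ⟨hx.1.1, hx.2⟩) x.2 hx.1.2
    exact ⟨M, r, h1, fun z e => by rw [← h2, ← e]⟩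
  have ia : IAdm (S.b1 a) (S.bt a) S.L Prod.snd Prod.fst S.V1 (Prod.fst ⁻¹' W) S.Vt (S.Zd W) :=
    dm_adm (fib_prod p1) p1 p1 h.eadm_dia (fun _ k => k.1) aff fun _ _ k _ => k
  have k1 : GAdm (S.b1 a) S.D0.rep (om c κ) Prod.fst S.V1 (Prod.fst ⁻¹' W) S.D0.lev W :=
    ⟨p1, hW.pr, continuous_fst.continuousOn, fun _ _ _ => rfl, fun _ k => k.1, fun _ _ k => k⟩
  have k2 : GAdm (S.bt a) (S.b1 a) id Prod.snd S.Vt {z | z.2.1 ∈ W} S.V1 (Prod.fst ⁻¹' W) :=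
    ⟨h.pr_Vt hW.pr, p1, continuous_snd.continuousOn, fun _ _ _ => rfl, fun _ k => k,
      fun _ _ k => k⟩
  have k3 : GAdm (S.b1 a) S.D1.rep (mapT P id) Prod.fst S.V1 (Prod.fst ⁻¹' W) S.D0.lev W :=
    ⟨p1, (h.gadm_om hW.pr).src, continuous_fst.continuousOn, fun _ _ _ => rfl, fun _ k => k.1,
      fun _ _ k => k⟩
  have e1 := TD.int_intg isSum_sum (h.adm1 hW.pr hb) ia (h.admT hW) (fun _ _ => rfl)
    (fun _ _ => rfl) (fun _ _ => rfl) (ecup S.Vt (S.Zd W) (S.pb a W β) (S.dia a))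
  have e2 := dm ia h.eadm_dia (fun _ k => k.1) aff (h.ecup_dia hW.pr)
    (gp (S.b1 a) (om c κ) Prod.fst S.V1 (Prod.fst ⁻¹' W) β)
  have e3 : gp (S.bt a) id Prod.snd S.Vt {z | z.2.1 ∈ W}
      (gp (S.b1 a) (om c κ) Prod.fst S.V1 (Prod.fst ⁻¹' W) β) = S.pb a W β :=
    gp_comp k1 k2 (fun _ => rfl) (fun _ _ => rfl) β
  have e4 := TD.gp_int (φ := id) (h.admP hW.pr hb) (h.adm1 hW.pr hb) rfl rfl (fun _ _ => rfl)
    (gadm_pt h.pr id) k3 (fun _ _ => rfl) (fun _ _ => rfl) (fun _ _ => rfl) (fun _ _ => rfl)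
    (sm (vq S.L S.E) (gp S.D1.rep (om c κ) id S.D0.lev W β))
  have e5 : gpt (mapT P (id : (KT c κ).H → _)) (vq S.L S.E) = vq S.L S.E := gpt_id _
  rw [gp_sm k3, e5, gp_comp (h.gadm_om hW.pr) k3 (χ := om c κ) (fun _ => rfl) (k := Prod.fst)
    (fun _ _ => rfl), ← e2] at e4
  refine e1.symm.trans (Eq.trans ?_ e4.symm)
  rw [← e3]
  rfl

theorem Ok.JJ_jb (h : S.Ok a) (g : EH a S.Lv univ) : S.JJ a S.R0 (S.jb a g) = g * S.NN a := by
  have := h.repL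
  have := h.repE
  have := h.ok1.rep
  have := h.ok0.rep
  have pR := h.sp_R0.pr
  have pV := h.pr_Vt pR
  have pZ := h.pr_Zd pR
  have top : ∀ {Z}, (S.bt a).Pr S.Vt Z → (S.bt a).Pr (S.Vt ∩ Z) univ := fun {Z} k =>
    ⟨by
      obtain ⟨O, F, h1, h2, h3⟩ := k.lc
      refine ⟨O, F ∩ closure (S.Vt ∩ Z), h1, h2.inter isClosed_closure, ?_⟩
      rw [← inter_assoc, ← h3]
      exact Subset.antisymm (fun _ m => ⟨m.1, subset_closure m⟩) fun _ m => ⟨m.1, k.cl m⟩,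
      k.inv_inter, fun _ _ _ _ => trivial, fun _ _ => trivial⟩
  have pA := top pV
  have pB := top pZ
  have pL : (S.bt a).Pr ((Prod.snd ∘ Prod.snd) ⁻¹' S.Lv) univ :=
    h.pr.preimage (φ := Prod.snd) (continuous_snd.comp continuous_snd) fun _ _ => rfl
  have sB : S.Vt ∩ S.Zd S.R0 ⊆ S.Vt ∩ {z | z.2.1 ∈ S.R0} := fun _ k => ⟨k.1, k.2.1⟩
  have cA : ECup (S.bt a) (S.Vt ∩ {z | z.2.1 ∈ S.R0}) univ S.Vt {z | z.2.1 ∈ S.R0} S.Vt
      {z | z.2.1 ∈ S.R0} :=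
    ⟨pA, pV, pV, fun _ k => .inr k, fun z k => (em (z.2.1 ∈ S.R0)).imp (⟨k, ·⟩) (⟨k, ·⟩),
      fun _ k => .inr k⟩
  have cZ : ∀ {V}, (S.bt a).Pr V univ → S.Vt ∩ S.Zd S.R0 ⊆ V →
      ECup (S.bt a) V univ S.Vt (S.Zd S.R0) S.Vt (S.Zd S.R0) := fun k e =>
    ⟨k, pZ, pZ, fun _ k => .inr k, fun z k => (em (z ∈ S.Zd S.R0)).imp (fun m => e ⟨k, m⟩) (⟨k, ·⟩),
      fun _ k => .inr k⟩
  have kA : GAdm (S.bt a) S.D0.rep (om c κ) (fun z => z.2.1) (S.Vt ∩ {z | z.2.1 ∈ S.R0}) univ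
      (S.D0.lev ∩ S.R0) univ :=
    ⟨pA, h.gadm_j.src, by fun_prop, fun _ _ _ => rfl, fun _ k => ⟨k.1.1, k.2⟩, fun _ _ _ => trivial⟩
  have kL : GAdm (S.bt a) a Prod.snd (Prod.snd ∘ Prod.snd) ((Prod.snd ∘ Prod.snd) ⁻¹' S.Lv) univ
      S.Lv univ := ⟨pL, h.pr, by fun_prop, fun _ _ _ => rfl, fun _ k => k, fun _ _ _ => trivial⟩
  have iA := gadm_id pA pB sB (subset_univ _)
  have iL := gadm_id pL pB (fun _ k => k.1.2) (subset_univ _)
  have e1 : S.pb a S.R0 (S.jb a g) = _ := gp_ecup h.ecup_jb cA (h.gadm_pb pR) kA (h.gadm_pb pR)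
    inter_subset_left subset_rfl _ _
  have kJ : GAdm (S.bt a) a (inc c _ ∘ om c κ) (fun z => S.j z.2.1) (S.Vt ∩ S.Zd S.R0) univ S.Lv
    univ := (h.gadm_j.comp kA).comp iA
  have kK : GAdm (S.bt a) a Prod.snd (Prod.snd ∘ Prod.snd) (S.Vt ∩ S.Zd S.R0) univ S.Lv univ :=
    kL.comp iL
  have e2 := gp_conj kJ kK (k := fun z => (S.k z.1, 1))
    (h.contk.prodMk continuousOn_const) h.zero (fun u z hz => Prod.ext (h.eqvk u z hz)
      (show (1 : κ → Circle) = u.2.2 * 1 * u.2.2⁻¹ by simp)) g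
  rw [← gp_comp (h.gadm_j.comp kA) iA (χ := inc c _ ∘ om c κ) (fun _ => rfl)
      (k := fun z => S.j z.2.1) (fun _ _ => rfl),
    ← gp_comp h.gadm_j kA (χ := inc c _ ∘ om c κ) (fun _ => rfl) (k := S.j ∘ fun z => z.2.1)
      (fun _ _ => rfl),
    ← gp_comp kL iL (χ := Prod.snd) (fun _ => rfl) (k := Prod.snd ∘ Prod.snd) (fun _ _ => rfl)] at e2
  have e3 := TD.int_ecup (h.admT h.sp_R0) (h.admT h.sp_R0) (ecup_top h.pr) (cZ pL fun _ k => k.1.2)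
    subset_rfl g (ecup S.Vt (S.Zd S.R0) (S.pb a S.R0 S.β0) (S.dia a))
  refine Eq.trans ?_ e3
  rw [JJ, e1, ecup_assoc cA (h.ecup_dia pR) (h.ecup_dia pR) (cZ pA sB),
    ← ecup_gp_left (cZ pB subset_rfl) iA, e2, ecup_gp_left (cZ pB subset_rfl) iL]
  rfl

end ESD

end Pool.Agent.Work.MP_849ab0_ag.G
end
end

-- merged part: Pool.Agent.Work.MP_849ab0_ag.G.H2.EsC
section
/-!
The normalising class is a unit.

Hints.  `isDeg_NN`: `TD.isDeg_int`, `IsDeg.ecup`, `IsDeg.sm`, `isDeg_pol` (a product of `|Js|` linear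
forms is homogeneous), `isDeg_eul`, `h.dim`.  `NN_ne`: `TD.gp_int` with `φ = fun _ => 1` from
`Gp.one`, `X' = Unit`, `Y' = J ⊕ JL → ℂ` with `ρ' = (D1.rep.sum L).res (mapT P fun _ => 1)`,
`D' = ⟨D0.m, fun _ _ => 1, D0.θ⟩`, `f' v = (v ∘ inr, v ∘ inl, x)`, `V' = {v | v ∘ inl ∈ lev}`,
`W' = {v | rel (v ∘ inl) = 0 ∧ Φ (f' v) = 0}`.  The pulled back class is
`sm (polx stc) (eul (rel, Φ))` (`gp_ecup`, `gp_sm`, `gp_eul`, `gpt_mapT_polx`, `ecup_sm_left`,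
`eul_sum`), which is the image of `eul Γ V' W''`, `Γ v = (rel, Φ, v ∘ inr ∘ si)`,
`W'' = W' ∩ {v ∘ inr ∘ si = 0}` (`eul_sum`, `gp_id_ecup`, `ecup_gp_right`, `gp_eul`, `eul_univ`; the
last summand is `Act.dg fun z g => chr (mL (si z)) g.1`, its `euc` is `polx stc` by `euc_res`,
`euc_dg`).  `TD.int_gp_id`, then `TD.norm_pt` with `O = univ`, `V₀ = V'`, `i = Sum.inl`,
`mt = Sum.elim D0.m mL` and `h.norm`.
-/

noncomputable section

set_option linter.unusedSectionVars false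
set_option linter.unusedVariables false

namespace Pool.Agent.Work.MP_849ab0_ag.G

open Set Topology Matrix

theorem eul_sum_univ {G : Gp} [G.Nice] {Y J₁ J₂ : Type} [TopologicalSpace Y] [T3Space Y]
    [SecondCountableTopology Y] [Fintype J₁] [Fintype J₂] {b : Act G Y} [b.Ok]
    {ρ₁ : Act G (J₁ → ℂ)} [ρ₁.Rep] {ρ₂ : Act G (J₂ → ℂ)} [ρ₂.Rep] {F₁ : Y → J₁ → ℂ}
    {F₂ : Y → J₂ → ℂ} {V W : Set Y} (h₁ : EAdm b ρ₁ F₁ V W) (h₂ : EAdm b ρ₂ F₂ V univ) :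
    eul b (ρ₁.sum ρ₂) (fun y => Sum.elim (F₁ y) (F₂ y)) V W = sm (euc ρ₂) (eul b ρ₁ F₁ V W) := by
  have k := (ecup_top h₁.src).symm
  refine (eul_sum (F := fun y => Sum.elim (F₁ y) (F₂ y)) isSum_sum h₁ h₂ h₁.src
    fun _ k => k.1.2).trans ((congrArg _ (eul_univ h₂)).trans ?_)
  rw [ecup_sm_right k ev_eucT, ecup_eone k (gadm_id h₁.src h₁.src subset_rfl inter_subset_right),
    gp_id h₁.src]
  rfl

namespace ESD

variable {P C : Type} [Fintype P] [DecidableEq P] {c : P → C} {κ : Type} [Fintype κ]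
  [DecidableEq κ] {X J Jr JL JE Js : Type} [TopologicalSpace X] [T3Space X]
  [SecondCountableTopology X] [Fintype J] [Fintype Jr] [Fintype JL] [Fintype JE] [Fintype Js]
  {S : ESD c κ X J Jr JL JE Js} {a : Act (KT c κ) X} [a.Ok] {W W' : Set (J → ℂ)}

theorem isHomogeneous_stc : S.stc.IsHomogeneous (Fintype.card Js) := by
  simpa [stc] using MvPolynomial.IsHomogeneous.prod Finset.univ (fun z => lf ℂ (S.mL (S.si z)))
    (fun _ => 1) fun z _ => MvPolynomial.IsHomogeneous.sum _ _ _ fun j _ => by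
      simpa using (MvPolynomial.isHomogeneous_X ℂ j).C_mul (S.mL (S.si z) j : ℂ)

theorem Ok.isDeg_NN (h : S.Ok a) : IsDeg 0 (S.NN a) := by
  have := h.repσ
  have := h.repL
  have := h.repE
  have := h.ok0.rep
  have := h.ok1.rep
  have k : IsDeg (2 * Fintype.card Js + 2 * Fintype.card Jr) S.β0 :=
    IsDeg.sm ((isDeg_pol isHomogeneous_stc).gp _ _) isDeg_eul
  refine TD.isDeg_int (h.admT h.sp_R0) ?_
  have e : 0 + 2 * (Fintype.card (J ⊕ JL) : ℤ) - 2 * Fintype.card P =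
      2 * Fintype.card Js + 2 * Fintype.card Jr + 2 * Fintype.card JE := by
    have := h.dim
    rw [Fintype.card_sum]
    omega
  exact e ▸ (k.gp _ _).ecup isDeg_eul

theorem Ok.NN_ne (h : S.Ok a) {x : X} (hx : x ∈ S.Lv) :
    gp (Act.pt Gp.one) (fun _ => 1) (fun _ => x) univ univ (S.NN a) ≠ 0 := by
  have := h.repσ
  have := h.repL
  have := h.repE
  have := h.ok0.rep
  have := h.ok1.rep
  obtain ⟨l₀, y₀, m₀, s₀, u₀, r', Φ', dr, dΦ, hk⟩ := h.norm x hx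
  obtain ⟨R, -, -, hR⟩ := h.bdd
  let ψ := mapT P (H := KT c κ) (H' := Gp.one) fun _ => 1
  let χ := mapT P (H := Gp.tor κ) (H' := Gp.one) fun _ => 1
  let ρ := (S.D1.rep.sum S.L).res ψ
  let τ : Act (Gp.tor P) (Js → ℂ) := Act.dg fun z => chr (S.mL (S.si z))
  have : τ.Rep := Act.rep_dg fun _ => isChar_chr _
  let σ := ((S.σ.res χ).sum (S.E.res ψ)).sum (τ.res (G' := TG P Gp.one) Prod.fst)
  let D : TD P J Gp.one := ⟨S.D0.m, fun q _ => S.D0.c q 1, S.D0.θ⟩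
  let f : (J ⊕ JL → ℂ) → (JL → ℂ) × (J → ℂ) × X := fun v => (v ∘ .inr, v ∘ .inl, x)
  let Γ : (J ⊕ JL → ℂ) → (Jr ⊕ JE) ⊕ Js → ℂ := fun v =>
    Sum.elim (Sum.elim (S.rel (v ∘ .inl)) (S.Φ (f v))) (v ∘ .inr ∘ S.si)
  have cf : Continuous f := by fun_prop
  have ef : ∀ g v, f (ρ.act g v) = (S.bt a).act (ψ g) (f v) := fun g v =>
    Prod.ext rfl (Prod.ext rfl (a.act_one x).symm)
  have gf : ∀ {Z}, (S.bt a).Pr S.Vt Z →
      GAdm ρ (S.bt a) ψ f (f ⁻¹' S.Vt) (f ⁻¹' Z) S.Vt Z := fun k =>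
    ⟨k.preimage cf ef, k, cf.continuousOn, fun g v _ => ef g v, fun _ k => k, fun _ _ k => k⟩
  have hρ : ∀ g w q, ρ.act g w q = chr (Sum.elim S.D0.m S.mL q) g.1 * w q := by
    rintro g w (q | q)
    · exact congrArg (· * w _) ((congrArg _ (h.ok0.ch q).one).trans (mul_one _))
    · exact h.wL g.1 _ q
  have k₀ := gf (h.pr_Zd h.sp_R0.pr)
  have k₁ := gf (h.pr_Vt h.sp_R0.pr)
  have k₂ := gf h.eadm_dia.src
  have k₃ : GAdm ρ S.D0.rep χ (fun v => v ∘ .inl) (f ⁻¹' S.Vt) (f ⁻¹' {z | z.2.1 ∈ S.R0})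
      S.D0.lev S.R0 := (h.gadm_pb h.sp_R0.pr).comp k₁
  have e₁ : EAdm ρ (S.σ.res χ) (fun v => S.rel (v ∘ .inl)) (f ⁻¹' S.Vt)
      (f ⁻¹' {z | z.2.1 ∈ S.R0}) := ⟨k₃.src, Act.Rep.pr _, (h.eadm_rel.comp k₃).cont,
    (h.eadm_rel.comp k₃).eqv, mapsTo_univ _ _, fun _ _ k => k⟩
  have e₂ : EAdm ρ (S.E.res ψ) (fun v => S.Φ (f v)) (f ⁻¹' S.Vt) (f ⁻¹' (S.Φ ⁻¹' {0})) :=
    ⟨k₂.src, Act.Rep.pr _, (h.eadm_dia.comp k₂).cont, (h.eadm_dia.comp k₂).eqv, mapsTo_univ _ _,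
      fun _ _ k => k⟩
  have e₃ := eadm_comp (ρ := ρ) (ρ₁ := τ.res (G' := TG P Gp.one) Prod.fst) (i := .inr ∘ S.si)
    fun g w => funext fun z => hρ g w _
  have e₄ : ∀ {Z}, ρ.Pr univ Z → {v | v ∘ .inr ∘ S.si = 0} ⊆ Z →
      EAdm ρ (τ.res (G' := TG P Gp.one) Prod.fst) (fun v => v ∘ .inr ∘ S.si) (f ⁻¹' S.Vt) Z :=
    fun k m => ⟨k.mono k₀.src (subset_univ _), e₃.tgt, e₃.cont.mono (subset_univ _),
      fun g v _ => e₃.eqv g v trivial, mapsTo_univ _ _, fun _ _ k => m k⟩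
  have e₅ := IsSum.eadm (F := fun v => Sum.elim (S.rel (v ∘ .inl)) (S.Φ (f v))) isSum_sum e₁ e₂
    k₀.src fun _ k => ⟨k.1.2, k.2⟩
  have p₆ := k₀.src.inter (e₄ e₃.src subset_rfl).src
  have e₆ := IsSum.eadm (F := Γ) isSum_sum e₅ (e₄ e₃.src subset_rfl) p₆ fun _ k => ⟨k.1.2, k.2⟩
  have ad : ∀ {Z}, ρ.Pr (f ⁻¹' S.Vt) Z → Z ⊆ f ⁻¹' S.Zd S.R0 → D.Adm (Act.pt _) ρ ρ
      (fun _ => ()) id (fun z => z ∘ .inl) univ univ (f ⁻¹' S.Vt) Z := fun k m =>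
    ⟨⟨fun q => (h.ok0.ch q).comp (G' := Gp.one) fun _ => 1, h.ok0.free⟩, fib_pt _, Act.pr_pt _, k,
      (cont_comp_right _).continuousOn, fun _ _ _ => rfl, fun _ k _ => ⟨k, hx⟩,
      fun _ _ _ _ => trivial, fun _ => R x, continuousOn_const, fun _ _ _ => rfl, fun z k k' _ =>
      ((nsq_splitT (Equiv.refl _) _).trans (add_comm _ _)).trans_le (hR (f z) ⟨⟨k', hx⟩, m k⟩)⟩
  have g₆ := gadm_id p₆ k₀.src subset_rfl fun _ k => k.2.1
  have key : gp ρ ψ f (f ⁻¹' S.Vt) (f ⁻¹' S.Zd S.R0)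
      (ecup S.Vt (S.Zd S.R0) (S.pb a S.R0 S.β0) (S.dia a)) =
      gp ρ id id (f ⁻¹' S.Vt) (f ⁻¹' S.Zd S.R0) (eul ρ σ Γ (f ⁻¹' S.Vt)
        (f ⁻¹' S.Zd S.R0 ∩ {v | v ∘ .inr ∘ S.si = 0})) := by
    have c₀ : ECup ρ _ _ _ _ _ _ := ⟨k₁.src, k₂.src, k₀.src,
      .of_subset subset_rfl subset_rfl fun _ _ k k' => ⟨k, k'⟩⟩
    rw [gp_eul e₆ g₆ (σ := σ) (fun _ _ => rfl) (F' := Γ) fun _ _ => rfl,
      eul_sum_univ e₅ (e₄ ρ.pr_top (subset_univ _)), ← euc_res, euc_dg,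
      gp_ecup (h.ecup_dia h.sp_R0.pr) c₀ k₀ k₁ k₂ subset_rfl subset_rfl, pb, dia, β0,
      gp_comp (h.gadm_pb h.sp_R0.pr) k₁ (χ := χ) (fun _ => rfl) (k := fun v => v ∘ .inl)
        fun _ _ => rfl, gp_sm k₃, gpt_mapT_polx, ecup_sm_left c₀,
      gp_eul h.eadm_rel k₃ (σ := S.σ.res χ) (fun _ _ => rfl) (F' := fun v => S.rel (v ∘ .inl))
        fun _ _ => rfl, gp_eul h.eadm_dia k₂ (σ := S.E.res ψ) (fun _ _ => rfl)
        (F' := fun v => S.Φ (f v)) fun _ _ => rfl]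
    exact congrArg _ (eul_sum (F := fun v => Sum.elim (S.rel (v ∘ .inl)) (S.Φ (f v))) isSum_sum
      e₁ e₂ k₀.src fun _ k => ⟨k.1.2, k.2⟩).symm
  rw [NN, JJ, intT, TD.gp_int (φ := fun _ => 1) (h.admT h.sp_R0) (ad k₀.src subset_rfl) rfl rfl
    (fun _ _ => rfl) ⟨Act.pr_pt _, h.pr, continuousOn_const, fun _ _ _ => (a.act_one x).symm,
      fun _ _ => hx, fun _ _ _ => trivial⟩ k₀ (fun _ _ => rfl) (fun _ _ => rfl)
    (fun z _ => Sum.elim_comp_inl_inr z) fun _ _ => rfl, key,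
    TD.int_gp_id (ad p₆ inter_subset_left) (ad k₀.src subset_rfl) g₆]
  let A₁ : (J ⊕ JL → ℂ) →L[ℝ] J → ℂ := .pi fun q => .proj (.inl q)
  let A₂ : (J ⊕ JL → ℂ) →L[ℝ] JL → ℂ := .pi fun q => .proj (.inr q)
  have dΓ : HasFDerivAt Γ (ContinuousLinearMap.pi (Sum.elim (Sum.elim
      (fun q => (ContinuousLinearMap.proj q).comp (r'.comp A₁))
      fun q => (ContinuousLinearMap.proj q).comp (Φ'.comp (A₂.prod A₁)))
      fun z => .proj (.inr (S.si z)))) (Sum.elim y₀ l₀) := hasFDerivAt_pi.2 (by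
    rintro ((q | q) | z)
    · exact hasFDerivAt_pi'.1 (HasFDerivAt.comp (f := A₁) _ dr A₁.hasFDerivAt) q
    · exact hasFDerivAt_pi'.1 (HasFDerivAt.comp (f := A₂.prod A₁) (Sum.elim y₀ l₀) dΦ
        (A₂.prod A₁).hasFDerivAt) q
    · exact (ContinuousLinearMap.proj (R := ℝ) (φ := fun _ => ℂ) (Sum.inr (S.si z))).hasFDerivAt)
  refine TD.norm_pt (σ := σ) (z₀ := Sum.elim y₀ l₀) hρ .inl (fun _ => rfl)
    (ad p₆ inter_subset_left) m₀.1.1 (fun z k k' => ?_) isOpen_univ trivial (fun _ _ _ => trivial)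
    (Γ := Γ) ?_ (fun g z _ => ?_) ?_ p₆ (fun _ k => ⟨trivial, k⟩) (fun _ _ k => ⟨k, hx⟩)
    e₆.supp (gp_id p₆ _) dΓ (fun δ k k' => ?_) ?_
  · obtain ⟨g, g₁, g₂⟩ := u₀ _ _ ⟨⟨k', hx⟩, k.1⟩ k.2
    refine ⟨(g, 1), funext ?_⟩
    rintro (q | q)
    exacts [congrFun g₂ q, congrFun g₁ q]
  · refine (continuous_pi ?_).continuousOn
    rintro ((q | q) | z)
    exacts [(continuous_apply q).comp (h.contr.comp A₁.continuous),
      (continuous_apply q).comp (h.contΦ.comp cf), continuous_apply _]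
  · funext q
    rcases q with (q | q) | q
    exacts [congrFun (h.eqvr (χ g) _) q, congrFun ((congrArg _ (ef g z)).trans (h.eqvΦ _ _)) q,
      hρ g z _]
  · funext q
    rcases q with (q | q) | q
    exacts [congrFun m₀.2.1 q, congrFun m₀.2.2 q, congrFun s₀ q]
  · obtain ⟨ξ, a₁, a₂⟩ := hk (A₂ δ) (A₁ δ) (funext fun q => congrFun k (.inl (.inl q)))
      (funext fun q => congrFun k (.inl (.inr q))) (funext fun q => congrFun k (.inr q)) k'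
    refine ⟨ξ, ?_⟩
    rintro (q | q)
    exacts [a₂ q, a₁ q]
  · have := h.dim
    simp only [Fintype.card_sum]
    omega

theorem Ok.isUnit_NN (h : S.Ok a) : IsUnit (S.NN a) :=
  isUnit_of_deg0 h.pr h.isDeg_NN fun _ hx => h.NN_ne hx

end ESD

end Pool.Agent.Work.MP_849ab0_ag.G
end
end

-- merged part: Pool.Agent.Work.MP_849ab0_ag.G.H2.EsM
section
/-!
The abstract diagonal theorem.

Hints.  `JJ_tau`: `TD.int_gp_id` enlarges the support from `Zd (W ∩ R0)` to `Zd R0`;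
`gp id id lev R0 (τ ∪ β) = sm (gpt snd s) β` (`gp_id_ecup`, `ecup_gp_left`, `sm` unfolds to
`ecup _ _ (kpt ..)`); `gp_sm`, `gpt_comp`, `ecup_sm_left`, `TD.int_sm`.
`intP_kill`: enlarge the support from `W ∩ R0` to `W` (`TD.int_gp_id` with `admP`); the image of
`jb (kpt c)` in `EH lev univ` is `sm (gpt inc c) (sm (polx stc) (sm (euc σ) 1))` (`gp_kpt`,
`eul_univ`), which is `sm (polx stc) (kpt (gpt inc c * euc σ)) = 0` (all of `HPt (TG P (tor κ))` is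
even: `pol2_bij`, `ev_pol2`; `kpt_mul`, `sm_mul`).
-/

noncomputable section

set_option linter.unusedSectionVars false
set_option linter.unusedVariables false

namespace Pool.Agent.Work.MP_849ab0_ag.G

open Set Topology Matrix

namespace ESD

variable {P C : Type} [Fintype P] [DecidableEq P] {c : P → C} {κ : Type} [Fintype κ]
  [DecidableEq κ] {X J Jr JL JE Js : Type} [TopologicalSpace X] [T3Space X]
  [SecondCountableTopology X] [Fintype J] [Fintype Jr] [Fintype JL] [Fintype JE] [Fintype Js]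
  {S : ESD c κ X J Jr JL JE Js} {a : Act (KT c κ) X} [a.Ok] {W W' : Set (J → ℂ)}

variable {τ : EH S.D0.rep S.D0.lev W} {s : HPt (Gp.tor κ)}

theorem Ok.JJ_tau (h : S.Ok a) (hW : S.D0.rep.Pr S.D0.lev W)
    (hτ : gp S.D0.rep id id S.D0.lev univ τ = kpt S.D0.rep S.D0.lev (gpt Prod.snd s))
    (β : EH S.D0.rep S.D0.lev S.R0) :
    S.JJ a (W ∩ S.R0) (ecup S.D0.lev (W ∩ S.R0) τ β) = sm (gpt Prod.snd s) (S.JJ a S.R0 β) := by
  have := h.repL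
  have := h.repE
  have := h.ok1.rep
  have := h.ok0.rep
  have pR := h.sp_R0.pr
  have pW := hW.inter pR
  have k1 := gadm_id (h.pr_Zd pW) (h.pr_Zd pR) subset_rfl fun _ k => ⟨k.2.1.2, k.2.2⟩
  have k2 := gadm_id (h.pr_Vt pW) (h.pr_Vt pR) subset_rfl fun _ k => k.2.2
  have k3 := gadm_id pW pR subset_rfl fun _ k => k.2.2
  have e1 : gp S.D0.rep id id S.D0.lev S.R0 (ecup S.D0.lev (W ∩ S.R0) τ β) =
      sm (gpt Prod.snd s) β := by
    rw [gp_id_ecup (ecup_of hW pR pW fun _ k => ⟨k.1.2, k.2⟩) k3, ← ecup_gp_left (ecup_top pR)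
      (gadm_id hW h.pr_lev subset_rfl (subset_univ _)), hτ, sm_def]
  have e2 : ∀ γ, gp (S.bt a) id id S.Vt {z | z.2.1 ∈ S.R0} (S.pb a (W ∩ S.R0) γ) =
      S.pb a S.R0 (gp S.D0.rep id id S.D0.lev S.R0 γ) := fun γ =>
    (gp_comp (h.gadm_pb pW) k2 (χ := om c κ) (fun _ => rfl) (k := fun z => z.2.1)
      (fun _ _ => rfl) γ).trans (gp_comp k3 (h.gadm_pb pR) (fun _ => rfl) (fun _ _ => rfl) γ).symm
  have i0 : IsHom (G := Gp.tor κ) (G' := TG P (KT c κ)) fun g => g.2.2 :=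
    ⟨fun _ _ => rfl, continuous_snd.snd⟩
  have e3 : gpt (om c κ) (gpt Prod.snd s) =
      gpt (G' := TG P (KT c κ)) Prod.snd (gpt (G' := KT c κ) Prod.snd s) := by
    rw [gpt_comp (χ := fun g : (TG P (KT c κ)).H => g.2.2) fun _ => rfl,
      gpt_comp (ψ := om c κ) (χ := fun g : (TG P (KT c κ)).H => g.2.2) fun _ => rfl]
  have e4 : S.pb a S.R0 (sm (gpt Prod.snd s) β) = sm (gpt (om c κ) (gpt Prod.snd s))
    (S.pb a S.R0 β) := gp_sm (h.gadm_pb pR) _ _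
  have e5 := TD.int_gp_id (h.admT ⟨pW, fun _ k => k.2.2⟩) (h.admT h.sp_R0) k1
    (ecup S.Vt (S.Zd (W ∩ S.R0)) (S.pb a (W ∩ S.R0) (ecup S.D0.lev (W ∩ S.R0) τ β)) (S.dia a))
  rw [gp_id_ecup (h.ecup_dia pW) k1, ← ecup_gp_left (h.ecup_dia pR) k2, e2, e1, e4, e3,
    ecup_sm_left (h.ecup_dia pR), TD.int_sm (h.admT h.sp_R0)] at e5
  exact e5.symm

theorem Ok.intP_kill (h : S.Ok a) (hW : S.D0.rep.Pr S.D0.lev W) (hb : S.Bd W)
    (τ : EH S.D0.rep S.D0.lev W) (q : HPt (TG P (KT c κ))) {d : HPt (KT c κ)}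
    (hd : kpt S.D0.rep S.D0.lev (gpt (inc c _) d * euc S.σ) = 0) :
    S.intP (sm q (gp S.D1.rep (om c κ) id S.D0.lev (W ∩ S.R0)
      (ecup S.D0.lev (W ∩ S.R0) τ (S.jb a (kpt a S.Lv d))))) = 0 := by
  have := h.repσ
  have := h.ok1.rep
  have := h.ok0.rep
  have pR := h.sp_R0.pr
  have pW := hW.inter pR
  have pL := h.pr_lev
  have k1 := gadm_id (h.gadm_om pW).src (h.gadm_om hW).src subset_rfl fun _ k => k.2.1
  have k2 := gadm_id pW hW subset_rfl fun _ k => k.2.1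
  have k3 := gadm_id pR pL subset_rfl (subset_univ _)
  have k4 := gadm_id pL h.pr_lev0 inter_subset_left (subset_univ _)
  have e1 : S.jb a (kpt a S.Lv d) = sm (gpt (inc c _) d) S.β0 := by
    rw [jb, gp_kpt h.gadm_j, ← gp_id_kpt k4, ecup_gp_left h.ecup_jb k4, sm_def]
  have hs : EAdm S.D0.rep S.σ S.rel S.D0.lev univ :=
    ⟨pL, h.eadm_rel.tgt, h.eadm_rel.cont, h.eadm_rel.eqv, h.eadm_rel.maps, fun _ _ _ => trivial⟩
  have ev : Ev (polx P (Gp.tor κ) S.stc) := (ev_pol _).gp _ _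
  have e2 : gp S.D0.rep id id S.D0.lev univ (S.jb a (kpt a S.Lv d)) = 0 := by
    rw [e1, gp_sm k3, β0, gp_sm k3, gpt_id, gpt_id, gp_eul h.eadm_rel k3 (σ := S.σ) (fun _ _ => rfl)
      (F' := S.rel) (fun _ _ => rfl), eul_univ hs, ← sm_mul pL, ev.mul_comm, sm_mul pL,
      ← sm_mul pL (gpt _ d), sm_eone pL, hd, map_zero]
  refine (TD.int_gp_id (h.admP pW (hb.imp fun _ k y hy hy' => k y hy hy'.1)) (h.admP hW hb) k1
    _).symm.trans ?_
  rw [gp_sm k1, gp_comp (h.gadm_om pW) k1 (χ := om c κ) (fun _ => rfl) (k := id) (fun _ _ => rfl),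
    ← gp_comp k2 (h.gadm_om hW) (χ := om c κ) (fun _ => rfl) (k := id) (fun _ _ => rfl),
    gp_id_ecup (ecup_of hW pR pW fun _ k => ⟨k.1.2, k.2⟩) k2,
    ← ecup_gp_right (ecup_of hW pL hW fun _ k => k.1.2) k3, e2, map_zero, map_zero, map_zero,
    map_zero]

theorem Ok.sp_inter (h : S.Ok a) (hW : S.D0.rep.Pr S.D0.lev W) : S.Sp (W ∩ S.R0) :=
  ⟨hW.inter h.sp_R0.pr, fun _ hy => hy.2.2⟩

theorem Bd.inter (hb : S.Bd W) : S.Bd (W ∩ W') := hb.imp fun _ k y hy hy' => k y hy hy'.1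

/-- compact parameter space: every class is tautological -/
theorem Ok.surj (h : S.Ok a) (hb : S.Bd univ) : Function.Surjective (kpt a S.Lv) := by
  intro g
  have := h.ok0.rep
  obtain ⟨u, hu⟩ := h.isUnit_NN
  have h1 := h.JJ_eq h.sp_R0 (hb.imp fun _ k y hy _ => k y hy trivial) (S.jb a (g * ↑u⁻¹))
  rw [h.JJ_jb, ← hu, Units.inv_mul_cancel_right] at h1
  exact ⟨_, h1.symm⟩

/-- a class that dies on the toric level set is torsion -/
theorem Ok.tors (h : S.Ok a) (hW : S.D0.rep.Pr S.D0.lev W) (hb : S.Bd W)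
    (hτ : gp S.D0.rep id id S.D0.lev univ τ = kpt S.D0.rep S.D0.lev (gpt Prod.snd s))
    {d : HPt (KT c κ)} (hd : kpt S.D0.rep S.D0.lev (gpt (inc c _) d * euc S.σ) = 0) :
    sm (gpt Prod.snd s) (kpt a S.Lv d * S.NN a) = 0 := by
  rw [← h.JJ_jb, ← h.JJ_tau hW hτ, h.JJ_eq (h.sp_inter hW) hb.inter, h.intP_kill hW hb τ _ hd,
    map_zero]

end ESD

end Pool.Agent.Work.MP_849ab0_ag.G
end
end

-- merged part: Pool.Agent.Work.MP_849ab0_ag.G.H1.MgDef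
section
/-!
The abstract diagonal argument over an open set `U` with support in a closed subset `Z`: data and
basic admissibility.  `H` acts on `X ⊇ U`; `G = T_A × H`.  The parameter `y` lies in the toric level
set and is cut out by `rel y = 0`; `Φ (l, y, x)` is affine in `l`.

Hints.  Compare `H2/EsDef.lean` (same shape; there `U = Z = Lv`).  `Act.pr_of`, `Act.Pr.preimage`,
`TD.Ok.act_mem_lev`, `TD.isClosed_lev`; `nsq (Sum.elim u v) = nsq u + nsq v`; for `fibT` the inverse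
is `(x, v) ↦ (v ∘ inr, v ∘ inl, x)`.  `iadm`: `dm_adm` with `fib_prod`, `Z₁ = Z₂ = Prod.fst ⁻¹' R0`
(the support is `Zd` by `rfl`).  `bound`: let `R₁` be the bound of `iadm.bdd`, continuous on
`lev ×ˢ U`; `lev` is compact (closed and bounded); use `exists_bound` (ApiX) with
`W = Vt U ∩ Zd`, `N z = nsq z.1 + nsq z.2.1`; near `x ∈ U` the function `R₁ (y, x')` is bounded
uniformly in `y ∈ lev` (`IsCompact.eventually_forall_of_forall_eventually` on the subtype `U`, or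
`IsCompact.continuous_sSup`).
-/

noncomputable section

set_option linter.unusedSectionVars false
set_option linter.unusedVariables false

namespace Pool.Agent.Work.MP_849ab0_ag.G

open Set Topology Matrix

/-- data of a diagonal argument with supports -/
structure MND (A : Type) [Fintype A] [DecidableEq A] (H : Gp) (X J Jr JL JE Js : Type) where
  T : TD A J H
  σ : Act (TG A H) (Jr → ℂ)
  rel : (J → ℂ) → Jr → ℂ
  L : Act (TG A H) (JL → ℂ)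
  E : Act (TG A H) (JE → ℂ)
  Φ : (JL → ℂ) × (J → ℂ) × X → JE → ℂ
  mL : JL → A → ℤ
  si : Js → JL

namespace MND

variable {A : Type} [Fintype A] [DecidableEq A] {H : Gp} [H.Nice] {X J Jr JL JE Js : Type}
  [TopologicalSpace X] [T3Space X] [SecondCountableTopology X] [Fintype J] [Fintype Jr]
  [Fintype JL] [Fintype JE] [Fintype Js]
  (S : MND A H X J Jr JL JE Js) (a : Act H X)

/-- the parameters -/
def R0 : Set (J → ℂ) := S.rel ⁻¹' {0}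

/-- the action on pairs `(y, x)` -/
abbrev b1 : Act (TG A H) ((J → ℂ) × X) := S.T.rep.prod (a.res Prod.snd)

/-- the action on triples `(l, y, x)` -/
abbrev bt : Act (TG A H) ((JL → ℂ) × (J → ℂ) × X) := S.L.prod (S.b1 a)

/-- pairs over `U` -/
def V1 (U : Set X) : Set ((J → ℂ) × X) := S.T.lev ×ˢ U

/-- triples over `U` -/
abbrev Vt (U : Set X) : Set ((JL → ℂ) × (J → ℂ) × X) := Prod.snd ⁻¹' S.V1 U

/-- the solutions -/
def Zd : Set ((JL → ℂ) × (J → ℂ) × X) := {z | z.2.1 ∈ S.R0 ∧ S.Φ z = 0}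

/-- the hypotheses -/
structure Ok (U Z : Set X) : Prop where
  ok : S.T.Ok
  repσ : S.σ.Rep
  repL : S.L.Rep
  repE : S.E.Rep
  pr : a.Pr U Z
  contr : Continuous S.rel
  eqvr : ∀ g y, S.rel (S.T.rep.act g y) = S.σ.act g (S.rel y)
  contΦ : Continuous S.Φ
  eqvΦ : ∀ g z, S.Φ ((S.bt a).act g z) = S.E.act g (S.Φ z)
  aff : ∀ y ∈ S.T.lev, S.rel y = 0 → ∀ x ∈ U, ∃ (M : (JL → ℂ) →ₗ[ℂ] JE → ℂ) (r : JE → ℂ),
    Function.Injective M ∧ ∀ l, S.Φ (l, y, x) = M l + r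
  supp : ∀ z ∈ S.Vt U ∩ S.Zd, z.2.2 ∈ Z
  bdd : ∃ B : ℝ, ∀ y ∈ S.T.lev, nsq y ≤ B
  wL : ∀ (g : A → Circle) l q, S.L.act (g, 1) l q = chr (S.mL q) g * l q

/-- the class of the solutions -/
def cls (U : Set X) : EH (S.bt a) (S.Vt U) S.Zd :=
  ecup (S.Vt U) S.Zd (eul (S.bt a) S.σ (fun z => S.rel z.2.1) (S.Vt U) {z | z.2.1 ∈ S.R0})
    (eul (S.bt a) S.E S.Φ (S.Vt U) (S.Φ ⁻¹' {0}))

/-- the integral over `(l, y)` -/
def intT (U Z : Set X) {W : Set ((JL → ℂ) × (J → ℂ) × X)} :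
    EH (S.bt a) (S.Vt U) W →ₗ[ℂ] EH a U Z :=
  S.T.int a (S.T.rep.sum S.L) (Prod.snd ∘ Prod.snd) (fun z => Sum.elim z.2.1 z.1)
    (fun z => z.2.1) U Z

/-- the classes `α g` -/
def al (U Z : Set X) (g : HPt (TG A H)) : EH a U Z := S.intT a U Z (sm g (S.cls a U))

/-- the stair representation -/
def st : Act (TG A H) (Js → ℂ) := Act.dg fun z g => chr (S.mL (S.si z)) g.1

/-- a transversal slice: over it there is one orbit of solutions with `l ∘ si = 0`, and it is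
nondegenerate -/
structure Slice (U Z : Set X) {J' : Type} [Fintype J'] (β : (J' → ℂ) → X) (O : Set (J' → ℂ)) :
    Prop where
  op : IsOpen O
  mem : 0 ∈ O
  cont : ContinuousOn β O
  maps : MapsTo β O U
  zero : ∀ v ∈ O, β v ∈ Z → v = 0
  pt : ∃ l₀ y₀, y₀ ∈ S.T.lev ∧ S.rel y₀ = 0 ∧ S.Φ (l₀, y₀, β 0) = 0 ∧ l₀ ∘ S.si = 0 ∧
    (∀ l, ∀ y ∈ S.T.lev, S.rel y = 0 → S.Φ (l, y, β 0) = 0 → l ∘ S.si = 0 →
      ∃ g : A → Circle, l = S.L.act (g, 1) l₀ ∧ y = S.T.rep.act (g, 1) y₀) ∧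
    ∃ (r' : (J → ℂ) →L[ℝ] Jr → ℂ) (Φ' : ((JL → ℂ) × (J → ℂ) × (J' → ℂ)) →L[ℝ] JE → ℂ),
      HasFDerivAt S.rel r' y₀ ∧
      HasFDerivAt (fun z : (JL → ℂ) × (J → ℂ) × (J' → ℂ) => S.Φ (z.1, z.2.1, β z.2.2)) Φ'
        (l₀, y₀, 0) ∧
      ∀ δ ε v, r' ε = 0 → Φ' (δ, ε, v) = 0 → δ ∘ S.si = 0 →
        (∀ i, ∑ q, S.T.m q i * (starRingEnd ℂ (y₀ q) * ε q).re = 0) →
        v = 0 ∧ ∃ ξ : A → ℝ, (∀ q, δ q = Complex.I * (∑ i, S.mL q i * ξ i : ℝ) * l₀ q) ∧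
          ∀ q, ε q = Complex.I * (∑ i, S.T.m q i * ξ i : ℝ) * y₀ q
  dim : Fintype.card Jr + Fintype.card JE + Fintype.card Js + Fintype.card A =
    Fintype.card JL + Fintype.card J + Fintype.card J'

/-- on the solutions, `k` moves `x` into `S₀`, equivariantly along `ψ` -/
structure Cj (U Z : Set X) {H₀ : Gp} (ι : H₀.H → H.H) (S₀ : Set X) (ψ : (TG A H).H → H₀.H)
    (k : (JL → ℂ) × (J → ℂ) × X → H.H) : Prop where
  sub : Z ⊆ U
  pr : (a.res ι).Pr S₀ univ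
  sub0 : S₀ ⊆ Z
  cont : ContinuousOn k (S.Vt U ∩ S.Zd)
  mem : ∀ z ∈ S.Vt U ∩ S.Zd, a.act (k z)⁻¹ z.2.2 ∈ S₀
  eqv : ∀ g, ∀ z ∈ S.Vt U ∩ S.Zd, k ((S.bt a).act g z) = g.2 * k z * (ι (ψ g))⁻¹

variable {S a} [a.Ok] {U Z : Set X}

theorem rep_st : S.st.Rep := Act.rep_dg fun z =>
  IsChar.comp (G := Gp.tor A) (G' := TG A H) (isChar_chr (S.mL (S.si z))) Prod.fst

theorem Ok.top (h : S.Ok a U Z) : S.Ok a U univ :=
  { h with pr := h.pr.top, supp := fun _ _ => trivial }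

theorem Ok.pr_lev (h : S.Ok a U Z) : S.T.rep.Pr S.T.lev S.R0 :=
  have := h.repσ
  ((Act.Rep.pr S.σ).preimage (φ := id) h.contr h.eqvr).mono (Z' := univ)
    (Act.pr_of _ TD.isClosed_lev.isLocallyClosed (fun g _ => h.ok.act_mem_lev g) isClosed_univ
      fun _ _ _ => trivial) (subset_univ _)

theorem Ok.eadm_rel (h : S.Ok a U Z) : EAdm S.T.rep S.σ S.rel S.T.lev S.R0 :=
  have := h.repσ
  ⟨h.pr_lev, Act.Rep.pr _, h.contr.continuousOn, fun g y _ => h.eqvr g y, mapsTo_univ _ _,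
    fun _ _ k => k⟩

theorem Ok.pr_V1 (h : S.Ok a U Z) : (S.b1 a).Pr (S.V1 U) (Prod.fst ⁻¹' S.R0) :=
  (h.pr_lev.preimage (b := S.b1 a) (φ := id) continuous_fst fun _ _ => rfl).mono (Z' := univ)
    ⟨(h.pr_lev.lc.preimage continuous_fst).inter (h.pr.lc.preimage continuous_snd),
      fun g _ k => ⟨h.pr_lev.inv g _ k.1, h.pr.inv g.2 _ k.2⟩,
      fun _ _ _ _ => trivial, fun _ _ => trivial⟩ fun _ k => k.1

theorem Ok.pr_Vt (h : S.Ok a U Z) : (S.bt a).Pr (S.Vt U) {z | z.2.1 ∈ S.R0} :=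
  h.pr_V1.preimage (φ := id) continuous_snd fun _ _ => rfl

theorem Ok.mgdef_dia (h : S.Ok a U Z) : (S.bt a).Pr (S.Vt U) (S.Φ ⁻¹' {0}) :=
  have := h.repE
  ((Act.Rep.pr S.E).preimage (φ := id) h.contΦ h.eqvΦ).mono h.pr_Vt (subset_univ _)

theorem Ok.pr_Zd (h : S.Ok a U Z) : (S.bt a).Pr (S.Vt U) S.Zd :=
  h.pr_Vt.inter h.mgdef_dia

theorem Ok.pr_sol (h : S.Ok a U Z) : (S.bt a).Pr (S.Vt U ∩ S.Zd) univ :=
  have := h.ok.rep
  have := h.repL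
  h.pr_Zd.inter_topT

theorem Ok.eadm1 (h : S.Ok a U Z) :
    EAdm (S.b1 a) S.σ (fun z => S.rel z.1) (S.V1 U) (Prod.fst ⁻¹' S.R0) :=
  have := h.repσ
  ⟨h.pr_V1, Act.Rep.pr _, (h.contr.comp continuous_fst).continuousOn, fun g y _ => h.eqvr g y.1,
    mapsTo_univ _ _, fun _ _ k => k⟩

theorem Ok.eadm_relT (h : S.Ok a U Z) :
    EAdm (S.bt a) S.σ (fun z => S.rel z.2.1) (S.Vt U) {z | z.2.1 ∈ S.R0} :=
  have := h.repσ
  ⟨h.pr_Vt, Act.Rep.pr _, (h.contr.comp continuous_snd.fst).continuousOn,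
    fun g y _ => h.eqvr g y.2.1, mapsTo_univ _ _, fun _ _ k => k⟩

theorem Ok.eadm_dia (h : S.Ok a U Z) : EAdm (S.bt a) S.E S.Φ (S.Vt U) (S.Φ ⁻¹' {0}) :=
  have := h.repE
  ⟨h.mgdef_dia, Act.Rep.pr _, h.contΦ.continuousOn, fun g y _ => h.eqvΦ g y, mapsTo_univ _ _,
    fun _ _ k => k⟩

theorem Ok.ecup_dia (h : S.Ok a U Z) :
    ECup (S.bt a) (S.Vt U) {z | z.2.1 ∈ S.R0} (S.Vt U) (S.Φ ⁻¹' {0}) (S.Vt U) S.Zd :=
  ⟨h.pr_Vt, h.mgdef_dia, h.pr_Zd, .of_subset subset_rfl subset_rfl fun _ _ k k' => ⟨k, k'⟩⟩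

theorem Ok.affOn (h : S.Ok a U Z) :
    AffOn Prod.snd Prod.fst S.Φ (S.V1 U ∩ Prod.fst ⁻¹' S.R0) := fun w k =>
  let ⟨M, r, m1, m2⟩ := h.aff w.1 k.1.1 k.2 w.2 k.1.2
  ⟨M, r, m1, fun z e => by rw [← m2, Prod.mk.eta, ← e]⟩

theorem Ok.iadm (h : S.Ok a U Z) : IAdm (S.b1 a) (S.bt a) S.L Prod.snd Prod.fst (S.V1 U)
    (Prod.fst ⁻¹' S.R0) (S.Vt U) S.Zd :=
  have := h.ok.rep
  have := h.repL
  have := h.repE
  dm_adm (fib_prod h.pr_V1) h.pr_V1 h.pr_V1 h.eadm_dia (fun _ k => k.1) h.affOn fun _ _ k _ => k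

theorem mgdef_cpt {K : Set (J → ℂ)} (hK : IsClosed K) {B : ℝ} (hB : ∀ y ∈ K, nsq y ≤ B) :
    IsCompact K :=
  Metric.isCompact_of_isClosed_isBounded hK
    (isBounded_iff_forall_norm_le.2 ⟨√B, fun y hy => (pi_norm_le_iff_of_nonneg B.sqrt_nonneg).2
      fun j => Real.le_sqrt_of_sq_le ((Finset.single_le_sum (f := fun j => ‖y j‖ ^ 2)
        (fun _ _ => by positivity) (Finset.mem_univ j)).trans (hB y hy))⟩)

theorem mgdef_loc {Y : Type} [TopologicalSpace Y] {K : Set Y} (hK : IsCompact K) {R : Y × X → ℝ}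
    (hR : ContinuousOn R (K ×ˢ U)) {x : X} (hx : x ∈ U) :
    ∃ C, ∀ᶠ x' in 𝓝 x, ∀ y ∈ K, x' ∈ U → R (y, x') ≤ C := by
  obtain ⟨C, hC⟩ := hK.bddAbove_image (f := fun y => R (y, x))
    (hR.comp (Continuous.prodMk_left x).continuousOn fun y hy => ⟨hy, hx⟩)
  refine ⟨C + 1, (hK.eventually_forall_of_forall_eventually (x₀ := x)
    (P := fun x' y => (y, x') ∈ K ×ˢ U → R (y, x') < C + 1) fun y hy => ?_).mono
    fun x' k y hy m => (k y hy ⟨hy, m⟩).le⟩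
  exact (continuous_swap.tendsto (x, y)).eventually (eventually_nhdsWithin_iff.1
    ((hR (y, x) ⟨hy, hx⟩).eventually_lt_const ((hC ⟨y, hy, rfl⟩).trans_lt (lt_add_one C))))

theorem Ok.bound (h : S.Ok a U Z) : ∃ R : X → ℝ, ContinuousOn R U ∧
    (∀ g, ∀ x ∈ U, R (a.act g x) = R x) ∧
      ∀ z ∈ S.Vt U ∩ S.Zd, nsq z.1 + nsq z.2.1 ≤ R z.2.2 := by
  have := h.ok.rep
  have := h.repL
  obtain ⟨R, r1, -, r3⟩ := h.iadm.bdd
  obtain ⟨B, hB⟩ := h.bdd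
  have hK := mgdef_cpt TD.isClosed_lev hB
  have e1 : ∀ g, ∀ z ∈ S.Vt U ∩ S.Zd, z.2.2 ∈ U →
      nsq ((S.bt a).act g z).1 + nsq ((S.bt a).act g z).2.1 = nsq z.1 + nsq z.2.1 :=
    fun g z _ _ => congrArg₂ (· + ·) (Act.Rep.nsq (ρ := S.L) g z.1)
      (Act.Rep.nsq (ρ := S.T.rep) g z.2.1)
  have e2 : ∀ x ∈ U, ∃ C, ∀ᶠ x' in 𝓝[U] x, ∀ z ∈ S.Vt U ∩ S.Zd, z.2.2 = x' →
      nsq z.1 + nsq z.2.1 ≤ C := fun x hx => by
    obtain ⟨C, hC⟩ := mgdef_loc hK r1 hx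
    refine ⟨C + B, (hC.filter_mono nhdsWithin_le_nhds).mono fun x' k z hz e => ?_⟩
    subst e
    exact add_le_add ((r3 z hz.2 hz.1).trans (k _ hz.1.1 hz.1.2)) (hB _ hz.1.1)
  obtain ⟨R', s1, s2, s3⟩ := exists_bound (a := a.res (G' := TG A H) Prod.snd) (b := S.bt a)
    (h.pr.res _) (p := fun z => z.2.2) (fun _ _ => rfl) (fun g y k _ => h.pr_sol.inv g y k)
    (N := fun z => nsq z.1 + nsq z.2.1) e1 e2
  exact ⟨R', s1, fun g => s2 (1, g), fun z k => s3 z k k.1.2⟩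

theorem Ok.fibT (h : S.Ok a U Z) : Fib (a.res Prod.snd) (S.bt a) (S.T.rep.sum S.L)
    (Prod.snd ∘ Prod.snd) (fun z => Sum.elim z.2.1 z.1) U :=
  ⟨continuous_snd.snd, fun _ _ => rfl,
    (continuous_pi fun q => by cases q <;> simp only [Sum.elim_inl, Sum.elim_inr] <;>
      fun_prop).continuousOn, fun _ _ _ => rfl,
    fun z => (z.2 ∘ Sum.inr, z.2 ∘ Sum.inl, z.1), Continuous.continuousOn (by fun_prop),
    fun _ _ v => ⟨rfl, Sum.elim_comp_inl_inr v⟩, fun _ _ => rfl⟩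

theorem Ok.admT (h : S.Ok a U Z) :
    S.T.Adm a (S.bt a) (S.T.rep.sum S.L) (Prod.snd ∘ Prod.snd) (fun z => Sum.elim z.2.1 z.1)
      (fun z => z.2.1) U Z (S.Vt U) S.Zd :=
  let ⟨R, r1, r2, r3⟩ := h.bound
  ⟨h.ok, h.fibT, h.pr, h.pr_Zd, continuous_snd.fst.continuousOn, fun _ _ _ => rfl,
    fun _ k k' => ⟨k, k'⟩, fun z k k₁ k₂ => h.supp z ⟨⟨k₁, k₂⟩, k⟩, R, r1, r2, fun z k k₁ k₂ =>
    ((nsq_splitT (Equiv.refl _) _).trans (add_comm _ _)).trans_le (r3 z ⟨⟨k₁, k₂⟩, k⟩)⟩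

theorem Ok.adm1 (h : S.Ok a U Z) : S.T.Adm a (S.b1 a) S.T.rep Prod.snd Prod.fst Prod.fst U univ
    (S.V1 U) (Prod.fst ⁻¹' S.R0) :=
  let ⟨B, hB⟩ := h.bdd
  ⟨h.ok, ⟨continuous_snd, fun _ _ => rfl, continuousOn_fst, fun _ _ _ => rfl, Prod.swap,
    continuous_swap.continuousOn, fun _ _ _ => ⟨rfl, rfl⟩, fun _ _ => rfl⟩, h.pr.top, h.pr_V1,
    continuousOn_fst, fun _ _ _ => rfl, fun _ k k' => ⟨k, k'⟩, fun _ _ _ _ => trivial,
    fun _ => B, continuousOn_const, fun _ _ _ => rfl, fun z _ k' _ => hB z.1 k'⟩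

theorem Ok.admP (h : S.Ok a U Z) :
    S.T.Adm (Act.pt _) S.T.rep S.T.rep (fun _ => ()) id id univ univ S.T.lev S.R0 :=
  let ⟨B, hB⟩ := h.bdd
  have := h.ok.rep
  ⟨h.ok, fib_pt _, Act.pr_pt _, h.pr_lev, continuousOn_id, fun _ _ _ => rfl,
    fun _ k _ => k, fun _ _ _ _ => trivial, fun _ => B, continuousOn_const, fun _ _ _ => rfl,
    fun z _ k' _ => hB z k'⟩

end MND

end Pool.Agent.Work.MP_849ab0_ag.G
end
end

-- merged part: Pool.Agent.Work.MP_849ab0_ag.G.H1.MnDef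
section
/-!
The diagonal argument of McGerty and Nevins for a stratum: the data.
-/

noncomputable section

set_option linter.unusedSectionVars false
set_option linter.unusedVariables false

namespace Pool.Agent.Work.MP_849ab0_ag.G

open Set Topology Matrix

/-- unitary graded matrices as group elements -/
def toUb {J C : Type} [Fintype J] [DecidableEq J] (c : J → C) (m : Matrix J J ℂ) : Ub c :=
  open Classical in if h : KU c m then ⟨⟨m, h.uni, h.uni'⟩, h.grd⟩ else 1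

theorem toUb_val {J C : Type} [Fintype J] [DecidableEq J] {c : J → C} {m : Matrix J J ℂ}
    (h : KU c m) : (toUb c m).1.1 = m := by
  rw [toUb, dif_pos h]

/-- the weight of a matrix entry -/
def ew {A : Type} [DecidableEq A] (j j' : A) : A → ℤ := Pi.single j 1 - Pi.single j' 1

namespace Qv

variable {I P E κ : Type} [Fintype I] [DecidableEq I] [Fintype P] [DecidableEq P] [Fintype E]
  [Fintype κ] [DecidableEq κ] (D : Qv I P E κ) (ν : I → ℤ) (ρ r : Option P → ℤ)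

/-- the group `T₃ × K × T` -/
abbrev G3 : Gp := TG (Tr P) (KT D.col κ)

/-- the toric data of the tripled quiver -/
def td3 : TD (Tr P) D.tri.Wt (KT D.col κ) :=
  ⟨D.tri.wt, fun q g => chr (D.tri.t q.1.1) g.2, fun j => D.nu3 ν (D.tri.col j)⟩

/-- forbidden coordinates -/
abbrev J3d : Type := Cs fun p : D.tri.Wt => ¬D.Al ρ r p

/-- entries of the moment map relation -/
abbrev J3m : Type :=
  Cs fun z : P × P => D.col z.1 = D.col z.2 ∧ ρ (some z.1) - ρ (some z.2) ∈ Iic 2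

/-- entries of the commutation relation -/
abbrev J3c : Type := Cs fun p : D.dbl.Wt => D.dbl.dgr ρ p ∈ Iic 1

/-- off diagonal entries of the real moment map -/
abbrev J3o : Type :=
  Cs fun z : Tr P × Tr P => D.tri.col z.1 = D.tri.col z.2 ∧ r3 r z.1 < r3 r z.2

/-- all relations -/
abbrev J3r : Type := (D.J3d ρ r ⊕ D.J3m ρ) ⊕ (D.J3c ρ ⊕ D.J3o r)

/-- the auxiliary variables -/
abbrev J3l : Type := D.lp.Wt ⊕ D.lp.Wt

/-- positive roots of the Levi factor -/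
abbrev J3s : Type := Cs fun z : P × P =>
  D.col z.1 = D.col z.2 ∧ ρ (some z.1) = ρ (some z.2) ∧ r (some z.2) < r (some z.1)

/-- the vector of the relations -/
def rl3 (W : D.tri.Rep) (m : Mt P) (c : E ⊕ E → Mt P) (o : Mt (Tr P)) : D.J3r ρ r → ℂ :=
  Sum.elim (Sum.elim (fun p => W p.1) fun z => m (some z.1.1) (some z.1.2))
    (Sum.elim (fun p => c p.1.1.1 p.1.1.2.2 p.1.1.2.1) fun z => o (some z.1.1) (some z.1.2))

/-- the relations -/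
def rel3 (W : D.tri.Rep) : D.J3r ρ r → ℂ := D.rl3 ρ r W (D.rmu W) (D.rcm W) (D.tri.muR W)

/-- the derivative of the relations -/
def drel3 (W δ : D.tri.Rep) : D.J3r ρ r → ℂ :=
  D.rl3 ρ r δ (D.drmu W δ) (D.drcm W δ) (D.tri.dmuR W δ)

/-- the weights of the relations under `T₃` -/
def mR3 : D.J3r ρ r → Tr P → ℤ :=
  Sum.elim (Sum.elim (fun p => D.tri.wt p.1) fun z => ew (some z.1.1, 2) (some z.1.2, 0))
    (Sum.elim (fun p => ew (p.1.1.2.2, 2) (p.1.1.2.1, 0)) fun z => ew z.1.1 z.1.2)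

/-- the weights of the relations under `T` -/
def tR3 : D.J3r ρ r → κ → ℤ :=
  Sum.elim (Sum.elim (fun p => D.tri.t p.1.1.1) fun _ => D.h)
    (Sum.elim (fun p => D.dbl.t p.1.1.1) fun _ => 0)

/-- the representation on the relations -/
def sig3 : Act D.G3 (D.J3r ρ r → ℂ) :=
  Act.dg fun q g => chr (D.mR3 ρ r q) g.1 * chr (D.tR3 ρ r q) g.2.2

/-- the action on the copy `n` -/
def lt3 (n : Fin 3) (g : D.G3.H) : Mt P := tg g.1 n

/-- the action on `V ⊕ ℂ` -/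
def rk3 (g : D.G3.H) : Mt P := hat 1 g.2.1.1.1

/-- the representation on the auxiliary variables -/
def L3 : Act D.G3 (D.J3l → ℂ) :=
  (D.lp.bi (D.lt3 0) D.rk3 fun _ _ => 1).sum (D.lp.bi (D.lt3 2) D.rk3 fun _ g => chr D.h g.2.2)

/-- the representation on the equations -/
def M3 : Act D.G3 D.dbl.Rep := D.dbl.bi (D.lt3 1) D.rk3 fun e g => chr (D.dbl.t e) g.2.2

/-- the map `V ⊕ ℂ → W 0` -/
def ph3 (W : D.tri.Rep) (l : D.J3l → ℂ) : Mt P := D.lpm (l ∘ Sum.inl) + D.fr (D.wi W)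

/-- the map `V → W 2` -/
def et3 (l : D.J3l → ℂ) : Mt P := D.lpm (l ∘ Sum.inr)

/-- the equations -/
def Phi3 (z : (D.J3l → ℂ) × D.tri.Rep × D.dbl.Rep) : D.dbl.Rep :=
  D.dbl.unmat (D.phi z.2.1 z.2.2 (D.ph3 z.2.1 z.1) (D.et3 z.1))

/-- their derivative at a point with `η = 0` -/
def dPhi3 (l : D.J3l → ℂ) (W : D.tri.Rep) (y : D.dbl.Rep) (l' : D.J3l → ℂ) (δ : D.tri.Rep)
    (ε : D.dbl.Rep) : D.dbl.Rep :=
  D.dbl.unmat fun e => D.dcx W y (D.ph3 W l) δ ε (D.ph3 δ l') e +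
    cxs (D.wa W 1) (D.wh W 1) (D.dbl.mat y) (D.et3 l') e

/-- the weights of the auxiliary variables -/
def mL3 : D.J3l → Tr P → ℤ :=
  Sum.elim (fun p => Pi.single (p.1.2.2, 0) 1) fun p => Pi.single (p.1.2.2, 2) 1

/-- the stair coordinates -/
def si3 (z : D.J3s ρ r) : D.J3l :=
  .inl ⟨(D.col z.1.2, some z.1.2, some z.1.1), rfl, congrArg some z.2.1⟩

/-- the data -/
def mnd : MND (Tr P) (KT D.col κ) D.dbl.Rep D.tri.Wt (D.J3r ρ r) D.J3l D.dbl.Wt (D.J3s ρ r) :=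
  ⟨D.td3 ν, D.sig3 ρ r, D.rel3 ρ r, D.L3, D.M3, D.Phi3, D.mL3, D.si3 ρ r⟩

/-- the homomorphism to the Levi factor -/
def psi3 (g : D.G3.H) : (KT (D.cr ρ) κ).H :=
  (diagU (D.cr ρ) fun a => g.1 (some a, 0) * (g.1 (none, 0))⁻¹, g.2.2)

/-- the unitary factor of the inverse of `ph3` -/
def k3 (z : (D.J3l → ℂ) × D.tri.Rep × D.dbl.Rep) : (KT D.col κ).H :=
  (toUb D.col (qrU D.col (r ∘ some) (unhat (D.wi z.2.1 • (D.ph3 z.2.1 z.1)⁻¹))), 1)

end Qv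

end Pool.Agent.Work.MP_849ab0_ag.G
end
end

-- merged part: Pool.Agent.Work.MP_849ab0_ag.G.H1.MnE
section
/-!
The data `mnd`: level set, equivariance and continuity.

Hints.  `mem_td3`: `muR_diag`.  `ok_td3`: `TD.ok_of_graph` with `src q = q.1.2.1`, `tgt q = q.1.2.2`,
`gen_nu3`.  `bdd_td3`: `TD.nsq_le_of_pot`, `tri_acyclic`.  `act_td3`: `aN_inc`, `aN_act` for `D.tri`
and `bd3_diag`, or `cj_diag`.  Then `wa_sc`, `wa_cnj`, ... (`KU.diag`, `KU.inv_eq`), `muR_sc`,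
`muR_cj`, `ku_bd3`.  `chr (t (inl e)) * chr (t (inr e)) = chr h` (`chr_add`), and `star (chr m u) =
(chr m u)⁻¹`.  `ph3_act`: `lpm_bi`, `fr_conj`.  `Phi3_act`: `mat_ext`, `mat_bi`, `mat_unmat` with
`sup_phi3`, `mat_aN`.
-/

noncomputable section

set_option linter.unusedSectionVars false
set_option linter.unusedVariables false

namespace Pool.Agent.Work.MP_849ab0_ag.G

open Set Topology Matrix

namespace Qv

variable {I P E κ : Type} [Fintype I] [DecidableEq I] [Fintype P] [DecidableEq P] [Fintype E]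
  [Fintype κ] [DecidableEq κ] {D : Qv I P E κ} {ν : I → ℤ} {ρ r : Option P → ℤ}
  {W δ : D.tri.Rep} {x y ε : D.dbl.Rep} {l l' : D.J3l → ℂ} {U : Set D.dbl.Rep}

theorem MnE_star {A : Type} [Fintype A] [DecidableEq A] (m : A → ℤ) (t : A → Circle) :
    star (chr m t) = (chr m t)⁻¹ := (Complex.inv_eq_conj ((isChar_chr m).norm t)).symm

theorem MnE_cs (u : Circle) : star (u : ℂ) = (u : ℂ)⁻¹ := (Complex.inv_eq_conj u.norm_coe).symm

theorem MnE_sub {A : Type} [Fintype A] [DecidableEq A] (m m' : A → ℤ) (t : A → Circle) :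
    chr (m - m') t = chr m t * (chr m' t)⁻¹ := by
  rw [sub_eq_add_neg, chr_add, ← neg_one_zsmul, chr_zsmul, _root_.zpow_neg_one]

theorem MnE_zero {A : Type} [Fintype A] (t : A → Circle) : chr 0 t = 1 := by simp [chr]

theorem MnE_h (e : E) (t : κ → Circle) :
    chr (D.dbl.t (.inl e)) t * chr (D.dbl.t (.inr e)) t = chr D.h t := by
  rw [← chr_add]
  exact congrArg (chr · t) (add_sub_cancel (D.t e) D.h)

theorem MnE_hl (e : E) (t : κ → Circle) :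
    chr D.h t * star (chr (D.dbl.t (.inr e)) t) = chr (D.dbl.t (.inl e)) t := by
  rw [← MnE_h e, MnE_star, mul_inv_cancel_right₀ ((isChar_chr _).ne_zero t)]

theorem MnE_hr (e : E) (t : κ → Circle) :
    chr D.h t * star (chr (D.dbl.t (.inl e)) t) = chr (D.dbl.t (.inr e)) t := by
  rw [← MnE_h e, MnE_star, mul_right_comm, mul_inv_cancel₀ ((isChar_chr _).ne_zero t), one_mul]

theorem MnE_c1 (j : Tr P) : IsChar (G := D.G3) fun g => (g.1 j : ℂ) :=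
  ⟨fun _ _ => rfl, continuous_subtype_val.comp ((continuous_apply j).comp continuous_fst),
    fun g => (g.1 j).norm_coe⟩

theorem MnE_c2 (m : κ → ℤ) : IsChar (G := D.G3) fun g => chr m g.2.2 :=
  ⟨fun g h => (isChar_chr m).mul g.2.2 h.2.2,
    (isChar_chr m).cont.comp (continuous_snd.comp continuous_snd), fun _ => (isChar_chr m).norm _⟩

theorem MnE_c3 (m : Tr P → ℤ) : IsChar (G := D.G3) fun g => chr m g.1 :=
  ⟨fun g h => (isChar_chr m).mul g.1 h.1, (isChar_chr m).cont.comp continuous_fst,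
    fun _ => (isChar_chr m).norm _⟩

theorem MnE_can {k : Mt P} (h : kᴴ * k = 1) (M : Mt P) : kᴴ * (k * M) = M := by
  rw [← Matrix.mul_assoc, h, Matrix.one_mul]

theorem MnE_cx0 {A B : E ⊕ E → Mt P} {h φ T0 T1 R : Mt P} {χ : E ⊕ E → ℂ} (h0 : T0ᴴ * T0 = 1)
    (hR : Rᴴ * R = 1) (e : E ⊕ E) :
    cx0 (fun e => χ e • (T1 * A e * T0ᴴ)) (T1 * h * T0ᴴ) (fun e => χ e • (R * B e * Rᴴ))
      (T0 * φ * Rᴴ) e = χ e • (T1 * cx0 A h B φ e * Rᴴ) := by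
  simp only [cx0, Matrix.mul_assoc, Matrix.smul_mul, Matrix.mul_smul, MnE_can h0, MnE_can hR,
    mul_sub, sub_mul, smul_sub]

theorem MnE_cxs {A B : E ⊕ E → Mt P} {h η T1 T2 R : Mt P} {χ : E ⊕ E → ℂ} {z : ℂ}
    (h2 : T2ᴴ * T2 = 1) (hR : Rᴴ * R = 1) (hl : ∀ e, z * star (χ (.inr e)) = χ (.inl e))
    (hr : ∀ e, z * star (χ (.inl e)) = χ (.inr e)) (e : E ⊕ E) :
    cxs (fun e => χ e • (T2 * A e * T1ᴴ)) (T2 * h * T1ᴴ) (fun e => χ e • (R * B e * Rᴴ))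
      (z • (T2 * η * Rᴴ)) e = χ e • (T1 * cxs A h B η e * Rᴴ) := by
  rcases e with e | e
  · simp only [cxs, Sum.elim_inl, conjTranspose_smul, conjTranspose_mul,
      conjTranspose_conjTranspose, Matrix.mul_assoc, Matrix.smul_mul, Matrix.mul_smul, smul_smul,
      MnE_can h2, MnE_can hR, mul_sub, sub_mul, smul_sub, mul_comm (star _) z, hl]
  · simp only [cxs, Sum.elim_inr, conjTranspose_smul, conjTranspose_mul,
      conjTranspose_conjTranspose, Matrix.mul_assoc, Matrix.smul_mul, Matrix.mul_smul, smul_smul,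
      MnE_can h2, MnE_can hR, mul_sub, sub_mul, smul_sub, mul_comm (star _) z, hr]

theorem MnE_cxm {A B : E ⊕ E → Mt P} {T0 T1 T2 : Mt P} {χ : E ⊕ E → ℂ} {z : ℂ}
    (h1 : T1ᴴ * T1 = 1) (hz : ∀ e, χ (.inl e) * χ (.inr e) = z) :
    cxm (fun e => χ e • (T2 * A e * T1ᴴ)) (fun e => χ e • (T1 * B e * T0ᴴ)) =
      z • (T2 * cxm A B * T0ᴴ) := by
  simp only [cxm, Finset.mul_sum, Finset.sum_mul, Finset.smul_sum]
  refine Finset.sum_congr rfl fun e _ => ?_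
  simp only [Matrix.mul_assoc, Matrix.smul_mul, Matrix.mul_smul, smul_smul, MnE_can h1, mul_sub,
    sub_mul, smul_sub, mul_comm (χ (.inr e)), hz]

theorem MnE_bd (t : Tr P → Circle) :
    bd3 1 (tg t) = diagonal fun o : Option (Tr P) => ((o.elim 1 t : Circle) : ℂ) :=
  (bd3_diag fun o : Option (Tr P) => ((o.elim 1 t : Circle) : ℂ)).symm

theorem MnE_ind {A : Type} [Fintype A] [DecidableEq A] (t : A → Circle) (o : Option A) :
    chr (fun a => if o = some a then 1 else 0) t = ((o.elim 1 t : Circle) : ℂ) := by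
  rcases o with _ | b
  · simp [chr]
  · rw [Option.elim_some, ← chr_single b]
    congr 1
    ext a
    simp [Pi.single_apply, eq_comm]

theorem MnE_wt (p : D.Wt) (t : P → Circle) : chr (D.wt p) t =
    ((p.1.2.2.elim 1 t : Circle) : ℂ) * ((p.1.2.1.elim 1 t : Circle) : ℂ)⁻¹ := by
  rw [← MnE_ind, ← MnE_ind, ← MnE_sub]
  rfl

theorem chr_ew {A : Type} [Fintype A] [DecidableEq A] (j j' : A) (t : A → Circle) :
    chr (ew j j') t = t j * star (t j' : ℂ) := by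
  rw [ew, MnE_sub, chr_single, chr_single, MnE_cs]

theorem MnE_ent (t : Tr P → Circle) (n m : Fin 3) (z : ℂ) (M : Mt P) (b a : Option P) :
    (z • (tg t n * M * (tg t m)ᴴ)) b a = chr (ew (b, n) (a, m)) t * z * M b a := by
  simp only [tg, chr_ew, Matrix.smul_apply, diagonal_conjTranspose, mul_diagonal, diagonal_mul,
    Pi.star_apply, smul_eq_mul]
  ring

theorem ku_tg (t : Tr P → Circle) (n : Fin 3) : KU D.cl (tg t n) :=
  KU.diag fun o => (t (o, n)).norm_coe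

theorem isUH_lt3 (n : Fin 3) : IsUH D.cl (D.lt3 n) :=
  isUH_diag (G := D.G3) fun o => MnE_c1 (o, n)

theorem isUH_rk3 : IsUH D.cl D.rk3 :=
  have h := isUH_hat (c := D.col) (c' := D.col) fun _ _ e => e
  ⟨fun g => h.ku g.2.1, fun g g' => h.mul g.2.1 g'.2.1,
    h.cont.comp (continuous_fst.comp continuous_snd)⟩

theorem rep_sig3 : (D.sig3 ρ r).Rep := Act.rep_dg fun _ => (MnE_c3 _).mul' (MnE_c2 _)

theorem rep_L3 : D.L3.Rep := by
  have h1 := rep_bi (D := D.lp) (χ := fun _ _ => 1) (isUH_lt3 (D := D) 0) (isUH_rk3 (D := D))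
    fun _ => ⟨fun _ _ => (one_mul _).symm, continuous_const, fun _ => norm_one⟩
  have h2 := rep_bi (D := D.lp) (χ := fun _ (g : D.G3.H) => chr D.h g.2.2) (isUH_lt3 (D := D) 2)
    (isUH_rk3 (D := D)) fun _ => MnE_c2 _
  unfold L3
  infer_instance

theorem rep_M3 : D.M3.Rep :=
  rep_bi (D := D.dbl) (isUH_lt3 (D := D) 1) (isUH_rk3 (D := D)) fun _ => MnE_c2 _

theorem mem_td3 : W ∈ (D.td3 ν).lev ↔
    ∀ j, D.tri.muR W (some j) (some j) = -(D.nu3 ν (D.tri.col j) : ℂ) := by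
  refine forall_congr' fun j => ?_
  rw [muR_diag, ← Complex.ofReal_intCast, ← Complex.ofReal_neg, Complex.ofReal_inj,
    ← add_eq_zero_iff_eq_neg]
  refine Eq.congr_left (congrArg (· + _) (Finset.sum_congr rfl fun p _ => ?_))
  simp [td3, wt]

theorem ok_td3 : (D.td3 ν).Ok :=
  TD.ok_of_graph (fun q => q.1.2.1) (fun q => q.1.2.2) (fun _ _ => rfl)
    (fun q => ⟨fun g h => (isChar_chr _).mul g.2 h.2, (isChar_chr _).cont.comp continuous_snd,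
      fun _ => (isChar_chr _).norm _⟩) fun S hS e => gen_nu3 (D := D) ν S hS (by
        have e' : ∑ j ∈ S, (D.nu3 ν (D.tri.col j) : ℝ) = 0 := e
        exact_mod_cast e')

theorem bdd_td3 : ∃ B : ℝ, ∀ W ∈ (D.td3 ν).lev, nsq W ≤ B :=
  ⟨_, fun W hW => TD.nsq_le_of_pot (fun q => q.1.2.1) (fun q => q.1.2.2) (fun _ _ => rfl) hW
    (fun o => o.elim 0 fun j => (j.2 : ℤ) + 1) fun q _ => (lt_add_one _).trans_eq (tri_acyclic q)⟩

theorem act_td3 (g : D.G3.H) (W : D.tri.Rep) : (D.td3 ν).rep.act g W =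
    D.tri.sc (fun e => chr (D.tri.t e) g.2.2) (D.tri.cnj (bd3 1 (tg g.1)) W) := by
  funext p
  change chr (D.tri.wt p) g.1 * chr (D.tri.t p.1.1) g.2.2 * W p =
    chr (D.tri.t p.1.1) g.2.2 * D.tri.cnj (bd3 1 (tg g.1)) W p
  rw [MnE_bd, cj_diag fun _ => Circle.coe_ne_zero _, MnE_wt]
  ring

theorem act_td3_one (t : Tr P → Circle) (W : D.tri.Rep) :
    (D.td3 ν).rep.act (t, 1) W = D.tri.cnj (bd3 1 (tg t)) W := by
  rw [act_td3]
  funext p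
  exact (congrArg (· * _) (isChar_chr (D.tri.t p.1.1)).one).trans (one_mul _)

theorem wa_act (g : D.G3.H) (W : D.tri.Rep) (n : Fin 2) (e : E ⊕ E) :
    D.wa ((D.td3 ν).rep.act g W) n e =
      chr (D.dbl.t e) g.2.2 • (tg g.1 n.succ * D.wa W n e * (tg g.1 n.castSucc)ᴴ) := by
  rw [act_td3, wa_sc, wa_cnj one_ne_zero fun n => (ku_tg _ n).gu, (ku_tg (D := D) _ _).inv_eq]
  rfl

theorem wh_act (g : D.G3.H) (W : D.tri.Rep) (n : Fin 2) :
    D.wh ((D.td3 ν).rep.act g W) n = tg g.1 n.succ * D.wh W n * (tg g.1 n.castSucc)ᴴ := by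
  rw [act_td3, wh_sc fun _ _ => MnE_zero _, wh_cnj one_ne_zero fun n => (ku_tg _ n).gu,
    (ku_tg (D := D) _ _).inv_eq]

theorem wi_act (g : D.G3.H) (W : D.tri.Rep) :
    D.wi ((D.td3 ν).rep.act g W) = g.1 (none, 0) * D.wi W := by
  rw [act_td3, wi_sc, wi_cnj one_ne_zero fun n => (ku_tg _ n).gu, inv_one, mul_one, tg,
    diagonal_apply_eq]
  exact (congrArg (· * _) (MnE_zero g.2.2)).trans (one_mul _)

theorem MnE_a0 (g : D.G3.H) (W : D.tri.Rep) : D.wa ((D.td3 ν).rep.act g W) 0 =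
    fun e => chr (D.dbl.t e) g.2.2 • (tg g.1 1 * D.wa W 0 e * (tg g.1 0)ᴴ) :=
  funext (wa_act g W 0)

theorem MnE_a1 (g : D.G3.H) (W : D.tri.Rep) : D.wa ((D.td3 ν).rep.act g W) 1 =
    fun e => chr (D.dbl.t e) g.2.2 • (tg g.1 2 * D.wa W 1 e * (tg g.1 1)ᴴ) :=
  funext (wa_act g W 1)

theorem MnE_h0 (g : D.G3.H) (W : D.tri.Rep) :
    D.wh ((D.td3 ν).rep.act g W) 0 = tg g.1 1 * D.wh W 0 * (tg g.1 0)ᴴ := wh_act g W 0

theorem MnE_h1 (g : D.G3.H) (W : D.tri.Rep) :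
    D.wh ((D.td3 ν).rep.act g W) 1 = tg g.1 2 * D.wh W 1 * (tg g.1 1)ᴴ := wh_act g W 1

theorem MnE_rmu (g : D.G3.H) (W : D.tri.Rep) : D.rmu ((D.td3 ν).rep.act g W) =
    chr D.h g.2.2 • (tg g.1 2 * D.rmu W * (tg g.1 0)ᴴ) := by
  rw [rmu, MnE_a0, MnE_a1]
  exact MnE_cxm (ku_tg (D := D) g.1 1).uni fun e => MnE_h e _

theorem MnE_rcm (g : D.G3.H) (W : D.tri.Rep) (e : E ⊕ E) : D.rcm ((D.td3 ν).rep.act g W) e =
    chr (D.dbl.t e) g.2.2 • (tg g.1 2 * D.rcm W e * (tg g.1 0)ᴴ) := by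
  rw [rcm, MnE_a0, MnE_a1, MnE_h0, MnE_h1]
  simp only [rcm, Matrix.mul_assoc, Matrix.smul_mul, Matrix.mul_smul,
    MnE_can (ku_tg (D := D) g.1 1).uni, mul_sub, sub_mul, smul_sub]

theorem MnE_mu (g : D.G3.H) (W : D.tri.Rep) (b a : Tr P) :
    D.tri.muR ((D.td3 ν).rep.act g W) (some b) (some a) =
      chr (ew b a) g.1 * chr 0 g.2.2 * D.tri.muR W (some b) (some a) := by
  rw [act_td3, muR_sc fun e => (isChar_chr _).norm _,
    muR_cj (ku_bd3.2 ⟨norm_one, ku_tg g.1⟩), MnE_bd, diagonal_conjTranspose, mul_diagonal,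
    diagonal_mul, MnE_zero, chr_ew, Pi.star_apply, Option.elim_some, Option.elim_some]
  ring

theorem rel3_act (g : D.G3.H) (W : D.tri.Rep) :
    D.rel3 ρ r ((D.td3 ν).rep.act g W) = (D.sig3 ρ r).act g (D.rel3 ρ r W) := by
  funext q
  rcases q with (p | z) | (p | z)
  · rfl
  · exact (congrFun (congrFun (MnE_rmu g W) _) _).trans (MnE_ent _ _ _ _ _ _ _)
  · exact (congrFun (congrFun (MnE_rcm g W _) _) _).trans (MnE_ent _ _ _ _ _ _ _)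
  · exact MnE_mu g W _ _

theorem grd_ph3 (W : D.tri.Rep) (l : D.J3l → ℂ) : Grd D.cl (D.ph3 W l) :=
  (grd_lpm _).add (grd_fr _)

theorem ph3_none (W : D.tri.Rep) (l : D.J3l → ℂ) : D.ph3 W l none none = D.wi W := by
  rw [ph3, Matrix.add_apply, lpm_none_left, fr_none, zero_add]

theorem grd_et3 (l : D.J3l → ℂ) : Grd D.cl (D.et3 l) := grd_lpm _

theorem et3_none (l : D.J3l → ℂ) : D.et3 l none none = 0 := lpm_none_left _ _

theorem ph3_act (g : D.G3.H) (W : D.tri.Rep) (l : D.J3l → ℂ) :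
    D.ph3 ((D.td3 ν).rep.act g W) (D.L3.act g l) = tg g.1 0 * D.ph3 W l * (D.rk3 g)ᴴ := by
  have h1 := lpm_bi (isUH_lt3 (D := D) 0) (isUH_rk3 (D := D)) (fun _ => 1) g (l ∘ Sum.inl)
  have h2 := fr_conj (ku_tg (D := D) g.1 0).grd (isUH_rk3.ku g).grd.adj (D.wi W)
  have h3 : (D.rk3 g)ᴴ none none = 1 := star_one ℂ
  rw [h3, mul_one, tg, diagonal_apply_eq, ← wi_act (ν := ν)] at h2
  rw [one_smul] at h1
  rw [ph3, ph3, mul_add, add_mul]
  exact congrArg₂ (· + ·) h1 h2.symm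

theorem et3_act (g : D.G3.H) (l : D.J3l → ℂ) :
    D.et3 (D.L3.act g l) = chr D.h g.2.2 • (tg g.1 2 * D.et3 l * (D.rk3 g)ᴴ) :=
  lpm_bi (isUH_lt3 (D := D) 2) (isUH_rk3 (D := D)) (fun g => chr D.h g.2.2) g (l ∘ Sum.inr)

theorem sup_phi3 (W : D.tri.Rep) (x : D.dbl.Rep) {φ η : Mt P} (h1 : Grd D.cl φ) (h2 : Grd D.cl η) :
    D.dbl.Sup (D.phi W x φ η) :=
  (sup_cx0 (sup_wa W 0) (sup_mat x) (grd_wh W 0) h1).add
    (sup_cxs (sup_wa W 1) (sup_mat x) (grd_wh W 1) h2)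

theorem Phi3_act (g : D.G3.H) (l : D.J3l → ℂ) (W : D.tri.Rep) (x : D.dbl.Rep) :
    D.Phi3 (D.L3.act g l, (D.td3 ν).rep.act g W, D.dbl.aN.act g.2 x) =
      D.M3.act g (D.Phi3 (l, W, x)) := by
  refine mat_ext fun e => ?_
  have hx : D.dbl.mat (D.dbl.aN.act g.2 x) =
      fun e => chr (D.dbl.t e) g.2.2 • (D.rk3 g * D.dbl.mat x e * (D.rk3 g)ᴴ) :=
    funext (D.dbl.mat_aN g.2 x)
  have hR := (isUH_rk3.ku g).uni
  rw [M3, mat_bi (D := D.dbl) (isUH_lt3 (D := D) 1) (isUH_rk3 (D := D)), Phi3, Phi3,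
    mat_unmat (sup_phi3 _ _ (grd_ph3 _ _) (grd_et3 _)),
    mat_unmat (sup_phi3 _ _ (grd_ph3 _ _) (grd_et3 _)), phi, phi, MnE_a0, MnE_a1, MnE_h0, MnE_h1,
    ph3_act, et3_act, hx, MnE_cx0 (ku_tg (D := D) g.1 0).uni hR,
    MnE_cxs (ku_tg (D := D) g.1 2).uni hR (fun e => MnE_hl e _) fun e => MnE_hr e _, mul_add,
    add_mul, smul_add]
  rfl

theorem MnE_bi (n : Fin 3) (χ : I → D.G3.H → ℂ) (t : Tr P → Circle) (φ : D.lp.Rep) (p : D.lp.Wt) :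
    (D.lp.bi (D.lt3 n) D.rk3 χ).act (t, 1) φ p =
      χ p.1.1 (t, 1) * (chr (Pi.single (p.1.2.2, n) 1) t * φ p) := by
  have h : D.rk3 (t, 1) = 1 := hat_oneH
  simp only [bi, unmat, h, lt3, tg, Matrix.smul_apply, conjTranspose_one, mul_one, diagonal_mul,
    mat_app, chr_single, smul_eq_mul]

theorem L3_act_one (t : Tr P → Circle) (l : D.J3l → ℂ) (q : D.J3l) :
    D.L3.act (t, 1) l q = chr (D.mL3 q) t * l q := by
  rcases q with p | p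
  · exact (MnE_bi 0 (fun _ _ => 1) t (l ∘ Sum.inl) p).trans (one_mul _)
  · refine (MnE_bi 2 (fun _ g => chr D.h g.2.2) t (l ∘ Sum.inr) p).trans ?_
    have h : chr D.h (1 : κ → Circle) = 1 := (isChar_chr D.h).one
    exact (congrArg (· * _) h).trans (one_mul _)

theorem cont_rel3 : Continuous (D.rel3 ρ r) := by
  refine continuous_pi fun q => ?_
  rcases q with (p | z) | (p | z)
  · exact continuous_apply p.1
  · exact (continuous_finsetSum _ fun e _ => ((cont_wa 1 (.inl e)).matrix_mul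
      (cont_wa 0 (.inr e))).sub ((cont_wa 1 (.inr e)).matrix_mul (cont_wa 0 (.inl e)))).matrix_elem
        (some z.1.1) (some z.1.2)
  · exact (((cont_wa 1 _).matrix_mul (cont_wh 0)).sub
      ((cont_wh 1).matrix_mul (cont_wa 0 _))).matrix_elem _ _
  · exact continuous_muR.matrix_elem _ _

theorem cont_ph3 : Continuous fun z : D.tri.Rep × (D.J3l → ℂ) => D.ph3 z.1 z.2 :=
  (cont_lpm.comp (continuous_pi fun p => (continuous_apply (Sum.inl p)).comp continuous_snd)).add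
    (cont_fr.comp (cont_wi.comp continuous_fst))

theorem cont_et3 : Continuous D.et3 :=
  cont_lpm.comp (continuous_pi fun p => continuous_apply (Sum.inr p))

theorem cont_Phi3 : Continuous D.Phi3 := by
  have hW : Continuous fun z : (D.J3l → ℂ) × D.tri.Rep × D.dbl.Rep => z.2.1 :=
    continuous_fst.comp continuous_snd
  have ha := fun n e => (cont_wa (D := D) n e).comp hW
  have hh := fun n => (cont_wh (D := D) n).comp hW
  have hb := fun e => (cont_mat (D := D.dbl) e).comp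
    (continuous_snd.comp continuous_snd : Continuous
      fun z : (D.J3l → ℂ) × D.tri.Rep × D.dbl.Rep => z.2.2)
  have hp := (cont_ph3 (D := D)).comp (hW.prodMk continuous_fst)
  have he := (cont_et3 (D := D)).comp
    (continuous_fst : Continuous fun z : (D.J3l → ℂ) × D.tri.Rep × D.dbl.Rep => z.1)
  refine (continuous_unmat (D := D.dbl)).comp (continuous_pi fun e => Continuous.add
    (((ha 0 e).matrix_mul hp).sub (((hh 0).matrix_mul hp).matrix_mul (hb e))) ?_)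
  rcases e with e | e
  · exact (((hh 1).matrix_conjTranspose.matrix_mul he).matrix_mul
      (hb _).matrix_conjTranspose).sub ((ha 1 _).matrix_conjTranspose.matrix_mul he)
  · exact ((ha 1 _).matrix_conjTranspose.matrix_mul he).sub
      (((hh 1).matrix_conjTranspose.matrix_mul he).matrix_mul (hb _).matrix_conjTranspose)


end Qv

end Pool.Agent.Work.MP_849ab0_ag.G
end
end

-- merged part: Pool.Agent.Work.MP_849ab0_ag.G.H1.MnF
section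
/-!
Real derivatives of the relations and of the equations.

Hints.  `SD`, `MD` are an entrywise calculus.  `wa · n e`, `wh · n`, `wi`, `mat · e`, `lpm` are real
linear and continuous (`MD.lin`); `hasFDerivAt_muR` (KN1).  In `deriv_Phi3` the terms of the
derivative of `cxs` that contain `et3 l = 0` vanish (`lpm_zero`).
-/

noncomputable section

set_option linter.unusedSectionVars false
set_option linter.unusedVariables false

namespace Pool.Agent.Work.MP_849ab0_ag.G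

open Set Topology Matrix

section

variable {X : Type} [NormedAddCommGroup X] [NormedSpace ℝ X] {J : Type} [Fintype J] [DecidableEq J]
  {x : X} {F F' G G' : X → Matrix J J ℂ}

/-- `f'` is the real derivative of `f` at `x` -/
def SD (f f' : X → ℂ) (x : X) : Prop := ∃ A : X →L[ℝ] ℂ, HasFDerivAt f A x ∧ ∀ δ, A δ = f' δ

/-- entrywise derivatives -/
def MD (F F' : X → Matrix J J ℂ) (x : X) : Prop :=
  ∀ a b, SD (fun z => F z a b) (fun δ => F' δ a b) x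

theorem MnF_add {f f' g g' : X → ℂ} (h : SD f f' x) (k : SD g g' x) :
    SD (fun z => f z + g z) (fun δ => f' δ + g' δ) x := by
  obtain ⟨A, h1, h2⟩ := h
  obtain ⟨B, k1, k2⟩ := k
  exact ⟨A + B, h1.add k1, fun δ => by rw [_root_.add_apply, h2, k2]⟩

theorem MnF_sub {f f' g g' : X → ℂ} (h : SD f f' x) (k : SD g g' x) :
    SD (fun z => f z - g z) (fun δ => f' δ - g' δ) x := by
  obtain ⟨A, h1, h2⟩ := h
  obtain ⟨B, k1, k2⟩ := k
  exact ⟨A - B, h1.sub k1, fun δ => by rw [_root_.sub_apply, h2, k2]⟩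

theorem MnF_mul {f f' g g' : X → ℂ} (h : SD f f' x) (k : SD g g' x) :
    SD (fun z => f z * g z) (fun δ => f' δ * g x + f x * g' δ) x := by
  obtain ⟨A, h1, h2⟩ := h
  obtain ⟨B, k1, k2⟩ := k
  refine ⟨_, h1.mul k1, fun δ => ?_⟩
  simp only [_root_.add_apply, _root_.smul_apply, h2, k2, smul_eq_mul]
  ring

theorem MnF_star {f f' : X → ℂ} (h : SD f f' x) :
    SD (fun z => star (f z)) (fun δ => star (f' δ)) x := by
  obtain ⟨A, h1, h2⟩ := h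
  exact ⟨_, (Complex.conjCLE : ℂ →L[ℝ] ℂ).hasFDerivAt.comp x h1, fun δ =>
    congrArg star (h2 δ)⟩

theorem MnF_sum {K : Type} [Fintype K] {f f' : K → X → ℂ} (h : ∀ e, SD (f e) (f' e) x) :
    SD (fun z => ∑ e, f e z) (fun δ => ∑ e, f' e δ) x := by
  choose A h1 h2 using h
  refine ⟨∑ e, A e, HasFDerivAt.fun_sum fun e _ => h1 e, fun δ => ?_⟩
  simp only [_root_.sum_apply, h2]

theorem MnF_congr {f f' g' : X → ℂ} (h : SD f f' x) (e : ∀ δ, f' δ = g' δ) : SD f g' x := by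
  rwa [← funext e]

theorem MnF_smul {K : Type} (c : ℝ) (u : K → ℂ) : c • u = (c : ℂ) • u :=
  funext fun p => Complex.real_smul

theorem SD.pi {K : Type} [Fintype K] {f f' : X → K → ℂ}
    (h : ∀ j, SD (fun z => f z j) (fun δ => f' δ j) x) :
    ∃ A : X →L[ℝ] K → ℂ, HasFDerivAt f A x ∧ ∀ δ, A δ = f' δ := by
  choose A h1 h2 using h
  exact ⟨ContinuousLinearMap.pi A, hasFDerivAt_pi.2 h1, fun δ => funext fun j => h2 j δ⟩

theorem MD.lin (hc : Continuous F) (h1 : ∀ u v, F (u + v) = F u + F v)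
    (h2 : ∀ (c : ℝ) u, F (c • u) = (c : ℂ) • F u) : MD F F x := by
  intro a b
  let L : X →L[ℝ] ℂ :=
    { toFun := fun z => F z a b
      map_add' := fun u v => by rw [h1]; rfl
      map_smul' := fun c u => by rw [h2]; exact Complex.real_smul.symm
      cont := hc.matrix_elem a b }
  exact ⟨L, L.hasFDerivAt, fun _ => rfl⟩

theorem MD.comp {Y : Type} [NormedAddCommGroup Y] [NormedSpace ℝ Y] {β : Y → X} {B : Y →L[ℝ] X}
    {y : Y} (hβ : HasFDerivAt β B y) (h : MD F F' (β y)) :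
    MD (fun z => F (β z)) (fun δ => F' (B δ)) y := by
  intro a b
  obtain ⟨A, h1, h2⟩ := h a b
  exact ⟨A.comp B, h1.comp y hβ, fun δ => h2 _⟩

theorem MD.add (h : MD F F' x) (k : MD G G' x) :
    MD (fun z => F z + G z) (fun δ => F' δ + G' δ) x := fun a b => MnF_add (h a b) (k a b)

theorem MD.sub (h : MD F F' x) (k : MD G G' x) :
    MD (fun z => F z - G z) (fun δ => F' δ - G' δ) x := fun a b => MnF_sub (h a b) (k a b)

theorem MD.mul (h : MD F F' x) (k : MD G G' x) :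
    MD (fun z => F z * G z) (fun δ => F' δ * G x + F x * G' δ) x := by
  intro a b
  simp only [Matrix.add_apply, Matrix.mul_apply]
  exact MnF_congr (MnF_sum fun c => MnF_mul (h a c) (k c b)) fun δ => Finset.sum_add_distrib

theorem MD.adj (h : MD F F' x) : MD (fun z => (F z)ᴴ) (fun δ => (F' δ)ᴴ) x :=
  fun a b => MnF_star (h b a)

theorem MD.sum {K : Type} [Fintype K] {F F' : K → X → Matrix J J ℂ} (h : ∀ e, MD (F e) (F' e) x) :
    MD (fun z => ∑ e, F e z) (fun δ => ∑ e, F' e δ) x := by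
  intro a b
  simp only [Matrix.sum_apply]
  exact MnF_sum fun e => h e a b

theorem MD.congr (h : MD F F' x) (e : ∀ δ, F' δ = G' δ) : MD F G' x := by
  rwa [← funext e]

end

namespace Qv

variable {I P E κ : Type} [Fintype I] [DecidableEq I] [Fintype P] [DecidableEq P] [Fintype E]
  [Fintype κ] [DecidableEq κ] {D : Qv I P E κ} {ν : I → ℤ} {ρ r : Option P → ℤ}

theorem MnF_wa (W : D.tri.Rep) (n : Fin 2) (e : E ⊕ E) :
    MD (fun z : D.tri.Rep => D.wa z n e) (fun z => D.wa z n e) W :=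
  MD.lin (cont_wa n e) (fun u v => wa_add u v n e) fun c u => by rw [MnF_smul, wa_smul]

theorem MnF_wh (W : D.tri.Rep) (n : Fin 2) :
    MD (fun z : D.tri.Rep => D.wh z n) (fun z => D.wh z n) W :=
  MD.lin (cont_wh n) (fun u v => wh_add u v n) fun c u => by rw [MnF_smul, wh_smul]

theorem MnF_mat (y : D.Rep) (e : E) :
    MD (fun z : D.Rep => D.mat z e) (fun z => D.mat z e) y :=
  MD.lin (cont_mat e) (fun u v => mat_addH u v e) fun c u => by rw [MnF_smul, mat_smulH]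

theorem MnF_lpm {K : Type} [Fintype K] (k : D.lp.Wt → K) (l : K → ℂ) :
    MD (fun z : K → ℂ => D.lpm (z ∘ k)) (fun z => D.lpm (z ∘ k)) l :=
  MD.lin (cont_lpm.comp (continuous_pi fun j => continuous_apply (k j)))
    (fun u v => lpm_add (u ∘ k) (v ∘ k)) fun c u => by
      rw [MnF_smul]; exact lpm_smul (c : ℂ) (u ∘ k)

theorem MnF_fr (W : D.tri.Rep) :
    MD (fun z : D.tri.Rep => D.fr (D.wi z)) (fun z => D.fr (D.wi z)) W := by
  refine MD.lin (cont_fr.comp cont_wi) (fun u v => ?_) fun c u => ?_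
  · ext (_ | a) (_ | b) <;> simp [fr, hat, wi_app]
  · ext (_ | a) (_ | b) <;> simp [fr, hat, wi_app]

theorem deriv_rel3 (W : D.tri.Rep) : ∃ A : D.tri.Rep →L[ℝ] D.J3r ρ r → ℂ,
    HasFDerivAt (D.rel3 ρ r) A W ∧ ∀ δ, A δ = D.drel3 ρ r W δ := by
  have h1 : MD D.rmu (D.drmu W) W := by
    refine (MD.sum fun e => ((MnF_wa W 1 (.inl e)).mul (MnF_wa W 0 (.inr e))).sub
      ((MnF_wa W 1 (.inr e)).mul (MnF_wa W 0 (.inl e)))).congr fun δ => ?_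
    rw [drmu, cxm, cxm, ← Finset.sum_add_distrib]
    exact Finset.sum_congr rfl fun e _ => by abel
  have h2 : ∀ e, MD (fun z => D.rcm z e) (fun δ => D.drcm W δ e) W := fun e =>
    ((MnF_wa W 1 e).mul (MnF_wh W 0)).sub ((MnF_wh W 1).mul (MnF_wa W 0 e))
  have h3 : MD D.tri.muR (D.tri.dmuR W) W := by
    refine (MD.sum fun e => ((MnF_mat W e).mul (MnF_mat W e).adj).sub
      ((MnF_mat W e).adj.mul (MnF_mat W e))).congr fun δ => ?_
    exact Finset.sum_congr rfl fun e _ => by abel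
  refine SD.pi ?_
  rintro ((p | z) | (p | z))
  · exact ⟨_, (ContinuousLinearMap.proj (R := ℝ) (φ := fun _ : D.tri.Wt => ℂ) p.1).hasFDerivAt,
      fun _ => rfl⟩
  · exact h1 _ _
  · exact h2 _ _ _
  · exact h3 _ _

theorem deriv_Phi3 {Y : Type} [NormedAddCommGroup Y] [NormedSpace ℝ Y] {β : Y → D.dbl.Rep}
    {B : Y →L[ℝ] D.dbl.Rep} {v : Y} (hβ : HasFDerivAt β B v) {l : D.J3l → ℂ}
    (hl : l ∘ Sum.inr = 0) (W : D.tri.Rep) :
    ∃ A : ((D.J3l → ℂ) × D.tri.Rep × Y) →L[ℝ] D.dbl.Rep,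
      HasFDerivAt (fun z : (D.J3l → ℂ) × D.tri.Rep × Y => D.Phi3 (z.1, z.2.1, β z.2.2)) A (l, W, v) ∧
        ∀ l' δ w, A (l', δ, w) = D.dPhi3 l W (β v) l' δ (B w) := by
  have p1 : HasFDerivAt (fun z : (D.J3l → ℂ) × D.tri.Rep × Y => z.1)
      (ContinuousLinearMap.fst ℝ _ _) (l, W, v) := hasFDerivAt_fst
  have p2 : HasFDerivAt (fun z : (D.J3l → ℂ) × D.tri.Rep × Y => z.2.1)
      ((ContinuousLinearMap.fst ℝ _ _).comp (ContinuousLinearMap.snd ℝ _ _)) (l, W, v) :=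
    hasFDerivAt_snd.fst
  have p3 : HasFDerivAt (fun z : (D.J3l → ℂ) × D.tri.Rep × Y => z.2.2)
      ((ContinuousLinearMap.snd ℝ _ _).comp (ContinuousLinearMap.snd ℝ _ _)) (l, W, v) :=
    hasFDerivAt_snd.snd
  have p4 : HasFDerivAt (fun z : (D.J3l → ℂ) × D.tri.Rep × Y => β z.2.2) _ (l, W, v) :=
    HasFDerivAt.comp (l, W, v) (g := β) hβ p3
  have hA := fun n e => MD.comp p2 (MnF_wa W n e)
  have hH := fun n => MD.comp p2 (MnF_wh W n)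
  have hB := fun e => MD.comp p4 (MnF_mat (β v) e)
  have hφ := (MD.comp p1 (MnF_lpm (D := D) Sum.inl l)).add (MD.comp p2 (MnF_fr W))
  have hη := MD.comp p1 (MnF_lpm (D := D) Sum.inr l)
  have h0 : D.lpm (l ∘ Sum.inr) = 0 := by rw [hl, lpm_zero]
  have key : ∀ e, MD (fun z : (D.J3l → ℂ) × D.tri.Rep × Y =>
      D.phi z.2.1 (β z.2.2) (D.ph3 z.2.1 z.1) (D.et3 z.1) e)
      (fun δ => D.dcx W (β v) (D.ph3 W l) δ.2.1 (B δ.2.2) (D.ph3 δ.2.1 δ.1) e +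
        cxs (D.wa W 1) (D.wh W 1) (D.dbl.mat (β v)) (D.et3 δ.1) e) (l, W, v) := by
    intro e
    refine MD.add (((hA 0 e).mul hφ).sub (((hH 0).mul hφ).mul (hB e))) ?_
    rcases e with e | e
    · refine ((((hH 1).adj.mul hη).mul (hB (.inr e)).adj).sub
        ((hA 1 (.inr e)).adj.mul hη)).congr fun δ => ?_
      simp only [h0, Matrix.mul_zero, Matrix.zero_mul, zero_add, add_zero]
      rfl
    · refine (((hA 1 (.inl e)).adj.mul hη).sub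
        (((hH 1).adj.mul hη).mul (hB (.inl e)).adj)).congr fun δ => ?_
      simp only [h0, Matrix.mul_zero, Matrix.zero_mul, zero_add, add_zero]
      rfl
  obtain ⟨A, h1, h2⟩ := SD.pi (x := (l, W, v))
    (f := fun z : (D.J3l → ℂ) × D.tri.Rep × Y => D.Phi3 (z.1, z.2.1, β z.2.2))
    (f' := fun δ => D.dPhi3 l W (β v) δ.1 δ.2.1 (B δ.2.2)) fun p => key p.1.1 p.1.2.2 p.1.2.1
  exact ⟨A, h1, fun l' δ w => h2 _⟩


end Qv

end Pool.Agent.Work.MP_849ab0_ag.G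
end
end
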